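import Pool.Agent.Lib.MP_7bc51d_an_dense.Erg45
import Pool.Agent.Lib.MP_7bc51d_an_dense.Smo74

/-!
# Modes of an arbitrary bounded extended phase function

`E : ℂ → ℂ → ℝ` is jointly measurable and bounded; nothing else is used.
-/

set_option autoImplicit false

namespace Pool.Agent.Lib.BilF.Abs40

open Complex MeasureTheory Set Filter Topology
open scoped ComplexConjugate Convolution
open Pool.Agent.Lib.Bil Pool.Agent.Lib.BilD

/-- Bounded jointly measurable functions. -/
structure EB (E : ℂ → ℂ → ℝ) (c : ℝ) : Prop where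
  meas : Measurable (fun p : ℂ × ℂ => E p.1 p.2)
  bd : ∀ x w, |E x w| ≤ c

/-- Modes. -/
noncomputable def aE (E : ℂ → ℂ → ℝ) (m : ℕ) (x : ℂ) : ℂ := ∫ w in BV, (E x w : ℂ) * em m w

/-- Mollified modes. -/
noncomputable def uE (E : ℂ → ℂ → ℝ) (m : ℕ) (ε : ℝ) (x : ℂ) : ℂ :=
  ∫ y, (et ε (x - y) : ℂ) * aE E m y

/-- Derivative in `x` of the mollified function. -/
noncomputable def dE (E : ℂ → ℂ → ℝ) (ε : ℝ) (x w h : ℂ) : ℝ :=
  ∫ y, E y w * fderiv ℝ (et ε) (x - y) h

variable {E : ℂ → ℂ → ℝ} {c ε : ℝ}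

theorem EB.nonneg (hE : EB E c) : 0 ≤ c := (abs_nonneg _).trans (hE.bd 0 0)

theorem EB.meas_w (hE : EB E c) (x : ℂ) : Measurable (fun w => E x w) :=
  hE.meas.comp (measurable_const.prodMk measurable_id)

theorem EB.meas_x (hE : EB E c) (w : ℂ) : Measurable (fun x => E x w) :=
  hE.meas.comp (measurable_id.prodMk measurable_const)

theorem aE_bound (hE : EB E c) (m : ℕ) (x : ℂ) : ‖aE E m x‖ ≤ c * (volume BV).toReal := by
  unfold aE
  refine norm_setIntegral_le_of_norm_le_const vol_BV ?_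
  intro w hw
  rw [norm_mul, norm_real, Real.norm_eq_abs]
  calc |E x w| * ‖em m w‖ ≤ c * 1 :=
        mul_le_mul (hE.bd x w) (em_le m hw) (norm_nonneg _) hE.nonneg
    _ = _ := mul_one _

theorem aE_meas (hE : EB E c) (m : ℕ) : Measurable (aE E m) := by
  unfold aE
  have h1 : Measurable (fun p : ℂ × ℂ => (E p.1 p.2 : ℂ) * em m p.2) :=
    (measurable_ofReal.comp hE.meas).mul ((em_meas m).comp measurable_snd)
  have h2 : StronglyMeasurable
      (Function.uncurry (fun (x w : ℂ) => (E x w : ℂ) * em m w)) := h1.stronglyMeasurable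
  exact h2.integral_prod_right.measurable

theorem aE_locInt (hE : EB E c) (m : ℕ) : LocallyIntegrable (aE E m) volume := by
  have h1 : LocallyIntegrable (fun _ : ℂ => (c * (volume BV).toReal)) volume :=
    locallyIntegrable_const _
  refine h1.mono (aE_meas hE m).aestronglyMeasurable ?_
  refine Eventually.of_forall (fun x => ?_)
  exact (aE_bound hE m x).trans (le_abs_self _)

theorem uE_eq (m : ℕ) (x : ℂ) : uE E m ε x = (aE E m ⋆[Smo74.LL, volume] et ε) x := by
  unfold uE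
  rw [convolution_def]
  apply integral_congr_ae
  exact Eventually.of_forall (fun y => by simp only [Smo74.LL_apply])

/-- (SMO) -/
theorem smo (hE : EB E c) (hε : 0 < ε) (m : ℕ) : ContDiff ℝ 2 (uE E m ε) ∧
    ∀ x h : ℂ, fderiv ℝ (uE E m ε) x h = ∫ y, (fderiv ℝ (et ε) (x - y) h : ℂ) * aE E m y := by
  have hfun : uE E m ε = aE E m ⋆[Smo74.LL, volume] et ε := funext (uE_eq m)
  have hc : HasCompactSupport (et ε) := et_compact hε
  have hl := aE_locInt hE m
  have hs2 : ContDiff ℝ 2 (et ε) :=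
    (et_contDiff ε).of_le (WithTop.coe_le_coe.2 (le_top : (2 : ℕ∞) ≤ ⊤))
  have hs1 : ContDiff ℝ 1 (et ε) := hs2.of_le (by norm_num)
  refine ⟨?_, ?_⟩
  · rw [hfun]
    exact hc.contDiff_convolution_right Smo74.LL hl hs2
  · intro x h
    have hd := hc.hasFDerivAt_convolution_right Smo74.LL hl hs1 x
    rw [hfun, hd.fderiv, convolution_def]
    have hex : ConvolutionExistsAt (aE E m) (fderiv ℝ (et ε)) x
        (Smo74.LL.precompR ℂ) volume := by
      apply HasCompactSupport.convolutionExists_right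
      · exact hc.fderiv ℝ
      · exact hl
      · exact hs1.continuous_fderiv (by norm_num)
    rw [ContinuousLinearMap.integral_apply hex]
    apply integral_congr_ae
    refine Eventually.of_forall (fun y => ?_)
    simp only [ContinuousLinearMap.precompR_apply, ContinuousLinearMap.compL_apply,
      ContinuousLinearMap.comp_apply]
    rw [Smo74.LL_apply]

/-- Fubini for the modes. -/
theorem swap (hE : EB E c) {ψ : ℂ → ℝ} (hψ : Measurable ψ) {K : ℝ} (hK : 0 ≤ K)
    (hb : ∀ y, |ψ y| ≤ K) {x : ℂ} (h0 : ∀ y, y ∉ Metric.ball x ε → ψ y = 0) (m : ℕ) :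
    ∫ y, (ψ y : ℂ) * aE E m y = ∫ w in BV, ((∫ y, E y w * ψ y : ℝ) : ℂ) * em m w := by
  have e1 : ∫ y, (ψ y : ℂ) * aE E m y = ∫ y in Metric.ball x ε, (ψ y : ℂ) * aE E m y := by
    rw [← integral_indicator measurableSet_ball]
    refine integral_congr_ae (Eventually.of_forall (fun y => ?_))
    by_cases hy : y ∈ Metric.ball x ε
    · simp only [indicator_of_mem hy]
    · simp only [indicator_of_notMem hy, h0 y hy, ofReal_zero, zero_mul]
  have e2 : ∀ w, (∫ y, E y w * ψ y) = ∫ y in Metric.ball x ε, E y w * ψ y := by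
    intro w
    rw [← integral_indicator measurableSet_ball]
    refine integral_congr_ae (Eventually.of_forall (fun y => ?_))
    by_cases hy : y ∈ Metric.ball x ε
    · simp only [indicator_of_mem hy]
    · simp only [indicator_of_notMem hy, h0 y hy, mul_zero]
  have : IsFiniteMeasure ((volume : Measure ℂ).restrict (Metric.ball x ε)) :=
    ⟨by rw [Measure.restrict_apply_univ]; exact measure_ball_lt_top⟩
  have : IsFiniteMeasure ((volume : Measure ℂ).restrict BV) :=
    ⟨by rw [Measure.restrict_apply_univ]; exact vol_BV⟩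
  have hm : Measurable (fun p : ℂ × ℂ => (ψ p.1 : ℂ) * ((E p.1 p.2 : ℂ) * em m p.2)) :=
    (measurable_ofReal.comp (hψ.comp measurable_fst)).mul
      ((measurable_ofReal.comp hE.meas).mul ((em_meas m).comp measurable_snd))
  have hi : Integrable (Function.uncurry fun (y w : ℂ) => (ψ y : ℂ) * ((E y w : ℂ) * em m w))
      (((volume : Measure ℂ).restrict (Metric.ball x ε)).prod
        ((volume : Measure ℂ).restrict BV)) := by
    refine Integrable.of_bound hm.aestronglyMeasurable (K * (c * 1))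
      (Eventually.of_forall (fun p => ?_))
    simp only [Function.uncurry]
    rw [norm_mul, norm_mul, norm_real, norm_real, Real.norm_eq_abs, Real.norm_eq_abs]
    exact mul_le_mul (hb _) (mul_le_mul (hE.bd _ _) (em_norm m _) (norm_nonneg _)
      hE.nonneg) (mul_nonneg (abs_nonneg _) (norm_nonneg _)) hK
  rw [e1]
  have e3 : ∫ y in Metric.ball x ε, (ψ y : ℂ) * aE E m y =
      ∫ y in Metric.ball x ε, ∫ w in BV, (ψ y : ℂ) * ((E y w : ℂ) * em m w) := by
    refine integral_congr_ae (Eventually.of_forall (fun y => ?_))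
    simp only [aE]
    rw [integral_const_mul]
  rw [e3, integral_integral_swap hi]
  refine integral_congr_ae (Eventually.of_forall (fun w => ?_))
  simp only
  rw [e2 w]
  have e4 : (((∫ y in Metric.ball x ε, E y w * ψ y : ℝ)) : ℂ) =
      ∫ y in Metric.ball x ε, ((E y w * ψ y : ℝ) : ℂ) := integral_ofReal.symm
  rw [e4, ← integral_mul_const]
  refine integral_congr_ae (Eventually.of_forall (fun y => ?_))
  simp only
  push_cast
  ring

theorem mom_int (hE : EB E c) {ψ : ℂ → ℝ} (hψ : Measurable ψ) {K : ℝ}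
    (hb : ∀ y, |ψ y| ≤ K) {x : ℂ} (h0 : ∀ y, y ∉ Metric.ball x ε → ψ y = 0) (w : ℂ) :
    Integrable (fun y => E y w * ψ y) := by
  have hK : 0 ≤ K := (abs_nonneg _).trans (hb 0)
  have hball : IntegrableOn (fun _ : ℂ => c * K) (Metric.ball x ε) :=
    integrableOn_const measure_ball_lt_top.ne
  refine (hball.integrable_indicator measurableSet_ball).mono'
    ((hE.meas_x w).mul hψ).aestronglyMeasurable (Eventually.of_forall (fun y => ?_))
  by_cases hy : y ∈ Metric.ball x ε
  · rw [indicator_of_mem hy, Real.norm_eq_abs, abs_mul]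
    exact mul_le_mul (hE.bd _ _) (hb _) (abs_nonneg _) hE.nonneg
  · rw [indicator_of_notMem hy, h0 y hy, mul_zero, norm_zero]

theorem mom_bound (hE : EB E c) {ψ : ℂ → ℝ} {K : ℝ} (hb : ∀ y, |ψ y| ≤ K) (hε : 0 < ε)
    {x : ℂ} (h0 : ∀ y, y ∉ Metric.ball x ε → ψ y = 0) (w : ℂ) :
    |∫ y, E y w * ψ y| ≤ c * K * (Real.pi * ε ^ 2) := by
  have e2 : (∫ y, E y w * ψ y) = ∫ y in Metric.ball x ε, E y w * ψ y := by
    rw [← integral_indicator measurableSet_ball]
    refine integral_congr_ae (Eventually.of_forall (fun y => ?_))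
    by_cases hy : y ∈ Metric.ball x ε
    · simp only [indicator_of_mem hy]
    · simp only [indicator_of_notMem hy, h0 y hy, mul_zero]
  have hvol : (volume : Measure ℂ).real (Metric.ball x ε) = Real.pi * ε ^ 2 := by
    rw [Measure.real, Complex.volume_ball, ENNReal.toReal_mul, ENNReal.toReal_pow,
      ENNReal.toReal_ofReal hε.le, mul_comm]
    rfl
  rw [e2, ← Real.norm_eq_abs]
  have h := norm_setIntegral_le_of_norm_le_const (μ := volume) (s := Metric.ball x ε)
    (f := fun y => E y w * ψ y) (C := c * K) measure_ball_lt_top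
    (fun y _ => by
      rw [Real.norm_eq_abs, abs_mul]
      exact mul_le_mul (hE.bd _ _) (hb y) (abs_nonneg _) hE.nonneg)
  rw [hvol] at h
  exact h

/-- The universal bound of the derivative of the bump. -/
theorem det_bound : ∃ B : ℝ, 0 < B ∧ ∀ ε : ℝ, 0 < ε → ∀ x h y : ℂ,
    |fderiv ℝ (et ε) (x - y) h| ≤ B / ε ^ 3 * ‖h‖ := by
  obtain ⟨B, hB, h⟩ := exists_fderiv_et_bound
  exact ⟨B, hB, fun ε hε x k y => h ε hε (x - y) k⟩

theorem dE_bound : ∃ K : ℝ, 0 < K ∧ ∀ (E : ℂ → ℂ → ℝ) (c : ℝ), EB E c → ∀ ε : ℝ, 0 < ε →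
    ∀ x w h : ℂ, |dE E ε x w h| ≤ K * c / ε * ‖h‖ := by
  obtain ⟨B, hB, hb⟩ := det_bound
  refine ⟨B * Real.pi, by positivity, ?_⟩
  intro E c hE ε hε x w h
  have h1 := mom_bound hE (ψ := fun y => fderiv ℝ (et ε) (x - y) h) (fun y => hb ε hε x h y) hε
    (fun y hy => Erg45.det_out hε hy h) w
  refine h1.trans (le_of_eq ?_)
  field_simp

theorem dE_add (hE : EB E c) (hε : 0 < ε) (x w h k : ℂ) :
    dE E ε x w (h + k) = dE E ε x w h + dE E ε x w k := by
  obtain ⟨B, hB, hb⟩ := det_bound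
  have hi : ∀ h : ℂ, Integrable (fun y => E y w * fderiv ℝ (et ε) (x - y) h) := fun h =>
    mom_int hE (Erg45.det_meas ε x h) (fun y => hb ε hε x h y)
      (fun y hy => Erg45.det_out hε hy h) w
  unfold dE
  rw [← integral_add (hi h) (hi k)]
  refine integral_congr_ae (Eventually.of_forall (fun y => ?_))
  simp only [map_add]
  ring

theorem dE_smul (x w h : ℂ) (r : ℝ) : dE E ε x w ((r : ℂ) * h) = r * dE E ε x w h := by
  unfold dE
  rw [← integral_const_mul]
  refine integral_congr_ae (Eventually.of_forall (fun y => ?_))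
  have e : ((r : ℂ) * h) = r • h := by simp
  simp only
  rw [e, map_smul, smul_eq_mul]
  ring

theorem dE_decomp (hE : EB E c) (hε : 0 < ε) (x w h : ℂ) :
    dE E ε x w h = h.re * dE E ε x w 1 + h.im * dE E ε x w I := by
  conv_lhs => rw [← re_add_im h]
  rw [dE_add hE hε, dE_smul, show (h.re : ℂ) = (h.re : ℂ) * 1 by ring, dE_smul]

/-- Joint measurability. -/
theorem dE_meas (hE : EB E c) (ε : ℝ) (h : ℂ) :
    Measurable (fun p : ℂ × ℂ => dE E ε p.1 p.2 h) := by
  have h1 : Measurable (fun q : (ℂ × ℂ) × ℂ => E q.2 q.1.2 *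
      fderiv ℝ (et ε) (q.1.1 - q.2) h) := by
    have a : Measurable (fun q : (ℂ × ℂ) × ℂ => E q.2 q.1.2) :=
      hE.meas.comp (measurable_snd.prodMk (measurable_snd.comp measurable_fst))
    have b : Measurable (fun q : (ℂ × ℂ) × ℂ => fderiv ℝ (et ε) (q.1.1 - q.2) h) :=
      (Erg45.det_cont ε h).measurable.comp
        ((measurable_fst.comp measurable_fst).sub measurable_snd)
    exact a.mul b
  have h2 : StronglyMeasurable (Function.uncurry (fun (p : ℂ × ℂ) (y : ℂ) => E y p.2 *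
      fderiv ℝ (et ε) (p.1 - y) h)) := h1.stronglyMeasurable
  exact h2.integral_prod_right.measurable

/-- Derivative along the flow at unit speed. -/
noncomputable def tE (E : ℂ → ℂ → ℝ) (ε : ℝ) (x w : ℂ) : ℝ := dE E ε x w (w / (‖w‖ : ℂ))

/-- Squared length of the gradient. -/
noncomputable def hE (E : ℂ → ℂ → ℝ) (ε : ℝ) (x w : ℂ) : ℝ :=
  dE E ε x w 1 ^ 2 + dE E ε x w I ^ 2

theorem tE_eq (he : EB E c) (hε : 0 < ε) (x w : ℂ) :
    tE E ε x w = (w.re * dE E ε x w 1 + w.im * dE E ε x w I) / ‖w‖ := by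
  unfold tE
  have e : w / (‖w‖ : ℂ) = ((‖w‖⁻¹ : ℝ) : ℂ) * w := by
    push_cast; rw [div_eq_mul_inv, mul_comm]
  rw [e, dE_smul, dE_decomp he hε x w w]
  rw [div_eq_mul_inv]
  ring

theorem tE_meas (he : EB E c) (hε : 0 < ε) :
    Measurable (fun p : ℂ × ℂ => tE E ε p.1 p.2) := by
  have e : (fun p : ℂ × ℂ => tE E ε p.1 p.2) = fun p => (p.2.re * dE E ε p.1 p.2 1 +
      p.2.im * dE E ε p.1 p.2 I) / ‖p.2‖ := funext (fun p => tE_eq he hε p.1 p.2)
  rw [e]
  have m1 := dE_meas he ε 1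
  have m2 := dE_meas he ε I
  exact (((measurable_re.comp measurable_snd).mul m1).add
    ((measurable_im.comp measurable_snd).mul m2)).div (measurable_norm.comp measurable_snd)

theorem hE_meas (he : EB E c) (ε : ℝ) : Measurable (fun p : ℂ × ℂ => hE E ε p.1 p.2) :=
  ((dE_meas he ε 1).pow_const 2).add ((dE_meas he ε I).pow_const 2)

theorem hE_nonneg (x w : ℂ) : 0 ≤ hE E ε x w := by unfold hE; positivity

/-- Bounds of the two densities. -/
theorem bounds : ∃ K : ℝ, 0 < K ∧ ∀ (E : ℂ → ℂ → ℝ) (c : ℝ), EB E c → ∀ ε : ℝ, 0 < ε →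
    ∀ x w : ℂ, tE E ε x w ^ 2 ≤ K * c ^ 2 / ε ^ 2 ∧ hE E ε x w ≤ K * c ^ 2 / ε ^ 2 := by
  obtain ⟨K, hK, hb⟩ := dE_bound
  refine ⟨2 * K ^ 2, by positivity, ?_⟩
  intro E c he ε hε x w
  have hc := he.nonneg
  have key : ∀ h : ℂ, ‖h‖ ≤ 1 → dE E ε x w h ^ 2 ≤ (K * c / ε) ^ 2 := by
    intro h hh
    rw [← sq_abs]
    have h1 := hb E c he ε hε x w h
    have h2 : |dE E ε x w h| ≤ K * c / ε := h1.trans (by
      calc K * c / ε * ‖h‖ ≤ K * c / ε * 1 := mul_le_mul_of_nonneg_left hh (by positivity)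
        _ = _ := mul_one _)
    gcongr
  have e : (K * c / ε) ^ 2 = K ^ 2 * c ^ 2 / ε ^ 2 := by ring
  have hpos : 0 ≤ K ^ 2 * c ^ 2 / ε ^ 2 := by positivity
  have e2 : 2 * K ^ 2 * c ^ 2 / ε ^ 2 = K ^ 2 * c ^ 2 / ε ^ 2 + K ^ 2 * c ^ 2 / ε ^ 2 := by ring
  refine ⟨?_, ?_⟩
  · have h1 : tE E ε x w ^ 2 ≤ (K * c / ε) ^ 2 := by
      refine key _ ?_
      rw [norm_div, norm_real, norm_norm]
      exact div_self_le_one _
    rw [e] at h1
    linarith
  · have h1 := key 1 (by rw [norm_one])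
    have h2 := key I (by rw [norm_I])
    rw [e] at h1 h2
    unfold hE
    linarith

/-- The derivative of the mollified modes. -/
theorem uder (he : EB E c) (hε : 0 < ε) (m : ℕ) (x h : ℂ) :
    fderiv ℝ (uE E m ε) x h = ∫ w in BV, (dE E ε x w h : ℂ) * em m w := by
  obtain ⟨B, hB, hb⟩ := det_bound
  rw [(smo he hε m).2 x h]
  exact swap he (Erg45.det_meas ε x h) (by positivity) (fun y => hb ε hε x h y)
    (fun y hy => Erg45.det_out hε hy h) m

theorem dE_meas_w (he : EB E c) (ε : ℝ) (x h : ℂ) : Measurable (fun w => dE E ε x w h) :=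
  (dE_meas he ε h).comp (measurable_const.prodMk measurable_id)

theorem int_mode (he : EB E c) (hε : 0 < ε) (x h : ℂ) (m : ℕ) :
    IntegrableOn (fun w => (dE E ε x w h : ℂ) * em m w) BV := by
  obtain ⟨K, hK, hb⟩ := dE_bound
  refine Measure.integrableOn_of_bounded (M := K * c / ε * ‖h‖) vol_BV.ne
    ((measurable_ofReal.comp (dE_meas_w he ε x h)).mul (em_meas m)).aestronglyMeasurable ?_
  refine Eventually.of_forall (fun w => ?_)
  rw [norm_mul, norm_real, Real.norm_eq_abs]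
  calc |dE E ε x w h| * ‖em m w‖ ≤ |dE E ε x w h| * 1 :=
        mul_le_mul_of_nonneg_left (em_norm m w) (abs_nonneg _)
    _ ≤ _ := by rw [mul_one]; exact hb E c he ε hε x w h

theorem mode_pt (he : EB E c) (hε : 0 < ε) (x : ℂ) (m : ℕ) {w : ℂ} (hw : w ≠ 0) :
    ((dE E ε x w 1 : ℂ) - I * dE E ε x w I) * em m w +
      ((dE E ε x w 1 : ℂ) + I * dE E ε x w I) * em (m + 2) w =
    2 * ((tE E ε x w : ℂ) * em (m + 1) w) := by
  have hn : (‖w‖ : ℂ) ≠ 0 := by
    rw [Ne, ofReal_eq_zero, norm_eq_zero]; exact hw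
  rw [tE_eq he hε]
  have e0 : em m w = (conj w / (‖w‖ : ℂ)) ^ m := rfl
  have e1 : em (m + 1) w = (conj w / (‖w‖ : ℂ)) ^ m * (conj w / (‖w‖ : ℂ)) := pow_succ _ _
  have e2 : em (m + 2) w = (conj w / (‖w‖ : ℂ)) ^ m * (conj w / (‖w‖ : ℂ)) *
      (conj w / (‖w‖ : ℂ)) := by
    show (conj w / (‖w‖ : ℂ)) ^ (m + 2) = _
    rw [pow_add]; ring
  rw [e0, e1, e2]
  generalize (conj w / (‖w‖ : ℂ)) ^ m = X
  have hcw : conj w = (w.re : ℂ) - w.im * I := by
    apply Complex.ext <;> simp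
  have hnsq : (‖w‖ : ℂ) ^ 2 = (w.re : ℂ) ^ 2 + (w.im : ℂ) ^ 2 := by
    rw [← ofReal_pow, ← Complex.normSq_eq_norm_sq, Complex.normSq_apply]
    push_cast; ring
  have hI : I ^ 2 = -1 := I_sq
  push_cast
  rw [hcw]
  field_simp
  generalize (dE E ε x w 1 : ℂ) = P
  generalize (dE E ε x w I : ℂ) = Q
  generalize (w.re : ℂ) = s at *
  generalize (w.im : ℂ) = t at *
  linear_combination X * (P - I * Q) * hnsq + X * (P * t ^ 2 + Q * (t ^ 2 * I - 2 * s * t)) * hI

/-- (MODE) at every point. -/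
theorem mode (he : EB E c) (hε : 0 < ε) (x : ℂ) (m : ℕ) :
    dz (uE E m ε) x + dzb (uE E (m + 2) ε) x =
      ∫ w in BV, (tE E ε x w : ℂ) * em (m + 1) w := by
  unfold dz dzb
  rw [uder he hε m x 1, uder he hε m x I, uder he hε (m + 2) x 1, uder he hε (m + 2) x I]
  have i1 := int_mode he hε x 1 m
  have i2 := int_mode he hε x I m
  have i3 := int_mode he hε x 1 (m + 2)
  have i4 := int_mode he hε x I (m + 2)
  have key : ∫ w in BV, (((dE E ε x w 1 : ℂ) * em m w - I * ((dE E ε x w I : ℂ) * em m w)) +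
      ((dE E ε x w 1 : ℂ) * em (m + 2) w + I * ((dE E ε x w I : ℂ) * em (m + 2) w))) =
      ∫ w in BV, 2 * ((tE E ε x w : ℂ) * em (m + 1) w) := by
    refine integral_congr_ae ?_
    filter_upwards [Bes85.ae_ne_zero] with w hw
    rw [← mode_pt he hε x m hw]
    ring
  have j1 := integral_add (i1.sub (i2.const_mul I)) (i3.add (i4.const_mul I))
  have j2 := integral_sub i1 (i2.const_mul I)
  have j3 := integral_add i3 (i4.const_mul I)
  simp only [Pi.add_apply, Pi.sub_apply] at j1 j2 j3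
  rw [j1, j2, j3, integral_const_mul, integral_const_mul, integral_const_mul] at key
  linear_combination (1 / 2 : ℂ) * key

/-- (BES) -/
theorem bes (he : EB E c) (hε : 0 < ε) (x : ℂ) (S : Finset ℕ) :
    (∑ k ∈ S, ‖fderiv ℝ (uE E k ε) x‖ ^ 2 ≤ 2 * Real.pi * ∫ w in BV, hE E ε x w) ∧
    (∑ k ∈ S, ‖∫ w in BV, (tE E ε x w : ℂ) * em k w‖ ^ 2 ≤
      Real.pi * ∫ w in BV, tE E ε x w ^ 2) := by
  obtain ⟨K, hK, hb⟩ := dE_bound
  have one : ∀ h : ℂ, ∑ k ∈ S, ‖fderiv ℝ (uE E k ε) x h‖ ^ 2 ≤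
      Real.pi * ∫ w in BV, dE E ε x w h ^ 2 := by
    intro h
    have h1 := Bes85.bessel (g := fun w => dE E ε x w h) (dE_meas_w he ε x h)
      (fun w _ => hb E c he ε hε x w h) S
    rw [← Bes85.em_eq] at h1
    refine le_trans (le_of_eq ?_) h1
    refine Finset.sum_congr rfl (fun k _ => ?_)
    rw [uder he hε k x h]
  refine ⟨?_, ?_⟩
  · have h1 := one 1
    have h2 := one I
    have i1 : ∀ h : ℂ, IntegrableOn (fun w => dE E ε x w h ^ 2) BV := by
      intro h
      refine Measure.integrableOn_of_bounded (M := (K * c / ε * ‖h‖) ^ 2) vol_BV.ne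
        ((dE_meas_w he ε x h).pow_const 2).aestronglyMeasurable ?_
      refine Eventually.of_forall (fun w => ?_)
      rw [Real.norm_eq_abs, abs_of_nonneg (sq_nonneg _), ← sq_abs]
      have := hb E c he ε hε x w h
      gcongr
    have e : ∫ w in BV, hE E ε x w = (∫ w in BV, dE E ε x w 1 ^ 2) +
        ∫ w in BV, dE E ε x w I ^ 2 := by
      rw [← integral_add (i1 1) (i1 I)]
      rfl
    have h3 : ∑ k ∈ S, ‖fderiv ℝ (uE E k ε) x‖ ^ 2 ≤
        2 * (∑ k ∈ S, ‖fderiv ℝ (uE E k ε) x 1‖ ^ 2 +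
          ∑ k ∈ S, ‖fderiv ℝ (uE E k ε) x I‖ ^ 2) := by
      rw [← Finset.sum_add_distrib, Finset.mul_sum]
      refine Finset.sum_le_sum (fun k _ => ?_)
      have h4 := Bes85.norm_clm_le (fderiv ℝ (uE E k ε) x)
      have h5 : ‖fderiv ℝ (uE E k ε) x‖ ^ 2 ≤
          (‖fderiv ℝ (uE E k ε) x 1‖ + ‖fderiv ℝ (uE E k ε) x I‖) ^ 2 := by
        gcongr
      nlinarith [sq_nonneg (‖fderiv ℝ (uE E k ε) x 1‖ - ‖fderiv ℝ (uE E k ε) x I‖)]
    rw [e]
    nlinarith
  · have hm : Measurable (fun w => tE E ε x w) :=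
      (tE_meas he hε).comp (measurable_const.prodMk measurable_id)
    have h1 := Bes85.bessel (g := fun w => tE E ε x w) hm (B := K * c / ε)
      (fun w _ => by
        refine (hb E c he ε hε x w _).trans ?_
        have hc := he.nonneg
        have : ‖w / (‖w‖ : ℂ)‖ ≤ 1 := by
          rw [norm_div, norm_real, norm_norm]
          exact div_self_le_one _
        calc K * c / ε * ‖w / (‖w‖ : ℂ)‖ ≤ K * c / ε * 1 :=
              mul_le_mul_of_nonneg_left this (by positivity)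
          _ = _ := mul_one _) S
    rw [← Bes85.em_eq] at h1
    exact h1

/-- (INT) -/
theorem int_t (he : EB E c) (hε : 0 < ε) {P : Set ℂ} (hP : volume P < ⊤) :
    IntegrableOn (fun x => ∫ w in BV, tE E ε x w ^ 2) P := by
  obtain ⟨K, hK, hb⟩ := bounds
  have h2 : StronglyMeasurable (Function.uncurry (fun (x w : ℂ) => tE E ε x w ^ 2)) :=
    ((tE_meas he hε).pow_const 2).stronglyMeasurable
  refine Measure.integrableOn_of_bounded (M := K * c ^ 2 / ε ^ 2 * (volume : Measure ℂ).real BV)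
    hP.ne (h2.integral_prod_right.measurable.aestronglyMeasurable)
    (Eventually.of_forall (fun x => ?_))
  refine norm_setIntegral_le_of_norm_le_const vol_BV (fun w _ => ?_)
  rw [Real.norm_eq_abs, abs_of_nonneg (sq_nonneg _)]
  exact (hb E c he ε hε x w).1

theorem int_h (he : EB E c) (hε : 0 < ε) {P : Set ℂ} (hP : volume P < ⊤) :
    IntegrableOn (fun x => ∫ w in BV, hE E ε x w) P := by
  obtain ⟨K, hK, hb⟩ := bounds
  have h2 : StronglyMeasurable (Function.uncurry (fun (x w : ℂ) => hE E ε x w)) :=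
    (hE_meas he ε).stronglyMeasurable
  refine Measure.integrableOn_of_bounded (M := K * c ^ 2 / ε ^ 2 * (volume : Measure ℂ).real BV)
    hP.ne (h2.integral_prod_right.measurable.aestronglyMeasurable)
    (Eventually.of_forall (fun x => ?_))
  refine norm_setIntegral_le_of_norm_le_const vol_BV (fun w _ => ?_)
  rw [Real.norm_eq_abs, abs_of_nonneg (hE_nonneg x w)]
  exact (hb E c he ε hε x w).2

end Pool.Agent.Lib.BilF.Abs40
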