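import Pool.Agent.Lib.MP_7bc51d_an.Strip2

/-!
# Costs of unfolded vertices: comparison of parallel lines
-/

set_option autoImplicit false

namespace Pool.Agent.Lib.BilF.Across82

open Complex MeasureTheory Set Filter Topology
open scoped ComplexConjugate
open Pool.Agent.Lib.Bil

variable {n : ℕ} {v : Fin n → ℂ}

theorem Rz_suffix {g h : List (Fin n × Fin n)} {x w : ℂ} (hg : Rz v g x w) (hs : h <:+ g) :
    Rz v h x w := by
  induction g with
  | nil => rw [List.suffix_nil] at hs; subst hs; exact hg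
  | cons s g ih =>
    rcases List.suffix_cons_iff.1 hs with h1 | h1
    · rw [h1]; exact hg
    · exact ih hg.1 h1

theorem cr_ed_neg {s : Fin n × Fin n} {w : ℂ} (h : cr w (v s.1) < cr w (v s.2)) :
    cr (v s.2 - v s.1) w < 0 := by
  rw [cr_swap, cr_sub_right]; linarith

theorem abs_cr_le (a b : ℂ) : |cr a b| ≤ ‖a‖ * ‖b‖ := by
  have h := Complex.abs_im_le_norm (conj a * b)
  rw [cr_eq_im]
  simpa [norm_mul] using h

theorem abs_dt_le (a b : ℂ) : |dt a b| ≤ ‖a‖ * ‖b‖ := by
  have h := Complex.abs_re_le_norm (conj a * b)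
  have e : dt a b = (conj a * b).re := by
    simp only [dt, mul_re, conj_re, conj_im]; ring
  rw [e]
  simpa [norm_mul] using h

theorem dt_self (w : ℂ) : dt w w = ‖w‖ ^ 2 := by
  rw [← normsq_eq]; simp only [dt]; ring

theorem dt_add_right (a b c : ℂ) : dt a (b + c) = dt a b + dt a c := by
  simp only [dt, add_re, add_im]; ring

/-- Time of the last crossing of the word `g`. -/
noncomputable def tau (v : Fin n → ℂ) : List (Fin n × Fin n) → ℂ → ℂ → ℝ
  | [], _, _ => 0
  | s :: g, x, w => - cr (v s.2 - v s.1) (Fo v g x - v s.1) / cr (v s.2 - v s.1) (Lo v g w)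

theorem tau_spec (hv : ConvexIndependent ℝ v) {g : List (Fin n × Fin n)} {x w : ℂ}
    (hx : x ∈ KK v) (hR : Rz v g x w) :
    0 ≤ tau v g x w ∧ Fo v g (x + (tau v g x w : ℂ) * w) ∈ KK v ∧
      ∀ h, h <:+ g → tau v h x w ≤ tau v g x w := by
  induction g with
  | nil =>
    refine ⟨le_rfl, ?_, ?_⟩
    · simp only [tau, ofReal_zero, zero_mul, add_zero]; exact hx
    · intro h hh
      rw [List.suffix_nil] at hh
      subst hh
      exact le_rfl
  | cons s g ih =>
    obtain ⟨hR', hs, c1, c2⟩ := hR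
    obtain ⟨i1, i2, i3⟩ := ih hR'
    have hne := v_sub_ne hv hs.1
    have hout : cr (v s.2 - v s.1) (Lo v g w) < 0 := cr_ed_neg (by linarith)
    set τ := tau v (s :: g) x w with hτ
    have hτ' : τ * cr (v s.2 - v s.1) (Lo v g w) = - cr (v s.2 - v s.1) (Fo v g x - v s.1) := by
      rw [hτ]; simp only [tau]
      rw [div_mul_cancel₀ _ hout.ne]
    have hF : ∀ t : ℝ, cr (v s.2 - v s.1) (Fo v g (x + (t : ℂ) * w) - v s.1) =
        cr (v s.2 - v s.1) (Fo v g x - v s.1) + t * cr (v s.2 - v s.1) (Lo v g w) := by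
      intro t
      have e : Fo v g (x + (t : ℂ) * w) - v s.1 = (Fo v g x - v s.1) + (t : ℂ) * Lo v g w := by
        rw [Fo_add, Lo_smul]; ring
      rw [e, cr_add_right, cr_smul_right]
    have k1 := hs.cr_nonneg i2
    rw [hF] at k1
    have hle : tau v g x w ≤ τ := by
      by_contra hcon
      push Not at hcon
      nlinarith
    set Q := Fo v g (x + (τ : ℂ) * w) with hQ
    have hz : cr (v s.2 - v s.1) (Q - v s.1) = 0 := by rw [hQ, hF, hτ']; ring
    obtain ⟨σ, hσ⟩ := (cr_eq_zero_iff hne).1 hz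
    have hQσ : Q = v s.1 + (σ : ℂ) * (v s.2 - v s.1) := by rw [← hσ]; ring
    have hcQ : cr (Lo v g w) Q = cr (Lo v g w) (Fo v g x) := by
      rw [hQ, Fo_add, Lo_smul, cr_add_right, cr_smul_right, cr_self]; ring
    have hd : 0 < cr (Lo v g w) (v s.2 - v s.1) := by rw [cr_sub_right]; linarith
    have e1 : cr (Lo v g w) Q = cr (Lo v g w) (v s.1) + σ * cr (Lo v g w) (v s.2 - v s.1) := by
      rw [hQσ, cr_add_right, cr_smul_right]
    have s0 : 0 < σ := by
      by_contra hcon
      push Not at hcon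
      nlinarith
    have s1 : σ < 1 := by
      have e2 : cr (Lo v g w) (v s.2) = cr (Lo v g w) (v s.1) +
          cr (Lo v g w) (v s.2 - v s.1) := by
        rw [← cr_add_right]; congr 1; ring
      by_contra hcon
      push Not at hcon
      nlinarith
    refine ⟨i1.trans hle, ?_, ?_⟩
    · change RR v s.1 s.2 Q ∈ KK v
      rw [hQσ, RR_line hne]
      exact side_point_mem_KK s0.le s1.le
    · intro h hh
      rcases List.suffix_cons_iff.1 hh with h1 | h1
      · rw [h1]
      · exact (i3 h h1).trans hle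

/-- Two parallel lines cross the same sides, or a vertex lies between them. -/
theorem common_word (hv : ConvexIndependent ℝ v) {g : List (Fin n × Fin n)} {x y w : ℂ}
    (hR : Rz v g x w) :
    Rz v g y w ∨ ∃ s h, (s :: h) <:+ g ∧ Rz v h y w ∧ ∃ i : Fin n,
      |cr (Lo v h w) (v i - Fo v h y)| ≤ |cr w (y - x)| := by
  induction g with
  | nil => exact Or.inl trivial
  | cons s g ih =>
    obtain ⟨hR', hs, c1, c2⟩ := hR
    rcases ih hR' with h1 | ⟨r, h, h1, h2, h3⟩
    · have hd : |cr (Lo v g w) (Fo v g y) - cr (Lo v g w) (Fo v g x)| = |cr w (y - x)| := by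
        rw [← cr_sub_right, Fo_sub, abs_cr_Lo hv hR'.val]
      by_cases d1 : cr (Lo v g w) (v s.1) < cr (Lo v g w) (Fo v g y)
      · by_cases d2 : cr (Lo v g w) (Fo v g y) < cr (Lo v g w) (v s.2)
        · exact Or.inl ⟨h1, hs, d1, d2⟩
        · right
          push Not at d2
          refine ⟨s, g, List.suffix_rfl, h1, s.2, ?_⟩
          rw [← hd, cr_sub_right, abs_of_nonpos (by linarith), abs_of_nonneg (by linarith)]
          linarith
      · right
        push Not at d1
        refine ⟨s, g, List.suffix_rfl, h1, s.1, ?_⟩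
        rw [← hd, cr_sub_right, abs_of_nonneg (by linarith), abs_of_nonpos (by linarith)]
        linarith
    · exact Or.inr ⟨r, h, h1.trans (List.suffix_cons s g), h2, h3⟩

/-- Cost of the vertex `l` in the frame `g`. -/
noncomputable def cost (v : Fin n → ℂ) (a b : ℝ) (x w : ℂ) (g : List (Fin n × Fin n))
    (l : Fin n) : ℝ :=
  (a * |dt (Lo v g w) (v l - Fo v g x)| + b * |cr (Lo v g w) (v l - Fo v g x)|) / ‖w‖

/-- (B) in terms of costs. -/
theorem cost_across (hv : ConvexIndependent ℝ v) {D0 : ℝ}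
    (hD : ∀ y ∈ KK v, ∀ l, ‖v l - y‖ ≤ D0) {a b : ℝ} (ha : 0 ≤ a) (hb : 0 ≤ b) {x y w : ℂ}
    (hx : x ∈ KK v) (hw : w ≠ 0) {g : List (Fin n × Fin n)} (hR : Rz v g x w) (l : Fin n) :
    ∃ h i, Rz v h y w ∧ cost v a b y w h i ≤
      cost v a b x w g l + b * |cr w (y - x)| / ‖w‖ + a * (2 * D0 + ‖y - x‖) := by
  have hwn : 0 < ‖w‖ := norm_pos_iff.2 hw
  have hD0 : 0 ≤ D0 := (norm_nonneg _).trans (hD x hx l)
  rcases common_word hv hR (y := y) with h1 | ⟨s, h, h1, h2, i, h3⟩
  · refine ⟨g, l, h1, ?_⟩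
    have e : v l - Fo v g y = (v l - Fo v g x) + -(Lo v g (y - x)) := by
      rw [← Fo_sub]; ring
    have k1 : |dt (Lo v g w) (v l - Fo v g y)| ≤
        |dt (Lo v g w) (v l - Fo v g x)| + ‖w‖ * ‖y - x‖ := by
      rw [e, dt_add_right]
      refine (abs_add_le _ _).trans (add_le_add le_rfl ?_)
      refine (abs_dt_le _ _).trans ?_
      rw [norm_neg, norm_Lo hv hR.val, norm_Lo hv hR.val]
    have k2 : |cr (Lo v g w) (v l - Fo v g y)| ≤
        |cr (Lo v g w) (v l - Fo v g x)| + |cr w (y - x)| := by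
      rw [e, cr_add_right]
      refine (abs_add_le _ _).trans (add_le_add le_rfl ?_)
      rw [cr_neg_right, abs_neg, abs_cr_Lo hv hR.val]
    have k3 : cost v a b y w g l ≤ (a * (|dt (Lo v g w) (v l - Fo v g x)| + ‖w‖ * ‖y - x‖) +
        b * (|cr (Lo v g w) (v l - Fo v g x)| + |cr w (y - x)|)) / ‖w‖ := by
      unfold cost
      gcongr
    refine k3.trans ?_
    have k4 : (a * (|dt (Lo v g w) (v l - Fo v g x)| + ‖w‖ * ‖y - x‖) +
        b * (|cr (Lo v g w) (v l - Fo v g x)| + |cr w (y - x)|)) / ‖w‖ =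
        cost v a b x w g l + b * |cr w (y - x)| / ‖w‖ + a * ‖y - x‖ := by
      unfold cost
      field_simp
      ring
    rw [k4]
    have : 0 ≤ a * (2 * D0) := by positivity
    nlinarith
  · refine ⟨h, i, h2, ?_⟩
    have hhg : h <:+ g := (List.suffix_cons s h).trans h1
    have hRh := Rz_suffix hR hhg
    obtain ⟨t1, t2, t3⟩ := tau_spec hv hx hR
    obtain ⟨u1, u2, -⟩ := tau_spec hv hx hRh
    have t4 := t3 h hhg
    set T := tau v g x w with hT
    set U := tau v h x w with hU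
    -- lower bound of the old cost
    have k1 : T * ‖w‖ - D0 ≤ |dt (Lo v g w) (v l - Fo v g x)| / ‖w‖ := by
      have e : v l - Fo v g x = (v l - Fo v g (x + (T : ℂ) * w)) + (T : ℂ) * Lo v g w := by
        rw [Fo_add, Lo_smul]; ring
      have e2 : dt (Lo v g w) (v l - Fo v g x) =
          dt (Lo v g w) (v l - Fo v g (x + (T : ℂ) * w)) + T * ‖w‖ ^ 2 := by
        rw [e, dt_add_right, dt_smul_right, dt_self, norm_Lo hv hR.val]
      have e3 : |dt (Lo v g w) (v l - Fo v g (x + (T : ℂ) * w))| ≤ ‖w‖ * D0 := by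
        refine (abs_dt_le _ _).trans ?_
        rw [norm_Lo hv hR.val]
        exact mul_le_mul_of_nonneg_left (hD _ t2 l) hwn.le
      have e4 := (abs_le.1 e3).1
      have e5 := le_abs_self (dt (Lo v g w) (v l - Fo v g x))
      rw [le_div_iff₀ hwn]
      have : (T * ‖w‖ - D0) * ‖w‖ = T * ‖w‖ ^ 2 - ‖w‖ * D0 := by ring
      rw [this]
      linarith
    -- upper bound of the new cost
    have k2 : |dt (Lo v h w) (v i - Fo v h y)| / ‖w‖ ≤ D0 + U * ‖w‖ + ‖y - x‖ := by
      rw [div_le_iff₀ hwn]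
      refine (abs_dt_le _ _).trans ?_
      rw [norm_Lo hv hRh.val, mul_comm]
      refine mul_le_mul_of_nonneg_right ?_ hwn.le
      have e : v i - Fo v h y = (v i - Fo v h (x + (U : ℂ) * w)) +
          (Lo v h (x - y) + (U : ℂ) * Lo v h w) := by
        rw [← Fo_sub, Fo_add, Lo_smul]; ring
      rw [e]
      refine (norm_add_le _ _).trans ?_
      have f1 := hD _ u2 i
      have f2 := norm_add_le (Lo v h (x - y)) ((U : ℂ) * Lo v h w)
      rw [norm_mul, norm_real, Real.norm_eq_abs, abs_of_nonneg u1, norm_Lo hv hRh.val,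
        norm_Lo hv hRh.val, norm_sub_rev] at f2
      linarith
    have k3 : cost v a b y w h i = a * (|dt (Lo v h w) (v i - Fo v h y)| / ‖w‖) +
        b * |cr (Lo v h w) (v i - Fo v h y)| / ‖w‖ := by
      unfold cost; ring
    have k4 : cost v a b x w g l = a * (|dt (Lo v g w) (v l - Fo v g x)| / ‖w‖) +
        b * |cr (Lo v g w) (v l - Fo v g x)| / ‖w‖ := by
      unfold cost; ring
    have k5 : b * |cr (Lo v h w) (v i - Fo v h y)| / ‖w‖ ≤ b * |cr w (y - x)| / ‖w‖ := by
      gcongr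
    have k6 : 0 ≤ b * |cr (Lo v g w) (v l - Fo v g x)| / ‖w‖ := by positivity
    have k7 : a * (|dt (Lo v h w) (v i - Fo v h y)| / ‖w‖) ≤
        a * (|dt (Lo v g w) (v l - Fo v g x)| / ‖w‖ + (2 * D0 + ‖y - x‖)) := by
      refine mul_le_mul_of_nonneg_left ?_ ha
      have : U * ‖w‖ ≤ T * ‖w‖ := mul_le_mul_of_nonneg_right t4 hwn.le
      linarith
    rw [k3, k4]
    linarith

end Pool.Agent.Lib.BilF.Across82
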