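import Pool.Agent.Lib.MP_7bc51d_an_dense.Basic
import Pool.Agent.Lib.MP_7bc51d_an_full.Mol89

/-!
# Mean distance of the mollified modes of two functions on the phase space
-/

set_option autoImplicit false

namespace Pool.Agent.Lib.BilF.Conv89

open Complex MeasureTheory Set Filter Topology
open scoped ComplexConjugate ENNReal
open Pool.Agent.Lib.Bil Pool.Agent.Lib.BilD Pool.Agent.Lib.BilD.Lim89
open Pool.Agent.Lib.BilF.Mol89

variable {n : ℕ} {v : Fin n → ℂ} {G H : ℂ → ℂ → ℝ} {ε : ℝ}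

/-- Extension by reflection of a function on the phase space. -/
noncomputable def gX (v : Fin n → ℂ) (G : ℂ → ℂ → ℝ) (x w : ℂ) : ℝ :=
  (PP v).indicator (fun x => G x w) x +
    ∑ s ∈ SD v, (OO v s).indicator (fun x => G (Rs v s x) (rl (ed v s) w)) x

/-- Modes. -/
noncomputable def aX (v : Fin n → ℂ) (G : ℂ → ℂ → ℝ) (m : ℕ) (x : ℂ) : ℂ :=
  ∫ w in BV, (gX v G x w : ℂ) * em m w

/-- Mollified modes. -/
noncomputable def uX (v : Fin n → ℂ) (G : ℂ → ℂ → ℝ) (m : ℕ) (ε : ℝ) (x : ℂ) : ℂ :=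
  ∫ y, (et ε (x - y) : ℂ) * aX v G m y

/-- Bounded measurable functions on the phase space. -/
structure BM (G : ℂ → ℂ → ℝ) : Prop where
  meas : Measurable (fun p : ℂ × ℂ => G p.1 p.2)
  bd : ∀ x w, |G x w| ≤ 1

theorem gX_meas (hG : BM G) : Measurable (fun p : ℂ × ℂ => gX v G p.1 p.2) := by
  unfold gX
  apply Measurable.add
  · exact hG.meas.indicator (measurable_fst meas_PP)
  · apply Finset.measurable_fun_sum
    intro s _
    have h2 : Measurable (fun p : ℂ × ℂ => rl (ed v s) p.2) :=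
      (continuous_rl (ed v s)).measurable.comp measurable_snd
    have h3 : Measurable (fun p : ℂ × ℂ => Rs v s p.1) := (cont_Rs s).measurable.comp measurable_fst
    have h1 : Measurable (fun p : ℂ × ℂ => G (Rs v s p.1) (rl (ed v s) p.2)) :=
      hG.meas.comp (h3.prodMk h2)
    exact h1.indicator (measurable_fst (meas_OO s))

theorem gX_abs (hG : BM G) (x w : ℂ) : |gX v G x w| ≤ (n : ℝ) ^ 2 + 1 := by
  have h2 : ∀ (S : Set ℂ) (g : ℂ → ℝ), (∀ y, |g y| ≤ 1) → |S.indicator g x| ≤ 1 := by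
    intro S g hg
    by_cases h : x ∈ S
    · rw [indicator_of_mem h]; exact hg x
    · rw [indicator_of_notMem h, abs_zero]; exact zero_le_one
  have h3 : |∑ s ∈ SD v, (OO v s).indicator
      (fun x => G (Rs v s x) (rl (ed v s) w)) x| ≤ ∑ s ∈ SD v, (1 : ℝ) :=
    (Finset.abs_sum_le_sum_abs _ _).trans
      (Finset.sum_le_sum (fun s _ => h2 _ _ (fun y => hG.bd _ _)))
  have h4 : ∑ s ∈ SD v, (1 : ℝ) ≤ (n : ℝ) ^ 2 := by
    rw [Finset.sum_const, nsmul_eq_mul, mul_one]
    have : (SD v).card ≤ n ^ 2 := by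
      calc (SD v).card ≤ Fintype.card (Fin n × Fin n) := Finset.card_le_univ _
        _ = n ^ 2 := by simp [sq]
    exact_mod_cast this
  have h5 := h2 (PP v) (fun x => G x w) (fun y => hG.bd _ _)
  unfold gX
  refine (abs_add_le _ _).trans ?_
  linarith

theorem aX_int_w (hG : BM G) (m : ℕ) (x : ℂ) :
    IntegrableOn (fun w => (gX v G x w : ℂ) * em m w) BV := by
  refine Measure.integrableOn_of_bounded (M := (n : ℝ) ^ 2 + 1) vol_BV.ne ?_
    (Eventually.of_forall (fun w => ?_))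
  · exact ((measurable_ofReal.comp ((gX_meas hG).comp
      (measurable_const.prodMk measurable_id))).mul (em_meas m)).aestronglyMeasurable
  · rw [norm_mul, norm_real, Real.norm_eq_abs]
    calc |gX v G x w| * ‖em m w‖ ≤ ((n : ℝ) ^ 2 + 1) * 1 :=
          mul_le_mul (gX_abs hG x w) (em_norm m w) (norm_nonneg _) (by positivity)
      _ = _ := mul_one _

theorem aX_meas (hG : BM G) (m : ℕ) : Measurable (aX v G m) := by
  unfold aX
  have h1 : Measurable (fun p : ℂ × ℂ => (gX v G p.1 p.2 : ℂ) * em m p.2) :=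
    (measurable_ofReal.comp (gX_meas hG)).mul ((em_meas m).comp measurable_snd)
  have h2 : StronglyMeasurable
      (Function.uncurry (fun (x w : ℂ) => (gX v G x w : ℂ) * em m w)) := h1.stronglyMeasurable
  exact h2.integral_prod_right.measurable

theorem aX_bound (hG : BM G) (m : ℕ) (x : ℂ) :
    ‖aX v G m x‖ ≤ ((n : ℝ) ^ 2 + 1) * (volume BV).toReal := by
  unfold aX
  refine norm_setIntegral_le_of_norm_le_const vol_BV ?_
  intro w hw
  rw [norm_mul, norm_real, Real.norm_eq_abs]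
  calc |gX v G x w| * ‖em m w‖ ≤ ((n : ℝ) ^ 2 + 1) * 1 :=
        mul_le_mul (gX_abs hG x w) (em_le m hw) (norm_nonneg _) (by positivity)
    _ = _ := mul_one _

/-- the extension has bounded support -/
theorem aX_supp (hne : ∀ s ∈ SD v, ed v s ≠ 0) : ∃ M : ℝ, 0 < M ∧ ∀ (G : ℂ → ℂ → ℝ) (m : ℕ)
    (x : ℂ), M < ‖x‖ → aX v G m x = 0 := by
  obtain ⟨M, hM0, hM⟩ := exists_bound hne
  refine ⟨M, hM0, fun G m x hx => ?_⟩
  have h1 : x ∉ PP v := by
    intro h
    have := hM (fun _ _ => 1) x 0 (by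
      unfold gx
      rw [indicator_of_mem h]
      have : (0 : ℝ) ≤ ∑ s ∈ SD v, (OO v s).indicator (fun _ => (1 : ℝ)) x :=
        Finset.sum_nonneg (fun s _ => indicator_nonneg (fun _ _ => zero_le_one) _)
      linarith)
    linarith
  have h2 : ∀ s ∈ SD v, x ∉ OO v s := by
    intro s hs h
    have := hM (fun _ _ => 1) x 0 (by
      unfold gx
      have a1 : (0 : ℝ) ≤ (PP v).indicator (fun _ => (1 : ℝ)) x :=
        indicator_nonneg (fun _ _ => zero_le_one) _
      have a2 : (1 : ℝ) ≤ ∑ s ∈ SD v, (OO v s).indicator (fun _ => (1 : ℝ)) x := by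
        have := Finset.single_le_sum (f := fun s => (OO v s).indicator (fun _ => (1 : ℝ)) x)
          (fun i _ => indicator_nonneg (fun _ _ => zero_le_one) _) hs
        rwa [indicator_of_mem h] at this
      linarith)
    linarith
  unfold aX
  have : ∀ w, gX v G x w = 0 := by
    intro w
    unfold gX
    rw [indicator_of_notMem h1, zero_add]
    exact Finset.sum_eq_zero (fun s hs => indicator_of_notMem (h2 s hs) _)
  have h5 : ∀ w, (gX v G x w : ℂ) * em m w = 0 := by
    intro w; rw [this w, Complex.ofReal_zero, zero_mul]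
  rw [integral_congr_ae (Eventually.of_forall h5), integral_zero]

theorem aX_int (hne : ∀ s ∈ SD v, ed v s ≠ 0) (hG : BM G) (m : ℕ) : Integrable (aX v G m) := by
  obtain ⟨M, hM0, hM⟩ := aX_supp hne
  have h1 : IntegrableOn (aX v G m) (Metric.closedBall 0 M) := by
    refine Measure.integrableOn_of_bounded (M := ((n : ℝ) ^ 2 + 1) * (volume BV).toReal)
      (isCompact_closedBall (0 : ℂ) M).measure_lt_top.ne (aX_meas hG m).aestronglyMeasurable
      (Eventually.of_forall (fun x => aX_bound hG m x))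
  have h2 : Function.support (aX v G m) ⊆ Metric.closedBall 0 M := by
    intro x hx
    by_contra hcon
    rw [mem_closedBall_zero_iff, not_le] at hcon
    exact hx (hM G m x hcon)
  rwa [integrableOn_iff_integrable_of_support_subset h2] at h1

theorem gX_sub (x w : ℂ) : gX v G x w - gX v H x w = gX v (fun x w => G x w - H x w) x w := by
  unfold gX
  rw [add_sub_add_comm, ← Finset.sum_sub_distrib]
  congr 1
  · by_cases h : x ∈ PP v
    · rw [indicator_of_mem h, indicator_of_mem h, indicator_of_mem h]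
    · rw [indicator_of_notMem h, indicator_of_notMem h, indicator_of_notMem h, sub_zero]
  · refine Finset.sum_congr rfl (fun s _ => ?_)
    by_cases h : x ∈ OO v s
    · rw [indicator_of_mem h, indicator_of_mem h, indicator_of_mem h]
    · rw [indicator_of_notMem h, indicator_of_notMem h, indicator_of_notMem h, sub_zero]

theorem gX_enorm (D : ℂ → ℂ → ℝ) (x w : ℂ) : ‖gX v D x w‖ₑ ≤
    (PP v).indicator (fun x => ‖D x w‖ₑ) x +
      ∑ s ∈ SD v, (OO v s).indicator (fun x => ‖D (Rs v s x) (rl (ed v s) w)‖ₑ) x := by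
  unfold gX
  refine (enorm_add_le _ _).trans (add_le_add ?_ ?_)
  · rw [enorm_indicator_eq_indicator_enorm]
  · refine (enorm_sum_le _ _).trans (Finset.sum_le_sum (fun s _ => ?_))
    rw [enorm_indicator_eq_indicator_enorm]

theorem lint_ext (hne : ∀ s ∈ SD v, ed v s ≠ 0) {D : ℂ → ℂ → ℝ}
    (hD : Measurable (fun p : ℂ × ℂ => D p.1 p.2)) :
    ∫⁻ x, ∫⁻ w in BV, ‖gX v D x w‖ₑ ≤
      ((n : ℝ≥0∞) ^ 2 + 1) * ∫⁻ x in PP v, ∫⁻ w in BV, ‖D x w‖ₑ := by
  set A : ℝ≥0∞ := ∫⁻ x in PP v, ∫⁻ w in BV, ‖D x w‖ₑ with hA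
  have hDm : Measurable (fun p : ℂ × ℂ => ‖D p.1 p.2‖ₑ) := hD.enorm
  have hin : Measurable (fun x : ℂ => ∫⁻ w in BV, ‖D x w‖ₑ) := hDm.lintegral_prod_right'
  -- first part
  have e1 : ∫⁻ x, ∫⁻ w in BV, (PP v).indicator (fun x => ‖D x w‖ₑ) x = A := by
    rw [hA, ← lintegral_indicator meas_PP]
    refine lintegral_congr (fun x => ?_)
    by_cases h : x ∈ PP v
    · simp only [indicator_of_mem h]
    · simp only [indicator_of_notMem h, lintegral_zero]
  -- second part
  have e2 : ∀ s ∈ SD v, ∫⁻ x, ∫⁻ w in BV,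
      (OO v s).indicator (fun x => ‖D (Rs v s x) (rl (ed v s) w)‖ₑ) x = A := by
    intro s hs
    have he := hne s hs
    have h1 : ∀ x, ∫⁻ w in BV, (OO v s).indicator
        (fun x => ‖D (Rs v s x) (rl (ed v s) w)‖ₑ) x =
        (PP v).indicator (fun y => ∫⁻ w in BV, ‖D y w‖ₑ) (Rs v s x) := by
      intro x
      by_cases h : x ∈ OO v s
      · have h' : Rs v s x ∈ PP v := h
        simp only [indicator_of_mem h]
        rw [indicator_of_mem h']
        have hm : Measurable (fun w : ℂ => ‖D (Rs v s x) w‖ₑ) :=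
          hDm.comp (measurable_const.prodMk measurable_id)
        exact (mp_rl_BV he).lintegral_comp hm
      · have h' : Rs v s x ∉ PP v := h
        simp only [indicator_of_notMem h, lintegral_zero]
        rw [indicator_of_notMem h']
    rw [lintegral_congr h1, hA, ← lintegral_indicator meas_PP]
    have hmp : MeasurePreserving (Rs v s) volume volume := mp_RR he
    exact hmp.lintegral_comp (hin.indicator meas_PP)
  have hm1 : ∀ x : ℂ, Measurable (fun w : ℂ => (PP v).indicator (fun x => ‖D x w‖ₑ) x) := by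
    intro x
    by_cases h : x ∈ PP v
    · simp only [indicator_of_mem h]
      exact hDm.comp (measurable_const.prodMk measurable_id)
    · simp only [indicator_of_notMem h]
      exact measurable_const
  have hm2 : ∀ (s : Fin n × Fin n) (x : ℂ), Measurable (fun w : ℂ =>
      (OO v s).indicator (fun x => ‖D (Rs v s x) (rl (ed v s) w)‖ₑ) x) := by
    intro s x
    by_cases h : x ∈ OO v s
    · simp only [indicator_of_mem h]
      exact hDm.comp (measurable_const.prodMk (continuous_rl (ed v s)).measurable)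
    · simp only [indicator_of_notMem h]
      exact measurable_const
  have hm3 : Measurable (fun x : ℂ => ∫⁻ w in BV, (PP v).indicator (fun x => ‖D x w‖ₑ) x) := by
    have : Measurable (fun p : ℂ × ℂ => (PP v).indicator (fun x => ‖D x p.2‖ₑ) p.1) :=
      hDm.indicator (measurable_fst meas_PP)
    exact this.lintegral_prod_right'
  have hm4 : ∀ s : Fin n × Fin n, Measurable (fun x : ℂ => ∫⁻ w in BV,
      (OO v s).indicator (fun x => ‖D (Rs v s x) (rl (ed v s) w)‖ₑ) x) := by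
    intro s
    have h1 : Measurable (fun p : ℂ × ℂ => ‖D (Rs v s p.1) (rl (ed v s) p.2)‖ₑ) :=
      hDm.comp (((cont_Rs s).measurable.comp measurable_fst).prodMk
        ((continuous_rl (ed v s)).measurable.comp measurable_snd))
    have : Measurable (fun p : ℂ × ℂ => (OO v s).indicator
        (fun x => ‖D (Rs v s x) (rl (ed v s) p.2)‖ₑ) p.1) :=
      h1.indicator (measurable_fst (meas_OO s))
    exact this.lintegral_prod_right'
  calc ∫⁻ x, ∫⁻ w in BV, ‖gX v D x w‖ₑ ≤ ∫⁻ x, ∫⁻ w in BV,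
        ((PP v).indicator (fun x => ‖D x w‖ₑ) x +
          ∑ s ∈ SD v, (OO v s).indicator (fun x => ‖D (Rs v s x) (rl (ed v s) w)‖ₑ) x) :=
        lintegral_mono (fun x => lintegral_mono (fun w => gX_enorm D x w))
    _ = ∫⁻ x, ((∫⁻ w in BV, (PP v).indicator (fun x => ‖D x w‖ₑ) x) +
          ∑ s ∈ SD v, ∫⁻ w in BV,
            (OO v s).indicator (fun x => ‖D (Rs v s x) (rl (ed v s) w)‖ₑ) x) := by
        refine lintegral_congr (fun x => ?_)
        rw [lintegral_add_left (hm1 x), lintegral_finsetSum _ (fun s _ => hm2 s x)]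
    _ = A + ∑ s ∈ SD v, A := by
        rw [lintegral_add_left hm3, lintegral_finsetSum _ (fun s _ => hm4 s), e1]
        congr 1
        exact Finset.sum_congr rfl e2
    _ ≤ ((n : ℝ≥0∞) ^ 2 + 1) * A := by
        rw [Finset.sum_const, nsmul_eq_mul, add_mul, one_mul, add_comm]
        gcongr
        have : (SD v).card ≤ n ^ 2 := by
          calc (SD v).card ≤ Fintype.card (Fin n × Fin n) := Finset.card_le_univ _
            _ = n ^ 2 := by simp [sq]
        exact_mod_cast this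

/-- mean distance of the modes -/
theorem aX_dist (hne : ∀ s ∈ SD v, ed v s ≠ 0) (hG : BM G) (hH : BM H) (m : ℕ) :
    ∫⁻ x, ‖aX v G m x - aX v H m x‖ₑ ≤
      ((n : ℝ≥0∞) ^ 2 + 1) * ∫⁻ x in PP v, ∫⁻ w in BV, ‖G x w - H x w‖ₑ := by
  refine le_trans (lintegral_mono (fun x => ?_))
    (lint_ext hne (D := fun x w => G x w - H x w) (hG.meas.sub hH.meas))
  have e1 : aX v G m x - aX v H m x =
      ∫ w in BV, ((gX v (fun x w => G x w - H x w) x w : ℝ) : ℂ) * em m w := by
    unfold aX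
    rw [← integral_sub (aX_int_w hG m x) (aX_int_w hH m x)]
    refine integral_congr_ae (Eventually.of_forall (fun w => ?_))
    simp only
    rw [← gX_sub, ← sub_mul, ofReal_sub]
  rw [e1]
  refine (enorm_integral_le_lintegral_enorm _).trans (lintegral_mono (fun w => ?_))
  rw [enorm_mul]
  have h2 : ‖em m w‖ₑ ≤ 1 := by
    rw [← ofReal_norm]
    exact ENNReal.ofReal_le_one.2 (em_norm m w)
  have h3 : ‖((gX v (fun x w => G x w - H x w) x w : ℝ) : ℂ)‖ₑ =
      ‖gX v (fun x w => G x w - H x w) x w‖ₑ := by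
    rw [← ofReal_norm, ← ofReal_norm, norm_real]
  rw [h3]
  calc ‖gX v (fun x w => G x w - H x w) x w‖ₑ * ‖em m w‖ₑ ≤
      ‖gX v (fun x w => G x w - H x w) x w‖ₑ * 1 := by gcongr
    _ = _ := mul_one _

/-- (CONV) the mollified modes of `G` are close in the mean to the modes of `H`. -/
theorem conv (hne : ∀ s ∈ SD v, ed v s ≠ 0) (hH : BM H) (m : ℕ) {η : ℝ} (hη : 0 < η) :
    ∃ r0 > 0, ∀ ε, 0 < ε → ε < r0 → ∀ G, BM G → ∀ δ : ℝ, 0 ≤ δ →
      ∫⁻ x in PP v, ∫⁻ w in BV, ‖G x w - H x w‖ₑ ≤ ENNReal.ofReal δ →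
      ∫ x, ‖uX v G m ε x - (Z0 : ℂ) * aX v H m x‖ ≤ Z0 * ((n : ℝ) ^ 2 + 1) * δ + η := by
  obtain ⟨r0, hr0, h0⟩ := mol (aX_int hne hH m) η hη
  refine ⟨r0, hr0, fun ε hε hε1 G hG δ hδ hd => ?_⟩
  have hZ := Z0_pos
  have iG := aX_int hne hG m
  have iH := aX_int hne hH m
  have iD : Integrable (fun x => aX v G m x - aX v H m x) := iG.sub iH
  have h1 := h0 ε hε hε1
  have h2 := con iD hε
  have h3 : ∫ x, ‖aX v G m x - aX v H m x‖ ≤ ((n : ℝ) ^ 2 + 1) * δ := by
    rw [integral_norm_eq_lintegral_enorm iD.aestronglyMeasurable]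
    have h4 := (aX_dist hne hG hH m).trans
      (mul_le_mul_right hd ((n : ℝ≥0∞) ^ 2 + 1))
    have h5 : ((n : ℝ≥0∞) ^ 2 + 1) * ENNReal.ofReal δ =
        ENNReal.ofReal (((n : ℝ) ^ 2 + 1) * δ) := by
      rw [ENNReal.ofReal_mul (by positivity), ENNReal.ofReal_add (by positivity) zero_le_one,
        ENNReal.ofReal_one, ENNReal.ofReal_pow (by positivity), ENNReal.ofReal_natCast]
    rw [h5] at h4
    exact ENNReal.toReal_le_of_le_ofReal (by positivity) h4
  have i1 : Integrable (fun x => ‖M ε (fun y => aX v G m y - aX v H m y) x‖) := (M_int iD hε).norm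
  have i2 : Integrable (fun x => ‖M ε (aX v H m) x - (Z0 : ℂ) * aX v H m x‖) :=
    ((M_int iH hε).sub (iH.const_mul _)).norm
  have hl : Integrable (fun x => ‖uX v G m ε x - (Z0 : ℂ) * aX v H m x‖) :=
    ((M_int iG hε).sub (iH.const_mul _)).norm
  have hpt : ∀ x, ‖uX v G m ε x - (Z0 : ℂ) * aX v H m x‖ ≤
      ‖M ε (fun y => aX v G m y - aX v H m y) x‖ + ‖M ε (aX v H m) x - (Z0 : ℂ) * aX v H m x‖ := by
    intro x
    have e1 : uX v G m ε x - (Z0 : ℂ) * aX v H m x = M ε (fun y => aX v G m y - aX v H m y) x +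
        (M ε (aX v H m) x - (Z0 : ℂ) * aX v H m x) := by
      rw [M_sub iG iH hε]
      change M ε (aX v G m) x - _ = _
      ring
    rw [e1]
    exact norm_add_le _ _
  have h6 := integral_mono hl (i1.add i2) hpt
  have h7 : ∫ x, (‖M ε (fun y => aX v G m y - aX v H m y) x‖ +
      ‖M ε (aX v H m) x - (Z0 : ℂ) * aX v H m x‖) =
      (∫ x, ‖M ε (fun y => aX v G m y - aX v H m y) x‖) +
      ∫ x, ‖M ε (aX v H m) x - (Z0 : ℂ) * aX v H m x‖ := integral_add i1 i2
  have h8 : ∫ x, ‖uX v G m ε x - (Z0 : ℂ) * aX v H m x‖ ≤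
      ∫ x, (‖M ε (fun y => aX v G m y - aX v H m y) x‖ +
      ‖M ε (aX v H m) x - (Z0 : ℂ) * aX v H m x‖) := h6
  rw [h7] at h8
  have h9 : Z0 * ∫ x, ‖aX v G m x - aX v H m x‖ ≤ Z0 * (((n : ℝ) ^ 2 + 1) * δ) :=
    mul_le_mul_of_nonneg_left h3 hZ.le
  have h10 : Z0 * (((n : ℝ) ^ 2 + 1) * δ) = Z0 * ((n : ℝ) ^ 2 + 1) * δ := by ring
  linarith

end Pool.Agent.Lib.BilF.Conv89
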