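import Pool.Agent.Lib.MP_7bc51d_an_dense.Lim89

/-!
# Limits of functions of small energy are constant
-/

set_option autoImplicit false

namespace Pool.Agent.Lib.BilF.Lim89

open Complex MeasureTheory Set Filter Topology
open scoped ComplexConjugate Convolution
open Pool.Agent.Lib.Bil Pool.Agent.Lib.BilD Pool.Agent.Lib.BilD.Lim89

variable {n : ℕ} {v : Fin n → ℂ} {a : ℂ → ℝ}

/-- mollification -/
noncomputable def V (a : ℂ → ℝ) (d : ℝ) (x : ℂ) : ℝ := ∫ z, et d (x - z) * a z

theorem V_eq (d : ℝ) : V a d = a ⋆[ContinuousLinearMap.mul ℝ ℝ, volume] et d := by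
  funext x
  unfold V
  rw [convolution_def]
  refine integral_congr_ae (Eventually.of_forall (fun y => ?_))
  simp only [ContinuousLinearMap.mul_apply']
  exact mul_comm _ _

theorem et_c1 (d : ℝ) : ContDiff ℝ 1 (et d) :=
  (et_contDiff d).of_le (WithTop.coe_le_coe.2 (le_top : (1 : ℕ∞) ≤ ⊤))

theorem V_contDiff (ha : Integrable a) {d : ℝ} (hd : 0 < d) : ContDiff ℝ 1 (V a d) := by
  rw [V_eq]
  exact (et_compact hd).contDiff_convolution_right _ ha.locallyIntegrable (et_c1 d)

theorem fderiv_V (ha : Integrable a) {d : ℝ} (hd : 0 < d) (x h : ℂ) :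
    fderiv ℝ (V a d) x h = ∫ y, fderiv ℝ (et d) (x - y) h * a y := by
  have hc : HasCompactSupport (et d) := et_compact hd
  have hl := ha.locallyIntegrable
  have hdv := hc.hasFDerivAt_convolution_right (ContinuousLinearMap.mul ℝ ℝ) hl (et_c1 d) x
  rw [V_eq, hdv.fderiv, convolution_def]
  have hex : ConvolutionExistsAt a (fderiv ℝ (et d)) x
      ((ContinuousLinearMap.mul ℝ ℝ).precompR ℂ) volume := by
    apply HasCompactSupport.convolutionExists_right
    · exact hc.fderiv ℝ
    · exact hl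
    · exact (et_c1 d).continuous_fderiv one_ne_zero
  rw [ContinuousLinearMap.integral_apply hex]
  refine integral_congr_ae (Eventually.of_forall (fun y => ?_))
  simp only [ContinuousLinearMap.precompR_apply, ContinuousLinearMap.compL_apply,
    ContinuousLinearMap.comp_apply, ContinuousLinearMap.mul_apply']
  exact mul_comm _ _

/-- approximation by functions of small energy -/
def Ap (v : Fin n → ℂ) (a : ℂ → ℝ) : Prop :=
  ∀ η > 0, ∃ u : ℂ → ℝ, ContDiff ℝ 1 u ∧
    (∀ h : ℂ, h = 1 ∨ h = I → ∫ x in PP v, fderiv ℝ u x h ^ 2 ≤ η) ∧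
    ∫ x in PP v, |u x - a x| ≤ η

theorem intPP {q : ℂ → ℝ} (hq : Continuous q) : IntegrableOn q (PP v) :=
  (hq.continuousOn.integrableOn_compact isCompact_KK).mono_set PP_sub_KK

theorem amgm2 {x p t : ℝ} (ht : 0 < t) : |x * p| ≤ t * p ^ 2 + 1 / t * x ^ 2 := by
  have h1 : t * p ^ 2 + 1 / t * x ^ 2 - |x| * |p| = ((t * |p| - |x|) ^ 2 +
      t * |p| * |x|) / t := by
    have e1 : p ^ 2 = |p| ^ 2 := (sq_abs p).symm
    have e2 : x ^ 2 = |x| ^ 2 := (sq_abs x).symm
    rw [e1, e2]
    field_simp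
    ring
  have h2 : 0 ≤ ((t * |p| - |x|) ^ 2 + t * |p| * |x|) / t := by positivity
  rw [abs_mul]
  linarith

theorem D0 (ha : Integrable a) (hA : Ap v a) {x0 : ℂ} {d : ℝ}
    (hd : 0 < d) (hsub : Metric.closedBall x0 d ⊆ PP v) {h : ℂ} (hh : h = 1 ∨ h = I) :
    fderiv ℝ (V a d) x0 h = 0 := by
  have hcd : Continuous (fderiv ℝ (ph d x0)) := (ph_contDiff d x0).continuous_fderiv (by norm_num)
  set ψ : ℂ → ℝ := fun y => fderiv ℝ (ph d x0) y h with hψ
  have hψc : Continuous ψ := hcd.clm_apply continuous_const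
  have hψs : HasCompactSupport ψ := (ph_compact hd x0).fderiv_apply ℝ h
  have hψ0 : ∀ y, y ∉ Metric.closedBall x0 d → ψ y = 0 := by
    intro y hy
    have h1 : y ∉ tsupport (ph d x0) := by
      intro hcon
      apply hy
      have h2 : tsupport (ph d x0) ⊆ Metric.closedBall x0 d := by
        apply closure_minimal _ Metric.isClosed_closedBall
        intro z hz
        by_contra hcon2
        exact hz (ph_zero hd hcon2)
      exact h2 hcon
    have h2 : fderiv ℝ (ph d x0) y = 0 :=
      image_eq_zero_of_notMem_tsupport (fun h3 => h1 (tsupport_fderiv_subset ℝ h3))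
    simp only [hψ, h2]
    rfl
  obtain ⟨M, hM⟩ := hψc.bounded_above_of_compact_support hψs
  have hM0 : 0 ≤ M := (norm_nonneg _).trans (hM 0)
  have hval : fderiv ℝ (V a d) x0 h = - ∫ y, ψ y * a y := by
    rw [fderiv_V ha hd, ← integral_neg]
    refine integral_congr_ae (Eventually.of_forall (fun y => ?_))
    simp only [hψ, fderiv_ph]
    ring
  have hkey : ∫ y, ψ y * a y = 0 := by
    by_contra hne
    have hpos : 0 < |∫ y, ψ y * a y| := abs_pos.2 hne
    set δ : ℝ := |∫ y, ψ y * a y| with hδ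
    obtain ⟨S, hS⟩ : ∃ S : ℝ, S = ∫ y in PP v, ph d x0 y ^ 2 := ⟨_, rfl⟩
    have hS0 : 0 ≤ S := by
      rw [hS]; exact integral_nonneg (fun y => sq_nonneg _)
    obtain ⟨t, ht⟩ : ∃ t : ℝ, t = δ / (4 * (S + 1)) := ⟨_, rfl⟩
    have ht0 : 0 < t := by rw [ht]; positivity
    obtain ⟨η, hη⟩ : ∃ η : ℝ, η = min (t * δ / 4) (δ / (4 * (M + 1))) := ⟨_, rfl⟩
    have hη0 : 0 < η := by rw [hη]; exact lt_min (by positivity) (by positivity)
    have hη1 : η ≤ t * δ / 4 := by rw [hη]; exact min_le_left _ _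
    have hη2 : η ≤ δ / (4 * (M + 1)) := by rw [hη]; exact min_le_right _ _
    obtain ⟨u, hu1, hu2, hu3⟩ := hA η hη0
    have hu2' := hu2 h hh
    -- the two integrals
    have i1 : Integrable (fun y => ψ y * u y) :=
      (hψc.mul hu1.continuous).integrable_of_hasCompactSupport hψs.mul_right
    have i2 : Integrable (fun y => ψ y * a y) :=
      ha.bdd_mul (c := M) hψc.aestronglyMeasurable (Eventually.of_forall hM)
    have e1 : ∫ y, ψ y * a y = (∫ y, ψ y * u y) - ∫ y, ψ y * (u y - a y) := by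
      rw [← integral_sub i1]
      · refine integral_congr_ae (Eventually.of_forall (fun y => ?_))
        simp only
        ring
      · refine (i1.sub i2).congr (Eventually.of_forall (fun y => ?_))
        simp only [Pi.sub_apply]
        ring
    have e2 : |∫ y, ψ y * (u y - a y)| ≤ δ / 4 := by
      have hi : IntegrableOn (fun y => M * |u y - a y|) (PP v) :=
        (((intPP hu1.continuous).sub ha.integrableOn).abs).const_mul M
      have h1 : |∫ y, ψ y * (u y - a y)| ≤
          ∫ y, (PP v).indicator (fun y => M * |u y - a y|) y := by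
        rw [← Real.norm_eq_abs]
        refine norm_integral_le_of_norm_le (hi.integrable_indicator meas_PP)
          (Eventually.of_forall (fun y => ?_))
        by_cases hy : y ∈ Metric.closedBall x0 d
        · rw [indicator_of_mem (hsub hy), norm_mul]
          exact mul_le_mul_of_nonneg_right (hM y) (norm_nonneg _)
        · rw [hψ0 y hy, zero_mul, norm_zero]
          exact indicator_nonneg (fun z _ => mul_nonneg hM0 (abs_nonneg _)) y
      rw [integral_indicator meas_PP, integral_const_mul] at h1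
      refine h1.trans ?_
      calc M * ∫ y in PP v, |u y - a y| ≤ M * (δ / (4 * (M + 1))) :=
            mul_le_mul_of_nonneg_left (hu3.trans hη2) hM0
        _ = δ / 4 * (M / (M + 1)) := by field_simp
        _ ≤ δ / 4 * 1 := by
            apply mul_le_mul_of_nonneg_left _ (by positivity)
            rw [div_le_one (by positivity)]; linarith
        _ = δ / 4 := mul_one _
    have e3 : ∫ y, ψ y * u y = - ∫ y, fderiv ℝ u y h * ph d x0 y :=
      K2 ((ph_contDiff d x0).of_le (by norm_num)) (ph_compact hd x0) hu1 h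
    have e4 : |∫ y, fderiv ℝ u y h * ph d x0 y| ≤ δ / 2 := by
      have c1 : Continuous (fun y => fderiv ℝ u y h) :=
        (hu1.continuous_fderiv one_ne_zero).clm_apply continuous_const
      have hi1 : IntegrableOn (fun y => t * ph d x0 y ^ 2) (PP v) :=
        intPP (continuous_const.mul (((ph_contDiff d x0).continuous).pow 2))
      have hi2 : IntegrableOn (fun y => 1 / t * fderiv ℝ u y h ^ 2) (PP v) :=
        intPP (continuous_const.mul (c1.pow 2))
      have h1 : |∫ y, fderiv ℝ u y h * ph d x0 y| ≤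
          ∫ y, (PP v).indicator (fun y => t * ph d x0 y ^ 2 + 1 / t * fderiv ℝ u y h ^ 2) y := by
        rw [← Real.norm_eq_abs]
        refine norm_integral_le_of_norm_le ((hi1.add hi2).integrable_indicator meas_PP)
          (Eventually.of_forall (fun y => ?_))
        by_cases hy : y ∈ Metric.closedBall x0 d
        · rw [indicator_of_mem (hsub hy), Real.norm_eq_abs]
          exact amgm2 ht0
        · rw [ph_zero hd hy, mul_zero, norm_zero]
          exact indicator_nonneg (fun z _ => by positivity) y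
      rw [integral_indicator meas_PP, integral_add hi1 hi2, integral_const_mul,
        integral_const_mul, ← hS] at h1
      have h3 : t * S ≤ δ / 4 := by
        rw [ht, div_mul_eq_mul_div, div_le_div_iff₀ (by positivity) (by positivity)]
        nlinarith
      have h4 : 1 / t * ∫ y in PP v, fderiv ℝ u y h ^ 2 ≤ δ / 4 := by
        calc 1 / t * ∫ y in PP v, fderiv ℝ u y h ^ 2 ≤ 1 / t * (t * δ / 4) :=
              mul_le_mul_of_nonneg_left (hu2'.trans hη1) (by positivity)
          _ = δ / 4 := by field_simp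
      linarith
    have h5 : δ ≤ |∫ y, ψ y * u y| + |∫ y, ψ y * (u y - a y)| := by
      rw [hδ, e1]
      exact abs_sub _ _
    rw [e3, abs_neg] at h5
    linarith
  rw [hval, hkey, neg_zero]

theorem fderiv_zero (ha : Integrable a) (hA : Ap v a) {x0 : ℂ} {d : ℝ}
    (hd : 0 < d) (hsub : Metric.closedBall x0 d ⊆ PP v) : fderiv ℝ (V a d) x0 = 0 := by
  have h1 := D0 ha hA hd hsub (h := 1) (Or.inl rfl)
  have h2 := D0 ha hA hd hsub (h := I) (Or.inr rfl)
  ext w
  have hw : w = w.re • (1 : ℂ) + w.im • I := by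
    rw [real_smul, real_smul, mul_one]
    exact (re_add_im w).symm
  rw [hw, map_add, map_smul, map_smul, h1, h2]
  simp

theorem V_const (ha : Integrable a) (hA : Ap v a) {x y : ℂ} {d : ℝ}
    (hd : 0 < d) (hx : Metric.closedBall x d ⊆ PP v) (hy : Metric.closedBall y d ⊆ PP v) :
    V a d x = V a d y := by
  have h1 := (convex_PPd (v := v) d).norm_image_sub_le_of_norm_fderiv_le (f := V a d) (C := 0)
    (fun z _ => (V_contDiff ha hd).differentiable one_ne_zero z)
    (fun z hz => by rw [fderiv_zero ha hA hd hz, norm_zero]) hy hx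
  rw [zero_mul] at h1
  exact sub_eq_zero.1 (norm_le_zero_iff.1 h1)

/-- real form -/
theorem limR (hn : 3 ≤ n) (hv : ConvexIndependent ℝ v) (ha : Integrable a) (hA : Ap v a) :
    ∃ c : ℝ, ∀ᵐ x, x ∈ PP v → a x = c := by
  have hleb : ∀ᵐ x : ℂ, Tendsto (fun d => V a d x) (𝓝[>] 0) (𝓝 (Z0 * a x)) := by
    filter_upwards [IsUnifLocDoublingMeasure.ae_tendsto_average_norm_sub
      (μ := (volume : Measure ℂ)) ha.locallyIntegrable 1] with x hx
    have h1 := hx (fun _ : ℝ => x) (fun d : ℝ => d) (l := 𝓝[>] 0) tendsto_id (by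
      filter_upwards [self_mem_nhdsWithin] with d hd
      rw [one_mul]
      exact Metric.mem_closedBall_self (le_of_lt hd))
    have h2 := h1.const_mul Real.pi
    rw [mul_zero] at h2
    rw [tendsto_iff_norm_sub_tendsto_zero]
    refine squeeze_zero' (Eventually.of_forall (fun d => norm_nonneg _)) ?_ h2
    filter_upwards [self_mem_nhdsWithin] with d hd
    rw [Real.norm_eq_abs]
    exact leb_est ha x hd
  have hne : (volume (PP v)) ≠ 0 :=
    (isOpen_PP.measure_pos volume (PP_nonempty hn hv)).ne'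
  obtain ⟨x1, hx1, hx1P⟩ : ∃ x1,
      Tendsto (fun d => V a d x1) (𝓝[>] 0) (𝓝 (Z0 * a x1)) ∧ x1 ∈ PP v := by
    by_contra hcon
    push Not at hcon
    apply hne
    have h3 : volume {x | ¬ Tendsto (fun d => V a d x) (𝓝[>] 0) (𝓝 (Z0 * a x))} = 0 := hleb
    exact measure_mono_null (fun x hx h => hcon x h hx) h3
  refine ⟨a x1, ?_⟩
  filter_upwards [hleb] with x hx hxP
  obtain ⟨d1, hd1, hd1s⟩ := Metric.nhds_basis_closedBall.mem_iff.1 (isOpen_PP.mem_nhds hxP)
  obtain ⟨d2, hd2, hd2s⟩ := Metric.nhds_basis_closedBall.mem_iff.1 (isOpen_PP.mem_nhds hx1P)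
  have h4 : ∀ᶠ d in 𝓝[>] (0 : ℝ), V a d x = V a d x1 := by
    have h5 : Ioo (0 : ℝ) (min d1 d2) ∈ 𝓝[>] (0 : ℝ) := Ioo_mem_nhdsGT (lt_min hd1 hd2)
    filter_upwards [h5] with d hd
    have a1 : d ≤ d1 := (hd.2.trans_le (min_le_left _ _)).le
    have a2 : d ≤ d2 := (hd.2.trans_le (min_le_right _ _)).le
    exact V_const ha hA hd.1
      ((Metric.closedBall_subset_closedBall a1).trans hd1s)
      ((Metric.closedBall_subset_closedBall a2).trans hd2s)
  have h6 : Z0 * a x = Z0 * a x1 := tendsto_nhds_unique (hx.congr' h4) hx1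
  exact mul_left_cancel₀ Z0_pos.ne' h6

theorem apL {g : ℂ → ℂ} (L : ℂ →L[ℝ] ℝ) (hL : ∀ z, |L z| ≤ ‖z‖) (hg : Integrable g)
    (h : ∀ η > 0, ∃ u : ℂ → ℂ, ContDiff ℝ 1 u ∧
      ∫ x in PP v, (‖dz u x‖ ^ 2 + ‖dzb u x‖ ^ 2) ≤ η ∧ ∫ x in PP v, ‖u x - g x‖ ≤ η) :
    Ap v (fun x => L (g x)) := by
  intro η hη
  obtain ⟨u, hu1, hu2, hu3⟩ := h (η / 2) (by positivity)
  have cf : Continuous (fderiv ℝ u) := hu1.continuous_fderiv one_ne_zero
  have c1 : Continuous (dz u) := by
    unfold dz
    exact ((cf.clm_apply continuous_const).sub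
      (continuous_const.mul (cf.clm_apply continuous_const))).div_const 2
  have c2 : Continuous (dzb u) := by
    unfold dzb
    exact ((cf.clm_apply continuous_const).add
      (continuous_const.mul (cf.clm_apply continuous_const))).div_const 2
  have hLu : ContDiff ℝ 1 (fun x => L (u x)) := L.contDiff.comp hu1
  have hfd : ∀ x k, fderiv ℝ (fun x => L (u x)) x k = L (fderiv ℝ u x k) := by
    intro x k
    have h1 : HasFDerivAt u (fderiv ℝ u x) x :=
      (hu1.differentiable one_ne_zero x).hasFDerivAt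
    have h2 := (L.hasFDerivAt (x := u x)).comp x h1
    have h3 : fderiv ℝ (fun x => L (u x)) x = L.comp (fderiv ℝ u x) := h2.fderiv
    rw [h3]
    rfl
  refine ⟨fun x => L (u x), hLu, ?_, ?_⟩
  · intro k hk
    have hb : ∀ x, fderiv ℝ (fun x => L (u x)) x k ^ 2 ≤ 2 * (‖dz u x‖ ^ 2 + ‖dzb u x‖ ^ 2) := by
      intro x
      rw [hfd]
      have e1 : fderiv ℝ u x 1 = dz u x + dzb u x := by
        unfold dz dzb; ring
      have e2 : fderiv ℝ u x I = I * (dz u x - dzb u x) := by
        unfold dz dzb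
        have hI : I * I = -1 := I_mul_I
        linear_combination (fderiv ℝ u x I) * hI
      have h1 : ‖fderiv ℝ u x k‖ ≤ ‖dz u x‖ + ‖dzb u x‖ := by
        rcases hk with rfl | rfl
        · rw [e1]; exact norm_add_le _ _
        · rw [e2, norm_mul, norm_I, one_mul]; exact norm_sub_le _ _
      have h2 : |L (fderiv ℝ u x k)| ≤ ‖dz u x‖ + ‖dzb u x‖ := (hL _).trans h1
      rw [← sq_abs]
      have h3 : |L (fderiv ℝ u x k)| ^ 2 ≤ (‖dz u x‖ + ‖dzb u x‖) ^ 2 := by
        have := abs_nonneg (L (fderiv ℝ u x k))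
        gcongr
      nlinarith [sq_nonneg (‖dz u x‖ - ‖dzb u x‖)]
    have ci : IntegrableOn (fun x => fderiv ℝ (fun x => L (u x)) x k ^ 2) (PP v) :=
      intPP (((hLu.continuous_fderiv one_ne_zero).clm_apply continuous_const).pow 2)
    have ci2 : IntegrableOn (fun x => 2 * (‖dz u x‖ ^ 2 + ‖dzb u x‖ ^ 2)) (PP v) :=
      intPP (continuous_const.mul ((c1.norm.pow 2).add (c2.norm.pow 2)))
    have h1 := setIntegral_mono ci ci2 hb
    rw [integral_const_mul] at h1
    linarith
  · have ci : IntegrableOn (fun x => |L (u x) - L (g x)|) (PP v) :=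
      ((intPP (v := v) hLu.continuous).sub (L.integrable_comp hg).integrableOn).abs
    have ci2 : IntegrableOn (fun x => ‖u x - g x‖) (PP v) := by
      have : IntegrableOn u (PP v) :=
        (hu1.continuous.continuousOn.integrableOn_compact isCompact_KK).mono_set PP_sub_KK
      exact (this.sub hg.integrableOn).norm
    have h1 := setIntegral_mono ci ci2 (fun x => by
      simp only
      rw [← map_sub]
      exact hL _)
    linarith

/-- (LIM) a limit in the mean of functions of small energy is constant -/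
theorem lim (hn : 3 ≤ n) (hv : ConvexIndependent ℝ v) {g : ℂ → ℂ} (hg : Integrable g)
    (h : ∀ η > 0, ∃ u : ℂ → ℂ, ContDiff ℝ 1 u ∧
      ∫ x in PP v, (‖dz u x‖ ^ 2 + ‖dzb u x‖ ^ 2) ≤ η ∧ ∫ x in PP v, ‖u x - g x‖ ≤ η) :
    ∃ c : ℂ, ∀ᵐ x, x ∈ PP v → g x = c := by
  obtain ⟨c1, h1⟩ := limR hn hv (reCLM.integrable_comp hg)
    (apL reCLM (fun z => abs_re_le_norm z) hg h)
  obtain ⟨c2, h2⟩ := limR hn hv (imCLM.integrable_comp hg)
    (apL imCLM (fun z => abs_im_le_norm z) hg h)
  refine ⟨(c1 : ℂ) + (c2 : ℂ) * I, ?_⟩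
  filter_upwards [h1, h2] with x hx1 hx2 hxP
  have e1 : (g x).re = c1 := hx1 hxP
  have e2 : (g x).im = c2 := hx2 hxP
  rw [← e1, ← e2]
  exact (re_add_im _).symm

end Pool.Agent.Lib.BilF.Lim89
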