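import Pool.Agent.Lib.MP_7bc51d_an_full.Defs
import Pool.Agent.Lib.MP_7bc51d_an_full.Conv89
import Pool.Agent.Lib.MP_7bc51d_an_full.Lim89

/-!
# Rows CONV and LIMX
-/

set_option autoImplicit false

namespace Pool.Agent.Lib.BilF.ConvX89

open Complex MeasureTheory Set Filter Topology
open scoped ComplexConjugate ENNReal
open Pool.Agent.Lib.Bil Pool.Agent.Lib.BilD Pool.Agent.Lib.BilE
open Pool.Agent.Lib.BilD.Lim89 (Z0 Z0_pos)

variable {n : ℕ} {v : Fin n → ℂ}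

theorem bm_F {F : ℂ → ℝ → ℝ} (hF : LF F) : Conv89.BM (fun x w => F w (cr w x)) := by
  refine ⟨?_, fun x w => hF.bd _ _⟩
  have h1 : Measurable (fun p : ℂ × ℂ => cr p.2 p.1) := by
    unfold cr
    fun_prop
  exact hF.meas.comp (measurable_snd.prodMk h1)

theorem bm_XF {F : ℂ → ℝ → ℝ} (hF : LF F) {X : ℂ → ℂ → ℝ}
    (hX : Measurable (fun p : ℂ × ℂ => X p.1 p.2)) (h0 : ∀ x w, 0 ≤ X x w)
    (h1 : ∀ x w, X x w ≤ 1) : Conv89.BM (XF X F) := by
  refine ⟨?_, fun x w => ?_⟩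
  · exact hX.mul (bm_F hF).meas
  · unfold XF
    rw [abs_mul]
    calc |X x w| * |F w (cr w x)| ≤ 1 * 1 := by
          apply mul_le_mul _ (hF.bd _ _) (abs_nonneg _) zero_le_one
          rw [abs_of_nonneg (h0 x w)]; exact h1 x w
      _ = 1 := one_mul 1

theorem lint_XF {F : ℂ → ℝ → ℝ} (hF : LF F) {X : ℂ → ℂ → ℝ}
    (hX : Measurable (fun p : ℂ × ℂ => X p.1 p.2)) (h0 : ∀ x w, 0 ≤ X x w)
    (h1 : ∀ x w, X x w ≤ 1) :
    ∫⁻ x in PP v, ∫⁻ w in BV, ‖XF X F x w - F w (cr w x)‖ₑ ≤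
      volume {q : ℂ × ℂ | q ∈ DD v ∧ X q.1 q.2 ≠ 1} := by
  have hS : MeasurableSet {q : ℂ × ℂ | X q.1 q.2 ≠ 1} :=
    (measurableSet_eq_fun hX measurable_const).compl
  have e1 : ∫⁻ x in PP v, ∫⁻ w in BV, ‖XF X F x w - F w (cr w x)‖ₑ =
      ∫⁻ q in DD v, ‖XF X F q.1 q.2 - F q.2 (cr q.2 q.1)‖ₑ := by
    have hm : Measurable (fun q : ℂ × ℂ => ‖XF X F q.1 q.2 - F q.2 (cr q.2 q.1)‖ₑ) :=
      ((bm_XF hF hX h0 h1).meas.sub (bm_F hF).meas).enorm
    unfold DD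
    rw [Measure.volume_eq_prod, ← Measure.prod_restrict,
      lintegral_prod _ hm.aemeasurable]
  rw [e1]
  have e2 : volume {q : ℂ × ℂ | q ∈ DD v ∧ X q.1 q.2 ≠ 1} =
      ∫⁻ q in DD v, {q : ℂ × ℂ | X q.1 q.2 ≠ 1}.indicator (fun _ => (1 : ℝ≥0∞)) q := by
    rw [lintegral_indicator hS, lintegral_one, Measure.restrict_restrict hS,
      Measure.restrict_apply_univ]
    congr 1
    ext q
    simp only [Set.mem_ofPred_eq, mem_inter_iff]
    exact and_comm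
  rw [e2]
  refine lintegral_mono (fun q => ?_)
  by_cases hq : X q.1 q.2 = 1
  · have : XF X F q.1 q.2 - F q.2 (cr q.2 q.1) = 0 := by
      unfold XF; rw [hq, one_mul, sub_self]
    simp only [this, enorm_zero]
    exact bot_le
  · have hm : q ∈ {q : ℂ × ℂ | X q.1 q.2 ≠ 1} := hq
    simp only
    rw [indicator_of_mem hm, ← ofReal_norm]
    refine ENNReal.ofReal_le_one.2 ?_
    have h3 : XF X F q.1 q.2 - F q.2 (cr q.2 q.1) = (X q.1 q.2 - 1) * F q.2 (cr q.2 q.1) := by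
      unfold XF; ring
    rw [h3, norm_mul, Real.norm_eq_abs, Real.norm_eq_abs]
    calc |X q.1 q.2 - 1| * |F q.2 (cr q.2 q.1)| ≤ 1 * 1 := by
          apply mul_le_mul _ (hF.bd _ _) (abs_nonneg _) zero_le_one
          rw [abs_le]
          constructor
          · linarith [h0 q.1 q.2]
          · linarith [h1 q.1 q.2]
      _ = 1 := one_mul 1

theorem row : StConv := by
  intro n v C e0 hG F hF p η hη
  have hZ := Z0_pos
  obtain ⟨r0, hr0, h⟩ := Conv89.conv hG.edn (bm_F hF.lf) p (η := η / 2) (by positivity)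
  set K : ℝ := Z0 * ((n : ℝ) ^ 2 + 1) with hK
  have hK0 : 0 < K := by rw [hK]; positivity
  set δ : ℝ := min r0 (η / (2 * K)) with hδ
  have hδ0 : 0 < δ := lt_min hr0 (by positivity)
  refine ⟨δ, hδ0, fun ε hε hε1 X hX h0 h1 hV => ?_⟩
  have hfin : volume {q : ℂ × ℂ | q ∈ DD v ∧ X q.1 q.2 ≠ 1} ≠ ⊤ := by
    refine ne_top_of_le_ne_top ?_ (measure_mono (t := DD v) (fun q hq => hq.1))
    unfold DD
    rw [Measure.volume_eq_prod, Measure.prod_prod]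
    exact ENNReal.mul_ne_top isBounded_PP.measure_lt_top.ne
      Metric.isBounded_ball.measure_lt_top.ne
  have h2 : ∫⁻ x in PP v, ∫⁻ w in BV, ‖XF X F x w - F w (cr w x)‖ₑ ≤ ENNReal.ofReal δ := by
    refine (lint_XF hF.lf hX h0 h1).trans ?_
    rw [← ENNReal.ofReal_toReal hfin]
    exact ENNReal.ofReal_le_ofReal hV
  have hBX := bm_XF hF.lf hX h0 h1
  have h3 := h ε hε (hε1.trans_le (min_le_left _ _)) (XF X F) hBX δ hδ0.le h2
  have h4 : K * δ ≤ η / 2 := by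
    have : δ ≤ η / (2 * K) := min_le_right _ _
    calc K * δ ≤ K * (η / (2 * K)) := by gcongr
      _ = η / 2 := by field_simp
  have h5 : ∫ x, ‖uX v (XF X F) p ε x - (Z0 : ℂ) * am v F p x‖ ≤ η := by
    have h6 : ∫ x, ‖uX v (XF X F) p ε x - (Z0 : ℂ) * am v F p x‖ ≤ K * δ + η / 2 := h3
    linarith
  refine le_trans ?_ h5
  refine setIntegral_le_integral ?_ (Eventually.of_forall (fun x => norm_nonneg _))
  have i1 := Mol89.M_int (Conv89.aX_int hG.edn hBX p) hε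
  have i2 := Conv89.aX_int hG.edn (bm_F hF.lf) p
  exact (i1.sub (i2.const_mul (Z0 : ℂ))).norm

/-- (LIMX) -/
theorem rowLim (hSmo : StSmoX) (hConv : StConv) : StLimX := by
  intro n v C e0 hn hv hG F hF p hyp
  have hZ := Z0_pos
  have key : ∃ c : ℂ, ∀ᵐ x, x ∈ PP v → (Z0 : ℂ) * am v F p x = c := by
    refine Lim89.lim hn hv ((Conv89.aX_int hG.edn (bm_F hF.lf) p).const_mul _) ?_
    intro η hη
    obtain ⟨δ, hδ, hc⟩ := hConv n v C e0 hG F hF p η hη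
    obtain ⟨ε, X, hε, hε1, hX, h0, h1, hV, hE⟩ := hyp (min η δ) (lt_min hη hδ)
    have hAG : AG (XF X F) := ⟨(bm_XF hF.lf hX h0 h1).meas, (bm_XF hF.lf hX h0 h1).bd⟩
    refine ⟨uX v (XF X F) p ε, ((hSmo n v C e0 hG _ hAG ε hε p).1).of_le (by norm_num), ?_, ?_⟩
    · exact le_trans hE (min_le_left _ _)
    · exact hc ε hε (hε1.trans_le (min_le_right _ _)) X hX h0 h1 (hV.trans (min_le_right _ _))
  obtain ⟨c, hc⟩ := key
  have hZ' : (Z0 : ℂ) ≠ 0 := by exact_mod_cast hZ.ne'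
  refine ⟨c / Z0, ?_⟩
  filter_upwards [hc] with x hx hxP
  rw [eq_div_iff hZ', mul_comm]
  exact hx hxP

end Pool.Agent.Lib.BilF.ConvX89
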