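import Pool.Agent.Lib.MP_7bc51d_an_full.CapDefs
import Pool.Agent.Lib.MP_7bc51d_an_full.Vol98
import Pool.Agent.Lib.MP_7bc51d_an_erg.CutA5

/-!
# The anisotropic distance: all properties
-/

set_option autoImplicit false

namespace Pool.Agent.Lib.BilF.CutD5

open Complex MeasureTheory Set Filter Topology
open scoped ComplexConjugate ENNReal
open Pool.Agent.Lib.Bil Pool.Agent.Lib.BilD
open Pool.Agent.Lib.BilE (Da Cst cst)
open Pool.Agent.Lib.BilE.Tau5 Pool.Agent.Lib.BilE.CutA5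

variable {n : ℕ} {v : Fin n → ℂ} {a b : ℝ}

open Classical in
/-- Anisotropic distance to the vertices, capped at `1`. -/
noncomputable def D5 (v : Fin n → ℂ) (a b : ℝ) (x w : ℂ) : ℝ :=
  if x ∈ KK v ∧ w ≠ 0 then min 1 (Da v a b x w) else 0

theorem D5_eq {x w : ℂ} (hx : x ∈ KK v) (hw : w ≠ 0) : D5 v a b x w = min 1 (Da v a b x w) := by
  unfold D5; rw [if_pos ⟨hx, hw⟩]

theorem D5_zero {x w : ℂ} (h : ¬ (x ∈ KK v ∧ w ≠ 0)) : D5 v a b x w = 0 := by
  unfold D5; rw [if_neg h]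

theorem min_sub {p q δ : ℝ} (h : |p - q| ≤ δ) : |min 1 p - min 1 q| ≤ δ := by
  rw [abs_le] at *
  obtain ⟨h1, h2⟩ := h
  constructor
  · rcases le_total 1 p with h3 | h3 <;> rcases le_total 1 q with h4 | h4 <;>
      simp only [min_eq_left h3, min_eq_left h4, min_eq_right h3, min_eq_right h4] <;> linarith
  · rcases le_total 1 p with h3 | h3 <;> rcases le_total 1 q with h4 | h4 <;>
      simp only [min_eq_left h3, min_eq_left h4, min_eq_right h3, min_eq_right h4] <;> linarith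

/-! ### measurability -/

theorem meas_tau (g : List (Fin n × Fin n)) :
    Measurable (fun p : ℂ × ℂ => Pool.Agent.Lib.BilE.tau v p.1 p.2 g) := by
  cases g with
  | nil => exact measurable_const
  | cons s g =>
    change Measurable (fun p : ℂ × ℂ => -cr (v s.2 - v s.1) (Fo v g p.1 - v s.1) /
      cr (v s.2 - v s.1) (Lo v g p.2))
    have h1 : Continuous (fun p : ℂ × ℂ => cr (v s.2 - v s.1) (Fo v g p.1 - v s.1)) := by
      have := (continuous_Fo (v := v) g).comp (continuous_fst (X := ℂ) (Y := ℂ))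
      unfold cr
      fun_prop
    have h2 : Continuous (fun p : ℂ × ℂ => cr (v s.2 - v s.1) (Lo v g p.2)) := by
      have := (continuous_Lo (v := v) g).comp (continuous_snd (X := ℂ) (Y := ℂ))
      unfold cr
      fun_prop
    exact h1.measurable.neg.div h2.measurable

theorem meas_cst (g : List (Fin n × Fin n)) (l : Fin n) :
    Measurable (fun p : ℂ × ℂ => cst v a b p.1 p.2 g l) := by
  unfold Pool.Agent.Lib.BilE.cst
  have h2 : Continuous (fun p : ℂ × ℂ => |cr (Lo v g p.2) (v l - Fo v g p.1)|) := by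
    have h3 := (continuous_Fo (v := v) g).comp (continuous_fst (X := ℂ) (Y := ℂ))
    have h4 := (continuous_Lo (v := v) g).comp (continuous_snd (X := ℂ) (Y := ℂ))
    unfold cr
    fun_prop
  have h1 := meas_tau (v := v) g
  have h3 : Measurable (fun p : ℂ × ℂ => ‖p.2‖) := measurable_snd.norm
  exact ((h1.mul h3).const_mul a).add ((h2.measurable.div h3).const_mul b)

/-- Phase points realizing a cost `< r` by a forward code. -/
def Fw (v : Fin n → ℂ) (a b r : ℝ) : Set (ℂ × ℂ) :=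
  {p | ∃ (g : List (Fin n × Fin n)) (l : Fin n), Rz v g p.1 p.2 ∧ cst v a b p.1 p.2 g l < r}

theorem meas_Fw (r : ℝ) : MeasurableSet (Fw v a b r) := by
  have : Fw v a b r = ⋃ g : List (Fin n × Fin n), ⋃ l : Fin n,
      ({p : ℂ × ℂ | Rz v g p.1 p.2} ∩ {p : ℂ × ℂ | cst v a b p.1 p.2 g l < r}) := by
    ext p
    simp only [Fw, mem_iUnion]
    rfl
  rw [this]
  exact MeasurableSet.iUnion (fun g => MeasurableSet.iUnion (fun l =>
    (isOpen_Rz g).measurableSet.inter (measurableSet_lt (meas_cst g l) measurable_const)))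

theorem Da_lt_iff (hn : 3 ≤ n) (hv : ConvexIndependent ℝ v) (ha : 0 ≤ a) (hb : 0 ≤ b) {x w : ℂ}
    (hx : x ∈ KK v) (r : ℝ) :
    Da v a b x w < r ↔ (x, w) ∈ Fw v a b r ∨ (x, -w) ∈ Fw v a b r := by
  unfold Pool.Agent.Lib.BilE.Da
  rw [csInf_lt_iff (Cst_bdd hv ha hb hx) (Cst_nonempty hn x w)]
  constructor
  · rintro ⟨c, ⟨g, l, ⟨h1, rfl⟩ | ⟨h1, rfl⟩⟩, hc⟩
    · exact Or.inl ⟨g, l, h1, hc⟩
    · exact Or.inr ⟨g, l, h1, hc⟩
  · rintro (⟨g, l, h1, hc⟩ | ⟨g, l, h1, hc⟩)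
    · exact ⟨_, ⟨g, l, Or.inl ⟨h1, rfl⟩⟩, hc⟩
    · exact ⟨_, ⟨g, l, Or.inr ⟨h1, rfl⟩⟩, hc⟩

theorem meas_D5 (hn : 3 ≤ n) (hv : ConvexIndependent ℝ v) (ha : 0 ≤ a) (hb : 0 ≤ b) :
    Measurable (fun p : ℂ × ℂ => D5 v a b p.1 p.2) := by
  have hK : MeasurableSet {p : ℂ × ℂ | p.1 ∈ KK v ∧ p.2 ≠ 0} :=
    ((isCompact_KK (v := v)).isClosed.measurableSet.preimage measurable_fst).inter
      ((measurableSet_singleton (0 : ℂ)).compl.preimage measurable_snd)
  refine measurable_of_Iio (fun r => ?_)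
  by_cases h1 : 1 < r
  · have : (fun p : ℂ × ℂ => D5 v a b p.1 p.2) ⁻¹' Iio r = univ := by
      ext p
      simp only [mem_preimage, mem_Iio, mem_univ, iff_true]
      by_cases hp : p.1 ∈ KK v ∧ p.2 ≠ 0
      · rw [D5_eq hp.1 hp.2]; exact (min_le_left _ _).trans_lt h1
      · rw [D5_zero hp]; linarith
    rw [this]; exact MeasurableSet.univ
  push Not at h1
  have hset : {p : ℂ × ℂ | p.1 ∈ KK v ∧ p.2 ≠ 0} ∩ (fun p : ℂ × ℂ => D5 v a b p.1 p.2) ⁻¹' Iio r =
      {p : ℂ × ℂ | p.1 ∈ KK v ∧ p.2 ≠ 0} ∩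
        (Fw v a b r ∪ (fun p : ℂ × ℂ => (p.1, -p.2)) ⁻¹' Fw v a b r) := by
    ext p
    simp only [mem_inter_iff, mem_preimage, mem_Iio, mem_union]
    refine and_congr_right (fun hp => ?_)
    rw [D5_eq hp.1 hp.2, min_lt_iff, or_iff_right (not_lt.2 h1), Da_lt_iff hn hv ha hb hp.1]
  have hm1 : MeasurableSet ({p : ℂ × ℂ | p.1 ∈ KK v ∧ p.2 ≠ 0} ∩
      (fun p : ℂ × ℂ => D5 v a b p.1 p.2) ⁻¹' Iio r) := by
    rw [hset]
    exact hK.inter ((meas_Fw r).union ((meas_Fw r).preimage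
      (measurable_fst.prodMk measurable_snd.neg)))
  by_cases h0 : 0 < r
  · have : (fun p : ℂ × ℂ => D5 v a b p.1 p.2) ⁻¹' Iio r =
        ({p : ℂ × ℂ | p.1 ∈ KK v ∧ p.2 ≠ 0} ∩ (fun p : ℂ × ℂ => D5 v a b p.1 p.2) ⁻¹' Iio r) ∪
          {p : ℂ × ℂ | p.1 ∈ KK v ∧ p.2 ≠ 0}ᶜ := by
      ext p
      by_cases hp : p.1 ∈ KK v ∧ p.2 ≠ 0
      · simp [hp]
      · simp only [mem_preimage, mem_Iio, mem_union, mem_inter_iff, mem_compl_iff]
        rw [D5_zero hp]
        constructor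
        · intro _; exact Or.inr hp
        · intro _; exact h0
    rw [this]
    exact hm1.union hK.compl
  · have : (fun p : ℂ × ℂ => D5 v a b p.1 p.2) ⁻¹' Iio r =
        ({p : ℂ × ℂ | p.1 ∈ KK v ∧ p.2 ≠ 0} ∩
          (fun p : ℂ × ℂ => D5 v a b p.1 p.2) ⁻¹' Iio r) := by
      ext p
      simp only [mem_preimage, mem_Iio, mem_inter_iff]
      constructor
      · intro h
        refine ⟨?_, h⟩
        by_contra hp
        rw [D5_zero hp] at h
        exact h0 h
      · exact fun h => h.2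
    rw [this]
    exact hm1

/-! ### volume -/

theorem exists_R (v : Fin n → ℂ) : ∃ R : ℝ, 0 < R ∧ ∀ p ∈ KK v, ∀ q ∈ KK v, ‖p - q‖ ≤ R := by
  obtain ⟨R, hR⟩ := (isCompact_KK (v := v)).isBounded.exists_norm_le
  refine ⟨|R| + |R| + 1, by positivity, fun p hp q hq => ?_⟩
  have h1 := (hR p hp).trans (le_abs_self R)
  have h2 := (hR q hq).trans (le_abs_self R)
  have h3 := norm_sub_le p q
  linarith

theorem Fw_see (hv : ConvexIndependent ℝ v) (ha : 0 < a) (hb : 0 < b) {R : ℝ}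
    (hR : ∀ p ∈ KK v, ∀ q ∈ KK v, ‖p - q‖ ≤ R) {r : ℝ} {x w : ℂ} (hx : x ∈ KK v) (hw : w ≠ 0)
    (h : (x, w) ∈ Fw v a b r) : ∃ (g : List (Fin n × Fin n)) (l : Fin n),
      Rz v g x w ∧ |dt (Lo v g w) (v l - Fo v g x)| < (r / a + R) * ‖w‖ ∧
        |cr (Lo v g w) (v l - Fo v g x)| < (r / b) * ‖w‖ := by
  obtain ⟨g, l, h1, h2⟩ := h
  change Rz v g x w at h1
  change cst v a b x w g l < r at h2
  have hwn : 0 < ‖w‖ := norm_pos_iff.2 hw
  have ht := tau_nonneg hv hx h1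
  unfold Pool.Agent.Lib.BilE.cst at h2
  have h3 : 0 ≤ a * (Pool.Agent.Lib.BilE.tau v x w g * ‖w‖) := by positivity
  have h4 : 0 ≤ b * (|cr (Lo v g w) (v l - Fo v g x)| / ‖w‖) := by positivity
  refine ⟨g, l, h1, ?_, ?_⟩
  · have h5 : Pool.Agent.Lib.BilE.tau v x w g * ‖w‖ < r / a := by
      rw [lt_div_iff₀ ha]; linarith
    -- the entrance point
    have h6 : ∃ p ∈ KK v, ‖p - Fo v g x‖ ≤ Pool.Agent.Lib.BilE.tau v x w g * ‖w‖ := by
      cases g with
      | nil =>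
        refine ⟨x, hx, ?_⟩
        change ‖x - x‖ ≤ _
        rw [sub_self, norm_zero]
        exact mul_nonneg ht hwn.le
      | cons s g =>
        refine ⟨Bp v x w (s :: g), Bp_KK hv h1, ?_⟩
        unfold Bp
        rw [Fo_sub, add_sub_cancel_left, norm_Lo hv h1.val, norm_mul, norm_real,
          Real.norm_eq_abs, abs_of_nonneg ht]
    obtain ⟨p, hp, hp2⟩ := h6
    have h7 : ‖v l - Fo v g x‖ < r / a + R := by
      have h8 := hR (v l) (subset_convexHull ℝ _ (mem_range_self l)) p hp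
      have e : v l - Fo v g x = (v l - p) + (p - Fo v g x) := by ring
      calc ‖v l - Fo v g x‖ ≤ ‖v l - p‖ + ‖p - Fo v g x‖ := by rw [e]; exact norm_add_le _ _
        _ < R + r / a := by linarith
        _ = _ := add_comm _ _
    have h9 : |dt (Lo v g w) (v l - Fo v g x)| ≤ ‖Lo v g w‖ * ‖v l - Fo v g x‖ := by
      have e : dt (Lo v g w) (v l - Fo v g x) = (conj (Lo v g w) * (v l - Fo v g x)).re := by
        simp only [dt, mul_re, conj_re, conj_im]; ring
      rw [e]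
      refine (abs_re_le_norm _).trans ?_
      rw [norm_mul, norm_conj]
    rw [norm_Lo hv h1.val] at h9
    calc _ ≤ ‖w‖ * ‖v l - Fo v g x‖ := h9
      _ < ‖w‖ * (r / a + R) := by gcongr
      _ = _ := mul_comm _ _
  · have h5 : |cr (Lo v g w) (v l - Fo v g x)| / ‖w‖ < r / b := by
      rw [lt_div_iff₀ hb]; linarith
    rwa [div_lt_iff₀ hwn] at h5

/-- (CUTD) for `D5`. -/
theorem cutD (hn : 3 ≤ n) (hv : ConvexIndependent ℝ v) : ∃ C : ℝ, 0 < C ∧ ∀ a b : ℝ, 0 < a →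
    0 < b → CutD v C a b (D5 v a b) := by
  obtain ⟨R, hR0, hR⟩ := exists_R v
  have hpi := Real.pi_pos
  have hn0 : (0 : ℝ) < n := by
    have : 0 < n := by omega
    exact_mod_cast this
  refine ⟨2 * R + 2 * (n * (4 * Real.pi)) * (1 + R), by positivity, fun a b ha hb => ?_⟩
  refine ⟨meas_D5 hn hv ha.le hb.le, ?_, ?_, ?_, ?_, ?_, ?_, ?_⟩
  · intro x w
    by_cases hp : x ∈ KK v ∧ w ≠ 0
    · rw [D5_eq hp.1 hp.2]; exact le_min zero_le_one (Da_nonneg hn hv ha.le hb.le hp.1)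
    · rw [D5_zero hp]
  · intro x w
    by_cases hp : x ∈ KK v ∧ w ≠ 0
    · rw [D5_eq hp.1 hp.2]; exact min_le_left _ _
    · rw [D5_zero hp]; exact zero_le_one
  · intro x w l
    by_cases hp : x ∈ KK v ∧ w ≠ 0
    · rw [D5_eq hp.1 hp.2]
      refine (min_le_right _ _).trans ?_
      have hwn : 0 < ‖w‖ := norm_pos_iff.2 hp.2
      refine (Da_le hv ha.le hb.le hp.1 (c := cst v a b x w [] l)
        ⟨[], l, Or.inl ⟨trivial, rfl⟩⟩).trans ?_
      change a * (0 * ‖w‖) + b * (|cr w (v l - x)| / ‖w‖) ≤ _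
      rw [zero_mul, mul_zero, zero_add]
      gcongr
      rw [div_le_iff₀ hwn, norm_sub_rev, mul_comm]
      exact BilE.CutA5.abs_cr_le _ _
    · rw [D5_zero hp]; positivity
  · intro x w t hx hy
    by_cases hw : w = 0
    · subst hw
      simp
    · rw [D5_eq hx hw, D5_eq hy hw]
      exact min_sub (BilE.CutA5.flow hn hv ha.le hb.le hx hy)
  · intro s hs τ hτ w hw
    have hs' := mem_SD.1 hs
    have hne := v_sub_ne hv hs'.1
    have hpK : v s.1 + (τ : ℂ) * ed v s ∈ KK v := side_point_mem_KK hτ.1.le hτ.2.le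
    have hw0 : w ≠ 0 := by rintro rfl; rw [cr_zero_right] at hw; exact hw rfl
    have hw1 : rl (ed v s) w ≠ 0 := by
      intro h
      have := norm_rl hne w
      change ‖rl (ed v s) w‖ = ‖w‖ at this
      rw [h, norm_zero] at this
      exact hw0 (norm_eq_zero.1 this.symm)
    rw [D5_eq hpK hw0, D5_eq hpK hw1]
    congr 1
    exact BilE.CutA5.side hn hv ha.le hb.le hs' hτ.1 hτ.2 w
  · intro x hx y hy w hw
    rw [D5_eq hx hw, D5_eq hy hw]
    have h1 := across0 hn hv ha.le hb.le hR hw hx hy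
    have h2 : a * (2 * R) ≤ (2 * R + 2 * (n * (4 * Real.pi)) * (1 + R)) * a := by
      have : 0 ≤ 2 * (n * (4 * Real.pi)) * (1 + R) * a := by positivity
      nlinarith
    have h3 : 0 ≤ b * (|cr w (x - y)| / ‖w‖) := by positivity
    have h4 : 0 ≤ (2 * R + 2 * (n * (4 * Real.pi)) * (1 + R)) * a := by positivity
    rcases le_total 1 (Da v a b x w) with h5 | h5
    · rw [min_eq_left h5]
      have := min_le_left 1 (Da v a b y w)
      linarith
    · rw [min_eq_right h5]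
      have := min_le_right 1 (Da v a b y w)
      linarith
  · intro r hr0 hr1
    have hsub : {p : ℂ × ℂ | p.1 ∈ PP v ∧ ‖p.2‖ < 1 ∧ D5 v a b p.1 p.2 < r} ⊆
        (univ ×ˢ {(0 : ℂ)}) ∪ ({p : ℂ × ℂ | p.1 ∈ PP v ∧ ‖p.2‖ < 1 ∧
          ∃ (g : List (Fin n × Fin n)) (l : Fin n), Rz v g p.1 p.2 ∧
            |dt (Lo v g p.2) (v l - Fo v g p.1)| < (r / a + R) * ‖p.2‖ ∧
            |cr (Lo v g p.2) (v l - Fo v g p.1)| < (r / b) * ‖p.2‖} ∪
          (fun p : ℂ × ℂ => (p.1, -p.2)) ⁻¹' {p : ℂ × ℂ | p.1 ∈ PP v ∧ ‖p.2‖ < 1 ∧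
          ∃ (g : List (Fin n × Fin n)) (l : Fin n), Rz v g p.1 p.2 ∧
            |dt (Lo v g p.2) (v l - Fo v g p.1)| < (r / a + R) * ‖p.2‖ ∧
            |cr (Lo v g p.2) (v l - Fo v g p.1)| < (r / b) * ‖p.2‖}) := by
      rintro p ⟨hp1, hp2, hp3⟩
      by_cases hw : p.2 = 0
      · left; exact ⟨mem_univ _, hw⟩
      right
      have hpK := PP_sub_KK hp1
      rw [D5_eq hpK hw, min_lt_iff, or_iff_right (by linarith),
        Da_lt_iff hn hv ha.le hb.le hpK] at hp3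
      rcases hp3 with h | h
      · left
        exact ⟨hp1, hp2, Fw_see hv ha hb hR hpK hw h⟩
      · right
        refine ⟨hp1, ?_, Fw_see hv ha hb hR hpK (neg_ne_zero.2 hw) h⟩
        change ‖-p.2‖ < 1
        rw [norm_neg]; exact hp2
    have hz : volume ((univ : Set ℂ) ×ˢ {(0 : ℂ)}) = 0 := by
      rw [Measure.volume_eq_prod, Measure.prod_prod, measure_singleton, mul_zero]
    have hmp : MeasurePreserving (fun p : ℂ × ℂ => (p.1, -p.2)) volume volume := by
      have := (MeasurePreserving.id (volume : Measure ℂ)).prod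
        (Measure.measurePreserving_neg (volume : Measure ℂ))
      exact this
    have hemb : MeasurableEmbedding (fun p : ℂ × ℂ => (p.1, -p.2)) := by
      refine (by fun_prop : Continuous (fun p : ℂ × ℂ => (p.1, -p.2))).measurableEmbedding ?_
      intro p q h
      rw [Prod.mk.injEq] at h
      exact Prod.ext h.1 (neg_injective h.2)
    have hs := Pool.Agent.Lib.BilF.Img98.vol_see hn hv (r / a + R) (r / b) (by positivity)
    have hE : 0 ≤ n * (4 * Real.pi * (r / a + R) * (r / b)) := by positivity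
    calc _ ≤ volume ((univ : Set ℂ) ×ˢ {(0 : ℂ)}) + (volume {p : ℂ × ℂ | p.1 ∈ PP v ∧ ‖p.2‖ < 1 ∧
          ∃ (g : List (Fin n × Fin n)) (l : Fin n), Rz v g p.1 p.2 ∧
            |dt (Lo v g p.2) (v l - Fo v g p.1)| < (r / a + R) * ‖p.2‖ ∧
            |cr (Lo v g p.2) (v l - Fo v g p.1)| < (r / b) * ‖p.2‖} +
          volume ((fun p : ℂ × ℂ => (p.1, -p.2)) ⁻¹' {p : ℂ × ℂ | p.1 ∈ PP v ∧ ‖p.2‖ < 1 ∧
          ∃ (g : List (Fin n × Fin n)) (l : Fin n), Rz v g p.1 p.2 ∧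
            |dt (Lo v g p.2) (v l - Fo v g p.1)| < (r / a + R) * ‖p.2‖ ∧
            |cr (Lo v g p.2) (v l - Fo v g p.1)| < (r / b) * ‖p.2‖})) :=
          (measure_mono hsub).trans ((measure_union_le _ _).trans
            (add_le_add le_rfl (measure_union_le _ _)))
      _ ≤ 0 + (ENNReal.ofReal (n * (4 * Real.pi * (r / a + R) * (r / b))) +
            ENNReal.ofReal (n * (4 * Real.pi * (r / a + R) * (r / b)))) := by
          rw [hmp.measure_preimage_emb hemb, hz]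
          gcongr
      _ = ENNReal.ofReal (2 * (n * (4 * Real.pi * (r / a + R) * (r / b)))) := by
          rw [zero_add, ← ENNReal.ofReal_add hE hE]; congr 1; ring
      _ ≤ _ := by
          apply ENNReal.ofReal_le_ofReal
          have h1 : 0 ≤ r / a := by positivity
          have h2 : 0 ≤ r / b := by positivity
          have h3 : r / a + R ≤ (1 + R) * (r / a + 1) := by nlinarith
          have h4 : 2 * (n * (4 * Real.pi * (r / a + R) * (r / b))) ≤
              2 * (n * (4 * Real.pi * ((1 + R) * (r / a + 1)) * (r / b))) := by gcongr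
          refine h4.trans ?_
          have h5 : 0 ≤ 2 * R * (r / b) * (r / a + 1) := by positivity
          nlinarith [h5]

end Pool.Agent.Lib.BilF.CutD5
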