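import Pool.Agent.Lib.MP_7bc51d_an_dense.V
import Pool.Agent.Lib.MP_7bc51d_an.Code

/-!
# The anisotropic distance to the vertices (page 7bc51d_72_ERGODIC, part (2)): rows
-/

set_option autoImplicit false

namespace Pool.Agent.Lib.BilF

open Complex MeasureTheory Set Filter Topology
open scoped ComplexConjugate
open Pool.Agent.Lib.Bil Pool.Agent.Lib.BilD

variable {n : ℕ}

/-- Parameter `t` at which the unfolded line `x + t w` enters the copy `g` of the polygon (the most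
recent crossing comes first in `g`). -/
noncomputable def tau (v : Fin n → ℂ) : List (Fin n × Fin n) → ℂ → ℂ → ℝ
  | [], _, _ => 0
  | s :: g, x, w => cr (ed v s) (Fo v g x - v s.1) / cr (Lo v g w) (ed v s)

/-- Cost of the vertex `l` of the copy `g`, seen from `x` in the direction `w`. -/
noncomputable def ct (v : Fin n → ℂ) (a b : ℝ) (p : List (Fin n × Fin n) × Fin n) (x w : ℂ) : ℝ :=
  a * (tau v p.1 x w * ‖w‖) + b * (|cr (Lo v p.1 w) (v p.2 - Fo v p.1 x)| / ‖w‖)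

open Classical in
/-- Cost truncated to `[0,1]`; it is `1` if the code is not realized. -/
noncomputable def ctt (v : Fin n → ℂ) (a b : ℝ) (p : List (Fin n × Fin n) × Fin n) (x w : ℂ) :
    ℝ := if Rz v p.1 x w then max 0 (min 1 (ct v a b p x w)) else 1

/-- Forward anisotropic distance to the vertices, capped at `1`. -/
noncomputable def Dp (v : Fin n → ℂ) (a b : ℝ) (x w : ℂ) : ℝ :=
  ⨅ p : List (Fin n × Fin n) × Fin n, ctt v a b p x w

/-- Anisotropic distance to the vertices, capped at `1`. -/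
noncomputable def DD0 (v : Fin n → ℂ) (a b : ℝ) (x w : ℂ) : ℝ :=
  min (Dp v a b x w) (Dp v a b x (-w))

/-- The properties of the anisotropic distance used by the analysis rows. -/
structure CutD (v : Fin n → ℂ) (C a b : ℝ) (D : ℂ → ℂ → ℝ) : Prop where
  meas : Measurable (fun p : ℂ × ℂ => D p.1 p.2)
  nn : ∀ x w, 0 ≤ D x w
  le : ∀ x w, D x w ≤ 1
  near : ∀ x w l, D x w ≤ b * ‖x - v l‖
  flow : ∀ x w, ∀ t : ℝ, x ∈ KK v → x + (t : ℂ) * w ∈ KK v →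
    |D (x + (t : ℂ) * w) w - D x w| ≤ a * (|t| * ‖w‖)
  side : ∀ s ∈ SD v, ∀ τ ∈ Ioo (0 : ℝ) 1, ∀ w, cr (ed v s) w ≠ 0 →
    D (v s.1 + (τ : ℂ) * ed v s) (rl (ed v s) w) = D (v s.1 + (τ : ℂ) * ed v s) w
  cross : ∀ x ∈ KK v, ∀ y ∈ KK v, ∀ w, w ≠ 0 →
    D y w ≤ D x w + b * (|cr w (x - y)| / ‖w‖) + C * a
  vol : ∀ r, 0 ≤ r → r ≤ 1 →
    volume {p : ℂ × ℂ | p.1 ∈ PP v ∧ ‖p.2‖ < 1 ∧ D p.1 p.2 < r} ≤
      ENNReal.ofReal (C * (r / b) * (r / a + 1))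

/-- (CUTD) -/
def StCutD : Prop := ∀ (n : ℕ), 3 ≤ n → ∀ v : Fin n → ℂ, ConvexIndependent ℝ v →
  ∃ C : ℝ, 0 < C ∧ ∀ a b : ℝ, 0 < a → 0 < b → CutD v C a b (DD0 v a b)

/-- (TAU) positive entry times, increasing along the code. -/
def StTau : Prop := ∀ (n : ℕ), 3 ≤ n → ∀ v : Fin n → ℂ, ConvexIndependent ℝ v →
  ∀ (g : List (Fin n × Fin n)) (s : Fin n × Fin n) (x w : ℂ), x ∈ KK v → Rz v (s :: g) x w →
    tau v g x w ≤ tau v (s :: g) x w ∧ 0 ≤ cr (ed v s) (Fo v g x - v s.1) ∧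
    Fo v g (x + (tau v (s :: g) x w : ℂ) * w) ∈ segment ℝ (v s.1) (v s.2)

/-- (VOL) -/
def StVolD : Prop := ∀ (n : ℕ), 3 ≤ n → ∀ v : Fin n → ℂ, ConvexIndependent ℝ v →
  ∃ C : ℝ, 0 < C ∧ ∀ a b : ℝ, 0 < a → 0 < b → ∀ r, 0 ≤ r → r ≤ 1 →
    volume {p : ℂ × ℂ | p.1 ∈ PP v ∧ ‖p.2‖ < 1 ∧ DD0 v a b p.1 p.2 < r} ≤
      ENNReal.ofReal (C * (r / b) * (r / a + 1))

end Pool.Agent.Lib.BilF
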