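import Mathlib

/-!
# The logarithmic cutoff in abstract form

`cut r0 m t` is the average of `m` cutoffs at the levels `8 ^ i * r0`; `Zc r0 m t` bounds its local
Lipschitz constant, and the square integral of `Zc (D p)` is at most `9 C / m` if the measure of
`{D ≤ r}` is at most `C r ^ 2`.
-/

set_option autoImplicit false

namespace Pool.Agent.Lib.BilX.Cut39

open MeasureTheory Set Filter Topology

/-- The average of `m` cutoffs. -/
noncomputable def cut (r0 : ℝ) (m : ℕ) (t : ℝ) : ℝ :=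
  (m : ℝ)⁻¹ * ∑ i ∈ Finset.range m, min 1 (max 0 (t / (8 ^ i * r0) - 1))

/-- Local Lipschitz constant of `cut`. -/
noncomputable def Zc (r0 : ℝ) (m : ℕ) (t : ℝ) : ℝ :=
  (m : ℝ)⁻¹ * ∑ i ∈ Finset.range m,
    (Icc (8 ^ i * r0 / 2) (3 * (8 ^ i * r0))).indicator (fun _ => (8 ^ i * r0)⁻¹) t

theorem cut_nonneg (r0 : ℝ) (m : ℕ) (t : ℝ) : 0 ≤ cut r0 m t := by
  unfold cut
  apply mul_nonneg (by positivity)
  apply Finset.sum_nonneg
  intro i _
  exact le_min zero_le_one (le_max_left _ _)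

theorem cut_le_one (r0 : ℝ) (m : ℕ) (t : ℝ) : cut r0 m t ≤ 1 := by
  unfold cut
  have h : ∑ i ∈ Finset.range m, min 1 (max 0 (t / (8 ^ i * r0) - 1)) ≤ (m : ℝ) := by
    calc ∑ i ∈ Finset.range m, min 1 (max 0 (t / (8 ^ i * r0) - 1))
        ≤ ∑ _i ∈ Finset.range m, (1 : ℝ) := Finset.sum_le_sum fun i _ => min_le_left _ _
      _ = (m : ℝ) := by simp
  rcases Nat.eq_zero_or_pos m with hm | hm
  · subst hm
    simp
  · have hm' : (0 : ℝ) < m := by exact_mod_cast hm
    calc (m : ℝ)⁻¹ * ∑ i ∈ Finset.range m, min 1 (max 0 (t / (8 ^ i * r0) - 1))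
        ≤ (m : ℝ)⁻¹ * m := mul_le_mul_of_nonneg_left h (by positivity)
      _ = 1 := inv_mul_cancel₀ hm'.ne'

theorem pow8 (i : ℕ) : (1 : ℝ) ≤ 8 ^ i := one_le_pow₀ (by norm_num)

theorem cut_eq_zero {r0 : ℝ} (h0 : 0 < r0) (m : ℕ) {t : ℝ} (ht : t ≤ r0) : cut r0 m t = 0 := by
  unfold cut
  rw [Finset.sum_eq_zero, mul_zero]
  intro i _
  have h1 : (0 : ℝ) < 8 ^ i * r0 := by positivity
  have h2 : t / (8 ^ i * r0) ≤ 1 := by
    rw [div_le_one h1]
    have := pow8 i
    nlinarith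
  rw [max_eq_left (by linarith)]
  exact min_eq_right zero_le_one

theorem cut_eq_one {r0 : ℝ} (h0 : 0 < r0) {m : ℕ} (hm : 0 < m) {t : ℝ} (ht : 2 * (8 ^ m * r0) ≤ t) :
    cut r0 m t = 1 := by
  unfold cut
  have hm' : (0 : ℝ) < m := by exact_mod_cast hm
  have h : ∀ i ∈ Finset.range m, min 1 (max 0 (t / (8 ^ i * r0) - 1)) = (1 : ℝ) := by
    intro i hi
    have h1 : (0 : ℝ) < 8 ^ i * r0 := by positivity
    have h2 : (8 : ℝ) ^ i ≤ 8 ^ m :=
      pow_le_pow_right₀ (by norm_num) (Finset.mem_range.1 hi).le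
    have h3 : 2 ≤ t / (8 ^ i * r0) := by
      rw [le_div_iff₀ h1]
      nlinarith
    rw [min_eq_left]
    exact le_max_of_le_right (by linarith)
  rw [Finset.sum_congr rfl h]
  simp [hm'.ne']

theorem cut_measurable (r0 : ℝ) (m : ℕ) : Measurable (cut r0 m) := by
  unfold cut
  fun_prop

theorem cut_continuous (r0 : ℝ) (m : ℕ) : Continuous (cut r0 m) := by
  unfold cut
  fun_prop

theorem Zc_nonneg {r0 : ℝ} (h0 : 0 < r0) (m : ℕ) (t : ℝ) : 0 ≤ Zc r0 m t := by
  unfold Zc
  apply mul_nonneg (by positivity)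
  apply Finset.sum_nonneg
  intro i _
  exact indicator_nonneg (fun _ _ => by positivity) _

theorem Zc_measurable (r0 : ℝ) (m : ℕ) : Measurable (Zc r0 m) := by
  unfold Zc
  apply Measurable.const_mul
  apply Finset.measurable_sum
  intro i _
  exact measurable_const.indicator measurableSet_Icc

/-- One level. -/
theorem lev_lip {r0 r t t' : ℝ} (h0 : 0 < r0) (hr : r0 ≤ r) (h : |t - t'| ≤ r0 / 2) :
    |min 1 (max 0 (t / r - 1)) - min 1 (max 0 (t' / r - 1))| ≤
      (Icc (r / 2) (3 * r)).indicator (fun _ => r⁻¹) t * |t - t'| := by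
  have hrp : 0 < r := lt_of_lt_of_le h0 hr
  obtain ⟨h1, h2⟩ := abs_le.1 h
  by_cases ht : t ∈ Icc (r / 2) (3 * r)
  · rw [indicator_of_mem ht]
    have e : r⁻¹ * |t - t'| = |(t / r - 1) - (t' / r - 1)| := by
      have : (t / r - 1) - (t' / r - 1) = r⁻¹ * (t - t') := by
        field_simp
        ring
      rw [this, abs_mul, abs_of_pos (inv_pos.2 hrp)]
    rw [e]
    have a1 := abs_min_sub_min_le_max 1 (max 0 (t / r - 1)) 1 (max 0 (t' / r - 1))
    have a2 := abs_max_sub_max_le_max 0 (t / r - 1) 0 (t' / r - 1)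
    rw [sub_self, abs_zero] at a1 a2
    have a3 : (0 : ℝ) ≤ |(t / r - 1) - (t' / r - 1)| := abs_nonneg _
    have a4 : (0 : ℝ) ≤ |max 0 (t / r - 1) - max 0 (t' / r - 1)| := abs_nonneg _
    rw [max_eq_right a4] at a1
    rw [max_eq_right a3] at a2
    exact a1.trans a2
  · rw [indicator_of_notMem ht, zero_mul]
    have key : min 1 (max 0 (t / r - 1)) - min 1 (max 0 (t' / r - 1)) = 0 := by
      rw [mem_Icc, not_and_or] at ht
      rcases ht with ht | ht
      · have ht1 : t < r / 2 := lt_of_not_ge ht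
        have b1 : t / r - 1 ≤ 0 := by
          have : t / r ≤ 1 := by
            rw [div_le_one hrp]
            linarith
          linarith
        have b2 : t' / r - 1 ≤ 0 := by
          have : t' / r ≤ 1 := by
            rw [div_le_one hrp]
            linarith
          linarith
        rw [max_eq_left b1, max_eq_left b2, sub_self]
      · have ht1 : 3 * r < t := lt_of_not_ge ht
        have b1 : 1 ≤ t / r - 1 := by
          have : 2 ≤ t / r := by
            rw [le_div_iff₀ hrp]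
            linarith
          linarith
        have b2 : 1 ≤ t' / r - 1 := by
          have : 2 ≤ t' / r := by
            rw [le_div_iff₀ hrp]
            linarith
          linarith
        rw [min_eq_left (le_max_of_le_right b1), min_eq_left (le_max_of_le_right b2), sub_self]
    rw [key, abs_zero]

/-- `Zc` is a local Lipschitz constant of `cut` (shifts up to `r0 / 2`). -/
theorem cut_lip {r0 : ℝ} (h0 : 0 < r0) (m : ℕ) {t t' : ℝ} (h : |t - t'| ≤ r0 / 2) :
    |cut r0 m t - cut r0 m t'| ≤ Zc r0 m t * |t - t'| := by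
  unfold cut Zc
  rw [← mul_sub, ← Finset.sum_sub_distrib, abs_mul, abs_of_nonneg (by positivity : (0 : ℝ) ≤ (m : ℝ)⁻¹),
    mul_assoc, Finset.sum_mul]
  apply mul_le_mul_of_nonneg_left _ (by positivity)
  refine (Finset.abs_sum_le_sum_abs _ _).trans (Finset.sum_le_sum fun i _ => ?_)
  refine lev_lip h0 ?_ h
  have := pow8 i
  nlinarith

/-- One level, three points. -/
theorem lev_lip3 {r0 r t0 t t' : ℝ} (h0 : 0 < r0) (hr : r0 ≤ r) (h : |t - t0| ≤ r0 / 2)
    (h' : |t' - t0| ≤ r0 / 2) :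
    |min 1 (max 0 (t / r - 1)) - min 1 (max 0 (t' / r - 1))| ≤
      (Icc (r / 2) (3 * r)).indicator (fun _ => r⁻¹) t0 * |t - t'| := by
  have hrp : 0 < r := lt_of_lt_of_le h0 hr
  obtain ⟨h1, h2⟩ := abs_le.1 h
  obtain ⟨h3, h4⟩ := abs_le.1 h'
  by_cases ht : t0 ∈ Icc (r / 2) (3 * r)
  · rw [indicator_of_mem ht]
    have e : r⁻¹ * |t - t'| = |(t / r - 1) - (t' / r - 1)| := by
      have : (t / r - 1) - (t' / r - 1) = r⁻¹ * (t - t') := by
        field_simp
        ring
      rw [this, abs_mul, abs_of_pos (inv_pos.2 hrp)]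
    rw [e]
    have a1 := abs_min_sub_min_le_max 1 (max 0 (t / r - 1)) 1 (max 0 (t' / r - 1))
    have a2 := abs_max_sub_max_le_max 0 (t / r - 1) 0 (t' / r - 1)
    rw [sub_self, abs_zero] at a1 a2
    have a3 : (0 : ℝ) ≤ |(t / r - 1) - (t' / r - 1)| := abs_nonneg _
    have a4 : (0 : ℝ) ≤ |max 0 (t / r - 1) - max 0 (t' / r - 1)| := abs_nonneg _
    rw [max_eq_right a4] at a1
    rw [max_eq_right a3] at a2
    exact a1.trans a2
  · rw [indicator_of_notMem ht, zero_mul]
    have key : min 1 (max 0 (t / r - 1)) - min 1 (max 0 (t' / r - 1)) = 0 := by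
      rw [mem_Icc, not_and_or] at ht
      rcases ht with ht | ht
      · have ht1 : t0 < r / 2 := lt_of_not_ge ht
        have b1 : t / r - 1 ≤ 0 := by
          have : t / r ≤ 1 := by
            rw [div_le_one hrp]
            linarith
          linarith
        have b2 : t' / r - 1 ≤ 0 := by
          have : t' / r ≤ 1 := by
            rw [div_le_one hrp]
            linarith
          linarith
        rw [max_eq_left b1, max_eq_left b2, sub_self]
      · have ht1 : 3 * r < t0 := lt_of_not_ge ht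
        have b1 : 1 ≤ t / r - 1 := by
          have : 2 ≤ t / r := by
            rw [le_div_iff₀ hrp]
            linarith
          linarith
        have b2 : 1 ≤ t' / r - 1 := by
          have : 2 ≤ t' / r := by
            rw [le_div_iff₀ hrp]
            linarith
          linarith
        rw [min_eq_left (le_max_of_le_right b1), min_eq_left (le_max_of_le_right b2), sub_self]
    rw [key, abs_zero]

/-- Three points: `Zc` at a nearby value bounds the increments of `cut`. -/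
theorem cut_lip3 {r0 : ℝ} (h0 : 0 < r0) (m : ℕ) {t0 t t' : ℝ} (h : |t - t0| ≤ r0 / 2)
    (h' : |t' - t0| ≤ r0 / 2) :
    |cut r0 m t - cut r0 m t'| ≤ Zc r0 m t0 * |t - t'| := by
  unfold cut Zc
  rw [← mul_sub, ← Finset.sum_sub_distrib, abs_mul, abs_of_nonneg (by positivity : (0 : ℝ) ≤ (m : ℝ)⁻¹),
    mul_assoc, Finset.sum_mul]
  apply mul_le_mul_of_nonneg_left _ (by positivity)
  refine (Finset.abs_sum_le_sum_abs _ _).trans (Finset.sum_le_sum fun i _ => ?_)
  refine lev_lip3 h0 ?_ h h'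
  have := pow8 i
  nlinarith

/-- The levels are disjoint. -/
theorem Zc_sq {r0 : ℝ} (h0 : 0 < r0) (m : ℕ) (t : ℝ) :
    Zc r0 m t ^ 2 = ((m : ℝ)⁻¹) ^ 2 * ∑ i ∈ Finset.range m,
      (Icc (8 ^ i * r0 / 2) (3 * (8 ^ i * r0))).indicator (fun _ => ((8 ^ i * r0)⁻¹) ^ 2) t := by
  unfold Zc
  rw [mul_pow]
  congr 1
  by_cases hex : ∃ i ∈ Finset.range m, t ∈ Icc (8 ^ i * r0 / 2) (3 * (8 ^ i * r0))
  · obtain ⟨i, hi, hti⟩ := hex
    have hne : ∀ j, j ≠ i → t ∉ Icc (8 ^ j * r0 / 2) (3 * (8 ^ j * r0)) := by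
      intro j hj htj
      obtain ⟨a1, a2⟩ := hti
      obtain ⟨b1, b2⟩ := htj
      rcases lt_or_gt_of_ne hj with hlt | hlt
      · have : (8 : ℝ) ^ j * 8 ≤ 8 ^ i := by
          rw [← pow_succ]
          exact pow_le_pow_right₀ (by norm_num) hlt
        have hp : (0 : ℝ) < 8 ^ j := by positivity
        nlinarith [mul_pos hp h0]
      · have : (8 : ℝ) ^ i * 8 ≤ 8 ^ j := by
          rw [← pow_succ]
          exact pow_le_pow_right₀ (by norm_num) hlt
        have hp : (0 : ℝ) < 8 ^ i := by positivity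
        nlinarith [mul_pos hp h0]
    rw [Finset.sum_eq_single_of_mem i hi, Finset.sum_eq_single_of_mem i hi, indicator_of_mem hti,
      indicator_of_mem hti]
    · intro j _ hj
      exact indicator_of_notMem (hne j hj) _
    · intro j _ hj
      exact indicator_of_notMem (hne j hj) _
  · have h1 : ∀ i ∈ Finset.range m, t ∉ Icc (8 ^ i * r0 / 2) (3 * (8 ^ i * r0)) :=
      fun i hi ht => hex ⟨i, hi, ht⟩
    rw [Finset.sum_eq_zero fun i hi => indicator_of_notMem (h1 i hi) _,
      Finset.sum_eq_zero fun i hi => indicator_of_notMem (h1 i hi) _]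
    simp

/-- The square integral of the Lipschitz constant. -/
theorem lint_Zc_sq {α : Type*} [MeasurableSpace α] {μ : Measure α} {r0 C : ℝ} (h0 : 0 < r0)
    (hC : 0 ≤ C) {m : ℕ} (hm : 0 < m) {D : α → ℝ} (hD : Measurable D)
    (hvol : ∀ r, r0 ≤ r → r ≤ 3 * (8 ^ m * r0) → μ {p | D p ≤ r} ≤ ENNReal.ofReal (C * r ^ 2)) :
    ∫⁻ p, ENNReal.ofReal (Zc r0 m (D p) ^ 2) ∂μ ≤ ENNReal.ofReal (9 * C / m) := by
  have hm' : (0 : ℝ) < m := by exact_mod_cast hm
  have e1 : ∀ p, ENNReal.ofReal (Zc r0 m (D p) ^ 2) = ∑ i ∈ Finset.range m,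
      {p | D p ∈ Icc (8 ^ i * r0 / 2) (3 * (8 ^ i * r0))}.indicator
        (fun _ => ENNReal.ofReal (((m : ℝ)⁻¹) ^ 2 * ((8 ^ i * r0)⁻¹) ^ 2)) p := by
    intro p
    rw [Zc_sq h0, Finset.mul_sum, ENNReal.ofReal_sum_of_nonneg]
    · apply Finset.sum_congr rfl
      intro i _
      by_cases hp : D p ∈ Icc (8 ^ i * r0 / 2) (3 * (8 ^ i * r0))
      · rw [indicator_of_mem hp, indicator_of_mem (by exact hp)]
      · rw [indicator_of_notMem hp, indicator_of_notMem (by exact hp), mul_zero, ENNReal.ofReal_zero]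
    · intro i _
      exact mul_nonneg (by positivity) (indicator_nonneg (fun _ _ => by positivity) _)
  simp_rw [e1]
  rw [lintegral_finsetSum]
  · calc ∑ i ∈ Finset.range m, ∫⁻ p, {p | D p ∈ Icc (8 ^ i * r0 / 2) (3 * (8 ^ i * r0))}.indicator
          (fun _ => ENNReal.ofReal (((m : ℝ)⁻¹) ^ 2 * ((8 ^ i * r0)⁻¹) ^ 2)) p ∂μ
        ≤ ∑ _i ∈ Finset.range m, ENNReal.ofReal (((m : ℝ)⁻¹) ^ 2 * (9 * C)) := by
          apply Finset.sum_le_sum
          intro i hi
          have hr : (0 : ℝ) < 8 ^ i * r0 := by positivity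
          have hr1 : r0 ≤ 3 * (8 ^ i * r0) := by
            have := pow8 i
            nlinarith
          have hr2 : 3 * (8 ^ i * r0) ≤ 3 * (8 ^ m * r0) := by
            have : (8 : ℝ) ^ i ≤ 8 ^ m :=
              pow_le_pow_right₀ (by norm_num) (Finset.mem_range.1 hi).le
            nlinarith
          have hms : MeasurableSet {p | D p ∈ Icc (8 ^ i * r0 / 2) (3 * (8 ^ i * r0))} :=
            hD measurableSet_Icc
          rw [lintegral_indicator_const hms]
          calc ENNReal.ofReal (((m : ℝ)⁻¹) ^ 2 * ((8 ^ i * r0)⁻¹) ^ 2) *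
                μ {p | D p ∈ Icc (8 ^ i * r0 / 2) (3 * (8 ^ i * r0))}
              ≤ ENNReal.ofReal (((m : ℝ)⁻¹) ^ 2 * ((8 ^ i * r0)⁻¹) ^ 2) *
                ENNReal.ofReal (C * (3 * (8 ^ i * r0)) ^ 2) := by
                apply mul_le_mul_right
                refine (measure_mono ?_).trans (hvol _ hr1 hr2)
                intro p hp
                exact hp.2
            _ = ENNReal.ofReal (((m : ℝ)⁻¹) ^ 2 * (9 * C)) := by
                rw [← ENNReal.ofReal_mul (by positivity)]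
                congr 1
                field_simp
                ring
      _ = ENNReal.ofReal (9 * C / m) := by
          rw [Finset.sum_const, Finset.card_range, nsmul_eq_mul, ← ENNReal.ofReal_natCast,
            ← ENNReal.ofReal_mul (by positivity)]
          congr 1
          field_simp
  · intro i _
    exact measurable_const.indicator (hD measurableSet_Icc)

/-- The cutoff under a shift of size at most `δ ≤ r0 / 2`. -/
theorem lint_cut_sub {α : Type*} [MeasurableSpace α] {μ : Measure α} {r0 C δ : ℝ} (h0 : 0 < r0)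
    (hC : 0 ≤ C) (hδ0 : 0 ≤ δ) (hδ : δ ≤ r0 / 2) {m : ℕ} (hm : 0 < m) {D D' : α → ℝ}
    (hD : Measurable D)
    (hvol : ∀ r, r0 ≤ r → r ≤ 3 * (8 ^ m * r0) → μ {p | D p ≤ r} ≤ ENNReal.ofReal (C * r ^ 2))
    (hsh : ∀ᵐ p ∂μ, |D p - D' p| ≤ δ) :
    ∫⁻ p, ENNReal.ofReal ((cut r0 m (D p) - cut r0 m (D' p)) ^ 2) ∂μ ≤
      ENNReal.ofReal (9 * C * δ ^ 2 / m) := by
  have hm' : (0 : ℝ) < m := by exact_mod_cast hm
  calc ∫⁻ p, ENNReal.ofReal ((cut r0 m (D p) - cut r0 m (D' p)) ^ 2) ∂μ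
      ≤ ∫⁻ p, ENNReal.ofReal (δ ^ 2) * ENNReal.ofReal (Zc r0 m (D p) ^ 2) ∂μ := by
        apply lintegral_mono_ae
        filter_upwards [hsh] with p hp
        rw [← ENNReal.ofReal_mul (by positivity)]
        apply ENNReal.ofReal_le_ofReal
        have h1 := cut_lip h0 m (t := D p) (t' := D' p) (hp.trans hδ)
        have h2 : |cut r0 m (D p) - cut r0 m (D' p)| ≤ δ * Zc r0 m (D p) := by
          refine h1.trans ?_
          rw [mul_comm]
          exact mul_le_mul_of_nonneg_right hp (Zc_nonneg h0 m _)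
        calc (cut r0 m (D p) - cut r0 m (D' p)) ^ 2
            = |cut r0 m (D p) - cut r0 m (D' p)| ^ 2 := (sq_abs _).symm
          _ ≤ (δ * Zc r0 m (D p)) ^ 2 := pow_le_pow_left₀ (abs_nonneg _) h2 2
          _ = δ ^ 2 * Zc r0 m (D p) ^ 2 := by ring
    _ = ENNReal.ofReal (δ ^ 2) * ∫⁻ p, ENNReal.ofReal (Zc r0 m (D p) ^ 2) ∂μ := by
        rw [lintegral_const_mul]
        exact (((Zc_measurable r0 m).comp hD).pow_const 2).ennreal_ofReal
    _ ≤ ENNReal.ofReal (δ ^ 2) * ENNReal.ofReal (9 * C / m) :=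
        mul_le_mul_right (lint_Zc_sq h0 hC hm hD hvol) _
    _ = ENNReal.ofReal (9 * C * δ ^ 2 / m) := by
        rw [← ENNReal.ofReal_mul (by positivity)]
        congr 1
        ring

/-- The set where the cutoff is not `1`. -/
theorem meas_cut_lt_one {α : Type*} [MeasurableSpace α] {μ : Measure α} {r0 C : ℝ} (h0 : 0 < r0)
    {m : ℕ} (hm : 0 < m) {D : α → ℝ}
    (hvol : ∀ r, r0 ≤ r → r ≤ 3 * (8 ^ m * r0) → μ {p | D p ≤ r} ≤ ENNReal.ofReal (C * r ^ 2)) :
    μ {p | cut r0 m (D p) ≠ 1} ≤ ENNReal.ofReal (C * (2 * (8 ^ m * r0)) ^ 2) := by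
  have := pow8 m
  refine (measure_mono ?_).trans (hvol (2 * (8 ^ m * r0)) (by nlinarith) (by nlinarith))
  intro p hp
  rw [mem_setOf_eq] at hp ⊢
  by_contra hcon
  exact hp (cut_eq_one h0 hm (not_le.1 hcon).le)

end Pool.Agent.Lib.BilX.Cut39
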