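import Pool.Agent.Lib.MP_7bc51d_an_full.Defs
import Pool.Agent.Lib.MP_7bc51d_an_full.CapDefs
import Pool.Agent.Lib.MP_7bc51d_an_full.Ext82
import Pool.Agent.Lib.MP_7bc51d_an_full.Cut39
import Pool.Agent.Lib.MP_7bc51d_an_dense.TI33

/-!
# Row CUT from the interface `CutD`
-/

set_option autoImplicit false

namespace Pool.Agent.Lib.BilF.CutRow3

open Complex MeasureTheory Set Filter Topology
open scoped ComplexConjugate
open Pool.Agent.Lib.Bil Pool.Agent.Lib.BilD Pool.Agent.Lib.BilE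
open Pool.Agent.Lib.BilX.Cut39 Pool.Agent.Lib.BilD.TI33 Pool.Agent.Lib.BilF.Ext82

variable {n : ℕ} {v : Fin n → ℂ}

theorem gX_pos3 {C e0 : ℝ} (hg : Geo v C e0) (G : ℂ → ℂ → ℝ) {y : ℂ} (hy : y ∈ PP v) (w : ℂ) :
    gX v G y w = G y w := by
  unfold gX
  rw [indicator_of_mem hy, Finset.sum_eq_zero, add_zero]
  intro t ht
  exact indicator_of_notMem (not_mem_OO33 hg ht ((hg.pp y).1 hy t ht)) _

theorem gX_neg3 {C e0 : ℝ} (hg : Geo v C e0) (G : ℂ → ℂ → ℝ) {s : Fin n × Fin n} (hs : s ∈ SD v)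
    {y : ℂ} (hy0 : ds v s y < 0) (hy1 : ∀ t ∈ SD v, t ≠ s → 0 < ds v t y)
    (hy2 : Rs v s y ∈ PP v) (w : ℂ) :
    gX v G y w = G (Rs v s y) (rl (ed v s) w) := by
  unfold gX
  have h1 : y ∉ PP v := fun h => by
    have := (hg.pp y).1 h s hs
    linarith
  rw [indicator_of_notMem h1, zero_add, Finset.sum_eq_single s]
  · exact indicator_of_mem (show y ∈ BilD.OO v s from hy2) _
  · intro t ht hts
    exact indicator_of_notMem (not_mem_OO33 hg ht (hy1 t ht hts)) _
  · intro h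
    exact absurd hs h

theorem ds_seg3 (s : Fin n × Fin n) {p q : ℝ} (hpq : p + q = 1) (x y : ℂ) :
    ds v s (p • x + q • y) = p * ds v s x + q * ds v s y := by
  simpa only [Complex.real_smul] using ds_comb33 (v := v) s hpq x y

/-- The crossing point. -/
theorem crossing3 {C e0 : ℝ} (hg : Geo v C e0) {s : Fin n × Fin n} (hs : s ∈ SD v) {x y : ℂ}
    (hx : 0 < ds v s x) (hy : ds v s y < 0) (hx1 : ∀ t ∈ SD v, t ≠ s → 0 < ds v t x)
    (hy1 : ∀ t ∈ SD v, t ≠ s → 0 < ds v t y) :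
    ∃ τ ∈ Ioo (0 : ℝ) 1, v s.1 + (τ : ℂ) * ed v s ∈ segment ℝ x y := by
  set d1 := ds v s x with hd1
  set d2 := ds v s y with hd2
  have hd : 0 < d1 - d2 := by linarith
  set p : ℝ := -d2 / (d1 - d2) with hp
  set q : ℝ := d1 / (d1 - d2) with hq
  have hpq : p + q = 1 := by
    rw [hp, hq]; field_simp; ring
  have hp0 : 0 ≤ p := div_nonneg (by linarith) hd.le
  have hq0 : 0 ≤ q := div_nonneg hx.le hd.le
  have hz0 : ds v s (p • x + q • y) = 0 := by
    rw [ds_seg3 s hpq, ← hd1, ← hd2, hp, hq]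
    field_simp
    ring
  obtain ⟨τ, hτ, h⟩ := hg.onside s hs (p • x + q • y) hz0 (fun t ht hts => by
    rw [ds_seg3 t hpq]
    have h1 := hx1 t ht hts
    have h2 := hy1 t ht hts
    have hmin : 0 < min (ds v t x) (ds v t y) := lt_min h1 h2
    have a1 : p * min (ds v t x) (ds v t y) ≤ p * ds v t x :=
      mul_le_mul_of_nonneg_left (min_le_left _ _) hp0
    have a2 : q * min (ds v t x) (ds v t y) ≤ q * ds v t y :=
      mul_le_mul_of_nonneg_left (min_le_right _ _) hq0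
    have a3 : p * min (ds v t x) (ds v t y) + q * min (ds v t x) (ds v t y) =
        min (ds v t x) (ds v t y) := by rw [← add_mul, hpq, one_mul]
    linarith)
  exact ⟨τ, hτ, p, q, hp0, hq0, hpq, h⟩

/-- Position of the points of a small ball around a good point. -/
theorem pos3 {C e0 : ℝ} (hg : Geo v C e0) {ε : ℝ} (hε : 0 < ε) (hε0 : ε < e0) {x : ℂ}
    (hx : x ∈ PP v) (hxk : ∀ k, C * ε ≤ ‖x - v k‖) :
    (∀ y, ‖y - x‖ ≤ ε → y ∈ PP v) ∨ ∃ s ∈ SD v, (∀ y, ‖y - x‖ ≤ ε → ∀ t ∈ SD v, t ≠ s →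
      0 < ds v t y) ∧ (∀ y, ‖y - x‖ ≤ ε → ds v s y < 0 → Rs v s y ∈ PP v) := by
  have hxG : x ∈ Gd v C ε := ⟨fun s hs => ((hg.pp x).1 hx s hs).le, hxk⟩
  rcases hg.dic ε hε hε0 x hxG with h | ⟨s, hs, h⟩
  · left
    intro y hy
    rw [hg.pp]
    intro t ht
    have h1 := norm_lt_of33 hg (by rwa [norm_sub_rev] : ‖x - y‖ ≤ ε) ht
    have h2 := h t ht
    linarith
  · right
    have hoth : ∀ y : ℂ, ‖y - x‖ ≤ ε → ∀ t ∈ SD v, t ≠ s → 8 * ε < ds v t y := by
      intro y hy t ht hts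
      have h1 := norm_lt_of33 hg (by rwa [norm_sub_rev] : ‖x - y‖ ≤ ε) ht
      have h2 := h.2 t ht hts
      linarith
    refine ⟨s, hs, fun y hy t ht hts => ?_, fun y hy h0 => ?_⟩
    · have := hoth y hy t ht hts
      linarith
    · have hsmall : |ds v s y| < 3 * ε := by
        have h1 := abs_le.1 (ds_lip33 (hg.edn s hs) x y)
        rw [norm_sub_rev] at h1
        have h2 := abs_lt.1 h.1
        rw [abs_lt]
        constructor <;> linarith [h1.1, h1.2, h2.1, h2.2]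
      rw [hg.pp]
      intro t ht
      by_cases hts : t = s
      · rw [hts, ds_Rs33 (hg.edn s hs)]; linarith
      · have h1 := abs_le.1 (ds_lip33 (hg.edn t ht) (Rs v s y) y)
        rw [norm_Rs_sub33 (hg.edn s hs)] at h1
        have h3 := hoth y hy t ht hts
        linarith [h1.1]

theorem cr_le3 (w z : ℂ) (hw : w ≠ 0) : |cr w z| / ‖w‖ ≤ ‖z‖ := by
  rw [div_le_iff₀ (norm_pos_iff.2 hw), mul_comm]
  exact abs_cr_le33 w z

/-- The extension of `D` to a small ball: all properties needed. -/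
theorem ext3 (hv : ConvexIndependent ℝ v) {C e0 : ℝ} (hg : Geo v C e0) {ε : ℝ} (hε : 0 < ε)
    (hε0 : ε < e0) {C1 a b : ℝ} (hC1 : 0 < C1) (ha : 0 < a) (hb : 0 < b) {D : ℂ → ℂ → ℝ}
    (hD : CutD v C1 a b D) {x : ℂ}
    (hx : x ∈ PP v) (hxk : ∀ k, C * ε ≤ ‖x - v k‖) {w : ℂ} (hw : w ≠ 0) :
    ∃ E : ℂ → ℝ, (∀ y, ‖y - x‖ ≤ ε → (∀ s ∈ SD v, ds v s y ≠ 0) → ∀ φ : ℝ → ℝ,
      gX v (fun x w => φ (D x w)) y w = φ (E y)) ∧
      (∀ y, ‖y - x‖ ≤ ε → (∀ s ∈ SD v, ds v s y ≠ 0) → |E y - D x w| ≤ b * ε + 2 * C1 * a) ∧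
      (∀ (y : ℂ) (t : ℝ), ‖y - x‖ ≤ ε → ‖y + (t : ℂ) * w - x‖ ≤ ε →
        (∀ s ∈ SD v, ds v s y ≠ 0) → (∀ s ∈ SD v, ds v s (y + (t : ℂ) * w) ≠ 0) →
        |E (y + (t : ℂ) * w) - E y| ≤ a * (|t| * ‖w‖)) := by
  classical
  have hxK := PP_sub_KK hx
  have hbb : ∀ y : ℂ, ‖y - x‖ ≤ ε → b * (|cr w (x - y)| / ‖w‖) ≤ b * ε := by
    intro y hy
    refine mul_le_mul_of_nonneg_left ((cr_le3 w _ hw).trans ?_) hb.le
    rwa [norm_sub_rev]
  have hin : ∀ y ∈ PP v, ‖y - x‖ ≤ ε → |D y w - D x w| ≤ b * ε + 2 * C1 * a := by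
    intro y hy hyx
    have h1 := hD.cross x hxK y (PP_sub_KK hy) w hw
    have h2 := hD.cross y (PP_sub_KK hy) x hxK w hw
    have h3 := hbb y hyx
    have h4 : |cr w (y - x)| = |cr w (x - y)| := by
      rw [← abs_neg, ← cr_neg_right, neg_sub]
    rw [h4] at h2
    have h5 : 0 < C1 * a := mul_pos hC1 ha
    rw [abs_le]
    constructor <;> linarith
  rcases pos3 hg hε hε0 hx hxk with hall | ⟨s, hs, hoth, hR⟩
  · refine ⟨fun y => D y w, fun y hy _ φ => gX_pos3 hg _ (hall y hy) w,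
      fun y hy _ => hin y (hall y hy) hy, fun y t hy hy' _ _ => ?_⟩
    exact hD.flow y w t (PP_sub_KK (hall y hy)) (PP_sub_KK (hall _ hy'))
  · have hpp : ∀ y, ‖y - x‖ ≤ ε → 0 < ds v s y → y ∈ PP v := by
      intro y hy h0
      rw [hg.pp]
      intro t ht
      by_cases hts : t = s
      · rw [hts]; exact h0
      · exact hoth y hy t ht hts
    have hxx : ‖x - x‖ ≤ ε := by simp [hε.le]
    refine ⟨fun y => if 0 < ds v s y then D y w else D (Rs v s y) (rl (ed v s) w),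
      fun y hy hy0 φ => ?_, fun y hy hy0 => ?_, fun y t hy hy' hy0 hy0' => ?_⟩
    · dsimp only
      by_cases h0 : 0 < ds v s y
      · rw [if_pos h0]
        exact gX_pos3 hg _ (hpp y hy h0) w
      · rw [if_neg h0]
        have h1 : ds v s y < 0 := lt_of_le_of_ne (not_lt.1 h0) (hy0 s hs)
        exact gX_neg3 hg _ hs h1 (fun t ht hts => hoth y hy t ht hts) (hR y hy h1) w
    · dsimp only
      by_cases h0 : 0 < ds v s y
      · rw [if_pos h0]
        exact hin y (hpp y hy h0) hy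
      · rw [if_neg h0]
        have h1 : ds v s y < 0 := lt_of_le_of_ne (not_lt.1 h0) (hy0 s hs)
        obtain ⟨τ, hτ, hseg⟩ := crossing3 hg hs ((hg.pp x).1 hx s hs) h1
          (fun t ht _ => (hg.pp x).1 hx t ht) (fun t ht hts => hoth y hy t ht hts)
        have h2 := ext_cross hv hD hs hτ hxK (PP_sub_KK (hR y hy h1)) hw hseg
        exact h2.trans (by linarith [hbb y hy])
    · dsimp only
      by_cases h0 : 0 < ds v s y
      · by_cases h0' : 0 < ds v s (y + (t : ℂ) * w)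
        · rw [if_pos h0, if_pos h0']
          exact hD.flow y w t (PP_sub_KK (hpp y hy h0)) (PP_sub_KK (hpp _ hy' h0'))
        · rw [if_pos h0, if_neg h0']
          have h1 : ds v s (y + (t : ℂ) * w) < 0 := lt_of_le_of_ne (not_lt.1 h0') (hy0' s hs)
          obtain ⟨τ, hτ, hseg⟩ := crossing3 hg hs h0 h1
            (fun t ht hts => hoth y hy t ht hts) (fun t ht hts => hoth _ hy' t ht hts)
          exact ext_flow hv ha.le hD hs hτ (PP_sub_KK (hpp y hy h0))
            (PP_sub_KK (hR _ hy' h1)) hseg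
      · have h1 : ds v s y < 0 := lt_of_le_of_ne (not_lt.1 h0) (hy0 s hs)
        by_cases h0' : 0 < ds v s (y + (t : ℂ) * w)
        · rw [if_neg h0, if_pos h0']
          obtain ⟨τ, hτ, hseg⟩ := crossing3 hg hs h0' h1
            (fun t ht hts => hoth _ hy' t ht hts) (fun t ht hts => hoth y hy t ht hts)
          have e1 : y + (t : ℂ) * w + ((-t : ℝ) : ℂ) * w = y := by push_cast; ring
          have h2 := ext_flow hv ha.le hD hs hτ (x := y + (t : ℂ) * w) (w := w) (t := -t)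
            (PP_sub_KK (hpp _ hy' h0')) (by rw [e1]; exact PP_sub_KK (hR y hy h1))
            (by rw [e1]; exact hseg)
          rw [e1, abs_neg] at h2
          rw [abs_sub_comm]
          exact h2
        · rw [if_neg h0, if_neg h0']
          have h1' : ds v s (y + (t : ℂ) * w) < 0 := lt_of_le_of_ne (not_lt.1 h0') (hy0' s hs)
          have e1 : Rs v s (y + (t : ℂ) * w) = Rs v s y + (t : ℂ) * rl (ed v s) w := by
            change RR v s.1 s.2 (y + (t : ℂ) * w) = RR v s.1 s.2 y + _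
            rw [RR_add, rl_smul]
            rfl
          have h2 := hD.flow (Rs v s y) (rl (ed v s) w) t (PP_sub_KK (hR y hy h1))
            (by rw [← e1]; exact PP_sub_KK (hR _ hy' h1'))
          rw [← e1, norm_rl (hg.edn s hs)] at h2
          exact h2

theorem Zc_le3 {r0 : ℝ} (h0 : 0 < r0) (m : ℕ) (t : ℝ) : Zc r0 m t ≤ r0⁻¹ := by
  unfold Zc
  rcases Nat.eq_zero_or_pos m with hm | hm
  · subst hm
    simp only [CharP.cast_eq_zero, inv_zero, Finset.range_zero, Finset.sum_empty, mul_zero]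
    positivity
  · have hm' : (0 : ℝ) < m := by exact_mod_cast hm
    have h : ∑ i ∈ Finset.range m,
        (Icc (8 ^ i * r0 / 2) (3 * (8 ^ i * r0))).indicator (fun _ => (8 ^ i * r0)⁻¹) t ≤
        ∑ _i ∈ Finset.range m, r0⁻¹ := by
      refine Finset.sum_le_sum fun i _ => ?_
      refine (indicator_le_self' (fun _ _ => by positivity) t).trans ?_
      apply inv_anti₀ h0
      have := pow8 i
      nlinarith
    rw [Finset.sum_const, Finset.card_range, nsmul_eq_mul] at h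
    calc (m : ℝ)⁻¹ * _ ≤ (m : ℝ)⁻¹ * (m * r0⁻¹) := mul_le_mul_of_nonneg_left h (by positivity)
      _ = r0⁻¹ := by field_simp

theorem row (hDD : ∀ (n : ℕ), 3 ≤ n → ∀ v : Fin n → ℂ, ConvexIndependent ℝ v →
    ∃ C : ℝ, 0 < C ∧ ∀ a b : ℝ, 0 < a → 0 < b → ∃ D : ℂ → ℂ → ℝ, CutD v C a b D) : StCut := by
  intro n v C e0 hn hv hg
  obtain ⟨C1, hC1, hD1⟩ := hDD n hn v hv
  have hC : 1 ≤ C := hg.C1
  set V : ℝ := (volume (DD v)).toReal with hV
  have hVlt : volume (DD v) ≠ ⊤ := (volume_DD_lt_top (v := v)).ne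
  have hV0 : 0 ≤ V := ENNReal.toReal_nonneg
  -- the constants
  set c : ℝ := 8 * C with hc
  have hc0 : 0 < c := by positivity
  set K1 : ℝ := 8 * C1 + 4 * V with hK1
  have hK10 : 0 < K1 := by positivity
  set K : ℝ := 9 * K1 + 2 * c + 1 with hK
  have hK0 : 0 < K := by positivity
  refine ⟨K, hK0, fun m r0 hm hr0 hr1 => ?_⟩
  refine ⟨min e0 (r0 ^ 2 / (8 * c * (1 + C1))), lt_min hg.e0p (by positivity), fun ε hε hεe => ?_⟩
  have hε0 : ε < e0 := lt_of_lt_of_le hεe (min_le_left _ _)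
  have hε1 : ε * (8 * c * (1 + C1)) < r0 ^ 2 := by
    have := lt_of_lt_of_le hεe (min_le_right _ _)
    rwa [lt_div_iff₀ (by positivity)] at this
  set b : ℝ := r0 / (c * ε) with hb
  set a : ℝ := c * ε / r0 with ha
  have hb0 : 0 < b := by positivity
  have ha0 : 0 < a := by positivity
  have hab : a * b = 1 := by
    rw [ha, hb]; field_simp
  have hbε : b * ε = r0 / c := by
    rw [hb]; field_simp
  have ha1 : 8 * (1 + C1) * a < r0 := by
    rw [ha, mul_div_assoc', div_lt_iff₀ hr0]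
    nlinarith
  obtain ⟨D, hD⟩ := hD1 a b ha0 hb0
  have hc8 : r0 / c ≤ r0 / 8 := by
    apply div_le_div_of_nonneg_left hr0.le (by norm_num)
    linarith
  have hosc : b * ε + 2 * C1 * a ≤ r0 / 2 := by
    rw [hbε]
    nlinarith [mul_pos hC1 ha0]
  -- volumes
  have hvol : ∀ r, r0 ≤ r → r ≤ 3 * (8 ^ m * r0) →
      (volume.restrict (DD v)) {p : ℂ × ℂ | D p.1 p.2 ≤ r} ≤ ENNReal.ofReal (K1 * r ^ 2) := by
    intro r hr _
    have hrp : 0 < r := lt_of_lt_of_le hr0 hr
    have hms : MeasurableSet {p : ℂ × ℂ | D p.1 p.2 ≤ r} :=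
      hD.meas measurableSet_Iic
    rw [Measure.restrict_apply hms]
    rcases le_or_gt (2 * r) 1 with h2 | h2
    · have h3 := hD.vol (2 * r) (by positivity) h2
      refine (measure_mono ?_).trans (h3.trans (ENNReal.ofReal_le_ofReal ?_))
      · rintro p ⟨hp1, hp2⟩
        rw [mem_DD] at hp2
        refine ⟨hp2.1, hp2.2, ?_⟩
        have : D p.1 p.2 ≤ r := hp1
        linarith
      · have e1 : C1 * (2 * r / b) * (2 * r / a + 1) = C1 * (4 * r ^ 2 * (a * b)⁻¹ + 2 * r / b) := by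
          field_simp
          ring
        have e2 : 2 * r / b ≤ 2 * r ^ 2 := by
          have e3 : 2 * r / b = 2 * r * a := by
            rw [div_eq_iff hb0.ne', mul_assoc, hab, mul_one]
          rw [e3]
          have e4 : a ≤ r0 := by nlinarith [mul_pos hC1 ha0]
          nlinarith
        rw [e1, hab, inv_one, mul_one]
        have e5 : C1 * (4 * r ^ 2 + 2 * r / b) ≤ C1 * (6 * r ^ 2) :=
          mul_le_mul_of_nonneg_left (by linarith) hC1.le
        have e6 : 0 ≤ V * r ^ 2 := by positivity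
        have e7 : 0 ≤ C1 * r ^ 2 := by positivity
        rw [hK1]
        nlinarith
    · refine (measure_mono inter_subset_right).trans ?_
      rw [← ENNReal.ofReal_toReal hVlt, ← hV]
      apply ENNReal.ofReal_le_ofReal
      have e1 : 1 ≤ 4 * r ^ 2 := by nlinarith
      have e6 : 0 ≤ C1 * r ^ 2 := by positivity
      rw [hK1]
      nlinarith
  have hDm : Measurable (fun p : ℂ × ℂ => D p.1 p.2) := hD.meas
  refine ⟨fun x w => cut r0 m (D x w), fun x w => Zc r0 m (D x w), ?_, ?_, ?_⟩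
  · refine ⟨(cut_measurable r0 m).comp hDm, fun x w => cut_nonneg _ _ _, fun x w => cut_le_one _ _ _,
      ?_, (Zc_measurable r0 m).comp hDm, fun x w => Zc_nonneg hr0 _ _,
      ⟨r0⁻¹, fun x w => Zc_le3 hr0 _ _⟩, ?_, ?_⟩
    · intro x _ w k hk
      apply cut_eq_zero hr0
      refine (hD.near x w k).trans ?_
      calc b * ‖x - v k‖ ≤ b * (4 * C * ε) := mul_le_mul_of_nonneg_left hk.le hb0.le
        _ = (4 * C) * (b * ε) := by ring
        _ = (4 * C) * (r0 / (8 * C)) := by rw [hbε, hc]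
        _ = r0 / 2 := by field_simp; norm_num
        _ ≤ r0 := by linarith
    · intro x hx hxk w hw y hy hy0
      obtain ⟨E, hE1, hE2, -⟩ := ext3 hv hg hε hε0 hC1 ha0 hb0 hD hx hxk hw
      have h1 := hE2 y hy hy0
      rw [hE1 y hy hy0 (cut r0 m)]
      have h2 := cut_lip hr0 m (t := D x w) (t' := E y) (by
        rw [abs_sub_comm]; exact h1.trans hosc)
      rw [abs_sub_comm]
      refine h2.trans ?_
      rw [mul_comm]
      apply mul_le_mul_of_nonneg_right _ (Zc_nonneg hr0 _ _)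
      rw [abs_sub_comm]
      refine (h1.trans hosc).trans ?_
      have : 1 ≤ K := by
        rw [hK]; linarith
      nlinarith
    · intro x hx hxk w hw y t hy hy' hy0 hy0'
      obtain ⟨E, hE1, hE2, hE3⟩ := ext3 hv hg hε hε0 hC1 ha0 hb0 hD hx hxk hw
      have h1 := (hE2 y hy hy0).trans hosc
      have h1' := (hE2 _ hy' hy0').trans hosc
      rw [hE1 y hy hy0 (cut r0 m), hE1 _ hy' hy0' (cut r0 m)]
      have h2 := cut_lip3 hr0 m h1' h1
      refine h2.trans ?_
      rw [mul_comm]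
      apply mul_le_mul_of_nonneg_right _ (Zc_nonneg hr0 _ _)
      refine (hE3 y t hy hy' hy0 hy0').trans ?_
      have h3 : |t| * ‖w‖ ≤ 2 * ε := by
        have e1 : |t| * ‖w‖ = ‖(t : ℂ) * w‖ := by
          rw [norm_mul, norm_real, Real.norm_eq_abs]
        rw [e1]
        have e2 : (t : ℂ) * w = (y + (t : ℂ) * w - x) - (y - x) := by ring
        rw [e2]
        exact (norm_sub_le _ _).trans (by linarith)
      calc a * (|t| * ‖w‖) ≤ a * (2 * ε) := mul_le_mul_of_nonneg_left h3 ha0.le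
        _ = 2 * c * ε ^ 2 / r0 := by rw [ha]; ring
        _ ≤ K * ε ^ 2 / r0 := by
          apply div_le_div_of_nonneg_right _ hr0.le
          apply mul_le_mul_of_nonneg_right _ (by positivity)
          rw [hK]; linarith
  · have h1 := lint_Zc_sq (μ := volume.restrict (DD v)) (D := fun p : ℂ × ℂ => D p.1 p.2) hr0
      hK10.le hm hDm hvol
    have h2 : ∫ p in DD v, (fun x w => Zc r0 m (D x w)) p.1 p.2 ^ 2 =
        (∫⁻ p in DD v, ENNReal.ofReal (Zc r0 m (D p.1 p.2) ^ 2)).toReal := by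
      rw [integral_eq_lintegral_of_nonneg_ae]
      · exact Eventually.of_forall fun p => by positivity
      · exact (((Zc_measurable r0 m).comp hDm).pow_const 2).aestronglyMeasurable
    rw [h2]
    have h3 : (9 * K1 / m : ℝ) ≤ K / m := by
      apply div_le_div_of_nonneg_right _ (by positivity)
      rw [hK]; linarith
    refine le_trans ?_ h3
    exact ENNReal.toReal_le_of_le_ofReal (by positivity) h1
  · have h1 := meas_cut_lt_one (μ := volume.restrict (DD v)) (D := fun p : ℂ × ℂ => D p.1 p.2) hr0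
      hm hvol
    have hms : MeasurableSet {p : ℂ × ℂ | cut r0 m (D p.1 p.2) ≠ 1} :=
      ((cut_measurable r0 m).comp hDm) (measurableSet_singleton (1 : ℝ)).compl
    rw [Measure.restrict_apply hms] at h1
    have h2 : {p : ℂ × ℂ | p ∈ DD v ∧ (fun x w => cut r0 m (D x w)) p.1 p.2 ≠ 1} =
        {p : ℂ × ℂ | cut r0 m (D p.1 p.2) ≠ 1} ∩ DD v := by
      ext p
      exact and_comm
    rw [h2]
    have h3 := ENNReal.toReal_le_of_le_ofReal (by positivity) h1
    refine h3.trans ?_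
    have e1 : (8 : ℝ) ^ (m + 1) * r0 = 8 * (8 ^ m * r0) := by rw [pow_succ]; ring
    rw [e1]
    have e2 : 0 ≤ (8 ^ m * r0) ^ 2 := by positivity
    have e3 : K1 * (2 * (8 ^ m * r0)) ^ 2 = 4 * K1 * (8 ^ m * r0) ^ 2 := by ring
    have e4 : K * (8 * (8 ^ m * r0)) ^ 2 = 64 * K * (8 ^ m * r0) ^ 2 := by ring
    rw [e3, e4]
    apply mul_le_mul_of_nonneg_right _ e2
    rw [hK]; linarith

end Pool.Agent.Lib.BilF.CutRow3
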