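import Pool.Agent.Lib.MP_7bc51d_an_dense.Bes85

/-!
# Mollified modes of a bounded measurable function on the phase space

No polygon here: `Γ y w` is an arbitrary bounded measurable function.
-/

set_option autoImplicit false

namespace Pool.Agent.Lib.BilG

open Complex MeasureTheory Set Filter Topology
open scoped ComplexConjugate Convolution ENNReal
open Pool.Agent.Lib.Bil Pool.Agent.Lib.BilD

variable {Γ : ℂ → ℂ → ℝ} {M ε : ℝ}

/-- bounded and jointly measurable -/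
structure GM (Γ : ℂ → ℂ → ℝ) (M : ℝ) : Prop where
  meas : Measurable (fun p : ℂ × ℂ => Γ p.1 p.2)
  bd : ∀ x w, |Γ x w| ≤ M

/-- modes -/
noncomputable def aG (Γ : ℂ → ℂ → ℝ) (m : ℕ) (x : ℂ) : ℂ := ∫ w in BV, (Γ x w : ℂ) * em m w

/-- mollified modes -/
noncomputable def uG (Γ : ℂ → ℂ → ℝ) (m : ℕ) (ε : ℝ) (x : ℂ) : ℂ :=
  ∫ y, (et ε (x - y) : ℂ) * aG Γ m y

/-- position derivative, in direction `h`, of the mollified function -/
noncomputable def gG (Γ : ℂ → ℂ → ℝ) (ε : ℝ) (x w h : ℂ) : ℝ :=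
  ∫ y, Γ y w * fderiv ℝ (et ε) (x - y) h

/-- modes of the derivative along the flow (unit speed) -/
noncomputable def sG (Γ : ℂ → ℂ → ℝ) (m : ℕ) (ε : ℝ) (x : ℂ) : ℂ :=
  ∫ w in BV, ((gG Γ ε x w (w / (‖w‖ : ℂ)) : ℝ) : ℂ) * em m w

theorem GM.nonneg (hΓ : GM Γ M) : 0 ≤ M := (abs_nonneg _).trans (hΓ.bd 0 0)

theorem GM.meas_w (hΓ : GM Γ M) (x : ℂ) : Measurable (fun w : ℂ => Γ x w) :=
  hΓ.meas.comp (measurable_const.prodMk measurable_id)

theorem GM.meas_x (hΓ : GM Γ M) (w : ℂ) : Measurable (fun x : ℂ => Γ x w) :=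
  hΓ.meas.comp (measurable_id.prodMk measurable_const)

theorem aG_bound (hΓ : GM Γ M) (m : ℕ) (x : ℂ) : ‖aG Γ m x‖ ≤ M * (volume BV).toReal := by
  unfold aG
  refine norm_setIntegral_le_of_norm_le_const vol_BV ?_
  intro w hw
  rw [norm_mul, norm_real, Real.norm_eq_abs]
  calc |Γ x w| * ‖em m w‖ ≤ M * 1 :=
        mul_le_mul (hΓ.bd x w) (em_le m hw) (norm_nonneg _) hΓ.nonneg
    _ = _ := mul_one _

theorem aG_meas (hΓ : GM Γ M) (m : ℕ) : Measurable (aG Γ m) := by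
  unfold aG
  have h1 : Measurable (fun p : ℂ × ℂ => (Γ p.1 p.2 : ℂ) * em m p.2) :=
    (measurable_ofReal.comp hΓ.meas).mul ((em_meas m).comp measurable_snd)
  have h2 : StronglyMeasurable
      (Function.uncurry (fun (x w : ℂ) => (Γ x w : ℂ) * em m w)) := h1.stronglyMeasurable
  exact h2.integral_prod_right.measurable

/-- scalar multiplication, flipped -/
noncomputable def LL : ℂ →L[ℝ] ℝ →L[ℝ] ℂ := (ContinuousLinearMap.lsmul ℝ ℝ (E := ℂ)).flip

theorem LL_apply (z : ℂ) (r : ℝ) : LL z r = (r : ℂ) * z := by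
  simp [LL]

theorem uG_eq (m : ℕ) (x : ℂ) : uG Γ m ε x = (aG Γ m ⋆[LL, volume] et ε) x := by
  unfold uG
  rw [convolution_def]
  apply integral_congr_ae
  exact Eventually.of_forall (fun y => by simp only [LL_apply])

theorem aG_locInt (hΓ : GM Γ M) (m : ℕ) : LocallyIntegrable (aG Γ m) volume := by
  have h1 : LocallyIntegrable (fun _ : ℂ => (M * (volume BV).toReal)) volume :=
    locallyIntegrable_const _
  refine h1.mono (aG_meas hΓ m).aestronglyMeasurable ?_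
  refine Eventually.of_forall (fun x => ?_)
  have h := aG_bound hΓ m x
  exact h.trans (le_abs_self _)

/-- (SMO) -/
theorem smo (hΓ : GM Γ M) (hε : 0 < ε) (m : ℕ) : ContDiff ℝ 2 (uG Γ m ε) ∧
    ∀ x h : ℂ, fderiv ℝ (uG Γ m ε) x h = ∫ y, (fderiv ℝ (et ε) (x - y) h : ℂ) * aG Γ m y := by
  have hfun : uG Γ m ε = aG Γ m ⋆[LL, volume] et ε := funext (uG_eq m)
  have hc : HasCompactSupport (et ε) := et_compact hε
  have hl := aG_locInt hΓ m
  have hs2 : ContDiff ℝ 2 (et ε) :=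
    (et_contDiff ε).of_le (WithTop.coe_le_coe.2 (le_top : (2 : ℕ∞) ≤ ⊤))
  have hs1 : ContDiff ℝ 1 (et ε) := hs2.of_le (by norm_num)
  refine ⟨?_, ?_⟩
  · rw [hfun]
    exact hc.contDiff_convolution_right LL hl hs2
  · intro x h
    have hd := hc.hasFDerivAt_convolution_right LL hl hs1 x
    rw [hfun, hd.fderiv, convolution_def]
    have hex : ConvolutionExistsAt (aG Γ m) (fderiv ℝ (et ε)) x (LL.precompR ℂ) volume := by
      apply HasCompactSupport.convolutionExists_right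
      · exact hc.fderiv ℝ
      · exact hl
      · exact hs1.continuous_fderiv (by norm_num)
    rw [ContinuousLinearMap.integral_apply hex]
    apply integral_congr_ae
    refine Eventually.of_forall (fun y => ?_)
    simp only [ContinuousLinearMap.precompR_apply, ContinuousLinearMap.compL_apply,
      ContinuousLinearMap.comp_apply]
    rw [LL_apply]

/-- Weighted moments against a kernel supported in a ball. -/
theorem fub (hΓ : GM Γ M) {ψ : ℂ → ℝ} (hψ : Measurable ψ) {c : ℝ} (hb : ∀ y, |ψ y| ≤ c)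
    {x : ℂ} (h0 : ∀ y, y ∉ Metric.ball x ε → ψ y = 0) (m : ℕ) :
    ∫ y, (ψ y : ℂ) * aG Γ m y = ∫ w in BV, ((∫ y, Γ y w * ψ y : ℝ) : ℂ) * em m w := by
  have hc : 0 ≤ c := (abs_nonneg _).trans (hb 0)
  have e1 : ∫ y, (ψ y : ℂ) * aG Γ m y = ∫ y in Metric.ball x ε, (ψ y : ℂ) * aG Γ m y := by
    rw [← integral_indicator measurableSet_ball]
    refine integral_congr_ae (Eventually.of_forall (fun y => ?_))
    by_cases hy : y ∈ Metric.ball x ε
    · simp only [indicator_of_mem hy]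
    · simp only [indicator_of_notMem hy, h0 y hy, ofReal_zero, zero_mul]
  have e2 : ∀ w, (∫ y, Γ y w * ψ y) = ∫ y in Metric.ball x ε, Γ y w * ψ y := by
    intro w
    rw [← integral_indicator measurableSet_ball]
    refine integral_congr_ae (Eventually.of_forall (fun y => ?_))
    by_cases hy : y ∈ Metric.ball x ε
    · simp only [indicator_of_mem hy]
    · simp only [indicator_of_notMem hy, h0 y hy, mul_zero]
  have : IsFiniteMeasure ((volume : Measure ℂ).restrict (Metric.ball x ε)) :=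
    ⟨by rw [Measure.restrict_apply_univ]; exact measure_ball_lt_top⟩
  have : IsFiniteMeasure ((volume : Measure ℂ).restrict BV) :=
    ⟨by rw [Measure.restrict_apply_univ]; exact vol_BV⟩
  have hm : Measurable (fun p : ℂ × ℂ => (ψ p.1 : ℂ) * ((Γ p.1 p.2 : ℂ) * em m p.2)) :=
    (measurable_ofReal.comp (hψ.comp measurable_fst)).mul
      ((measurable_ofReal.comp hΓ.meas).mul ((em_meas m).comp measurable_snd))
  have hi : Integrable (Function.uncurry fun (y w : ℂ) => (ψ y : ℂ) * ((Γ y w : ℂ) * em m w))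
      (((volume : Measure ℂ).restrict (Metric.ball x ε)).prod
        ((volume : Measure ℂ).restrict BV)) := by
    refine Integrable.of_bound hm.aestronglyMeasurable (c * (M * 1))
      (Eventually.of_forall (fun p => ?_))
    simp only [Function.uncurry]
    rw [norm_mul, norm_mul, norm_real, norm_real, Real.norm_eq_abs, Real.norm_eq_abs]
    exact mul_le_mul (hb _) (mul_le_mul (hΓ.bd _ _) (em_norm m _) (norm_nonneg _)
      hΓ.nonneg) (mul_nonneg (abs_nonneg _) (norm_nonneg _)) hc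
  rw [e1]
  have e3 : ∫ y in Metric.ball x ε, (ψ y : ℂ) * aG Γ m y =
      ∫ y in Metric.ball x ε, ∫ w in BV, (ψ y : ℂ) * ((Γ y w : ℂ) * em m w) := by
    refine integral_congr_ae (Eventually.of_forall (fun y => ?_))
    simp only [aG]
    rw [integral_const_mul]
  rw [e3, integral_integral_swap hi]
  refine integral_congr_ae (Eventually.of_forall (fun w => ?_))
  simp only
  rw [e2 w]
  have e4 : (((∫ y in Metric.ball x ε, Γ y w * ψ y : ℝ)) : ℂ) =
      ∫ y in Metric.ball x ε, ((Γ y w * ψ y : ℝ) : ℂ) := integral_ofReal.symm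
  rw [e4, ← integral_mul_const]
  refine integral_congr_ae (Eventually.of_forall (fun y => ?_))
  simp only
  push_cast
  ring

theorem mom_meas (hΓ : GM Γ M) {ψ : ℂ → ℝ} (hψ : Measurable ψ) :
    Measurable (fun w => ∫ y, Γ y w * ψ y) := by
  have h1 : Measurable (fun p : ℂ × ℂ => Γ p.2 p.1 * ψ p.2) :=
    (hΓ.meas.comp measurable_swap).mul (hψ.comp measurable_snd)
  have h2 : StronglyMeasurable (Function.uncurry (fun (w y : ℂ) => Γ y w * ψ y)) :=
    h1.stronglyMeasurable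
  exact h2.integral_prod_right.measurable

theorem mom_bound (hΓ : GM Γ M) {ψ : ℂ → ℝ} {c : ℝ} (hb : ∀ y, |ψ y| ≤ c) (hε : 0 < ε)
    {x : ℂ} (h0 : ∀ y, y ∉ Metric.ball x ε → ψ y = 0) (w : ℂ) :
    |∫ y, Γ y w * ψ y| ≤ M * c * (Real.pi * ε ^ 2) := by
  have e2 : (∫ y, Γ y w * ψ y) = ∫ y in Metric.ball x ε, Γ y w * ψ y := by
    rw [← integral_indicator measurableSet_ball]
    refine integral_congr_ae (Eventually.of_forall (fun y => ?_))
    by_cases hy : y ∈ Metric.ball x ε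
    · simp only [indicator_of_mem hy]
    · simp only [indicator_of_notMem hy, h0 y hy, mul_zero]
  have hvol : (volume : Measure ℂ).real (Metric.ball x ε) = Real.pi * ε ^ 2 := by
    rw [Measure.real, Complex.volume_ball, ENNReal.toReal_mul, ENNReal.toReal_pow,
      ENNReal.toReal_ofReal hε.le, mul_comm]
    rfl
  rw [e2, ← Real.norm_eq_abs]
  have h := norm_setIntegral_le_of_norm_le_const (μ := volume) (s := Metric.ball x ε)
    (f := fun y => Γ y w * ψ y) (C := M * c) measure_ball_lt_top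
    (fun y _ => by
      rw [Real.norm_eq_abs, abs_mul]
      exact mul_le_mul (hΓ.bd y w) (hb y) (abs_nonneg _) hΓ.nonneg)
  rw [hvol] at h
  exact h

theorem et_meas (ε : ℝ) (x : ℂ) : Measurable (fun y => et ε (x - y)) :=
  ((et_contDiff ε).continuous.comp (continuous_const.sub continuous_id)).measurable

theorem det_cont (ε : ℝ) (h : ℂ) : Continuous (fun z => fderiv ℝ (et ε) z h) :=
  ((et_contDiff ε).continuous_fderiv (by simp)).clm_apply continuous_const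

theorem det_meas (ε : ℝ) (x h : ℂ) : Measurable (fun y => fderiv ℝ (et ε) (x - y) h) :=
  ((det_cont ε h).comp (continuous_const.sub continuous_id)).measurable

theorem et_out (hε : 0 < ε) {x y : ℂ} (hy : y ∉ Metric.ball x ε) : et ε (x - y) = 0 := by
  rw [Metric.mem_ball, dist_comm, dist_eq_norm, not_lt] at hy
  exact et_zero hε hy

theorem det_out (hε : 0 < ε) {x y : ℂ} (hy : y ∉ Metric.ball x ε) (h : ℂ) :
    fderiv ℝ (et ε) (x - y) h = 0 := by
  rw [Metric.mem_ball, dist_comm, dist_eq_norm, not_lt] at hy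
  rw [Bes85.fderiv_et_zero' hε hy]
  rfl

/-- universal constant -/
noncomputable def KK0 : ℝ := Classical.choose exists_fderiv_et_bound

theorem KK0_pos : 0 < KK0 := (Classical.choose_spec exists_fderiv_et_bound).1

theorem KK0_bd (hε : 0 < ε) (h k : ℂ) : |fderiv ℝ (et ε) h k| ≤ KK0 / ε ^ 3 * ‖k‖ :=
  (Classical.choose_spec exists_fderiv_et_bound).2 ε hε h k

theorem gG_meas_w (hΓ : GM Γ M) (x h : ℂ) : Measurable (fun w => gG Γ ε x w h) :=
  mom_meas hΓ (det_meas ε x h)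

theorem gG_bound (hΓ : GM Γ M) (hε : 0 < ε) (x w h : ℂ) :
    |gG Γ ε x w h| ≤ M * KK0 * Real.pi / ε * ‖h‖ := by
  have h1 := mom_bound hΓ (ψ := fun y => fderiv ℝ (et ε) (x - y) h)
    (c := KK0 / ε ^ 3 * ‖h‖) (fun y => KK0_bd hε _ _) hε (fun y hy => det_out hε hy h) w
  refine h1.trans (le_of_eq ?_)
  field_simp

theorem gG_meas2 (hΓ : GM Γ M) (h : ℂ) : Measurable (fun p : ℂ × ℂ => gG Γ ε p.1 p.2 h) := by
  have h1 : Measurable (fun p : (ℂ × ℂ) × ℂ => Γ p.2 p.1.2 *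
      fderiv ℝ (et ε) (p.1.1 - p.2) h) :=
    (hΓ.meas.comp (measurable_snd.prodMk measurable_fst.snd)).mul
      ((det_cont ε h).measurable.comp (measurable_fst.fst.sub measurable_snd))
  have h2 : StronglyMeasurable (Function.uncurry (fun (p : ℂ × ℂ) (y : ℂ) => Γ y p.2 *
      fderiv ℝ (et ε) (p.1 - y) h)) := h1.stronglyMeasurable
  exact h2.integral_prod_right.measurable

theorem gG_int (hΓ : GM Γ M) (hε : 0 < ε) (x w h : ℂ) :
    Integrable (fun y => Γ y w * fderiv ℝ (et ε) (x - y) h) := by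
  have hball : IntegrableOn (fun _ : ℂ => (M * (KK0 / ε ^ 3 * ‖h‖)))
      (Metric.closedBall x ε) := integrableOn_const (isCompact_closedBall x ε).measure_ne_top
  have hb2 := hball.integrable_indicator Metric.isClosed_closedBall.measurableSet
  refine hb2.mono' ?_ ?_
  · exact ((hΓ.meas_x w).mul (det_meas ε x h)).aestronglyMeasurable
  · refine Eventually.of_forall (fun y => ?_)
    by_cases hy : y ∈ Metric.closedBall x ε
    · rw [indicator_of_mem hy, Real.norm_eq_abs, abs_mul]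
      exact mul_le_mul (hΓ.bd y w) (KK0_bd hε _ _) (abs_nonneg _) hΓ.nonneg
    · rw [indicator_of_notMem hy, det_out hε (fun h' => hy (Metric.ball_subset_closedBall h')) h,
        mul_zero, norm_zero]

/-- linearity in the direction -/
theorem gG_lin (hΓ : GM Γ M) (hε : 0 < ε) (x w h : ℂ) :
    gG Γ ε x w h = h.re * gG Γ ε x w 1 + h.im * gG Γ ε x w I := by
  unfold gG
  rw [← integral_const_mul, ← integral_const_mul,
    ← integral_add ((gG_int hΓ hε x w 1).const_mul _) ((gG_int hΓ hε x w I).const_mul _)]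
  refine integral_congr_ae (Eventually.of_forall (fun y => ?_))
  simp only
  have h1 : h = h.re • (1 : ℂ) + h.im • I := by
    conv_lhs => rw [← re_add_im h]
    simp
  conv_lhs => rw [h1]
  rw [map_add, map_smul, map_smul, smul_eq_mul, smul_eq_mul]
  ring

/-- derivatives of the mollified modes -/
theorem fderiv_uG (hΓ : GM Γ M) (hε : 0 < ε) (m : ℕ) (x h : ℂ) :
    fderiv ℝ (uG Γ m ε) x h = ∫ w in BV, ((gG Γ ε x w h : ℝ) : ℂ) * em m w := by
  rw [(smo hΓ hε m).2 x h]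
  exact fub hΓ (ψ := fun y => fderiv ℝ (et ε) (x - y) h) (det_meas ε x h)
    (c := KK0 / ε ^ 3 * ‖h‖) (fun y => KK0_bd hε _ _) (fun y hy => det_out hε hy h) m

theorem gG_em_int (hΓ : GM Γ M) (hε : 0 < ε) (m : ℕ) (x h : ℂ) :
    IntegrableOn (fun w => ((gG Γ ε x w h : ℝ) : ℂ) * em m w) BV := by
  refine Measure.integrableOn_of_bounded (M := M * KK0 * Real.pi / ε * ‖h‖) vol_BV.ne
    (((measurable_ofReal.comp (gG_meas_w hΓ x h)).mul (em_meas m)).aestronglyMeasurable)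
    (Eventually.of_forall (fun w => ?_))
  rw [norm_mul, norm_real, Real.norm_eq_abs]
  calc |gG Γ ε x w h| * ‖em m w‖ ≤ (M * KK0 * Real.pi / ε * ‖h‖) * 1 :=
        mul_le_mul (gG_bound hΓ hε x w h) (em_norm m w) (norm_nonneg _)
          ((abs_nonneg _).trans (gG_bound hΓ hε x w h))
    _ = _ := mul_one _

/-- (MODE) with source -/
theorem mode (hΓ : GM Γ M) (hε : 0 < ε) (m : ℕ) (x : ℂ) :
    dz (uG Γ m ε) x + dzb (uG Γ (m + 2) ε) x = sG Γ (m + 1) ε x := by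
  unfold dz dzb sG
  rw [fderiv_uG hΓ hε, fderiv_uG hΓ hε, fderiv_uG hΓ hε, fderiv_uG hΓ hε]
  have i1 := gG_em_int hΓ hε m x 1
  have i2 := gG_em_int hΓ hε m x I
  have i3 := gG_em_int hΓ hε (m + 2) x 1
  have i4 := gG_em_int hΓ hε (m + 2) x I
  have e1 : ((∫ w in BV, ((gG Γ ε x w 1 : ℝ) : ℂ) * em m w) -
      I * ∫ w in BV, ((gG Γ ε x w I : ℝ) : ℂ) * em m w) / 2 =
      ∫ w in BV, (((gG Γ ε x w 1 : ℝ) : ℂ) * em m w -
        I * (((gG Γ ε x w I : ℝ) : ℂ) * em m w)) / 2 := by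
    rw [integral_div, integral_sub i1 (i2.const_mul I), integral_const_mul]
  have e2 : ((∫ w in BV, ((gG Γ ε x w 1 : ℝ) : ℂ) * em (m + 2) w) +
      I * ∫ w in BV, ((gG Γ ε x w I : ℝ) : ℂ) * em (m + 2) w) / 2 =
      ∫ w in BV, (((gG Γ ε x w 1 : ℝ) : ℂ) * em (m + 2) w +
        I * (((gG Γ ε x w I : ℝ) : ℂ) * em (m + 2) w)) / 2 := by
    rw [integral_div, integral_add i3 (i4.const_mul I), integral_const_mul]
  have j1 : IntegrableOn (fun w => (((gG Γ ε x w 1 : ℝ) : ℂ) * em m w -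
        I * (((gG Γ ε x w I : ℝ) : ℂ) * em m w)) / 2) BV :=
    (i1.sub (i2.const_mul I)).div_const 2
  have j2 : IntegrableOn (fun w => (((gG Γ ε x w 1 : ℝ) : ℂ) * em (m + 2) w +
        I * (((gG Γ ε x w I : ℝ) : ℂ) * em (m + 2) w)) / 2) BV :=
    (i3.add (i4.const_mul I)).div_const 2
  rw [e1, e2, ← integral_add j1 j2]
  have hne : ∀ᵐ w : ℂ ∂(volume.restrict BV), w ≠ 0 :=
    ae_restrict_of_ae (by
      have : (volume : Measure ℂ) {0} = 0 := measure_singleton 0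
      rw [ae_iff]
      simp)
  refine integral_congr_ae ?_
  filter_upwards [hne] with w hw
  rw [gG_lin hΓ hε x w (w / (‖w‖ : ℂ))]
  set z : ℂ := w / (‖w‖ : ℂ) with hz
  have hn : (‖w‖ : ℂ) ≠ 0 := by simpa using hw
  have hzz : z * conj z = 1 := by
    rw [Complex.mul_conj, Complex.normSq_eq_norm_sq, hz, norm_div, norm_real, norm_norm,
      div_self (by simpa using hw)]
    simp
  have hem : ∀ k, em k w = conj z ^ k := by
    intro k
    unfold BilD.em
    rw [hz, map_div₀, conj_ofReal]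
  rw [hem, hem, hem]
  have hre : (z.re : ℂ) = (z + conj z) / 2 := by
    rw [Complex.add_conj]; push_cast; ring
  have him : (z.im : ℂ) = (z - conj z) / (2 * I) := by
    rw [Complex.sub_conj]; push_cast; field_simp
  push_cast
  rw [hre, him]
  have hI : I * I = -1 := I_mul_I
  set a : ℂ := ((gG Γ ε x w 1 : ℝ) : ℂ)
  set b : ℂ := ((gG Γ ε x w I : ℝ) : ℂ)
  set c : ℂ := conj z
  have key : ((z + c) / 2 * a + (z - c) / (2 * I) * b) * c ^ (m + 1) =
      (a * c ^ m - I * (b * c ^ m)) / 2 * (z * c) +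
        (a * c ^ (m + 2) + I * (b * c ^ (m + 2))) / 2 := by
    have h2 : (z - c) / (2 * I) = -(I * (z - c)) / 2 := by
      rw [div_eq_div_iff (by simp) two_ne_zero]
      linear_combination (2 * (z - c)) * I_sq
    rw [h2]
    ring
  rw [key, hzz, mul_one]

theorem sdir_bound (hΓ : GM Γ M) (hε : 0 < ε) (x w : ℂ) :
    |gG Γ ε x w (w / (‖w‖ : ℂ))| ≤ M * KK0 * Real.pi / ε := by
  have h1 := gG_bound hΓ hε x w (w / (‖w‖ : ℂ))
  have h2 : ‖w / (‖w‖ : ℂ)‖ ≤ 1 := by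
    rw [norm_div, norm_real, norm_norm]
    exact div_self_le_one _
  have h3 : 0 ≤ M * KK0 * Real.pi / ε := by
    have := hΓ.nonneg
    have := KK0_pos
    have := Real.pi_pos
    positivity
  calc _ ≤ _ := h1
    _ ≤ M * KK0 * Real.pi / ε * 1 := mul_le_mul_of_nonneg_left h2 h3
    _ = _ := mul_one _

theorem sdir_meas2 (hΓ : GM Γ M) (hε : 0 < ε) :
    Measurable (fun p : ℂ × ℂ => gG Γ ε p.1 p.2 (p.2 / (‖p.2‖ : ℂ))) := by
  have h1 : (fun p : ℂ × ℂ => gG Γ ε p.1 p.2 (p.2 / (‖p.2‖ : ℂ))) = fun p : ℂ × ℂ =>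
      (p.2 / (‖p.2‖ : ℂ)).re * gG Γ ε p.1 p.2 1 + (p.2 / (‖p.2‖ : ℂ)).im * gG Γ ε p.1 p.2 I := by
    funext p
    exact gG_lin hΓ hε p.1 p.2 _
  rw [h1]
  have hm : Measurable (fun p : ℂ × ℂ => p.2 / (‖p.2‖ : ℂ)) :=
    measurable_snd.div (measurable_ofReal.comp (measurable_norm.comp measurable_snd))
  exact ((measurable_re.comp hm).mul (gG_meas2 hΓ 1)).add
    ((measurable_im.comp hm).mul (gG_meas2 hΓ I))

/-- (BES) for one direction -/
theorem bes_dir (hΓ : GM Γ M) (hε : 0 < ε) (x h : ℂ) (S : Finset ℕ) :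
    ∑ k ∈ S, ‖fderiv ℝ (uG Γ k ε) x h‖ ^ 2 ≤ Real.pi * ∫ w in BV, gG Γ ε x w h ^ 2 := by
  have h3 := Bes85.bessel (gG_meas_w (ε := ε) hΓ x h) (B := M * KK0 * Real.pi / ε * ‖h‖)
    (fun w _ => gG_bound hΓ hε x w h) S
  refine le_trans (le_of_eq ?_) h3
  refine Finset.sum_congr rfl (fun k _ => ?_)
  rw [fderiv_uG hΓ hε]
  rfl

/-- (BES) -/
theorem bes (hΓ : GM Γ M) (hε : 0 < ε) (x : ℂ) (S : Finset ℕ) :
    ∑ k ∈ S, ‖fderiv ℝ (uG Γ k ε) x‖ ^ 2 ≤
      2 * Real.pi * ∫ w in BV, (gG Γ ε x w 1 ^ 2 + gG Γ ε x w I ^ 2) := by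
  have hi : ∀ h : ℂ, IntegrableOn (fun w => gG Γ ε x w h ^ 2) BV := by
    intro h
    refine Measure.integrableOn_of_bounded (M := (M * KK0 * Real.pi / ε * ‖h‖) ^ 2) vol_BV.ne
      ((gG_meas_w hΓ x h).pow_const 2).aestronglyMeasurable (Eventually.of_forall (fun w => ?_))
    rw [Real.norm_eq_abs, abs_of_nonneg (by positivity), ← sq_abs]
    exact pow_le_pow_left₀ (abs_nonneg _) (gG_bound hΓ hε x w h) 2
  have h3 : ∫ w in BV, (gG Γ ε x w 1 ^ 2 + gG Γ ε x w I ^ 2) = (∫ w in BV, gG Γ ε x w 1 ^ 2) +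
      ∫ w in BV, gG Γ ε x w I ^ 2 := integral_add (hi 1) (hi I)
  have h4 : ∀ k, ‖fderiv ℝ (uG Γ k ε) x‖ ^ 2 ≤ 2 * ‖fderiv ℝ (uG Γ k ε) x 1‖ ^ 2 +
      2 * ‖fderiv ℝ (uG Γ k ε) x I‖ ^ 2 := by
    intro k
    have h5 := Bes85.norm_clm_le (fderiv ℝ (uG Γ k ε) x)
    have h6 : ‖fderiv ℝ (uG Γ k ε) x‖ ^ 2 ≤ (‖fderiv ℝ (uG Γ k ε) x 1‖ +
      ‖fderiv ℝ (uG Γ k ε) x I‖) ^ 2 := pow_le_pow_left₀ (norm_nonneg _) h5 2
    nlinarith [sq_nonneg (‖fderiv ℝ (uG Γ k ε) x 1‖ - ‖fderiv ℝ (uG Γ k ε) x I‖)]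
  calc ∑ k ∈ S, ‖fderiv ℝ (uG Γ k ε) x‖ ^ 2 ≤ ∑ k ∈ S, (2 * ‖fderiv ℝ (uG Γ k ε) x 1‖ ^ 2 +
      2 * ‖fderiv ℝ (uG Γ k ε) x I‖ ^ 2) := Finset.sum_le_sum (fun k _ => h4 k)
    _ = 2 * ∑ k ∈ S, ‖fderiv ℝ (uG Γ k ε) x 1‖ ^ 2 +
        2 * ∑ k ∈ S, ‖fderiv ℝ (uG Γ k ε) x I‖ ^ 2 := by
        rw [Finset.sum_add_distrib, Finset.mul_sum, Finset.mul_sum]
    _ ≤ 2 * (Real.pi * ∫ w in BV, gG Γ ε x w 1 ^ 2) +
        2 * (Real.pi * ∫ w in BV, gG Γ ε x w I ^ 2) := by
        have a1 := bes_dir hΓ hε x 1 S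
        have a2 := bes_dir hΓ hε x I S
        linarith
    _ = _ := by rw [h3]; ring

/-- (BESX) -/
theorem besx (hΓ : GM Γ M) (hε : 0 < ε) (x : ℂ) (S : Finset ℕ) :
    ∑ k ∈ S, ‖sG Γ k ε x‖ ^ 2 ≤
      Real.pi * ∫ w in BV, gG Γ ε x w (w / (‖w‖ : ℂ)) ^ 2 := by
  have hm : Measurable (fun w : ℂ => gG Γ ε x w (w / (‖w‖ : ℂ))) :=
    (sdir_meas2 hΓ hε).comp (measurable_const.prodMk measurable_id)
  exact Bes85.bessel hm (B := M * KK0 * Real.pi / ε) (fun w _ => sdir_bound hΓ hε x w) S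

end Pool.Agent.Lib.BilG
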