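import Pool.Agent.Lib.MP_7bc51d_an_full.Defs
import Pool.Agent.Lib.MP_7bc51d_an_full.Gam21
import Pool.Agent.Lib.MP_7bc51d_an_dense.Refl5
import Pool.Agent.Lib.MP_7bc51d_an_erg.HB85
import Pool.Agent.Lib.MP_7bc51d_an_erg.Hinv33

/-!
# Row ESTT: total energy of the cut function
-/

set_option autoImplicit false

namespace Pool.Agent.Lib.BilF.EstT22

open Complex MeasureTheory Set Filter Topology
open scoped ComplexConjugate
open Pool.Agent.Lib.Bil Pool.Agent.Lib.BilD Pool.Agent.Lib.BilE Pool.Agent.Lib.BilF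
open Pool.Agent.Lib.BilG

variable {n : ℕ} {v : Fin n → ℂ} {F : ℂ → ℝ → ℝ} {C e0 ε κ ν : ℝ} {X R : ℂ → ℂ → ℝ}

/-! ### the extension of a general function -/

theorem gX_meas {G : ℂ → ℂ → ℝ} (hG : Measurable (fun p : ℂ × ℂ => G p.1 p.2)) :
    Measurable (fun p : ℂ × ℂ => gX v G p.1 p.2) := by
  unfold gX
  apply Measurable.add
  · exact hG.indicator (measurable_fst meas_PP)
  · apply Finset.measurable_fun_sum
    intro s _
    have h2 : Measurable (fun p : ℂ × ℂ => rl (ed v s) p.2) :=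
      (continuous_rl (ed v s)).measurable.comp measurable_snd
    have h3 : Measurable (fun p : ℂ × ℂ => Rs v s p.1) := (cont_Rs s).measurable.comp measurable_fst
    have h1 : Measurable (fun p : ℂ × ℂ => G (Rs v s p.1) (rl (ed v s) p.2)) :=
      hG.comp (h3.prodMk h2)
    exact h1.indicator (measurable_fst (meas_OO s))

theorem gX_bd {G : ℂ → ℂ → ℝ} (hG : ∀ x w, |G x w| ≤ 1) (x w : ℂ) :
    |gX v G x w| ≤ (n : ℝ) ^ 2 + 1 := by
  unfold gX
  have h2 : ∀ (S : Set ℂ) (g : ℂ → ℝ), (∀ y, |g y| ≤ 1) → |S.indicator g x| ≤ 1 := by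
    intro S g hg
    by_cases h : x ∈ S
    · rw [indicator_of_mem h]; exact hg x
    · rw [indicator_of_notMem h, abs_zero]; exact zero_le_one
  have h3 : |∑ s ∈ SD v, (BilD.OO v s).indicator
      (fun x => G (Rs v s x) (rl (ed v s) w)) x| ≤ ∑ s ∈ SD v, (1 : ℝ) :=
    (Finset.abs_sum_le_sum_abs _ _).trans
      (Finset.sum_le_sum (fun s _ => h2 _ _ (fun y => hG _ _)))
  have h4 : ∑ s ∈ SD v, (1 : ℝ) ≤ (n : ℝ) ^ 2 := by
    rw [Finset.sum_const, nsmul_eq_mul, mul_one]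
    have : (SD v).card ≤ n ^ 2 := by
      calc (SD v).card ≤ Fintype.card (Fin n × Fin n) := Finset.card_le_univ _
        _ = n ^ 2 := by simp [sq]
    exact_mod_cast this
  have h5 := h2 (PP v) (fun x => G x w) (fun y => hG _ _)
  have h6 := abs_add_le ((PP v).indicator (fun x => G x w) x)
    (∑ s ∈ SD v, (BilD.OO v s).indicator (fun x => G (Rs v s x) (rl (ed v s) w)) x)
  linarith

theorem gm {G : ℂ → ℂ → ℝ} (hG : AG G) : GM (gX v G) ((n : ℝ) ^ 2 + 1) :=
  ⟨gX_meas hG.meas, gX_bd hG.bd⟩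

theorem gX_in (H : Geo v C e0) {y : ℂ} (hy : y ∈ PP v) (G : ℂ → ℂ → ℝ) (w : ℂ) :
    gX v G y w = G y w := by
  unfold gX
  rw [indicator_of_mem hy, Finset.sum_eq_zero, add_zero]
  intro s hs
  apply indicator_of_notMem
  intro h
  have h1 := (H.pp y).1 hy s hs
  have h2 := (H.pp (Rs v s y)).1 h s hs
  rw [Refl5.ds_Rs (H.edn s hs)] at h2
  linarith

theorem gX_out (H : Geo v C e0) {s : Fin n × Fin n} (hs : s ∈ SD v) {y : ℂ} (h0 : ds v s y < 0)
    (h1 : ∀ t ∈ SD v, t ≠ s → 0 < ds v t y)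
    (h2 : ∀ t ∈ SD v, t ≠ s → 0 < ds v t (Rs v s y)) (G : ℂ → ℂ → ℝ) (w : ℂ) :
    gX v G y w = G (Rs v s y) (rl (ed v s) w) := by
  have hP : y ∉ PP v := fun h => by
    have := (H.pp y).1 h s hs
    linarith
  have hO : y ∈ BilD.OO v s := by
    unfold BilD.OO
    rw [mem_ofPred_eq, H.pp]
    intro t ht
    by_cases hts : t = s
    · rw [hts, Refl5.ds_Rs (H.edn s hs)]; linarith
    · exact h2 t ht hts
  unfold gX
  rw [indicator_of_notMem hP, zero_add, Finset.sum_eq_single s]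
  · rw [indicator_of_mem hO]
  · intro t ht hts
    apply indicator_of_notMem
    intro h
    have h3 := (H.pp (Rs v t y)).1 h t ht
    rw [Refl5.ds_Rs (H.edn t ht)] at h3
    have := h1 t ht hts
    linarith
  · intro h; exact absurd hs h

/-- near a good point of the polygon, off the side lines, one term of the extension is present -/
theorem split (H : Geo v C e0) (hε : 0 < ε) (hε0 : ε < e0) {x : ℂ} (hx : x ∈ PP v)
    (hxk : ∀ k, C * ε ≤ ‖x - v k‖) {y : ℂ} (hy : ‖y - x‖ < ε) (hyd : ∀ s ∈ SD v, ds v s y ≠ 0) :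
    (∀ (G : ℂ → ℂ → ℝ) (w : ℂ), gX v G y w = G y w) ∨
      ∃ s ∈ SD v, ∀ (G : ℂ → ℂ → ℝ) (w : ℂ), gX v G y w = G (Rs v s y) (rl (ed v s) w) := by
  by_cases hP : y ∈ PP v
  · exact Or.inl (fun G w => gX_in H hP G w)
  · right
    rw [H.pp] at hP
    push Not at hP
    obtain ⟨s, hs, h0⟩ := hP
    have h0' : ds v s y < 0 := lt_of_le_of_ne h0 (hyd s hs)
    have hxy : ‖x - y‖ < ε := by rwa [norm_sub_rev]
    have hlip := Refl5.ds_sub_le (v := v) (s := s) x y
    rw [abs_le] at hlip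
    have hgd : x ∈ Gd v C ε := ⟨fun t ht => ((H.pp x).1 hx t ht).le, hxk⟩
    rcases H.dic ε hε hε0 x hgd with h | ⟨s', hs', h⟩
    · have := h s hs
      linarith [hlip.2]
    · have hss : s = s' := by
        by_contra hne
        have := h.2 s hs hne
        linarith [hlip.2]
      subst hss
      obtain ⟨h1, h2⟩ := Refl5.Nr_ball H hε hs h hxy
      exact ⟨s, hs, fun G w => gX_out H hs h0' h1 h2 G w⟩

/-! ### the cut function -/

theorem ag (hF : LFS v F) (hX : Cut v C ε X R κ ν) : AG (XF X F) where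
  meas := by
    have hcr : Measurable (fun p : ℂ × ℂ => cr p.1 p.2) := continuous_cr.measurable
    have h1 : Measurable (fun p : ℂ × ℂ => F p.2 (cr p.2 p.1)) :=
      hF.lf.meas.comp (measurable_snd.prodMk (hcr.comp (measurable_snd.prodMk measurable_fst)))
    exact hX.meas.mul h1
  bd := by
    intro x w
    unfold XF
    rw [abs_mul, abs_of_nonneg (hX.x0 x w)]
    calc X x w * |F w (cr w x)| ≤ 1 * 1 :=
          mul_le_mul (hX.x1 x w) (hF.lf.bd _ _) (abs_nonneg _) zero_le_one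
      _ = 1 := one_mul 1

theorem vz (hX : Cut v C ε X R κ ν) : VZ v (XF X F) (4 * C * ε) := by
  intro x hx w k hk
  unfold XF
  rw [hX.vz x hx w k hk, zero_mul]

/-- the derivative of the cut function -/
theorem dX_eq (H : Geo v C e0) (hF : LFS v F) (hX : Cut v C ε X R κ ν) (hε : 0 < ε)
    (hε0 : ε < e0) {x : ℂ} (hx : x ∈ PP v) (hxk : ∀ k, C * ε ≤ ‖x - v k‖) {w : ℂ} (hw : w ≠ 0)
    (h : ℂ) : |dX v (XF X F) ε x w h - X x w * gd v F ε x w h| ≤
      KK0 * Real.pi / ε * ‖h‖ * (κ * R x w) := by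
  have hi1 : Integrable (fun y => gX v (XF X F) y w * fderiv ℝ (et ε) (x - y) h) :=
    gG_int (gm (ag hF hX)) hε x w h
  have hLAG : AG (fun x w => F w (cr w x)) := by
    refine ⟨?_, fun x w => hF.lf.bd _ _⟩
    have hcr : Measurable (fun p : ℂ × ℂ => cr p.1 p.2) := continuous_cr.measurable
    exact hF.lf.meas.comp
      (measurable_snd.prodMk (hcr.comp (measurable_snd.prodMk measurable_fst)))
  have hi2 : Integrable (fun y => gx v F y w * fderiv ℝ (et ε) (x - y) h) :=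
    gG_int (gm (v := v) hLAG) hε x w h
  have e1 : dX v (XF X F) ε x w h - X x w * gd v F ε x w h =
      ∫ y, (gX v (XF X F) y w * fderiv ℝ (et ε) (x - y) h -
        X x w * (gx v F y w * fderiv ℝ (et ε) (x - y) h)) := by
    rw [integral_sub hi1 (hi2.const_mul _), integral_const_mul]
    rfl
  have hball : IntegrableOn (fun _ : ℂ => KK0 / ε ^ 3 * ‖h‖ * (κ * R x w))
      (Metric.ball x ε) := integrableOn_const measure_ball_lt_top.ne
  have hae : ∀ᵐ y : ℂ, ∀ s ∈ SD v, ds v s y ≠ 0 := by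
    rw [Filter.eventually_all_finset]
    intro s hs
    exact Hinv33.ae_ds s (H.edn s hs)
  rw [e1]
  have h1 : |∫ y, (gX v (XF X F) y w * fderiv ℝ (et ε) (x - y) h -
        X x w * (gx v F y w * fderiv ℝ (et ε) (x - y) h))| ≤
      ∫ y, (Metric.ball x ε).indicator (fun _ : ℂ => KK0 / ε ^ 3 * ‖h‖ * (κ * R x w)) y := by
    rw [← Real.norm_eq_abs]
    refine norm_integral_le_of_norm_le (hball.integrable_indicator measurableSet_ball) ?_
    filter_upwards [hae] with y hy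
    by_cases hyb : y ∈ Metric.ball x ε
    · rw [indicator_of_mem hyb]
      have hyx : ‖y - x‖ < ε := by rwa [Metric.mem_ball, dist_eq_norm] at hyb
      have hosc := hX.osc x hx hxk w hw y hyx.le hy
      have hprod : gX v (XF X F) y w = gX v X y w * gx v F y w ∧ |gx v F y w| ≤ 1 := by
        rcases split H hε hε0 hx hxk hyx hy with hs | ⟨s, _, hs⟩
        · rw [gx_eq, hs, hs, hs]
          exact ⟨rfl, hF.lf.bd _ _⟩
        · rw [gx_eq, hs, hs, hs]
          exact ⟨rfl, hF.lf.bd _ _⟩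
      rw [hprod.1]
      have e2 : gX v X y w * gx v F y w * fderiv ℝ (et ε) (x - y) h -
          X x w * (gx v F y w * fderiv ℝ (et ε) (x - y) h) =
          (fderiv ℝ (et ε) (x - y) h * gx v F y w) * (gX v X y w - X x w) := by ring
      rw [e2, norm_mul, norm_mul, Real.norm_eq_abs, Real.norm_eq_abs, Real.norm_eq_abs]
      have h2 : |fderiv ℝ (et ε) (x - y) h| * |gx v F y w| ≤ KK0 / ε ^ 3 * ‖h‖ := by
        calc |fderiv ℝ (et ε) (x - y) h| * |gx v F y w| ≤ (KK0 / ε ^ 3 * ‖h‖) * 1 :=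
              mul_le_mul (KK0_bd hε _ _) hprod.2 (abs_nonneg _)
                (mul_nonneg (div_nonneg KK0_pos.le (by positivity)) (norm_nonneg _))
          _ = _ := mul_one _
      exact mul_le_mul h2 hosc (abs_nonneg _)
        (mul_nonneg (div_nonneg KK0_pos.le (by positivity)) (norm_nonneg _))
    · rw [indicator_of_notMem hyb, det_out hε hyb]
      simp
  refine h1.trans (le_of_eq ?_)
  rw [integral_indicator measurableSet_ball, setIntegral_const, smul_eq_mul, Measure.real,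
    Complex.volume_ball]
  rw [ENNReal.toReal_mul, ENNReal.toReal_pow, ENNReal.toReal_ofReal hε.le, ENNReal.coe_toReal,
    NNReal.coe_real_pi]
  field_simp

/-- the pointwise bound at the good points -/
theorem good (H : Geo v C e0) (hF : LFS v F) (hX : Cut v C ε X R κ ν) (hε : 0 < ε)
    (hε0 : ε < e0) {x : ℂ} (hx : x ∈ PP v) (hxk : ∀ k, C * ε ≤ ‖x - v k‖) {w : ℂ} (hw : w ≠ 0) :
    dX v (XF X F) ε x w 1 ^ 2 + dX v (XF X F) ε x w I ^ 2 ≤
      2 * hh v F ε (x, w) + 4 * (KK0 * Real.pi) ^ 2 * (κ ^ 2 / ε ^ 2) * R x w ^ 2 := by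
  have h1 := dX_eq H hF hX hε hε0 hx hxk hw 1
  have h2 := dX_eq H hF hX hε hε0 hx hxk hw I
  rw [norm_one, mul_one] at h1
  rw [norm_I, mul_one] at h2
  set T : ℝ := KK0 * Real.pi / ε * (κ * R x w) with hT
  have hX0 := hX.x0 x w
  have hX1 := hX.x1 x w
  have key : ∀ D g : ℝ, |D - X x w * g| ≤ T → D ^ 2 ≤ 2 * g ^ 2 + 2 * T ^ 2 := by
    intro D g hD
    have h3 : (D - X x w * g) ^ 2 ≤ T ^ 2 := by
      rw [← sq_abs]
      exact pow_le_pow_left₀ (abs_nonneg _) hD 2
    have h4 : (X x w * g) ^ 2 ≤ g ^ 2 := by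
      rw [mul_pow]
      have : X x w ^ 2 ≤ 1 := pow_le_one₀ hX0 hX1
      nlinarith [sq_nonneg g]
    nlinarith [sq_nonneg (D - X x w * g - X x w * g)]
  have k1 := key _ _ h1
  have k2 := key _ _ h2
  have e1 : T ^ 2 = (KK0 * Real.pi) ^ 2 * (κ ^ 2 / ε ^ 2) * R x w ^ 2 := by
    rw [hT]
    ring
  have e2 : hh v F ε (x, w) = gd v F ε x w 1 ^ 2 + gd v F ε x w I ^ 2 := rfl
  rw [e1] at k1 k2
  rw [e2]
  linarith

/-- (ESTT) -/
theorem row (hZero : StZeroX) : StEstT := by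
  refine ⟨2 + 4 * (KK0 * Real.pi) ^ 2, by positivity, ?_⟩
  intro n v C e0 H F hF ε hε hε0 X R κ ν hκ hν hX
  obtain ⟨-, hZ, -⟩ := hZero n v C e0 H (XF X F) (ag hF hX) ε hε hε0 (vz hX)
  obtain ⟨B, hB, hb⟩ := HB85.row n v C e0 H
  obtain ⟨hhm, hhb, -, -⟩ := hb F hF ε hε
  have hfin : volume (DD v) ≠ ⊤ := by
    unfold DD
    rw [Measure.volume_eq_prod, Measure.prod_prod]
    exact ENNReal.mul_ne_top vol_PP_lt.ne measure_ball_lt_top.ne
  have hDm : MeasurableSet (DD v) := meas_PP.prod measurableSet_ball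
  have i1 : IntegrableOn (fun p => hh v F ε p) (DD v) :=
    Measure.integrableOn_of_bounded (M := B / ε ^ 2) hfin hhm.aestronglyMeasurable
      (Eventually.of_forall (fun p => by
        rw [Real.norm_eq_abs, abs_of_nonneg (hhb p).1]; exact (hhb p).2))
  obtain ⟨BR, hBR⟩ := hX.rb
  have i2 : IntegrableOn (fun p : ℂ × ℂ => R p.1 p.2 ^ 2) (DD v) :=
    Measure.integrableOn_of_bounded (M := BR ^ 2) hfin (hX.rm.pow_const 2).aestronglyMeasurable
      (Eventually.of_forall (fun p => by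
        rw [Real.norm_eq_abs, abs_of_nonneg (sq_nonneg _)]
        exact pow_le_pow_left₀ (hX.r0 _ _) (hBR _ _) 2))
  have hw0 : ∀ᵐ p : ℂ × ℂ, p.2 ≠ 0 := by
    have h1 : ∀ᵐ w : ℂ, w ≠ 0 := by simp [ae_iff, measure_singleton]
    exact Measure.quasiMeasurePreserving_snd.ae h1
  have hmain : TE v (XF X F) ε ≤ ∫ p in DD v, (2 * hh v F ε p +
      4 * (KK0 * Real.pi) ^ 2 * (κ ^ 2 / ε ^ 2) * R p.1 p.2 ^ 2) := by
    unfold TE
    refine integral_mono_of_nonneg ?_ ((i1.const_mul 2).add (i2.const_mul _)) ?_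
    · exact Eventually.of_forall (fun p => add_nonneg (sq_nonneg _) (sq_nonneg _))
    · rw [EventuallyLE, ae_restrict_iff' hDm]
      filter_upwards [hw0] with p hp hpD
      have hpP : p.1 ∈ PP v := hpD.1
      by_cases hk : ∀ k, C * ε ≤ ‖p.1 - v k‖
      · exact good H hF hX hε hε0 hpP hk hp
      · push Not at hk
        obtain ⟨k, hk⟩ := hk
        have hC : 0 < C := lt_of_lt_of_le one_pos H.C1
        have hk3 : ‖p.1 - v k‖ < 3 * C * ε := by
          have : 0 < C * ε := by positivity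
          linarith
        have z1 := hZ p.1 p.2 1 k hk3
        have z2 := hZ p.1 p.2 I k hk3
        rw [z1, z2]
        have h3 := (hhb p).1
        have h4 : 0 ≤ 4 * (KK0 * Real.pi) ^ 2 * (κ ^ 2 / ε ^ 2) * R p.1 p.2 ^ 2 := by positivity
        linarith
  refine hmain.trans ?_
  rw [integral_add (i1.const_mul 2) (i2.const_mul _), integral_const_mul, integral_const_mul]
  have hMe : 0 ≤ Me v F ε := integral_nonneg (fun p => (hhb p).1)
  have hR2 : 0 ≤ ∫ p in DD v, R p.1 p.2 ^ 2 := integral_nonneg (fun p => sq_nonneg _)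
  have hq : 0 ≤ κ ^ 2 / ε ^ 2 * ∫ p in DD v, R p.1 p.2 ^ 2 := by positivity
  have hMe' : ∫ p in DD v, hh v F ε p = Me v F ε := rfl
  rw [hMe']
  have hKK : 0 ≤ (KK0 * Real.pi) ^ 2 := sq_nonneg _
  nlinarith [mul_nonneg hKK hMe, mul_nonneg hKK hq]

end Pool.Agent.Lib.BilF.EstT22
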