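import Pool.Agent.Lib.MP_7bc51d_an_erg.Mass12

/-!
# Pointwise estimates of the derivatives of a mollified function
-/

set_option autoImplicit false

namespace Pool.Agent.Lib.BilF.EstA29

open Complex MeasureTheory Set Filter Topology
open scoped ComplexConjugate
open Pool.Agent.Lib.Bil Pool.Agent.Lib.BilD Pool.Agent.Lib.BilE

/-- reflection at the line orthogonal to `w` -/
noncomputable def mi (w z : ℂ) : ℂ := - rl w z

theorem mi_self {w : ℂ} (hw : w ≠ 0) : mi w w = -w := by rw [mi, rl_self hw]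

theorem norm_mi {w : ℂ} (hw : w ≠ 0) (z : ℂ) : ‖mi w z‖ = ‖z‖ := by
  rw [mi, norm_neg, norm_rl hw]

/-- `z` and its mirror image differ by a multiple of `w` -/
theorem sub_mi {w : ℂ} (hw : w ≠ 0) (z : ℂ) : ∃ t : ℝ, z - mi w z = (t : ℂ) * w := by
  refine ⟨2 * (z.re * w.re + z.im * w.im) / (w.re ^ 2 + w.im ^ 2), ?_⟩
  have hn : w.re ^ 2 + w.im ^ 2 ≠ 0 := by
    intro h
    apply hw
    have h1 : w.re = 0 := by nlinarith [sq_nonneg w.re, sq_nonneg w.im]
    have h2 : w.im = 0 := by nlinarith [sq_nonneg w.re, sq_nonneg w.im]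
    exact Complex.ext h1 h2
  have hc : conj w ≠ 0 := by simpa using hw
  have hww : w * conj w = ((w.re ^ 2 + w.im ^ 2 : ℝ) : ℂ) := by
    rw [Complex.mul_conj, Complex.normSq_apply]
    push_cast; ring
  have hn' : ((w.re ^ 2 + w.im ^ 2 : ℝ) : ℂ) ≠ 0 := by exact_mod_cast hn
  have hz : z * conj w + conj z * w = ((2 * (z.re * w.re + z.im * w.im) : ℝ) : ℂ) := by
    apply Complex.ext
    · simp; ring
    · simp; ring
  have h1 : z - mi w z = (z * conj w + conj z * w) / conj w := by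
    rw [mi, rl]; field_simp; ring
  rw [h1, hz]
  push_cast
  rw [div_mul_eq_mul_div, div_eq_div_iff hc (by exact_mod_cast hn)]
  have : (w : ℂ) * conj w = (w.re : ℂ) ^ 2 + (w.im : ℂ) ^ 2 := by
    rw [hww]; push_cast; ring
  linear_combination (-(2 * ((z.re : ℂ) * w.re + z.im * w.im))) * this

theorem mp_mi {w : ℂ} (hw : w ≠ 0) : MeasurePreserving (mi w) volume volume :=
  (Measure.measurePreserving_neg volume).comp (mp_rl hw)

theorem me_mi {w : ℂ} (hw : w ≠ 0) : MeasurableEmbedding (mi w) :=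
  ((rlEquiv w hw).trans (LinearIsometryEquiv.neg ℝ)).toHomeomorph.measurableEmbedding

theorem fderiv_et_mi (ε : ℝ) {w : ℂ} (hw : w ≠ 0) (z : ℂ) :
    fderiv ℝ (et ε) (mi w z) w = - fderiv ℝ (et ε) z w := by
  have hL : ∀ z, mi w z = (-(rlEquiv w hw).toLinearIsometry.toContinuousLinearMap) z := fun z => rfl
  have h2 : (fun y : ℂ => et ε (mi w y)) = et ε := funext (fun y => et_norm ε (norm_mi hw y))
  have hd : DifferentiableAt ℝ (et ε) (mi w z) :=
    ((et_contDiff ε).differentiable (by simp)).differentiableAt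
  have h0 : HasFDerivAt (fun y : ℂ => mi w y)
      (-(rlEquiv w hw).toLinearIsometry.toContinuousLinearMap : ℂ →L[ℝ] ℂ) z :=
    (-(rlEquiv w hw).toLinearIsometry.toContinuousLinearMap : ℂ →L[ℝ] ℂ).hasFDerivAt
  have h1 : HasFDerivAt (fun y : ℂ => et ε (mi w y))
      ((fderiv ℝ (et ε) (mi w z)).comp
        (-(rlEquiv w hw).toLinearIsometry.toContinuousLinearMap : ℂ →L[ℝ] ℂ)) z :=
    HasFDerivAt.comp z hd.hasFDerivAt h0
  rw [h2] at h1
  have h3 := h1.fderiv
  have h4 : fderiv ℝ (et ε) z w = fderiv ℝ (et ε) (mi w z) (mi w w) := by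
    rw [h3]; rfl
  rw [h4, mi_self hw, map_neg, neg_neg]

theorem abs_int_le {g k : ℂ → ℝ} {ε M : ℝ}
    (hk : ∀ z, |k z| ≤ M) (hk0 : ∀ z, ε ≤ ‖z‖ → k z = 0) (hgm : Measurable g)
    {c : ℝ} (hc : ∀ z, |g z| ≤ c) :
    |∫ z, g z * k z| ≤ M * ∫ z in Metric.ball (0 : ℂ) ε, |g z| := by
  have h1 : ∫ z, g z * k z = ∫ z in Metric.ball (0 : ℂ) ε, g z * k z := by
    symm
    apply setIntegral_eq_integral_of_forall_compl_eq_zero
    intro z hz
    rw [Metric.mem_ball, dist_zero_right, not_lt] at hz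
    rw [hk0 z hz, mul_zero]
  rw [h1, ← integral_const_mul, ← Real.norm_eq_abs]
  apply norm_integral_le_of_norm_le
  · apply Integrable.const_mul
    have : IntegrableOn (fun _ : ℂ => c) (Metric.ball 0 ε) :=
      integrableOn_const measure_ball_lt_top.ne
    exact this.mono' hgm.abs.aestronglyMeasurable (Eventually.of_forall (fun z => by
      rw [Real.norm_eq_abs, abs_abs]; exact hc z))
  · refine Eventually.of_forall (fun z => ?_)
    rw [Real.norm_eq_abs, abs_mul, mul_comm]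
    exact mul_le_mul_of_nonneg_right (hk z) (abs_nonneg _)

/-- gradient estimate -/
theorem grad_le {B : ℝ} (hB : ∀ ε, 0 < ε → ∀ h k : ℂ, |fderiv ℝ (et ε) h k| ≤ B / ε ^ 3 * ‖k‖)
    {G : ℂ → ℝ} (hG : Measurable G) {c : ℝ} (hc : ∀ z, |G z| ≤ c) {ε : ℝ}
    (hε : 0 < ε) (x h : ℂ) (a : ℝ) :
    |∫ y, G y * fderiv ℝ (et ε) (x - y) h| ≤
      B / ε ^ 3 * ‖h‖ * ∫ z in Metric.ball (0 : ℂ) ε, |G (x - z) - a| := by
  have hi : Integrable (fun z => fderiv ℝ (et ε) z h) :=
    (Mass12.fderiv_et_cont ε h).integrable_of_hasCompactSupport (Mass12.fderiv_et_cs hε h)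
  have h1 : ∫ y, G y * fderiv ℝ (et ε) (x - y) h = ∫ z, G (x - z) * fderiv ℝ (et ε) z h := by
    rw [← integral_sub_left_eq_self (fun z => G (x - z) * fderiv ℝ (et ε) z h) volume x]
    congr 1
    funext y
    rw [sub_sub_cancel]
  have hGm : Measurable (fun z => G (x - z)) := hG.comp (measurable_const.sub measurable_id)
  have hi2 : Integrable (fun z => G (x - z) * fderiv ℝ (et ε) z h) := by
    apply hi.bdd_mul (c := c)
    · exact hGm.aestronglyMeasurable
    · exact Eventually.of_forall (fun z => by rw [Real.norm_eq_abs]; exact hc _)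
  have h2 : ∫ z, (G (x - z) - a) * fderiv ℝ (et ε) z h =
      ∫ z, G (x - z) * fderiv ℝ (et ε) z h := by
    simp_rw [sub_mul]
    rw [integral_sub hi2 (hi.const_mul _), integral_const_mul, Mass12.int_fderiv_et, mul_zero,
      sub_zero]
  rw [h1, ← h2]
  apply abs_int_le (fun z => hB ε hε z h)
  · intro z hz
    rw [Mass12.fderiv_et_zero' hε hz]
    rfl
  · exact hGm.sub_const a
  · intro z
    calc |G (x - z) - a| ≤ |G (x - z)| + |a| := abs_sub _ _
      _ ≤ c + |a| := by have := hc (x - z); linarith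

/-- derivative along `w` -/
theorem along_le {B : ℝ} (hB : ∀ ε, 0 < ε → ∀ h k : ℂ, |fderiv ℝ (et ε) h k| ≤ B / ε ^ 3 * ‖k‖)
    {G : ℂ → ℝ} (hG : Measurable G) {c : ℝ} (hc : ∀ z, |G z| ≤ c) {ε : ℝ}
    (hε : 0 < ε) (x : ℂ) {w : ℂ} (hw : w ≠ 0) :
    |∫ y, G y * fderiv ℝ (et ε) (x - y) w| ≤
      B / ε ^ 3 * ‖w‖ * ∫ z in Metric.ball (0 : ℂ) ε, |G (x - z) - G (x - mi w z)| := by
  have hi : Integrable (fun z => fderiv ℝ (et ε) z w) :=
    (Mass12.fderiv_et_cont ε w).integrable_of_hasCompactSupport (Mass12.fderiv_et_cs hε w)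
  have h1 : ∫ y, G y * fderiv ℝ (et ε) (x - y) w = ∫ z, G (x - z) * fderiv ℝ (et ε) z w := by
    rw [← integral_sub_left_eq_self (fun z => G (x - z) * fderiv ℝ (et ε) z w) volume x]
    congr 1
    funext y
    rw [sub_sub_cancel]
  have hGm : Measurable (fun z => G (x - z)) := hG.comp (measurable_const.sub measurable_id)
  have hGm' : Measurable (fun z => G (x - mi w z)) :=
    hG.comp (measurable_const.sub (mp_mi hw).measurable)
  have hi2 : Integrable (fun z => G (x - z) * fderiv ℝ (et ε) z w) := by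
    apply hi.bdd_mul (c := c)
    · exact hGm.aestronglyMeasurable
    · exact Eventually.of_forall (fun z => by rw [Real.norm_eq_abs]; exact hc _)
  have hi3 : Integrable (fun z => G (x - mi w z) * fderiv ℝ (et ε) z w) := by
    apply hi.bdd_mul (c := c)
    · exact hGm'.aestronglyMeasurable
    · exact Eventually.of_forall (fun z => by rw [Real.norm_eq_abs]; exact hc _)
  have h3 : ∫ z, G (x - z) * fderiv ℝ (et ε) z w =
      - ∫ z, G (x - mi w z) * fderiv ℝ (et ε) z w := by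
    rw [← (mp_mi hw).integral_comp (me_mi hw) (fun z => G (x - z) * fderiv ℝ (et ε) z w),
      ← integral_neg]
    congr 1
    funext z
    rw [fderiv_et_mi ε hw]
    ring
  have h2 : ∫ z, (G (x - z) - G (x - mi w z)) * fderiv ℝ (et ε) z w =
      2 * ∫ z, G (x - z) * fderiv ℝ (et ε) z w := by
    simp_rw [sub_mul]
    rw [integral_sub hi2 hi3]
    linarith
  have h4 := abs_int_le (g := fun z => G (x - z) - G (x - mi w z))
    (k := fun z => fderiv ℝ (et ε) z w)
    (fun z => hB ε hε z w) (fun z hz => by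
      show fderiv ℝ (et ε) z w = 0
      rw [Mass12.fderiv_et_zero' hε hz]; rfl) (hGm.sub hGm') (c := 2 * c) (fun z => by
      calc |G (x - z) - G (x - mi w z)| ≤ |G (x - z)| + |G (x - mi w z)| := abs_sub _ _
        _ ≤ 2 * c := by have := hc (x - z); have := hc (x - mi w z); linarith)
  rw [h2, abs_mul, abs_two] at h4
  rw [h1]
  have h5 := abs_nonneg (∫ z, G (x - z) * fderiv ℝ (et ε) z w)
  linarith

end Pool.Agent.Lib.BilF.EstA29
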