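import Pool.Agent.Lib.MP_7bc51d_an_full.Defs
import Pool.Agent.Lib.MP_7bc51d_an_dense.Side5
import Pool.Agent.Lib.MP_7bc51d_an_dense.Basic

/-!
Rows REFLX, ZEROX and SIDEX.
-/

set_option autoImplicit false

namespace Pool.Agent.Lib.BilF.Row27

open Complex MeasureTheory Set Filter Topology
open scoped ComplexConjugate
open Pool.Agent.Lib.Bil Pool.Agent.Lib.BilD Pool.Agent.Lib.BilD.Refl5 Pool.Agent.Lib.BilD.Side5

variable {n : ℕ} {v : Fin n → ℂ}

/-- Formula for the extended function near a side. -/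
theorem gX_near {C e0 : ℝ} (Gm : Geo v C e0) {G : ℂ → ℂ → ℝ} {s : Fin n × Fin n} (hs : s ∈ SD v)
    {y w : ℂ} (h1 : ∀ t ∈ SD v, t ≠ s → 0 < ds v t y)
    (h2 : ∀ t ∈ SD v, t ≠ s → 0 < ds v t (Rs v s y)) :
    gX v G y w = (if 0 < ds v s y then G y w else 0) +
      (if ds v s y < 0 then G (Rs v s y) (rl (ed v s) w) else 0) := by
  have hP : y ∈ PP v ↔ 0 < ds v s y := by
    rw [Gm.pp]
    constructor
    · intro h; exact h s hs
    · intro h t ht
      by_cases hts : t = s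
      · rw [hts]; exact h
      · exact h1 t ht hts
  have hO : y ∈ BilD.OO v s ↔ ds v s y < 0 := by
    unfold BilD.OO
    rw [mem_ofPred_eq, Gm.pp]
    constructor
    · intro h
      have := h s hs
      rw [ds_Rs (Gm.edn s hs)] at this
      linarith
    · intro h t ht
      by_cases hts : t = s
      · rw [hts, ds_Rs (Gm.edn s hs)]; linarith
      · exact h2 t ht hts
  have hO' : ∀ t ∈ SD v, t ≠ s → y ∉ BilD.OO v t := by
    intro t ht hts h
    unfold BilD.OO at h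
    rw [mem_ofPred_eq, Gm.pp] at h
    have := h t ht
    rw [ds_Rs (Gm.edn t ht)] at this
    have := h1 t ht hts
    linarith
  unfold gX
  congr 1
  · by_cases h : 0 < ds v s y
    · rw [indicator_of_mem (hP.2 h), if_pos h]
    · rw [indicator_of_notMem (fun h3 => h (hP.1 h3)), if_neg h]
  · rw [Finset.sum_eq_single s]
    · by_cases h : ds v s y < 0
      · rw [indicator_of_mem (hO.2 h), if_pos h]
      · rw [indicator_of_notMem (fun h3 => h (hO.1 h3)), if_neg h]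
    · intro t ht hts
      rw [indicator_of_notMem (hO' t ht hts)]
    · intro h; exact absurd hs h

/-- The extended function is symmetric near a side. -/
theorem gX_refl {C e0 : ℝ} (Gm : Geo v C e0) {G : ℂ → ℂ → ℝ} {s : Fin n × Fin n} (hs : s ∈ SD v)
    {y w : ℂ} (h1 : ∀ t ∈ SD v, t ≠ s → 0 < ds v t y)
    (h2 : ∀ t ∈ SD v, t ≠ s → 0 < ds v t (Rs v s y)) :
    gX v G (Rs v s y) (rl (ed v s) w) = gX v G y w := by
  have he := Gm.edn s hs
  rw [gX_near Gm hs h1 h2, gX_near Gm hs h2 (by rw [Rs_Rs he]; exact h1), ds_Rs he, Rs_Rs he,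
    rl_rl he, add_comm]
  congr 1
  · by_cases h : 0 < ds v s y
    · rw [if_pos h, if_pos (by linarith)]
    · rw [if_neg h, if_neg (by intro h3; apply h; linarith)]
  · by_cases h : ds v s y < 0
    · rw [if_pos h, if_pos (by linarith)]
    · rw [if_neg h, if_neg (by intro h3; apply h; linarith)]

/-- The same in the ball around a point near the side. -/
theorem gX_refl_ball {C e0 : ℝ} (Gm : Geo v C e0) {G : ℂ → ℂ → ℝ} {ε : ℝ} (hε : 0 < ε)
    {s : Fin n × Fin n} (hs : s ∈ SD v) {x : ℂ} (hx : x ∈ Nr v ε s) {y : ℂ} (hy : ‖x - y‖ < ε)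
    (w : ℂ) : gX v G (Rs v s y) (rl (ed v s) w) = gX v G y w := by
  obtain ⟨h1, h2⟩ := Nr_ball Gm hε hs hx hy
  exact gX_refl Gm hs h1 h2

theorem aX_refl {C e0 : ℝ} (Gm : Geo v C e0) {G : ℂ → ℂ → ℝ} {s : Fin n × Fin n} (hs : s ∈ SD v)
    {y : ℂ} (h1 : ∀ t ∈ SD v, t ≠ s → 0 < ds v t y)
    (h2 : ∀ t ∈ SD v, t ≠ s → 0 < ds v t (Rs v s y)) (m : ℕ) :
    aX v G m (Rs v s y) = (conj (ed v s) / ed v s) ^ m * conj (aX v G m y) := by
  have he := Gm.edn s hs
  unfold aX
  have e1 := (mp_rl_BV he).integral_comp (rl_emb he)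
    (fun w => (gX v G (Rs v s y) w : ℂ) * em m w)
  rw [← e1]
  have e2 : ∀ w, (gX v G (Rs v s y) (rl (ed v s) w) : ℂ) * em m (rl (ed v s) w) =
      (conj (ed v s) / ed v s) ^ m * conj ((gX v G y w : ℂ) * em m w) := by
    intro w
    rw [gX_refl Gm hs h1 h2, em_rl he, map_mul, conj_ofReal]
    ring
  simp_rw [e2]
  rw [integral_const_mul, integral_conj]

/-- (REFL) reflection of the mollified modes at a side. -/
theorem refl {C e0 : ℝ} (Gm : Geo v C e0) (G : ℂ → ℂ → ℝ) {ε : ℝ} (hε : 0 < ε)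
    {s : Fin n × Fin n} (hs : s ∈ SD v) {x : ℂ} (hx : x ∈ Nr v ε s) (m : ℕ) :
    uX v G m ε (Rs v s x) = (conj (ed v s) / ed v s) ^ m * conj (uX v G m ε x) := by
  have he := Gm.edn s hs
  unfold uX
  have hemb : MeasurableEmbedding (Rs v s) := by
    have hc : Continuous (Rs v s) := by
      have : Rs v s = fun x => v s.1 + rl (ed v s) (x - v s.1) := rfl
      rw [this]
      exact continuous_const.add ((continuous_rl _).comp (continuous_id.sub continuous_const))
    let E : ℂ ≃ₜ ℂ :=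
      { toFun := Rs v s, invFun := Rs v s, left_inv := Rs_Rs he, right_inv := Rs_Rs he
        continuous_toFun := hc, continuous_invFun := hc }
    exact E.measurableEmbedding
  have e1 := (mp_Rs he).integral_comp hemb
    (fun y => (et ε (Rs v s x - y) : ℂ) * aX v G m y)
  rw [← e1]
  have e2 : ∀ y, (et ε (Rs v s x - Rs v s y) : ℂ) * aX v G m (Rs v s y) =
      (conj (ed v s) / ed v s) ^ m * conj ((et ε (x - y) : ℂ) * aX v G m y) := by
    intro y
    rw [et_norm (norm_Rs_sub he x y), map_mul, conj_ofReal]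
    by_cases hy : ‖x - y‖ < ε
    · obtain ⟨h1, h2⟩ := Nr_ball Gm hε hs hx hy
      rw [aX_refl Gm hs h1 h2]
      ring
    · rw [Refl5.et_zero hε (not_lt.1 hy)]
      simp
  simp_rw [e2]
  rw [integral_const_mul, integral_conj]

/-- A point of an open side which is far from the vertices is near this side only. -/
theorem side_Nr {C e0 : ℝ} (Gm : Geo v C e0) {ε : ℝ} (hε : 0 < ε) (hε0 : ε < e0)
    {s : Fin n × Fin n} (hs : s ∈ SD v) {t : ℝ} (ht : t ∈ Ioo (0 : ℝ) 1)
    (hk : ∀ k, C * ε ≤ ‖v s.1 + (t : ℂ) * ed v s - v k‖) :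
    v s.1 + (t : ℂ) * ed v s ∈ Nr v ε s := by
  have he := Gm.edn s hs
  set x := v s.1 + (t : ℂ) * ed v s with hx
  have hgd : x ∈ Gd v C ε := by
    refine ⟨fun s' hs' => ?_, hk⟩
    have hside := mem_SD.1 hs'
    have hnn : ∀ k, 0 ≤ ds v s' (v k) := fun k =>
      div_nonneg (hside.cr_nonneg_vert k) (norm_nonneg _)
    have hx2 : x - v s'.1 = ((1 - t : ℝ) : ℂ) * (v s.1 - v s'.1) + (t : ℂ) * (v s.2 - v s'.1) := by
      rw [hx, ed]; push_cast; ring
    have : ds v s' x = (1 - t) * ds v s' (v s.1) + t * ds v s' (v s.2) := by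
      unfold ds
      rw [hx2, cr_add_right, cr_smul_right, cr_smul_right]
      ring
    rw [this]
    exact add_nonneg (mul_nonneg (by linarith [ht.2]) (hnn _)) (mul_nonneg ht.1.le (hnn _))
  have hds0 : ds v s x = 0 := by
    unfold ds
    rw [hx, add_sub_cancel_left, cr_smul_right, cr_self, mul_zero, zero_div]
  rcases Gm.dic ε hε hε0 x hgd with h | ⟨s', hs', h⟩
  · have := h s hs
    rw [hds0] at this
    linarith
  · by_cases hss : s = s'
    · rw [hss]; exact h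
    · have := h.2 s hs hss
      rw [hds0] at this
      linarith

/-- Boundary condition at a point of a side far from the vertices, no weight. -/
theorem side_far {C e0 : ℝ} (Gm : Geo v C e0) (G : ℂ → ℂ → ℝ) {ε : ℝ} (hε : 0 < ε) (hε0 : ε < e0)
    {s : Fin n × Fin n} (hs : s ∈ SD v) {t : ℝ} (ht : t ∈ Ioo (0 : ℝ) 1) (m : ℕ)
    (hk : ∀ k, C * ε ≤ ‖v s.1 + (t : ℂ) * ed v s - v k‖)
    (hd : DifferentiableAt ℝ (uX v G m ε) (v s.1 + (t : ℂ) * ed v s)) :
    (conj (uX v G m ε (v s.1 + (t : ℂ) * ed v s)) *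
        fderiv ℝ (uX v G m ε) (v s.1 + (t : ℂ) * ed v s) (ed v s)).im = 0 := by
  have he := Gm.edn s hs
  have hNr := side_Nr Gm hε hε0 hs ht hk
  set x := v s.1 + (t : ℂ) * ed v s with hx
  refine im_zero (c := (conj (ed v s) / ed v s) ^ m) hd ?_ ?_
  · rw [norm_pow, norm_div, RCLike.norm_conj, div_self (norm_ne_zero_iff.2 he), one_pow]
  · have hcont : Continuous (fun t' : ℝ => x + (t' : ℂ) * ed v s) := by fun_prop
    have hnh : ∀ᶠ t' : ℝ in 𝓝 0, x + (t' : ℂ) * ed v s ∈ Nr v ε s := by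
      apply hcont.continuousAt.eventually_mem
      apply (Nr_open ε s).mem_nhds
      simpa using hNr
    filter_upwards [hnh] with t' ht'
    have h5 := refl Gm G hε hs ht' m
    have h6 : Rs v s (x + (t' : ℂ) * ed v s) = x + (t' : ℂ) * ed v s := by
      rw [Rs_def, hx]
      have : v s.1 + (t : ℂ) * ed v s + (t' : ℂ) * ed v s - v s.1 =
          ((t + t' : ℝ) : ℂ) * ed v s := by push_cast; ring
      rw [this, rl_smul, rl_self he]
      push_cast; ring
    rw [h6] at h5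
    exact h5

/-- (SIDE) the boundary condition of (EI) with the weight `WW`. -/
theorem side (hW : StWP) {C e0 : ℝ} (Gm : Geo v C e0) (G : ℂ → ℂ → ℝ) {ε : ℝ} (hε : 0 < ε)
    (hε0 : ε < e0) {s : Fin n × Fin n} (hs : s ∈ SD v) {t : ℝ} (ht : t ∈ Ioo (0 : ℝ) 1) (m : ℕ)
    (hd : DifferentiableAt ℝ (uX v G m ε) (v s.1 + (t : ℂ) * ed v s)) :
    WW v C ε (v s.1 + (t : ℂ) * ed v s) * (conj (uX v G m ε (v s.1 + (t : ℂ) * ed v s)) *
        fderiv ℝ (uX v G m ε) (v s.1 + (t : ℂ) * ed v s) (ed v s)).im = 0 := by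
  by_cases hW0 : WW v C ε (v s.1 + (t : ℂ) * ed v s) = 0
  · rw [hW0, zero_mul]
  obtain ⟨⟨-, -, h3, -⟩, -⟩ := hW n v C e0 Gm |>.imp (fun h => h ε hε) id
  rw [side_far Gm G hε hε0 hs ht m (h3 _ hW0) hd, mul_zero]

/-- (SIDE0) the boundary condition without a weight, when `uX` vanishes near the vertices. -/
theorem side0 {C e0 : ℝ} (Gm : Geo v C e0) (G : ℂ → ℂ → ℝ) {ε : ℝ} (hε : 0 < ε)
    (hε0 : ε < e0) {s : Fin n × Fin n} (hs : s ∈ SD v) {t : ℝ} (ht : t ∈ Ioo (0 : ℝ) 1) (m : ℕ)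
    (hd : DifferentiableAt ℝ (uX v G m ε) (v s.1 + (t : ℂ) * ed v s))
    (h0 : ∀ k, ‖v s.1 + (t : ℂ) * ed v s - v k‖ < C * ε →
      uX v G m ε (v s.1 + (t : ℂ) * ed v s) = 0) :
    (conj (uX v G m ε (v s.1 + (t : ℂ) * ed v s)) *
        fderiv ℝ (uX v G m ε) (v s.1 + (t : ℂ) * ed v s) (ed v s)).im = 0 := by
  by_cases hk : ∀ k, C * ε ≤ ‖v s.1 + (t : ℂ) * ed v s - v k‖
  · exact side_far Gm G hε hε0 hs ht m hk hd
  · push Not at hk
    obtain ⟨k, hk⟩ := hk
    rw [h0 k hk]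
    simp

/-- A symmetric point of a mirror image close to a vertex is close to it. -/
theorem Rs_vertex {s : Fin n × Fin n} (he : ed v s ≠ 0) {k : Fin n} (hk : k = s.1 ∨ k = s.2) (y : ℂ) :
    ‖Rs v s y - v k‖ = ‖y - v k‖ := by
  have h1 : Rs v s (v k) = v k := by
    rcases hk with rfl | rfl
    · rw [Rs_def, sub_self]; simp [rl]
    · rw [Rs_def]
      change v s.1 + rl (ed v s) (ed v s) = v s.2
      rw [rl_self he]
      unfold ed
      ring
  calc ‖Rs v s y - v k‖ = ‖Rs v s y - Rs v s (v k)‖ := by rw [h1]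
    _ = ‖y - v k‖ := norm_Rs_sub he y (v k)

/-- The extension vanishes near the vertices if `G` does. -/
theorem gX_vanish {C e0 : ℝ} (Gm : Geo v C e0) {G : ℂ → ℂ → ℝ} {ε : ℝ} (hε : 0 < ε)
    (hε0 : ε < e0) (hG : VZ v G (4 * C * ε)) {y : ℂ} {k : Fin n}
    (hy : ‖y - v k‖ < 4 * C * ε) (w : ℂ) : gX v G y w = 0 := by
  unfold gX
  have h1 : (PP v).indicator (fun x => G x w) y = 0 := by
    by_cases h : y ∈ PP v
    · rw [indicator_of_mem h]; exact hG y h w k hy
    · rw [indicator_of_notMem h]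
  rw [h1, zero_add]
  apply Finset.sum_eq_zero
  intro s hs
  by_cases h : y ∈ BilD.OO v s
  · rw [indicator_of_mem h]
    have he := Gm.edn s hs
    have h0 : ds v s y < 0 := by
      have h2 := (Gm.pp _).1 h s hs
      rw [ds_Rs he] at h2
      linarith
    by_cases hk : k = s.1 ∨ k = s.2
    · exact hG _ h _ k (by rw [Rs_vertex he hk]; exact hy)
    · push Not at hk
      have := Gm.far ε hε hε0 s hs k hk.1 hk.2 y (by linarith)
      linarith
  · rw [indicator_of_notMem h]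

theorem near_vertex {C e0 : ℝ} (Gm : Geo v C e0) {ε : ℝ} (hε : 0 < ε) {x y : ℂ} {k : Fin n}
    (hx : ‖x - v k‖ < 3 * C * ε) (hy : ‖x - y‖ ≤ ε) : ‖y - v k‖ < 4 * C * ε := by
  have h3 : ‖y - v k‖ ≤ ‖x - v k‖ + ‖x - y‖ := by
    calc ‖y - v k‖ = ‖(x - v k) - (x - y)‖ := by congr 1; ring
      _ ≤ _ := norm_sub_le _ _
  have h4 : ε ≤ C * ε := by nlinarith [Gm.C1]
  linarith

/-- The mollified modes vanish near the vertices if `G` does. -/
theorem uX_vanish {C e0 : ℝ} (Gm : Geo v C e0) {G : ℂ → ℂ → ℝ} {ε : ℝ} (hε : 0 < ε)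
    (hε0 : ε < e0) (hG : VZ v G (4 * C * ε)) (m : ℕ) {x : ℂ}
    {k : Fin n} (hx : ‖x - v k‖ < 3 * C * ε) : uX v G m ε x = 0 := by
  unfold uX
  have h1 : ∀ y, (et ε (x - y) : ℂ) * aX v G m y = 0 := by
    intro y
    by_cases hy : ‖x - y‖ ≤ ε
    · have h2 := near_vertex Gm hε hx hy
      have h3 : aX v G m y = 0 := by
        unfold aX
        have : ∀ w, (gX v G y w : ℂ) * em m w = 0 := by
          intro w
          rw [gX_vanish Gm hε hε0 hG h2 w]; simp
        simp_rw [this]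
        simp
      rw [h3, mul_zero]
    · rw [Refl5.et_zero hε (not_le.1 hy).le]; simp
  simp_rw [h1]
  simp

/-- (ZEROX) -/
theorem zeroX : StZeroX := by
  intro n v C e0 Gm G _ ε hε hε0 hG
  refine ⟨fun y w k hy => gX_vanish Gm hε hε0 hG hy w, fun x w h k hx => ?_, fun m x k hx => ?_⟩
  · unfold dX
    have h1 : ∀ y, gX v G y w * fderiv ℝ (et ε) (x - y) h = 0 := by
      intro y
      by_cases hy : ‖x - y‖ ≤ ε
      · rw [gX_vanish Gm hε hε0 hG (near_vertex Gm hε hx hy) w, zero_mul]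
      · rw [fderiv_et_zero hε (not_le.1 hy)]; simp
    simp_rw [h1]
    simp
  · refine ⟨uX_vanish Gm hε hε0 hG m hx, ?_⟩
    have hev : uX v G m ε =ᶠ[𝓝 x] fun _ => (0 : ℂ) := by
      have hc : Continuous (fun z : ℂ => ‖z - v k‖) := by fun_prop
      filter_upwards [hc.continuousAt.eventually_lt continuousAt_const hx] with z hz
      exact uX_vanish Gm hε hε0 hG m hz
    rw [hev.fderiv_eq]
    simp

/-- (REFLX) -/
theorem reflX : StReflX := fun _ _ _ _ Gm G _ _ hε _ _ hs _ hx m => refl Gm G hε hs hx m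

/-- (SIDEX) -/
theorem sideX (hS : StSmoX) : StSideX := by
  intro n v C e0 Gm _ G hA ε hε hε0 hG s hs t ht m
  refine side0 Gm G hε hε0 hs ht m
    (((hS n v C e0 Gm G hA ε hε m).1.differentiable (by norm_num)).differentiableAt) ?_
  intro k hk
  apply uX_vanish Gm hε hε0 hG m (k := k)
  have : 0 < C * ε := mul_pos (by linarith [Gm.C1]) hε
  linarith

/-- Both halves of the energy of a mode agree (no weight). -/
theorem energy_eq (hEI : StEI) (hS : StSmoX) (hn : 3 ≤ n) (hv : ConvexIndependent ℝ v) {C e0 : ℝ}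
    (Gm : Geo v C e0) {G : ℂ → ℂ → ℝ} (hA : AG G) {ε : ℝ} (hε : 0 < ε) (hε0 : ε < e0)
    (hG : VZ v G (4 * C * ε)) (m : ℕ) :
    ∫ x in PP v, ‖dz (uX v G m ε) x‖ ^ 2 = ∫ x in PP v, ‖dzb (uX v G m ε) x‖ ^ 2 := by
  have h := hEI n hn v hv (uX v G m ε) (fun _ => (1 : ℝ)) (hS n v C e0 Gm G hA ε hε m).1
    contDiff_const ?_
  · simp only [one_mul] at h
    have hJ : ∀ x, Jf (fun _ => (1 : ℝ)) (uX v G m ε) x = 0 := by
      intro x
      unfold Jf
      simp
    simp_rw [hJ] at h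
    simp only [integral_zero, mul_zero] at h
    linarith
  · intro s hs t ht
    rw [one_mul]
    exact sideX hS n v C e0 Gm hv G hA ε hε hε0 hG s hs t ht m

end Pool.Agent.Lib.BilF.Row27
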