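import Mathlib

/-!
# The abstract ladder (velocity averaging): telescoping with the best stopping index (helper96)
-/

set_option autoImplicit false

namespace Pool.Agent.Lib.BilF

open Finset MeasureTheory

/-- sums of square roots against the number of steps -/
theorem sum_sqrt96 {g : ℕ → ℝ} (hg : ∀ k, 0 ≤ g k) (K : ℕ) :
    ∑ k ∈ range K, √(g k) ≤ √(K * ∑ k ∈ range K, g k) := by
  have h := Finset.sum_mul_sq_le_sq_mul_sq (range K) (fun _ => (1 : ℝ)) (fun k => √(g k))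
  simp only [one_mul, one_pow, sum_const, card_range, nsmul_eq_mul, mul_one] at h
  have h2 : ∑ k ∈ range K, √(g k) ^ 2 = ∑ k ∈ range K, g k :=
    sum_congr rfl fun k _ => Real.sq_sqrt (hg k)
  rw [h2] at h
  exact Real.le_sqrt_of_sq_le h

/-- `√d_0 ≤ √(N G) + √(E / N)`. -/
theorem ladder_sqrt96 {d g : ℕ → ℝ} {G E : ℝ} {N : ℕ} (hN : 1 ≤ N)
    (hg : ∀ k, 0 ≤ g k) (h : ∀ k, k < N → √(d k) ≤ √(g k) + √(d (k + 1)))
    (hG : ∑ k ∈ range N, g k ≤ G) (hE : ∑ k ∈ range N, d k ≤ E) :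
    √(d 0) ≤ √(N * G) + √(E / N) := by
  have hN0 : (0 : ℝ) < N := by exact_mod_cast hN
  -- the best index
  obtain ⟨k, hk, hk2⟩ : ∃ k ∈ range N, d k ≤ E / N := by
    by_contra hcon
    push Not at hcon
    have hlt : ∑ k ∈ range N, E / N < ∑ k ∈ range N, d k :=
      sum_lt_sum_of_nonempty ⟨0, mem_range.mpr hN⟩ hcon
    rw [sum_const, card_range, nsmul_eq_mul, mul_div_cancel₀ _ hN0.ne'] at hlt
    linarith
  have hkN := mem_range.mp hk
  have htel : ∀ j, j ≤ N → √(d 0) ≤ ∑ i ∈ range j, √(g i) + √(d j) := by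
    intro j
    induction j with
    | zero => intro _; simp
    | succ j ih =>
      intro hj
      have h1 := ih (by omega)
      have h2 := h j (by omega)
      rw [sum_range_succ]
      linarith
  have h1 := htel k hkN.le
  have h2 := sum_sqrt96 hg k
  have h3 : ∑ i ∈ range k, g i ≤ ∑ i ∈ range N, g i :=
    sum_le_sum_of_subset_of_nonneg (range_mono hkN.le) fun i _ _ => hg i
  have h4 : (k : ℝ) * ∑ i ∈ range k, g i ≤ N * G := by
    have h5 : (k : ℝ) ≤ N := by exact_mod_cast hkN.le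
    have h6 : 0 ≤ ∑ i ∈ range k, g i := sum_nonneg fun i _ => hg i
    exact mul_le_mul h5 (h3.trans hG) h6 hN0.le
  have h7 := Real.sqrt_le_sqrt h4
  have h8 := Real.sqrt_le_sqrt hk2
  linarith

/-- `d_0 ≤ 2 (N G + E / N)`. -/
theorem ladder96 {d g : ℕ → ℝ} {G E : ℝ} {N : ℕ} (hN : 1 ≤ N) (hd : ∀ k, 0 ≤ d k)
    (hg : ∀ k, 0 ≤ g k) (h : ∀ k, k < N → √(d k) ≤ √(g k) + √(d (k + 1)))
    (hG : ∑ k ∈ range N, g k ≤ G) (hE : ∑ k ∈ range N, d k ≤ E) :
    d 0 ≤ 2 * (N * G + E / N) := by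
  have hN0 : (0 : ℝ) < N := by exact_mod_cast hN
  have h1 := ladder_sqrt96 hN hg h hG hE
  have hG0 : 0 ≤ G := (sum_nonneg fun i _ => hg i).trans hG
  have hE0 : 0 ≤ E := (sum_nonneg fun i _ => hd i).trans hE
  have h2 : √(d 0) ^ 2 ≤ (√(N * G) + √(E / N)) ^ 2 :=
    pow_le_pow_left₀ (Real.sqrt_nonneg _) h1 2
  rw [Real.sq_sqrt (hd 0)] at h2
  have h3 : √(N * G) ^ 2 = N * G := Real.sq_sqrt (by positivity)
  have h4 : √(E / N) ^ 2 = E / N := Real.sq_sqrt (by positivity)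
  nlinarith [sq_nonneg (√(N * G) - √(E / N))]

/-- triangle inequality in `L²` with square roots of integrals -/
theorem l2_tri96 {α : Type*} [MeasurableSpace α] {μ : Measure α} {a b c : α → ℝ}
    (ha2 : Integrable (fun x => a x ^ 2) μ)
    (hb2 : Integrable (fun x => b x ^ 2) μ) (hc2 : Integrable (fun x => c x ^ 2) μ)
    (h : ∀ᵐ x ∂μ, |a x| ≤ b x + c x) :
    √(∫ x, a x ^ 2 ∂μ) ≤ √(∫ x, b x ^ 2 ∂μ) + √(∫ x, c x ^ 2 ∂μ) := by
  set B := ∫ x, b x ^ 2 ∂μ with hB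
  set K := ∫ x, c x ^ 2 ∂μ with hK
  have hB0 : 0 ≤ B := integral_nonneg fun x => sq_nonneg _
  have hK0 : 0 ≤ K := integral_nonneg fun x => sq_nonneg _
  have key : ∀ t : ℝ, 0 < t → ∫ x, a x ^ 2 ∂μ ≤ (1 + t) * B + (1 + t⁻¹) * K := by
    intro t ht
    rw [hB, hK, ← integral_const_mul, ← integral_const_mul,
      ← integral_add (hb2.const_mul _) (hc2.const_mul _)]
    refine integral_mono_ae ha2 ((hb2.const_mul _).add (hc2.const_mul _)) ?_
    filter_upwards [h] with x hx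
    have h1 : a x ^ 2 ≤ (b x + c x) ^ 2 := by
      rw [← sq_abs (a x)]
      exact pow_le_pow_left₀ (abs_nonneg _) hx 2
    have h2 : 0 ≤ t * (b x - t⁻¹ * c x) ^ 2 := by positivity
    have h3 : t * (b x - t⁻¹ * c x) ^ 2 = t * b x ^ 2 - 2 * b x * c x + t⁻¹ * c x ^ 2 := by
      field_simp
      ring
    have h4 : (b x + c x) ^ 2 ≤ (1 + t) * b x ^ 2 + (1 + t⁻¹) * c x ^ 2 := by nlinarith
    exact h1.trans h4
  -- epsilon version
  have hall : ∀ ε : ℝ, 0 < ε → ∫ x, a x ^ 2 ∂μ ≤ (√B + ε + (√K + ε)) ^ 2 := by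
    intro ε hε
    have hp : 0 < √B + ε := by positivity
    have hq : 0 < √K + ε := by positivity
    have h1 := key ((√K + ε) / (√B + ε)) (by positivity)
    have hB1 : B ≤ (√B + ε) ^ 2 := by
      nlinarith [Real.sq_sqrt hB0, Real.sqrt_nonneg B]
    have hK1 : K ≤ (√K + ε) ^ 2 := by
      nlinarith [Real.sq_sqrt hK0, Real.sqrt_nonneg K]
    have h2 : (1 + (√K + ε) / (√B + ε)) * B + (1 + ((√K + ε) / (√B + ε))⁻¹) * K ≤
        (1 + (√K + ε) / (√B + ε)) * (√B + ε) ^ 2 +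
          (1 + ((√K + ε) / (√B + ε))⁻¹) * (√K + ε) ^ 2 := by
      gcongr
    have h3 : (1 + (√K + ε) / (√B + ε)) * (√B + ε) ^ 2 +
          (1 + ((√K + ε) / (√B + ε))⁻¹) * (√K + ε) ^ 2 = (√B + ε + (√K + ε)) ^ 2 := by
      field_simp
      ring
    linarith
  apply Real.sqrt_le_iff.mpr
  refine ⟨by positivity, ?_⟩
  refine le_of_forall_pos_le_add fun δ hδ => ?_
  -- choose `ε` by continuity
  have hcont : Filter.Tendsto (fun ε : ℝ => (√B + ε + (√K + ε)) ^ 2) (nhdsWithin 0 (Set.Ioi 0))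
      (nhds ((√B + 0 + (√K + 0)) ^ 2)) := by
    apply Filter.Tendsto.mono_left _ nhdsWithin_le_nhds
    apply Continuous.tendsto
    fun_prop
  have h1 := ge_of_tendsto hcont (Filter.eventually_of_mem self_mem_nhdsWithin
    (fun ε (hε : ε ∈ Set.Ioi (0 : ℝ)) => hall ε hε))
  simp only [add_zero] at h1
  linarith

end Pool.Agent.Lib.BilF
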