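import Pool.Agent.Lib.MP_7bc51d_an_full.Small16
import Pool.Agent.Lib.MP_7bc51d_an_full.TelX96
import Pool.Agent.Lib.MP_7bc51d_an_full.Row27
import Pool.Agent.Lib.MP_7bc51d_an_full.Smo21
import Pool.Agent.Lib.MP_7bc51d_an_full.CutRow3
import Pool.Agent.Lib.MP_7bc51d_an_full.CutD5
import Pool.Agent.Lib.MP_7bc51d_an_full.EstX10
import Pool.Agent.Lib.MP_7bc51d_an_full.EstT22
import Pool.Agent.Lib.MP_7bc51d_an_full.Line45
import Pool.Agent.Lib.MP_7bc51d_an_full.ConvX89

/-!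
# Every angular mode of every admissible line function is constant
-/

set_option autoImplicit false

namespace Pool.Agent.Lib.BilF.AllP17

open Complex MeasureTheory Set Filter Topology
open Pool.Agent.Lib.Bil Pool.Agent.Lib.BilD Pool.Agent.Lib.BilE

theorem rCut : StCut :=
  CutRow3.row (fun n hn v hv => by
    obtain ⟨C, hC, h⟩ := CutD5.cutD hn hv
    exact ⟨C, hC, fun a b ha hb => ⟨_, h a b ha hb⟩⟩)

theorem rSmall : StSmallX :=
  Small16.small (TelX96.row (Row27.sideX Smo21.smoX)) rCut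
    (EstX10.row Line45.row Row27.zeroX) (EstT22.row Row27.zeroX)

theorem rLim : StLimX := Small16.limX Smo21.smoX ConvX89.row

/-- All modes are constant. -/
theorem modes {n : ℕ} (hn : 3 ≤ n) {v : Fin n → ℂ} (hv : ConvexIndependent ℝ v)
    {F : ℂ → ℝ → ℝ} (hF : LFS v F) (p : ℕ) :
    ∃ c : ℂ, ∀ᵐ x, x ∈ PP v → ∫ w in BV, (F w (cr w x) : ℂ) * em p w = c := by
  obtain ⟨C, e0, hG⟩ := Geo40.row n hn v hv
  obtain ⟨c, hc⟩ := rLim n v C e0 hn hv hG F hF p (rSmall n v C e0 hn hv hG F hF p)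
  refine ⟨c, ?_⟩
  filter_upwards [hc] with x hx hxP
  rw [← Const1.am_PP hG p hxP]
  exact hx hxP

theorem const : BilX.Top16.StConstF := fun _ _ hn hv _ hF _ p _ => modes hn hv hF p

end Pool.Agent.Lib.BilF.AllP17
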