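import Pool.Agent.Lib.MP_7bc51d_an_full.Top16
import Pool.Agent.Lib.MP_7bc51d_an_dense.Geo85

/-!
# Ergodicity of convex polygons on (position, direction angle)
-/

set_option autoImplicit false

namespace Pool.Agent.Lib.BilF.Ang62

open Complex MeasureTheory Set Filter Topology
open scoped ComplexConjugate ENNReal
open Pool.Agent.Lib.Bil Pool.Agent.Lib.BilH

variable {n : ℕ} {v : Fin n → ℂ}

/-- The unit vector of angle `θ`. -/
noncomputable def dir (θ : ℝ) : ℂ := Complex.exp ((θ : ℂ) * Complex.I)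

/-- The open billiard table with vertices `v`. -/
def table (v : Fin n → ℂ) : Set ℂ := interior (convexHull ℝ (Set.range v))

/-- Motion along a segment inside the table. -/
def Straight (v : Fin n → ℂ) (p q : ℂ × ℝ) : Prop :=
  q.2 = p.2 ∧ ∃ s : ℝ, 0 ≤ s ∧ q.1 = p.1 + (s : ℂ) * dir p.2 ∧
    ∀ r ∈ Set.Icc 0 s, p.1 + (r : ℂ) * dir p.2 ∈ table v

/-- One elastic reflection at a point of the side from `v i` to `v j` which is not a vertex. -/
def Bounce (v : Fin n → ℂ) (p q : ℂ × ℝ) : Prop :=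
  ∃ (i j : Fin n) (t s : ℝ), i ≠ j ∧ 0 < t ∧ 0 < s ∧
    (∀ r ∈ Set.Ico 0 t, p.1 + (r : ℂ) * dir p.2 ∈ table v) ∧
    p.1 + (t : ℂ) * dir p.2 ∉ table v ∧
    p.1 + (t : ℂ) * dir p.2 ∈ openSegment ℝ (v i) (v j) ∧
    dir q.2 = (v j - v i) / conj (v j - v i) * conj (dir p.2) ∧
    q.1 = p.1 + (t : ℂ) * dir p.2 + (s : ℂ) * dir q.2 ∧
    ∀ r ∈ Set.Ioc 0 s, p.1 + (t : ℂ) * dir p.2 + (r : ℂ) * dir q.2 ∈ table v

/-- Invariance under the billiard flow. -/
def FlowInvariant (v : Fin n → ℂ) (A : Set (ℂ × ℝ)) : Prop :=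
  ∀ᵐ p : ℂ × ℝ, p.1 ∈ table v → ∀ q : ℂ × ℝ, Straight v p q ∨ Bounce v p q → (p ∈ A ↔ q ∈ A)

/-- The phase space: position in the table, direction angle in `(-π, π]`. -/
def phase (v : Fin n → ℂ) : Set (ℂ × ℝ) := table v ×ˢ Set.Ioc (-Real.pi) Real.pi

/-- The billiard flow in the convex polygon with vertices `v` is ergodic. -/
def Ergodic (v : Fin n → ℂ) : Prop :=
  ∀ A : Set (ℂ × ℝ), MeasurableSet A →
    (∀ (x : ℂ) (θ : ℝ), (x, θ) ∈ A ↔ (x, θ + 2 * Real.pi) ∈ A) → FlowInvariant v A →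
    volume (phase v ∩ A) = 0 ∨ volume (phase v \ A) = 0

theorem norm_dir (θ : ℝ) : ‖dir θ‖ = 1 := Complex.norm_exp_ofReal_mul_I θ

theorem dir_arg (w : ℂ) : (‖w‖ : ℂ) * dir (arg w) = w := Complex.norm_mul_exp_arg_mul_I w

theorem dir_ne (θ : ℝ) : dir θ ≠ 0 := Complex.exp_ne_zero _

/-! ### geometry -/

theorem inside {x w : ℂ} {τ r : ℝ} (hx : x ∈ PP v) (hK : x + (τ : ℂ) * w ∈ KK v) (hr : 0 ≤ r)
    (hrt : r < τ) : x + (r : ℂ) * w ∈ PP v := by
  rcases eq_or_lt_of_le hr with h | h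
  · rw [← h, ofReal_zero, zero_mul, add_zero]; exact hx
  · apply convex_KK.openSegment_interior_self_subset_interior hx hK
    rw [openSegment_eq_image']
    have hτ : 0 < τ := h.trans hrt
    refine ⟨r / τ, ⟨by positivity, by rw [div_lt_one hτ]; exact hrt⟩, ?_⟩
    simp only [real_smul, add_sub_cancel_left]
    rw [← mul_assoc, ← ofReal_mul, div_mul_cancel₀ _ hτ.ne']

theorem side_of_zero {i j k l : Fin n} (hkl : IsSide v k l) (hij : i ≠ j) {c : ℂ}
    (hc : c ∈ openSegment ℝ (v i) (v j)) (h0 : cr (v l - v k) (c - v k) = 0) :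
    (i = k ∧ j = l) ∨ (i = l ∧ j = k) := by
  obtain ⟨a, b, ha, hb, hab, rfl⟩ := hc
  have e : cr (v l - v k) (a • v i + b • v j - v k) =
      a * cr (v l - v k) (v i - v k) + b * cr (v l - v k) (v j - v k) := by
    have h1 : (a : ℂ) + (b : ℂ) = 1 := by rw [← ofReal_add, hab, ofReal_one]
    have : a • v i + b • v j - v k = (a : ℂ) * (v i - v k) + (b : ℂ) * (v j - v k) := by
      simp only [real_smul]
      linear_combination (v k) * h1
    rw [this, cr_add_right, cr_smul_right, cr_smul_right]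
  rw [e] at h0
  have hi := hkl.cr_nonneg_vert i
  have hj := hkl.cr_nonneg_vert j
  have hi' := mul_nonneg ha.le hi
  have hj' := mul_nonneg hb.le hj
  have hi0 : cr (v l - v k) (v i - v k) = 0 := by
    have : a * cr (v l - v k) (v i - v k) = 0 := by linarith
    rcases mul_eq_zero.1 this with h | h
    · exact absurd h ha.ne'
    · exact h
  have hj0 : cr (v l - v k) (v j - v k) = 0 := by
    have : b * cr (v l - v k) (v j - v k) = 0 := by linarith
    rcases mul_eq_zero.1 this with h | h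
    · exact absurd h hb.ne'
    · exact h
  have ki : i = k ∨ i = l := by
    by_contra hcon
    push Not at hcon
    have := hkl.2 i hcon.1 hcon.2
    rw [hi0] at this
    exact lt_irrefl _ this
  have kj : j = k ∨ j = l := by
    by_contra hcon
    push Not at hcon
    have := hkl.2 j hcon.1 hcon.2
    rw [hj0] at this
    exact lt_irrefl _ this
  rcases ki with rfl | rfl <;> rcases kj with rfl | rfl
  · exact absurd rfl hij
  · exact Or.inl ⟨rfl, rfl⟩
  · exact Or.inr ⟨rfl, rfl⟩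
  · exact absurd rfl hij

theorem after_bounce (hn : 3 ≤ n) (hv : ConvexIndependent ℝ v) {i j : Fin n} (hij : i ≠ j)
    {x w : ℂ} {τ σ r : ℝ} (hx : x ∈ PP v) (hcK : x + (τ : ℂ) * w ∈ KK v)
    (hc : x + (τ : ℂ) * w ∈ openSegment ℝ (v i) (v j))
    (hK : x + (τ : ℂ) * w + (σ : ℂ) * rl (v j - v i) w ∈ KK v) (hr : 0 < r) (hrs : r < σ) :
    x + (τ : ℂ) * w + (r : ℂ) * rl (v j - v i) w ∈ PP v := by
  have hne := v_sub_ne hv hij
  have hσ : 0 < σ := hr.trans hrs
  refine BilD.Geo85.mem_PP_of_cr hn hv (fun k => ?_)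
  have hkl := nxt_side hn hv k
  set l := nxt hn hv k with hl
  have h1 : 0 ≤ cr (v l - v k) (x + (τ : ℂ) * w - v k) := hkl.cr_nonneg hcK
  have h2 : 0 ≤ cr (v l - v k) (x + (τ : ℂ) * w + (σ : ℂ) * rl (v j - v i) w - v k) :=
    hkl.cr_nonneg hK
  have e : ∀ ρ : ℝ, cr (v l - v k) (x + (τ : ℂ) * w + (ρ : ℂ) * rl (v j - v i) w - v k) =
      cr (v l - v k) (x + (τ : ℂ) * w - v k) + ρ * cr (v l - v k) (rl (v j - v i) w) := by
    intro ρ
    have : x + (τ : ℂ) * w + (ρ : ℂ) * rl (v j - v i) w - v k =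
        (x + (τ : ℂ) * w - v k) + (ρ : ℂ) * rl (v j - v i) w := by ring
    rw [this, cr_add_right, cr_smul_right]
  rw [e] at h2 ⊢
  by_contra hcon
  push Not at hcon
  have h3 : cr (v l - v k) (x + (τ : ℂ) * w - v k) = 0 := by
    by_contra h0
    have h4 : 0 < cr (v l - v k) (x + (τ : ℂ) * w - v k) := lt_of_le_of_ne h1 (Ne.symm h0)
    set a := cr (v l - v k) (x + (τ : ℂ) * w - v k)
    set b := cr (v l - v k) (rl (v j - v i) w)
    have h5 : b < 0 := by
      by_contra h6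
      push Not at h6
      have := mul_nonneg hr.le h6
      linarith
    nlinarith
  have h4 : cr (v l - v k) (rl (v j - v i) w) = 0 := by
    rw [h3, zero_add] at h2 hcon
    have h5 : cr (v l - v k) (rl (v j - v i) w) ≤ 0 := by
      by_contra h6
      push Not at h6
      have := mul_pos hr h6
      linarith
    have h6 : 0 ≤ cr (v l - v k) (rl (v j - v i) w) := by
      by_contra h7
      push Not at h7
      have := mul_neg_of_pos_of_neg hσ h7
      linarith
    linarith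
  have h5 : cr (v j - v i) (rl (v j - v i) w) = 0 := by
    rcases side_of_zero hkl hij hc h3 with ⟨h6, h7⟩ | ⟨h6, h7⟩
    · rw [h6, h7]; rw [h6, h7] at h4; exact h4
    · rw [h6, h7]
      rw [h6, h7] at h4
      have : v k - v l = -(v l - v k) := by ring
      rw [this, cr_neg_left, ← this, h4, neg_zero]
  have h6 : cr (v j - v i) w = 0 := by
    have h7 := cr_rl hne (v j - v i) w
    rw [rl_self hne] at h7
    linarith
  have h7 : cr (v l - v k) w = 0 := by
    rcases side_of_zero hkl hij hc h3 with ⟨h8, h9⟩ | ⟨h8, h9⟩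
    · rw [h8, h9] at h6; exact h6
    · rw [h8, h9] at h6
      have : v l - v k = -(v k - v l) := by ring
      rw [this, cr_neg_left, h6, neg_zero]
  have h8 : cr (v l - v k) (x - v k) = 0 := by
    have e2 : x + (τ : ℂ) * w - v k = (x - v k) + (τ : ℂ) * w := by ring
    rw [e2, cr_add_right, cr_smul_right, h7, mul_zero, add_zero] at h3
    exact h3
  have h9 := hkl.cr_pos hv hx
  rw [h8] at h9
  exact lt_irrefl _ h9

/-! ### polar coordinates -/

theorem arg_symm {p : ℝ × ℝ} (hp : p ∈ Ioi (0 : ℝ) ×ˢ Ioo (-Real.pi) Real.pi) :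
    arg (Complex.polarCoord.symm p) = p.2 := by
  rw [Complex.polarCoord_symm_apply]
  have h := hp.2
  rw [mem_prod] at hp
  have h2 : ((Real.cos p.2 : ℝ) : ℂ) + ((Real.sin p.2 : ℝ) : ℂ) * I =
      Complex.cos p.2 + Complex.sin p.2 * I := by
    rw [ofReal_cos, ofReal_sin]
  rw [h2]
  exact Complex.arg_mul_cos_add_sin_mul_I hp.1 ⟨h.1, h.2.le⟩

theorem measurable_symm : Measurable (Complex.polarCoord.symm : ℝ × ℝ → ℂ) := by
  have h1 : Measurable (fun p : ℝ × ℝ =>
      (p.1 : ℂ) * ((Real.cos p.2 : ℝ) + (Real.sin p.2 : ℝ) * Complex.I)) := by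
    fun_prop
  have h2 : (Complex.polarCoord.symm : ℝ × ℝ → ℂ) = fun p : ℝ × ℝ =>
      (p.1 : ℂ) * ((Real.cos p.2 : ℝ) + (Real.sin p.2 : ℝ) * Complex.I) := by
    funext p; exact Complex.polarCoord_symm_apply p
  rw [h2]
  exact h1

theorem arg_qmp : Measure.QuasiMeasurePreserving Complex.arg volume volume := by
  refine ⟨Complex.measurable_arg, ?_⟩
  refine Measure.AbsolutelyContinuous.mk (fun S hS h0 => ?_)
  rw [Measure.map_apply Complex.measurable_arg hS,
    ← lintegral_indicator_one (Complex.measurable_arg hS),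
    ← Complex.lintegral_comp_polarCoord_symm]
  refine (lintegral_eq_zero_iff' ?_).2 ?_
  · refine AEMeasurable.smul (f := fun p : ℝ × ℝ => ENNReal.ofReal p.1) (by fun_prop) ?_
    refine (Measurable.aemeasurable ?_)
    refine (measurable_one.indicator (Complex.measurable_arg hS)).comp ?_
    exact measurable_symm
  · have hm : MeasurableSet (polarCoord.target) := by
      rw [polarCoord_target]
      exact measurableSet_Ioi.prod measurableSet_Ioo
    have hnull : ∀ᵐ p : ℝ × ℝ, p.2 ∉ S := by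
      have h1 : ∀ᵐ θ : ℝ, θ ∉ S := measure_eq_zero_iff_ae_notMem.1 h0
      exact (Measure.quasiMeasurePreserving_snd (μ := (volume : Measure ℝ))
        (ν := (volume : Measure ℝ))).ae h1
    change (_ =ᵐ[volume.restrict _] 0)
    rw [Filter.EventuallyEq, ae_restrict_iff' hm]
    filter_upwards [hnull] with p hp hpt
    rw [polarCoord_target] at hpt
    have : Complex.polarCoord.symm p ∉ Complex.arg ⁻¹' S := by
      rw [mem_preimage, arg_symm hpt]; exact hp
    rw [indicator_of_notMem this, smul_zero]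
    rfl

/-- the pair (position, angle) -/
noncomputable def ang (p : ℂ × ℂ) : ℂ × ℝ := (p.1, arg p.2)

theorem measurable_ang : Measurable ang :=
  measurable_fst.prodMk (Complex.measurable_arg.comp measurable_snd)

theorem ang_qmp : Measure.QuasiMeasurePreserving ang volume volume := by
  have := MeasureTheory.QuasiMeasurePreserving.prodMap
    (Measure.QuasiMeasurePreserving.id (volume : Measure ℂ)) arg_qmp
  exact this

theorem null_of_ang {B : Set (ℂ × ℝ)} (hB : MeasurableSet B)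
    (h : volume ((PP v ×ˢ Metric.ball (0 : ℂ) 1) ∩ ang ⁻¹' B) = 0) :
    volume (phase v ∩ B) = 0 := by
  have hPm : MeasurableSet (PP v) := isOpen_PP.measurableSet
  have hm1 : MeasurableSet ((PP v ×ˢ Metric.ball (0 : ℂ) 1) ∩ ang ⁻¹' B) :=
    (hPm.prod Metric.isOpen_ball.measurableSet).inter (measurable_ang hB)
  have hm2 : MeasurableSet (phase v ∩ B) := (hPm.prod measurableSet_Ioc).inter hB
  rw [Measure.volume_eq_prod, Measure.measure_prod_null hm1] at h
  rw [Measure.volume_eq_prod, Measure.measure_prod_null hm2]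
  filter_upwards [h] with x hx
  by_cases hxP : x ∈ PP v
  swap
  · have : Prod.mk x ⁻¹' (phase v ∩ B) = ∅ := by
      ext θ
      simp only [mem_preimage, mem_inter_iff, mem_empty_iff_false, iff_false, not_and]
      intro h1
      exact absurd h1.1 hxP
    rw [this, measure_empty]
    rfl
  set S : Set ℝ := Prod.mk x ⁻¹' B with hS
  have hSm : MeasurableSet S := measurable_prodMk_left hB
  have e1 : Prod.mk x ⁻¹' ((PP v ×ˢ Metric.ball (0 : ℂ) 1) ∩ ang ⁻¹' B) =
      Metric.ball (0 : ℂ) 1 ∩ Complex.arg ⁻¹' S := by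
    ext w
    simp only [mem_preimage, mem_inter_iff, mem_prod, hxP, true_and, hS, ang]
  have hx' : volume (Metric.ball (0 : ℂ) 1 ∩ Complex.arg ⁻¹' S) = 0 := by
    rw [← e1]; exact hx
  have hWm : MeasurableSet (Metric.ball (0 : ℂ) 1 ∩ Complex.arg ⁻¹' S) :=
    Metric.isOpen_ball.measurableSet.inter (Complex.measurable_arg hSm)
  rw [← lintegral_indicator_one hWm, ← Complex.lintegral_comp_polarCoord_symm] at hx'
  have hme : Measurable (fun p : ℝ × ℝ => ENNReal.ofReal p.1 •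
      (Metric.ball (0 : ℂ) 1 ∩ Complex.arg ⁻¹' S).indicator (1 : ℂ → ℝ≥0∞)
        (Complex.polarCoord.symm p)) := by
    refine Measurable.smul (f := fun p : ℝ × ℝ => ENNReal.ofReal p.1) (by fun_prop) ?_
    refine (measurable_one.indicator hWm).comp ?_
    exact measurable_symm
  have hx2 := (lintegral_eq_zero_iff hme).1 hx'
  have hm : MeasurableSet (polarCoord.target) := by
    rw [polarCoord_target]
    exact measurableSet_Ioi.prod measurableSet_Ioo
  rw [Filter.EventuallyEq, ae_restrict_iff' hm] at hx2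
  have hnull : volume ((Ioo (0 : ℝ) 1) ×ˢ (S ∩ Ioo (-Real.pi) Real.pi)) = 0 := by
    rw [measure_eq_zero_iff_ae_notMem]
    filter_upwards [hx2] with p hp hpm
    have hpt : p ∈ polarCoord.target := by
      rw [polarCoord_target]
      exact ⟨hpm.1.1, hpm.2.2⟩
    have h3 := hp hpt
    rw [polarCoord_target] at hpt
    have hmem : Complex.polarCoord.symm p ∈ Metric.ball (0 : ℂ) 1 ∩ Complex.arg ⁻¹' S := by
      refine ⟨?_, ?_⟩
      · rw [mem_ball_zero_iff, Complex.norm_polarCoord_symm, abs_of_pos hpm.1.1]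
        exact hpm.1.2
      · rw [mem_preimage, arg_symm hpt]; exact hpm.2.1
    rw [indicator_of_mem hmem] at h3
    simp only [Pi.one_apply, smul_eq_mul, mul_one, Pi.zero_apply, ENNReal.ofReal_eq_zero] at h3
    exact absurd hpm.1.1 (not_lt.2 h3)
  rw [Measure.volume_eq_prod, Measure.prod_prod, Real.volume_Ioo] at hnull
  have hS0 : volume (S ∩ Ioo (-Real.pi) Real.pi) = 0 := by
    rcases mul_eq_zero.1 hnull with h4 | h4
    · norm_num at h4
    · exact h4
  change volume (Prod.mk x ⁻¹' (phase v ∩ B)) = 0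
  refine measure_mono_null (t := (S ∩ Ioo (-Real.pi) Real.pi) ∪ {Real.pi}) ?_ ?_
  · rintro θ ⟨⟨-, h5⟩, h6⟩
    rcases eq_or_lt_of_le h5.2 with h7 | h7
    · right; exact h7
    · left; exact ⟨h6, h5.1, h7⟩
  · rw [measure_union_null_iff]
    exact ⟨hS0, Real.volume_singleton⟩

/-! ### the theorem -/

theorem hyp_of_inv (hn : 3 ≤ n) (hv : ConvexIndependent ℝ v) {A : Set (ℂ × ℝ)}
    (hA : FlowInvariant v A) : ∀ᵐ p : ℂ × ℂ, HypAt v (ang ⁻¹' A) p := by
  have h0 := ang_qmp.ae hA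
  filter_upwards [h0] with p hp hx hw τ hτ hfr
  have hq := hp hx
  obtain ⟨hK, hnP⟩ := mem_frontier.1 hfr
  have hρ : 0 < ‖p.2‖ := norm_pos_iff.2 hw
  have hρc : (‖p.2‖ : ℂ) ≠ 0 := by exact_mod_cast hρ.ne'
  have ed : dir (arg p.2) = p.2 / (‖p.2‖ : ℂ) := by
    rw [eq_div_iff hρc, mul_comm]; exact dir_arg _
  have es : ∀ s : ℝ, (s : ℂ) * p.2 = ((s * ‖p.2‖ : ℝ) : ℂ) * dir (arg p.2) := by
    intro s
    rw [ed]; push_cast; field_simp
  have er : ∀ r : ℝ, (r : ℂ) * dir (arg p.2) = ((r / ‖p.2‖ : ℝ) : ℂ) * p.2 := by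
    intro r
    rw [ed]; push_cast; field_simp
  refine ⟨fun s hs hst => ?_, fun hr i j hij hseg σ hσ hfr2 r hr0 hrσ => ?_⟩
  · refine hq (p.1 + (s : ℂ) * p.2, arg p.2) (Or.inl ⟨rfl, s * ‖p.2‖, by positivity, ?_, ?_⟩)
    · change p.1 + (s : ℂ) * p.2 = p.1 + _
      rw [es]
      rfl
    · intro r hr
      change p.1 + (r : ℂ) * dir (arg p.2) ∈ PP v
      rw [er]
      refine inside hx hK (div_nonneg hr.1 hρ.le) ?_
      rw [div_lt_iff₀ hρ]
      exact hr.2.trans_lt ((mul_lt_mul_iff_left₀ hρ).2 hst)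
  · have hne := v_sub_ne hv hij
    obtain ⟨hK2, hnP2⟩ := mem_frontier.1 hfr2
    have hopen : p.1 + (τ : ℂ) * p.2 ∈ openSegment ℝ (v i) (v j) := by
      rw [← insert_endpoints_openSegment] at hseg
      rcases hseg with h | h | h
      · exact absurd ⟨i, h.symm⟩ hr
      · exact absurd ⟨j, h.symm⟩ hr
      · exact h
    set w' : ℂ := (v j - v i) / (starRingEnd ℂ) (v j - v i) * (starRingEnd ℂ) p.2 with hw'
    have hw'r : w' = rl (v j - v i) p.2 := rfl
    have hn' : ‖w'‖ = ‖p.2‖ := by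
      rw [hw', norm_mul, norm_div, RCLike.norm_conj, RCLike.norm_conj,
        div_self (norm_ne_zero_iff.2 hne), one_mul]
    have hdir' : dir (arg w') = w' / (‖p.2‖ : ℂ) := by
      rw [eq_div_iff hρc, mul_comm, ← hn']; exact dir_arg _
    have es' : ∀ s : ℝ, (s : ℂ) * w' = ((s * ‖p.2‖ : ℝ) : ℂ) * dir (arg w') := by
      intro s
      rw [hdir']; push_cast; field_simp
    have er' : ∀ r : ℝ, (r : ℂ) * dir (arg w') = ((r / ‖p.2‖ : ℝ) : ℂ) * w' := by
      intro r
      rw [hdir']; push_cast; field_simp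
    refine hq (p.1 + (τ : ℂ) * p.2 + (r : ℂ) * w', arg w')
      (Or.inr ⟨i, j, τ * ‖p.2‖, r * ‖p.2‖, hij, by positivity, by positivity, ?_, ?_, ?_, ?_,
        ?_, ?_⟩)
    · intro ρ hρ'
      change p.1 + (ρ : ℂ) * dir (arg p.2) ∈ PP v
      rw [er]
      refine inside hx hK (div_nonneg hρ'.1 hρ.le) ?_
      rw [div_lt_iff₀ hρ]
      exact hρ'.2
    · change p.1 + _ ∉ PP v
      have := es τ
      change p.1 + ((τ * ‖p.2‖ : ℝ) : ℂ) * dir (arg p.2) ∉ PP v
      rw [← this]
      exact hnP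
    · change p.1 + ((τ * ‖p.2‖ : ℝ) : ℂ) * dir (arg p.2) ∈ _
      rw [← es τ]
      exact hopen
    · change dir (arg w') = _ * conj (dir (arg p.2))
      rw [hdir', ed, hw', map_div₀, conj_ofReal]
      ring
    · change p.1 + (τ : ℂ) * p.2 + (r : ℂ) * w' =
        p.1 + ((τ * ‖p.2‖ : ℝ) : ℂ) * dir (arg p.2) + ((r * ‖p.2‖ : ℝ) : ℂ) * dir (arg w')
      rw [← es, ← es']
    · intro ρ hρ'
      change p.1 + ((τ * ‖p.2‖ : ℝ) : ℂ) * dir (arg p.2) + (ρ : ℂ) * dir (arg w') ∈ PP v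
      rw [← es, er', hw'r]
      refine after_bounce hn hv hij hx hK hopen (by rw [← hw'r]; exact hK2)
        (div_pos hρ'.1 hρ) ?_
      rw [div_lt_iff₀ hρ]
      exact hρ'.2.trans_lt ((mul_lt_mul_iff_left₀ hρ).2 hrσ)

theorem ergodic (hconst : BilX.Top16.StConstF) (hn : 3 ≤ n) (hv : ConvexIndependent ℝ v)
    (hirr : IrrPair v) : Ergodic v := by
  intro A hAm _ hA
  have hcone : ∀ x w : ℂ, ∀ c : ℝ, 0 < c →
      ((x, w) ∈ ang ⁻¹' A ↔ (x, (c : ℂ) * w) ∈ ang ⁻¹' A) := by
    intro x w c hc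
    simp only [mem_preimage, ang]
    rw [Complex.arg_real_mul w hc]
  rcases BilX.Top16.fin hconst hn hv hirr (measurable_ang hAm) hcone (hyp_of_inv hn hv hA) with
    h | h
  · left
    apply null_of_ang hAm
    rw [inter_comm]
    exact h
  · right
    have := null_of_ang (v := v) (B := Aᶜ) hAm.compl (by
      rw [preimage_compl, ← diff_eq]
      exact h)
    rw [← diff_eq] at this
    exact this

end Pool.Agent.Lib.BilF.Ang62
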