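import Pool.Agent.Lib.MP_7bc51d_an.Code
import Pool.Agent.Lib.MP_7bc51d_an.Mink
import Pool.Agent.Lib.MP_7bc51d_an.Potential
import Pool.Agent.Lib.MP_7bc51d_an.Exit

/-!
# Unfolded vertices seen from parallel lines
-/

set_option autoImplicit false

namespace Pool.Agent.Lib.BilX.B3

open Complex MeasureTheory Set Filter Topology
open scoped ComplexConjugate
open Pool.Agent.Lib.Bil

variable {n : ℕ} {v : Fin n → ℂ}

theorem dt_eq_re3 (a b : ℂ) : dt a b = (conj a * b).re := by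
  simp only [dt, mul_re, conj_re, conj_im]; ring

theorem dt_rl3 {a : ℂ} (ha : a ≠ 0) (b c : ℂ) : dt (rl a b) (rl a c) = dt b c := by
  have h1 : conj a ≠ 0 := by simpa using ha
  rw [dt_eq_re3, dt_eq_re3]
  have : conj (rl a b) * rl a c = conj (conj b * c) := by
    simp only [rl, map_mul, map_div₀, conj_conj]
    field_simp
  rw [this, conj_re]

theorem dt_Lo3 (hv : ConvexIndependent ℝ v) {g : List (Fin n × Fin n)} (hg : Val v g) (w z : ℂ) :
    dt (Lo v g w) (Lo v g z) = dt w z := by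
  induction g with
  | nil => rfl
  | cons s g ih =>
    change dt (rl (v s.2 - v s.1) (Lo v g w)) (rl (v s.2 - v s.1) (Lo v g z)) = dt w z
    rw [dt_rl3 (v_sub_ne hv hg.head.1), ih hg.tail]

theorem dt_self3 (a : ℂ) : dt a a = ‖a‖ ^ 2 := by
  rw [dt, ← Complex.normSq_eq_norm_sq, Complex.normSq_apply]

/-- `RR` fixes the points of its line. -/
theorem RR_fix3 (hv : ConvexIndependent ℝ v) {i j : Fin n} (hij : i ≠ j) (θ : ℝ) :
    RR v i j (v i + (θ : ℂ) * (v j - v i)) = v i + (θ : ℂ) * (v j - v i) := by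
  unfold RR
  rw [add_sub_cancel_left, rl_smul, rl_self (v_sub_ne hv hij)]

theorem Lo_ne_zero3 (hv : ConvexIndependent ℝ v) {g : List (Fin n × Fin n)} (hg : Val v g) {w : ℂ}
    (hw : w ≠ 0) : Lo v g w ≠ 0 := by
  rw [← norm_pos_iff, norm_Lo hv hg]
  exact norm_pos_iff.2 hw

/-- Monotonicity of the crossing times. -/
theorem step3 (hv : ConvexIndependent ℝ v) {x w : ℂ} (hw : w ≠ 0) {s : Fin n × Fin n}
    {g : List (Fin n × Fin n)} (h : Rz v (s :: g) x w) {t0 : ℝ}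
    (h0 : Fo v g x + (t0 : ℂ) * Lo v g w ∈ KK v) :
    ∃ t : ℝ, t0 ≤ t ∧ Fo v (s :: g) x + (t : ℂ) * Lo v (s :: g) w ∈ KK v := by
  obtain ⟨hg, hs, h1, h2⟩ := h
  have hW : Lo v g w ≠ 0 := Lo_ne_zero3 hv hg.val hw
  set W := Lo v g w with hWd
  set X := Fo v g x with hXd
  have hpos : 0 < cr W (v s.2) - cr W (v s.1) := by linarith
  set θ : ℝ := (cr W X - cr W (v s.1)) / (cr W (v s.2) - cr W (v s.1)) with hθ
  have hθ0 : 0 ≤ θ := div_nonneg (by linarith) hpos.le
  have hθ1 : θ ≤ 1 := by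
    rw [hθ, div_le_one hpos]; linarith
  set E : ℂ := v s.1 + (θ : ℂ) * (v s.2 - v s.1) with hE
  have hEK : E ∈ KK v := side_point_mem_KK hθ0 hθ1
  have hcE : cr W (E - X) = 0 := by
    rw [hE, cr_sub_right, cr_add_right, cr_smul_right, cr_sub_right, hθ]
    field_simp
    ring
  obtain ⟨t, ht⟩ := (cr_eq_zero_iff hW).1 hcE
  have hEX : X + (t : ℂ) * W = E := by
    rw [← ht]; ring
  refine ⟨t, ?_, ?_⟩
  · have k1 : 0 ≤ cr (v s.2 - v s.1) (X + (t0 : ℂ) * W - v s.1) := hs.cr_nonneg h0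
    have k2 : cr (v s.2 - v s.1) (X + (t : ℂ) * W - v s.1) = 0 := by
      rw [hEX, hE, add_sub_cancel_left, cr_smul_right, cr_self, mul_zero]
    have k3 : cr (v s.2 - v s.1) W < 0 := by
      rw [cr_swap, cr_sub_right]
      linarith
    have k4 : cr (v s.2 - v s.1) (X + (t0 : ℂ) * W - v s.1) -
        cr (v s.2 - v s.1) (X + (t : ℂ) * W - v s.1) = (t0 - t) * cr (v s.2 - v s.1) W := by
      rw [← cr_sub_right, ← cr_smul_right]
      congr 1
      push_cast
      ring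
    by_contra hcon
    push Not at hcon
    have : (t0 - t) * cr (v s.2 - v s.1) W < 0 := mul_neg_of_pos_of_neg (by linarith) k3
    linarith
  · have : Fo v (s :: g) x + (t : ℂ) * Lo v (s :: g) w = E := by
      change RR v s.1 s.2 X + (t : ℂ) * rl (v s.2 - v s.1) W = E
      rw [← rl_smul, ← RR_add, hEX, hE]
      exact RR_fix3 hv hs.1 θ
    rw [this]
    exact hEK

theorem cr_Fo3 (hv : ConvexIndependent ℝ v) {g : List (Fin n × Fin n)} (hg : Val v g)
    (w x y : ℂ) : |cr (Lo v g w) (Fo v g x) - cr (Lo v g w) (Fo v g y)| = |cr w (x - y)| := by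
  rw [← cr_sub_right, Fo_sub, abs_cr_Lo hv hg]

theorem chain3 (hv : ConvexIndependent ℝ v) {x w : ℂ} (hx : x ∈ KK v) (hw : w ≠ 0) (y : ℂ)
    (g : List (Fin n × Fin n)) (hg : Rz v g x w) :
    ∃ t : ℝ, 0 ≤ t ∧ Fo v g x + (t : ℂ) * Lo v g w ∈ KK v ∧
      (Rz v g y w ∨ ∃ (g' : List (Fin n × Fin n)) (l' : Fin n) (t' : ℝ), Rz v g' y w ∧ Val v g' ∧
        |cr (Lo v g' w) (v l' - Fo v g' y)| ≤ |cr w (x - y)| ∧ 0 ≤ t' ∧ t' ≤ t ∧
        Fo v g' x + (t' : ℂ) * Lo v g' w ∈ KK v) := by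
  induction g with
  | nil =>
    refine ⟨0, le_rfl, ?_, Or.inl trivial⟩
    change x + ((0 : ℝ) : ℂ) * w ∈ KK v
    rwa [ofReal_zero, zero_mul, add_zero]
  | cons s g ih =>
    obtain ⟨t0, ht0, hK0, hor⟩ := ih hg.1
    obtain ⟨t, ht, hK⟩ := step3 hv hw hg hK0
    refine ⟨t, ht0.trans ht, hK, ?_⟩
    rcases hor with hy | ⟨g', l', t', h1, h2, h3, h4, h5, h6⟩
    · have hval : Val v g := hg.1.val
      have hd := cr_Fo3 hv hval w x y
      have hX1 := hg.2.2.1
      have hX2 := hg.2.2.2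
      by_cases c1 : cr (Lo v g w) (v s.1) < cr (Lo v g w) (Fo v g y)
      · by_cases c2 : cr (Lo v g w) (Fo v g y) < cr (Lo v g w) (v s.2)
        · exact Or.inl ⟨hy, hg.2.1, c1, c2⟩
        · refine Or.inr ⟨g, s.2, t0, hy, hval, ?_, ht0, ht, hK0⟩
          rw [← hd, cr_sub_right]
          push Not at c2
          rw [abs_of_nonpos (by linarith), abs_of_nonpos (by linarith)]
          linarith
      · refine Or.inr ⟨g, s.1, t0, hy, hval, ?_, ht0, ht, hK0⟩
        rw [← hd, cr_sub_right]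
        push Not at c1
        rw [abs_of_nonneg (by linarith), abs_of_nonneg (by linarith)]
        linarith
    · exact Or.inr ⟨g', l', t', h1, h2, h3, h4, h5.trans ht, h6⟩

/-- (B), target form: every unfolded vertex seen from `(x, w)` gives one seen from `(y, w)`. -/
theorem target3 (hv : ConvexIndependent ℝ v) {D : ℝ} (hD : ∀ y ∈ KK v, ∀ l, ‖v l - y‖ ≤ D)
    {x w : ℂ} (hx : x ∈ KK v) (hw : w ≠ 0) (y : ℂ) (g : List (Fin n × Fin n)) (l : Fin n)
    (hg : Rz v g x w) :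
    ∃ (g' : List (Fin n × Fin n)) (l' : Fin n), Rz v g' y w ∧
      |cr (Lo v g' w) (v l' - Fo v g' y)| ≤
        |cr (Lo v g w) (v l - Fo v g x)| + |cr w (x - y)| ∧
      |dt (Lo v g' w) (v l' - Fo v g' y)| ≤
        |dt (Lo v g w) (v l - Fo v g x)| + |dt w (x - y)| + 2 * D * ‖w‖ := by
  have hnw : 0 < ‖w‖ := norm_pos_iff.2 hw
  have hD0 : 0 ≤ D := (norm_nonneg _).trans (hD x hx l)
  obtain ⟨t, ht, hK, hor⟩ := chain3 hv hx hw y g hg
  -- a formula for `dt`
  have form : ∀ (g : List (Fin n × Fin n)) (l : Fin n) (t : ℝ), Val v g →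
      Fo v g x + (t : ℂ) * Lo v g w ∈ KK v →
      |dt (Lo v g w) (v l - Fo v g x) - t * ‖w‖ ^ 2| ≤ D * ‖w‖ := by
    intro g l t hgv hK
    have e1 : dt (Lo v g w) (v l - Fo v g x) - t * ‖w‖ ^ 2 =
        dt (Lo v g w) (v l - (Fo v g x + (t : ℂ) * Lo v g w)) := by
      rw [← norm_Lo hv hgv w, ← dt_self3, ← dt_smul_right, ← dt_sub_right]
      congr 1
      ring
    rw [e1]
    refine (abs_dt_le _ _).trans ?_
    rw [norm_Lo hv hgv, mul_comm]
    exact mul_le_mul_of_nonneg_right (hD _ hK l) hnw.le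
  rcases hor with hy | ⟨g', l', t', h1, h2, h3, h4, h5, h6⟩
  · refine ⟨g, l, hy, ?_, ?_⟩
    · have e1 : v l - Fo v g y = (v l - Fo v g x) + Lo v g (x - y) := by
        rw [← Fo_sub]; ring
      rw [e1, cr_add_right]
      refine (abs_add_le _ _).trans ?_
      rw [abs_cr_Lo hv hg.val]
    · have e1 : dt (Lo v g w) (v l - Fo v g y) = dt (Lo v g w) (v l - Fo v g x) + dt w (x - y) := by
        rw [← dt_Lo3 hv hg.val w (x - y), ← Fo_sub, dt_sub_right, dt_sub_right, dt_sub_right]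
        ring
      rw [e1]
      have := abs_add_le (dt (Lo v g w) (v l - Fo v g x)) (dt w (x - y))
      have : 0 ≤ 2 * D * ‖w‖ := by positivity
      linarith
  · refine ⟨g', l', h1, h3.trans (le_add_of_nonneg_left (abs_nonneg _)), ?_⟩
    have f1 := form g' l' t' h2 h6
    have f2 := form g l t hg.val hK
    have e1 : dt (Lo v g' w) (v l' - Fo v g' y) =
        dt (Lo v g' w) (v l' - Fo v g' x) + dt w (x - y) := by
      rw [← dt_Lo3 hv h2 w (x - y), ← Fo_sub, dt_sub_right, dt_sub_right, dt_sub_right]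
      ring
    rw [e1]
    have a1 := abs_add_le (dt (Lo v g' w) (v l' - Fo v g' x)) (dt w (x - y))
    have a2 : |dt (Lo v g' w) (v l' - Fo v g' x)| ≤ t' * ‖w‖ ^ 2 + D * ‖w‖ := by
      have := abs_le.1 f1
      have p : 0 ≤ t' * ‖w‖ ^ 2 := by positivity
      have q : 0 ≤ D * ‖w‖ := by positivity
      rw [abs_le]
      constructor <;> linarith
    have a3 : t * ‖w‖ ^ 2 - D * ‖w‖ ≤ |dt (Lo v g w) (v l - Fo v g x)| := by
      have := abs_le.1 f2
      have := le_abs_self (dt (Lo v g w) (v l - Fo v g x))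
      linarith
    have a4 : t' * ‖w‖ ^ 2 ≤ t * ‖w‖ ^ 2 := mul_le_mul_of_nonneg_right h5 (by positivity)
    linarith

end Pool.Agent.Lib.BilX.B3
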