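import Pool.Agent.Lib.MP_7bc51d_an_full.Defs
import Pool.Agent.Lib.MP_7bc51d_an_full.Gam21

/-!
# Regularity, ladder and Bessel inequalities for the mollified modes
-/

set_option autoImplicit false

namespace Pool.Agent.Lib.BilF.BesX85

open Complex MeasureTheory Set Filter Topology
open scoped ComplexConjugate
open Pool.Agent.Lib.Bil Pool.Agent.Lib.BilD Pool.Agent.Lib.BilE Pool.Agent.Lib.BilG

variable {n : ℕ} {v : Fin n → ℂ} {G : ℂ → ℂ → ℝ} {ε : ℝ}

theorem gX_le (hG : AG G) (x w : ℂ) : |gX v G x w| ≤ (n : ℝ) ^ 2 + 1 := by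
  unfold gX
  have h2 : ∀ (S : Set ℂ) (g : ℂ → ℝ), (∀ y, |g y| ≤ 1) → |S.indicator g x| ≤ 1 := by
    intro S g hg
    by_cases h : x ∈ S
    · rw [indicator_of_mem h]; exact hg x
    · rw [indicator_of_notMem h, abs_zero]; exact zero_le_one
  have h3 : |∑ s ∈ SD v, (BilD.OO v s).indicator
      (fun x => G (Rs v s x) (rl (ed v s) w)) x| ≤ ∑ s ∈ SD v, (1 : ℝ) :=
    (Finset.abs_sum_le_sum_abs _ _).trans
      (Finset.sum_le_sum (fun s _ => h2 _ _ (fun y => hG.bd _ _)))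
  have h4 : ∑ s ∈ SD v, (1 : ℝ) ≤ (n : ℝ) ^ 2 := by
    rw [Finset.sum_const, nsmul_eq_mul, mul_one]
    have : (SD v).card ≤ n ^ 2 := by
      calc (SD v).card ≤ Fintype.card (Fin n × Fin n) := Finset.card_le_univ _
        _ = n ^ 2 := by simp [sq]
    exact_mod_cast this
  have h5 := h2 (PP v) (fun x => G x w) (fun y => hG.bd _ _)
  refine (abs_add_le _ _).trans ?_
  linarith

theorem gX_meas (hG : AG G) : Measurable (fun p : ℂ × ℂ => gX v G p.1 p.2) := by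
  unfold gX
  apply Measurable.add
  · exact hG.meas.indicator (measurable_fst meas_PP)
  · apply Finset.measurable_fun_sum
    intro s _
    have h2 : Measurable (fun p : ℂ × ℂ => rl (ed v s) p.2) :=
      (continuous_rl (ed v s)).measurable.comp measurable_snd
    have h3 : Measurable (fun p : ℂ × ℂ => Rs v s p.1) := (cont_Rs s).measurable.comp measurable_fst
    have h1 : Measurable (fun p : ℂ × ℂ => G (Rs v s p.1) (rl (ed v s) p.2)) :=
      hG.meas.comp (h3.prodMk h2)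
    exact h1.indicator (measurable_fst (meas_OO s))

theorem gm (hG : AG G) : GM (gX v G) ((n : ℝ) ^ 2 + 1) := ⟨gX_meas hG, gX_le hG⟩

theorem aX_eq (m : ℕ) (x : ℂ) : aX v G m x = aG (gX v G) m x := rfl

theorem uX_eq (m : ℕ) (ε : ℝ) (x : ℂ) : uX v G m ε x = uG (gX v G) m ε x := rfl

theorem dX_eq (ε : ℝ) (x w h : ℂ) : dX v G ε x w h = gG (gX v G) ε x w h := rfl

/-- (SMOX) -/
theorem rowSmo : StSmoX := fun _ _ _ _ _ _ hG _ hε m => smo (gm hG) hε m

/-- (MODEX) -/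
theorem rowMode : StModeX := fun _ _ _ _ _ _ hG _ hε x m => mode (gm hG) hε m x

/-- (BESX) -/
theorem row : StBesX := by
  refine ⟨2 * Real.pi, by positivity, fun n v C e0 _ G hG ε hε x S => ⟨?_, ?_⟩⟩
  · exact bes (gm hG) hε x S
  · refine (besx (gm hG) hε x S).trans ?_
    have h0 : 0 ≤ ∫ w in BV, gG (gX v G) ε x w (w / (‖w‖ : ℂ)) ^ 2 :=
      integral_nonneg (fun w => sq_nonneg _)
    have hpi := Real.pi_pos
    change Real.pi * _ ≤ 2 * Real.pi * ∫ w in BV, gG (gX v G) ε x w (w / (‖w‖ : ℂ)) ^ 2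
    nlinarith

/-! ### bounds and measurability of the derivative -/

theorem dX_bound (hG : AG G) (hε : 0 < ε) (x w h : ℂ) :
    |dX v G ε x w h| ≤ ((n : ℝ) ^ 2 + 1) * KK0 * Real.pi / ε * ‖h‖ := gG_bound (gm hG) hε x w h

theorem dX_meas2 (hG : AG G) (h : ℂ) : Measurable (fun p : ℂ × ℂ => dX v G ε p.1 p.2 h) :=
  gG_meas2 (gm hG) h

theorem dX_lin (hG : AG G) (hε : 0 < ε) (x w h : ℂ) :
    dX v G ε x w h = h.re * dX v G ε x w 1 + h.im * dX v G ε x w I := gG_lin (gm hG) hε x w h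

theorem dX_nw_bound (hG : AG G) (hε : 0 < ε) (x w : ℂ) :
    |dX v G ε x w (nw w)| ≤ ((n : ℝ) ^ 2 + 1) * KK0 * Real.pi / ε := sdir_bound (gm hG) hε x w

theorem dX_nw_meas2 (hG : AG G) (hε : 0 < ε) :
    Measurable (fun p : ℂ × ℂ => dX v G ε p.1 p.2 (nw p.2)) := sdir_meas2 (gm hG) hε

end Pool.Agent.Lib.BilF.BesX85
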