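import Mathlib

/-!
# Completeness of the angular modes (helper48)

A bounded measurable function on the plane, homogeneous of degree `0`, all of whose angular moments
over the unit disc vanish, is zero almost everywhere.
-/

set_option autoImplicit false

namespace Pool.Agent.Lib.BilF.Compl48

open Complex MeasureTheory Set Filter Topology
open scoped ComplexConjugate Real

instance fact2pi : Fact ((0 : ℝ) < 2 * π) := ⟨Real.two_pi_pos⟩

/-- the angle of a vector, as a point of the circle -/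
noncomputable def ang (w : ℂ) : AddCircle (2 * π) := ((arg w : ℝ) : AddCircle (2 * π))

theorem ang_meas : Measurable ang :=
  (AddCircle.continuous_mk' (2 * π)).measurable.comp measurable_arg

theorem toCircle_ang {w : ℂ} (hw : w ≠ 0) :
    ((AddCircle.toCircle (ang w) : Circle) : ℂ) = w / (‖w‖ : ℂ) := by
  have h1 : (‖w‖ : ℂ) ≠ 0 := by simpa using hw
  unfold ang
  rw [AddCircle.toCircle_apply_mk, Circle.coe_exp]
  have h2 : 2 * π / (2 * π) * arg w = arg w := by
    rw [div_self Real.two_pi_pos.ne', one_mul]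
  rw [h2, eq_div_iff h1, mul_comm]
  exact norm_mul_exp_arg_mul_I w

theorem fourier_ang (p : ℕ) {w : ℂ} (hw : w ≠ 0) :
    fourier (-(p : ℤ)) (ang w) = (conj w / (‖w‖ : ℂ)) ^ p := by
  rw [fourier_neg, fourier_apply, AddCircle.toCircle_zsmul, zpow_natCast, Circle.coe_pow,
    toCircle_ang hw, map_pow, map_div₀, conj_ofReal]

/-- a bounded function on the circle orthogonal to all characters, for any finite measure -/
theorem circ (ν : Measure (AddCircle (2 * π))) [IsFiniteMeasure ν]
    {H : AddCircle (2 * π) → ℝ} (hm : Measurable H) {M : ℝ} (hM : ∀ θ, |H θ| ≤ M)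
    (hz : ∀ n : ℤ, ∫ θ, (H θ : ℂ) * fourier n θ ∂ν = 0) : ∀ᵐ θ ∂ν, H θ = 0 := by
  have hM0 : 0 ≤ M := (abs_nonneg _).trans (hM 0)
  have hmc : Measurable (fun θ => (H θ : ℂ)) := measurable_ofReal.comp hm
  have hint : ∀ f : C(AddCircle (2 * π), ℂ), Integrable (fun θ => (H θ : ℂ) * f θ) ν := by
    intro f
    refine Integrable.of_bound (hmc.mul f.continuous.measurable).aestronglyMeasurable
      (M * ‖f‖) (Eventually.of_forall fun θ => ?_)
    rw [norm_mul, norm_real, Real.norm_eq_abs]
    exact mul_le_mul (hM θ) (f.norm_coe_le_norm θ) (norm_nonneg _) hM0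
  let L : C(AddCircle (2 * π), ℂ) →ₗ[ℂ] ℂ :=
    { toFun := fun f => ∫ θ, (H θ : ℂ) * f θ ∂ν
      map_add' := by
        intro f g
        rw [← integral_add (hint f) (hint g)]
        refine integral_congr_ae (Eventually.of_forall fun θ => ?_)
        simp only [ContinuousMap.add_apply]
        ring
      map_smul' := by
        intro c f
        rw [RingHom.id_apply, smul_eq_mul, ← integral_const_mul]
        refine integral_congr_ae (Eventually.of_forall fun θ => ?_)
        simp only [ContinuousMap.smul_apply, smul_eq_mul]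
        ring }
  have hLb : ∀ f, ‖L f‖ ≤ (M * ν.real univ) * ‖f‖ := by
    intro f
    have h1 : ‖L f‖ ≤ M * ‖f‖ * ν.real univ := by
      refine norm_integral_le_of_norm_le_const (Eventually.of_forall fun θ => ?_)
      rw [norm_mul, norm_real, Real.norm_eq_abs]
      exact mul_le_mul (hM θ) (f.norm_coe_le_norm θ) (norm_nonneg _) hM0
    calc ‖L f‖ ≤ M * ‖f‖ * ν.real univ := h1
      _ = (M * ν.real univ) * ‖f‖ := by ring
  let Lc : C(AddCircle (2 * π), ℂ) →L[ℂ] ℂ := L.mkContinuous _ hLb
  have hall : ∀ f : C(AddCircle (2 * π), ℂ), ∫ θ, (H θ : ℂ) * f θ ∂ν = 0 := by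
    intro f
    have h1 : (Submodule.span ℂ (range (@fourier (2 * π)))).topologicalClosure ≤
        LinearMap.ker Lc.toLinearMap := by
      apply Submodule.topologicalClosure_minimal
      · rw [Submodule.span_le]
        rintro _ ⟨n, rfl⟩
        exact hz n
      · exact Lc.isClosed_ker
    rw [span_fourier_closure_eq_top] at h1
    exact h1 (Submodule.mem_top (x := f))
  have hHi : Integrable H ν := Integrable.of_bound hm.aestronglyMeasurable M
    (Eventually.of_forall fun θ => by rw [Real.norm_eq_abs]; exact hM θ)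
  have hH2 : Integrable (fun θ => H θ ^ 2) ν := Integrable.of_bound
    (hm.pow_const 2).aestronglyMeasurable (M ^ 2)
    (Eventually.of_forall fun θ => by
      rw [norm_pow, Real.norm_eq_abs]
      exact pow_le_pow_left₀ (abs_nonneg _) (hM θ) 2)
  have hsq : ∫ θ, H θ ^ 2 ∂ν = 0 := by
    refine le_antisymm ?_ (integral_nonneg fun θ => sq_nonneg _)
    refine le_of_forall_pos_le_add fun η hη => ?_
    obtain ⟨g, hg, hgi⟩ := hHi.exists_boundedContinuous_integral_sub_le
      (ε := η / (M + 1)) (by positivity)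
    -- the product with `g` has integral zero
    have hg0 : ∫ θ, H θ * g θ ∂ν = 0 := by
      have h1 := hall ⟨fun θ => ((g θ : ℝ) : ℂ), continuous_ofReal.comp g.continuous⟩
      have h2 : ∫ θ, (H θ : ℂ) * ((g θ : ℝ) : ℂ) ∂ν = ((∫ θ, H θ * g θ ∂ν : ℝ) : ℂ) := by
        rw [← integral_complex_ofReal]
        refine integral_congr_ae (Eventually.of_forall fun θ => ?_)
        simp
      have h3 : ((∫ θ, H θ * g θ ∂ν : ℝ) : ℂ) = 0 := by rw [← h2]; exact h1
      exact_mod_cast h3
    have hHg : Integrable (fun θ => H θ * g θ) ν :=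
      hgi.bdd_mul hm.aestronglyMeasurable
        (Eventually.of_forall fun θ => by rw [Real.norm_eq_abs]; exact hM θ)
    have h4 : ∫ θ, H θ ^ 2 ∂ν = ∫ θ, H θ * (H θ - g θ) ∂ν := by
      have h5 : (fun θ => H θ * (H θ - g θ)) = fun θ => H θ ^ 2 - H θ * g θ := by
        funext θ
        ring
      rw [h5, integral_sub hH2 hHg, hg0, sub_zero]
    rw [h4, zero_add]
    have h5 : Integrable (fun θ => H θ * (H θ - g θ)) ν := by
      have h5 : (fun θ => H θ * (H θ - g θ)) = fun θ => H θ ^ 2 - H θ * g θ := by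
        funext θ
        ring
      rw [h5]
      exact hH2.sub hHg
    have h6 : ∫ θ, H θ * (H θ - g θ) ∂ν ≤ ∫ θ, M * ‖H θ - g θ‖ ∂ν := by
      refine integral_mono h5 ((hHi.sub hgi).norm.const_mul M) fun θ => ?_
      calc H θ * (H θ - g θ) ≤ |H θ * (H θ - g θ)| := le_abs_self _
        _ = |H θ| * |H θ - g θ| := abs_mul _ _
        _ ≤ M * ‖H θ - g θ‖ := by
            rw [Real.norm_eq_abs]
            exact mul_le_mul_of_nonneg_right (hM θ) (abs_nonneg _)
    rw [integral_const_mul] at h6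
    have h7 : M * ∫ θ, ‖H θ - g θ‖ ∂ν ≤ M * (η / (M + 1)) := mul_le_mul_of_nonneg_left hg hM0
    have h8 : M * (η / (M + 1)) ≤ η := by
      rw [mul_div_assoc', div_le_iff₀ (by positivity)]
      nlinarith
    linarith
  have h7 := (integral_eq_zero_iff_of_nonneg (fun θ => sq_nonneg (H θ)) hH2).1 hsq
  filter_upwards [h7] with θ hθ
  have h8 : H θ ^ 2 = 0 := hθ
  exact pow_eq_zero_iff (two_ne_zero) |>.1 h8

/-- all angular moments vanish: zero almost everywhere in the unit disc -/
theorem disc {h : ℂ → ℝ} (hm : Measurable h) {M : ℝ} (hM : ∀ w, |h w| ≤ M)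
    (hh : ∀ r : ℝ, 0 < r → ∀ w, h ((r : ℂ) * w) = h w)
    (hz : ∀ p : ℕ, ∫ w in Metric.ball (0 : ℂ) 1, (h w : ℂ) * (conj w / (‖w‖ : ℂ)) ^ p = 0) :
    ∀ᵐ w ∂(volume.restrict (Metric.ball (0 : ℂ) 1)), h w = 0 := by
  set μ : Measure ℂ := volume.restrict (Metric.ball (0 : ℂ) 1) with hμ
  have : IsFiniteMeasure μ := by
    refine ⟨?_⟩
    rw [hμ, Measure.restrict_apply_univ]
    exact measure_ball_lt_top
  set ν : Measure (AddCircle (2 * π)) := μ.map ang with hν
  have : IsFiniteMeasure ν := by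
    rw [hν]
    infer_instance
  have hHm : Measurable (fun θ : AddCircle (2 * π) =>
      h ((AddCircle.toCircle θ : Circle) : ℂ)) :=
    hm.comp (continuous_subtype_val.comp AddCircle.continuous_toCircle).measurable
  have hH : ∀ w : ℂ, w ≠ 0 → h ((AddCircle.toCircle (ang w) : Circle) : ℂ) = h w := by
    intro w hw
    rw [toCircle_ang hw]
    have h1 : (0 : ℝ) < ‖w‖ := norm_pos_iff.2 hw
    have h2 : (‖w‖ : ℂ) * (w / (‖w‖ : ℂ)) = w := by
      have : (‖w‖ : ℂ) ≠ 0 := by exact_mod_cast h1.ne'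
      field_simp
    have h3 := hh ‖w‖ h1 (w / (‖w‖ : ℂ))
    rw [h2] at h3
    exact h3.symm
  have hne : ∀ᵐ w ∂μ, w ≠ (0 : ℂ) := by
    rw [hμ]
    refine ae_restrict_of_ae ?_
    rw [ae_iff]
    simp
  have hneg : ∀ p : ℕ, ∫ θ, ((h ((AddCircle.toCircle θ : Circle) : ℂ) : ℝ) : ℂ) *
      fourier (-(p : ℤ)) θ ∂ν = 0 := by
    intro p
    rw [hν, integral_map ang_meas.aemeasurable]
    · rw [← hz p]
      refine integral_congr_ae ?_
      filter_upwards [hne] with w hw
      rw [hH w hw, fourier_ang p hw]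
    · exact ((measurable_ofReal.comp hHm).mul
        (fourier (-(p : ℤ))).continuous.measurable).aestronglyMeasurable
  have hall : ∀ n : ℤ, ∫ θ, ((h ((AddCircle.toCircle θ : Circle) : ℂ) : ℝ) : ℂ) *
      fourier n θ ∂ν = 0 := by
    intro n
    rcases Int.eq_nat_or_neg n with ⟨p, hp | hp⟩
    · have h1 := congrArg conj (hneg p)
      rw [← integral_conj, map_zero] at h1
      rw [← h1]
      refine integral_congr_ae (Eventually.of_forall fun θ => ?_)
      simp only [map_mul, conj_ofReal]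
      rw [fourier_neg, conj_conj, hp]
    · rw [hp]
      exact hneg p
  have h1 := circ ν hHm (fun θ => hM _) hall
  rw [hν] at h1
  have h2 := ae_of_ae_map ang_meas.aemeasurable h1
  filter_upwards [h2, hne] with w hw hw0
  rw [← hH w hw0]
  exact hw

/-- all angular moments vanish: zero almost everywhere in the plane -/
theorem plane {h : ℂ → ℝ} (hm : Measurable h) {M : ℝ} (hM : ∀ w, |h w| ≤ M)
    (hh : ∀ r : ℝ, 0 < r → ∀ w, h ((r : ℂ) * w) = h w)
    (hz : ∀ p : ℕ, ∫ w in Metric.ball (0 : ℂ) 1, (h w : ℂ) * (conj w / (‖w‖ : ℂ)) ^ p = 0) :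
    ∀ᵐ w : ℂ, h w = 0 := by
  have h1 := disc hm hM hh hz
  rw [ae_restrict_iff' measurableSet_ball] at h1
  have h2 : ∀ k : ℕ, ∀ᵐ w : ℂ, w ∈ Metric.ball (0 : ℂ) (k + 1) → h w = 0 := by
    intro k
    have hk : (0 : ℝ) < ((k : ℝ) + 1)⁻¹ := by positivity
    rw [ae_iff] at h1 ⊢
    have h3 := Measure.addHaar_preimage_smul (volume : Measure ℂ) hk.ne'
      {w : ℂ | ¬ (w ∈ Metric.ball (0 : ℂ) 1 → h w = 0)}
    rw [h1, mul_zero] at h3
    refine measure_mono_null ?_ h3
    intro w hw
    simp only [mem_ofPred_eq, Classical.not_imp, mem_preimage] at hw ⊢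
    refine ⟨?_, ?_⟩
    · rw [mem_ball_zero_iff] at hw ⊢
      rw [norm_smul, Real.norm_eq_abs, abs_of_pos hk, inv_mul_lt_iff₀ (by positivity), mul_one]
      exact hw.1
    · have h4 := hh _ hk w
      rw [real_smul, h4]
      exact hw.2
  rw [← ae_all_iff] at h2
  filter_upwards [h2] with w hw
  obtain ⟨k, hk⟩ := exists_nat_gt ‖w‖
  exact hw k (by rw [mem_ball_zero_iff]; linarith)

end Pool.Agent.Lib.BilF.Compl48
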