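import Pool.Agent.Lib.MP_7bc51d_an_dense.Defs
import Pool.Agent.Lib.MP_7bc51d_an_mode.Fourier

/-!
# Completeness of the angular modes for functions of degree zero (helper90)
-/

set_option autoImplicit false

namespace Pool.Agent.Lib.BilF.Compl90

open Complex MeasureTheory Set Filter Topology
open scoped ComplexConjugate
open Pool.Agent.Lib.Bil Pool.Agent.Lib.BilD Pool.Agent.Lib.BilH

theorem norm_ut (θ : ℝ) : ‖ut θ‖ = 1 := by
  have := ut_norm θ
  rw [mul_conj, Complex.normSq_eq_norm_sq] at this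
  have h5 : ‖ut θ‖ ^ 2 = 1 := by exact_mod_cast this
  nlinarith [norm_nonneg (ut θ)]

theorem em_ut (k : ℕ) (θ : ℝ) : em k (ut θ) = ph k (ut θ) := by
  unfold BilD.em ph
  rw [norm_ut, ofReal_one, div_one]

theorem em_hom (k : ℕ) {r : ℝ} (hr : 0 < r) (w : ℂ) : em k ((r : ℂ) * w) = em k w := by
  unfold BilD.em
  rw [map_mul, conj_ofReal, norm_mul, norm_real, Real.norm_eq_abs, abs_of_pos hr]
  congr 1
  have hr0 : (r : ℂ) ≠ 0 := by exact_mod_cast hr.ne'
  push_cast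
  rw [mul_div_mul_left _ _ hr0]

/-- The two normalisations of the modes. -/
theorem ph_eq_em {ψ : ℂ → ℝ} (hh : ∀ r : ℝ, 0 < r → ∀ w, ψ ((r : ℂ) * w) = ψ w) (k : ℕ) :
    ∫ w in BV, ((ψ w : ℝ) : ℂ) * ph k w =
      (2 / ((k : ℂ) + 2)) * ∫ w in BV, ((ψ w : ℝ) : ℂ) * em k w := by
  have h1 : ∫ w in BV, ((ψ w : ℝ) : ℂ) * ph k w = (1 / ((k : ℂ) + 2)) *
      ∫ θ in Ioo (-Real.pi) Real.pi, ((ψ (ut θ) : ℝ) : ℂ) * ph k (ut θ) := by
    apply polar_homC k
    intro r hr w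
    rw [hh r hr]
    unfold ph
    rw [map_mul, conj_ofReal]
    ring
  have h2 : ∫ w in BV, ((ψ w : ℝ) : ℂ) * em k w = (1 / (((0 : ℕ) : ℂ) + 2)) *
      ∫ θ in Ioo (-Real.pi) Real.pi, ((ψ (ut θ) : ℝ) : ℂ) * em k (ut θ) := by
    apply polar_homC 0
    intro r hr w
    rw [hh r hr, em_hom k hr, pow_zero, one_mul]
  simp_rw [em_ut] at h2
  rw [h1, h2]
  have h4 : ((k : ℂ) + 2) ≠ 0 := by
    have : ((k + 2 : ℕ) : ℂ) ≠ 0 := by exact_mod_cast (by omega : k + 2 ≠ 0)
    push_cast at this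
    exact this
  push_cast
  field_simp
  ring

/-- A bounded function of degree zero all of whose angular modes vanish is zero. -/
theorem complete_em {ψ : ℂ → ℝ} (hm : Measurable ψ) {C : ℝ} (hb : ∀ w, |ψ w| ≤ C)
    (hh : ∀ r : ℝ, 0 < r → ∀ w, ψ ((r : ℂ) * w) = ψ w)
    (h0 : ∀ k : ℕ, ∫ w in BV, ((ψ w : ℝ) : ℂ) * em k w = 0) : ∀ᵐ w : ℂ, ψ w = 0 := by
  refine complete hm hb hh fun k => ?_
  rw [ph_eq_em hh, h0 k, mul_zero]

/-- The same, on the disc. -/
theorem complete_em_BV {ψ : ℂ → ℝ} (hm : Measurable ψ) {C : ℝ} (hb : ∀ w, |ψ w| ≤ C)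
    (hh : ∀ r : ℝ, 0 < r → ∀ w, ψ ((r : ℂ) * w) = ψ w)
    (h0 : ∀ k : ℕ, ∫ w in BV, ((ψ w : ℝ) : ℂ) * em k w = 0) :
    ∀ᵐ w ∂(volume.restrict BV), ψ w = 0 :=
  ae_restrict_of_ae (complete_em hm hb hh h0)

/-- Two bounded functions of degree zero with the same modes are equal. -/
theorem eq_of_em {f g : ℂ → ℝ} (hf : Measurable f) (hg : Measurable g) {C : ℝ}
    (hfb : ∀ w, |f w| ≤ C) (hgb : ∀ w, |g w| ≤ C)
    (hfh : ∀ r : ℝ, 0 < r → ∀ w, f ((r : ℂ) * w) = f w)
    (hgh : ∀ r : ℝ, 0 < r → ∀ w, g ((r : ℂ) * w) = g w)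
    (h0 : ∀ k : ℕ, ∫ w in BV, ((f w : ℝ) : ℂ) * em k w = ∫ w in BV, ((g w : ℝ) : ℂ) * em k w) :
    ∀ᵐ w : ℂ, f w = g w := by
  have hem : ∀ k : ℕ, Measurable (em k) := by
    intro k
    unfold BilD.em
    exact ((continuous_conj.measurable).div
      (measurable_ofReal.comp continuous_norm.measurable)).pow_const k
  have hemb : ∀ (k : ℕ) (w : ℂ), ‖em k w‖ ≤ 1 := by
    intro k w
    unfold BilD.em
    rw [norm_pow, norm_div, RCLike.norm_conj, norm_real, norm_norm]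
    exact pow_le_one₀ (by positivity) (div_self_le_one _)
  have hint : ∀ (h : ℂ → ℝ), Measurable h → (∀ w, |h w| ≤ C) → ∀ k : ℕ,
      IntegrableOn (fun w => ((h w : ℝ) : ℂ) * em k w) BV := by
    intro h hh hb k
    have hfin : IsFiniteMeasure (volume.restrict BV) := by
      constructor
      rw [Measure.restrict_apply_univ]
      exact measure_ball_lt_top
    refine Integrable.of_bound ((measurable_ofReal.comp hh).mul (hem k)).aestronglyMeasurable C
      (Eventually.of_forall fun w => ?_)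
    rw [norm_mul, norm_real, Real.norm_eq_abs]
    have h1 := hb w
    have h2 := hemb k w
    calc |h w| * ‖em k w‖ ≤ C * 1 :=
          mul_le_mul h1 h2 (norm_nonneg _) ((abs_nonneg _).trans h1)
      _ = C := mul_one C
  have key := complete_em (ψ := fun w => f w - g w) (hf.sub hg) (C := C + C)
    (fun w => (abs_sub _ _).trans (add_le_add (hfb w) (hgb w)))
    (fun r hr w => by rw [hfh r hr, hgh r hr])
    (fun k => by
      have : ∫ w in BV, (((f w - g w : ℝ)) : ℂ) * em k w =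
          (∫ w in BV, ((f w : ℝ) : ℂ) * em k w) - ∫ w in BV, ((g w : ℝ) : ℂ) * em k w := by
        rw [← integral_sub (hint f hf hfb k) (hint g hg hgb k)]
        refine integral_congr_ae (Eventually.of_forall fun w => ?_)
        push_cast
        ring
      rw [this, h0 k, sub_self])
  filter_upwards [key] with w hw
  exact sub_eq_zero.1 hw

end Pool.Agent.Lib.BilF.Compl90
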