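import Pool.Agent.Lib.MP_7bc51d_an_erg.Fin12
import Pool.Agent.Lib.MP_7bc51d_an.Generic

/-!
# Ergodicity of irrational convex polygons: last step
-/

set_option autoImplicit false

namespace Pool.Agent.Lib.BilX.Top16

open Complex MeasureTheory Set Filter Topology
open scoped ComplexConjugate
open Pool.Agent.Lib.Bil Pool.Agent.Lib.BilD Pool.Agent.Lib.BilE Pool.Agent.Lib.BilH
open Pool.Agent.Lib.BilE.Fin12

variable {n : ℕ} {v : Fin n → ℂ}

/-- Both lowest modes of a homogeneous admissible line function are constant. -/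
def StConstF : Prop := ∀ (n : ℕ) (v : Fin n → ℂ), 3 ≤ n → ConvexIndependent ℝ v →
  ∀ F, LFS v F → Hg F → ∀ p : ℕ, p ≤ 1 → ∃ c : ℂ, ∀ᵐ x, x ∈ PP v →
    ∫ w in BV, (F w (cr w x) : ℂ) * em p w = c

theorem fin (hconst : StConstF) (hn : 3 ≤ n) (hv : ConvexIndependent ℝ v) (hirr : IrrPair v)
    {A : Set (ℂ × ℂ)} (hA : MeasurableSet A)
    (hcone : ∀ x w : ℂ, ∀ c : ℝ, 0 < c → ((x, w) ∈ A ↔ (x, (c : ℂ) * w) ∈ A))
    (H : ∀ᵐ p ∂(volume : Measure (ℂ × ℂ)), HypAt v A p) :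
    volume (A ∩ (PP v ×ˢ Metric.ball (0 : ℂ) 1)) = 0 ∨
      volume ((PP v ×ˢ Metric.ball (0 : ℂ) 1) \ A) = 0 := by
  have hch := chord_of_hyp (v := v) H
  have hF := lfs_FA hn hv hA H
  have hhom : Hom0 (FA v A) := BilM.FA_hom hcone
  have hs : ∀ i, SymAt (FA v A) (v i) (v (nxt hn hv i) - v i) := fun i =>
    symAt_FA hn hv (inv_of_hyp hv H) hch (nxt_side hn hv i)
  have key : ∀ p : ℕ, p ≤ 1 → ∃ c : ℝ, ∀ᵐ q : ℂ × ℂ, q.1 ∈ PP v →
      (A.indicator (1 : ℂ × ℂ → ℝ) q - (∅ : Set (ℂ × ℂ)).indicator 1 q) +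
        (-1) ^ p * (A.indicator (1 : ℂ × ℂ → ℝ) (q.1, -q.2) -
          (∅ : Set (ℂ × ℂ)).indicator 1 (q.1, -q.2)) = c := by
    intro p hp
    refine mode_sets hn hv hirr hA MeasurableSet.empty hcone (fun _ _ _ _ => Iff.rfl) H
      (Eventually.of_forall (fun q => hyp_empty q)) (k := p) ?_
    obtain ⟨c, hc0, hc⟩ := modes01 hn hv hF.lf hhom hs hp (hconst n v hn hv _ hF hhom p hp)
    refine ⟨c, hc0, ?_⟩
    filter_upwards [hc, mode_eq hA hch] with x g1 g2 hxP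
    rw [g2 hxP p, g1 hxP]
    unfold mode
    simp
  obtain ⟨c, hc⟩ := key 0 (by omega)
  obtain ⟨d, hd⟩ := key 1 le_rfl
  have h3 : ∀ᵐ p : ℂ × ℂ, p.1 ∈ PP v →
      A.indicator (1 : ℂ × ℂ → ℝ) p - (∅ : Set (ℂ × ℂ)).indicator 1 p = (c + d) / 2 := by
    filter_upwards [hc, hd] with p g1 g2 hp
    have g3 := g1 hp
    have g4 := g2 hp
    rw [pow_zero, one_mul] at g3
    rw [pow_one] at g4
    linarith
  rcases BilM.ind_diff_cases h3 (Metric.ball (0 : ℂ) 1) with h | h | h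
  · left
    apply measure_mono_null _ h
    intro p hp
    exact ⟨fun hcon => hcon.1 hp.1, hp.2⟩
  · left; exact h.1
  · right; exact h.1

/-- almost every polygon is ergodic, in the form of the frozen statement `S05131` -/
theorem ae_ergodic (hconst : StConstF) :
    ∀ n : ℕ, 3 ≤ n →
    ∀ᵐ v ∂(MeasureTheory.volume : MeasureTheory.Measure (Fin n → ℂ)),
      ConvexIndependent ℝ v →
      ∀ A : Set (ℂ × ℂ), MeasurableSet A →
        (∀ x w : ℂ, ∀ c : ℝ, 0 < c → ((x, w) ∈ A ↔ (x, (c : ℂ) * w) ∈ A)) →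
        (∀ᵐ p ∂(MeasureTheory.volume : MeasureTheory.Measure (ℂ × ℂ)),
          p.1 ∈ interior (convexHull ℝ (Set.range v)) → p.2 ≠ 0 →
          ∀ τ : ℝ, 0 < τ →
            p.1 + (τ : ℂ) * p.2 ∈ frontier (convexHull ℝ (Set.range v)) →
            (∀ s : ℝ, 0 ≤ s → s < τ → (p ∈ A ↔ (p.1 + (s : ℂ) * p.2, p.2) ∈ A)) ∧
            (p.1 + (τ : ℂ) * p.2 ∉ Set.range v →
              ∀ i j : Fin n, i ≠ j → p.1 + (τ : ℂ) * p.2 ∈ segment ℝ (v i) (v j) →
                ∀ σ : ℝ, 0 < σ →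
                  p.1 + (τ : ℂ) * p.2 + (σ : ℂ) *
                      ((v j - v i) / (starRingEnd ℂ) (v j - v i) * (starRingEnd ℂ) p.2)
                    ∈ frontier (convexHull ℝ (Set.range v)) →
                  ∀ r : ℝ, 0 < r → r < σ →
                    (p ∈ A ↔
                      (p.1 + (τ : ℂ) * p.2 + (r : ℂ) *
                          ((v j - v i) / (starRingEnd ℂ) (v j - v i) * (starRingEnd ℂ) p.2),
                        (v j - v i) / (starRingEnd ℂ) (v j - v i) * (starRingEnd ℂ) p.2) ∈ A))) →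
        MeasureTheory.volume
            (A ∩ (interior (convexHull ℝ (Set.range v)) ×ˢ Metric.ball (0 : ℂ) 1)) = 0 ∨
          MeasureTheory.volume
            ((interior (convexHull ℝ (Set.range v)) ×ˢ Metric.ball (0 : ℂ) 1) \ A) = 0 := by
  intro n hn
  filter_upwards [Pool.Agent.Lib.Bil.ae_irr n] with v hirr hv A hA hcone H
  obtain ⟨i, j, k, l, hij, hkl, hd⟩ := Pool.Agent.Lib.Bil.two_sides hn hv
  exact fin hconst hn hv ⟨i, j, k, l, hij, hkl, hirr i j k l hij.1 hkl.1 hd⟩ hA hcone H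

end Pool.Agent.Lib.BilX.Top16
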