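import Pool.Agent.Lib.MP_7bc51d_an_full.Defs
import Pool.Agent.Lib.MP_7bc51d_an_full.Top16
import Pool.Agent.Lib.MP_7bc51d_an_erg.Const1

/-!
# From SMALLX and LIMX to the statement
-/

set_option autoImplicit false

namespace Pool.Agent.Lib.BilF.Const74

open Complex MeasureTheory Set Filter Topology
open scoped ComplexConjugate
open Pool.Agent.Lib.Bil Pool.Agent.Lib.BilD Pool.Agent.Lib.BilE

/-- (CONSTF) -/
theorem row (hGeo : StGeo) (hS : StSmallX) (hL : StLimX) : StConstF := by
  intro n v hn hv F hF _ p _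
  obtain ⟨C, e0, hG⟩ := hGeo n hn v hv
  obtain ⟨c, hc⟩ := hL n v C e0 hn hv hG F hF p (hS n v C e0 hn hv hG F hF p)
  refine ⟨c, ?_⟩
  filter_upwards [hc] with x hx hxP
  rw [← Const1.am_PP hG p hxP]
  exact hx hxP

theorem top (h : StConstF) : BilX.Top16.StConstF := h

end Pool.Agent.Lib.BilF.Const74
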