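import Pool.Agent.Lib.MP_7bc51d_an.Generic
import Pool.Agent.Lib.MP_7bc51d_an.Hyp

/-!
# Polygons whose sides have pairwise rational angles are not ergodic
-/

set_option autoImplicit false

namespace Pool.Agent.Lib.BilF.Conv17

open Complex MeasureTheory Set Filter
open scoped ComplexConjugate Topology
open Pool.Agent.Lib.Bil

variable {n : ℕ} {v : Fin n → ℂ}

theorem im_pow_zero {z : ℂ} {m : ℕ} (h : (z ^ m).im = 0) (k : ℕ) : (z ^ (m * k)).im = 0 := by
  rw [pow_mul]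
  have : (z ^ m) = (((z ^ m).re : ℝ) : ℂ) := by
    apply Complex.ext
    · simp
    · simp [h]
  rw [this, ← ofReal_pow]
  exact ofReal_im _

/-- The side containing a boundary point. -/
theorem side_of_point (hn : 3 ≤ n) (hv : ConvexIndependent ℝ v) {b : ℂ} {i j : Fin n} (hij : i ≠ j)
    (hb : b ∈ frontier (convexHull ℝ (Set.range v))) (hbv : b ∉ Set.range v)
    (hs : b ∈ segment ℝ (v i) (v j)) : IsSide v i j ∨ IsSide v j i := by
  change _ ∈ frontier (KK v) at hb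
  rw [isClosed_KK.frontier_eq] at hb
  obtain ⟨k, l, hkl, s, hs0, hs1, e1⟩ := exists_side hn hv hb.1 hb.2 hbv
  obtain ⟨α, β, hα, hβ, hαβ, e2⟩ := hs
  simp only [real_smul] at e2
  have hα0 : α ≠ 0 := by
    rintro rfl
    apply hbv
    refine ⟨j, ?_⟩
    rw [← e2]
    have : β = 1 := by linarith
    rw [this]; simp
  have hβ0 : β ≠ 0 := by
    rintro rfl
    apply hbv
    refine ⟨i, ?_⟩
    rw [← e2]
    have : α = 1 := by linarith
    rw [this]; simp
  have hαp : 0 < α := lt_of_le_of_ne hα (Ne.symm hα0)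
  have hβp : 0 < β := lt_of_le_of_ne hβ (Ne.symm hβ0)
  have hz : α * cr (v l - v k) (v i - v k) + β * cr (v l - v k) (v j - v k) = 0 := by
    have h5 : b - v k = (s : ℂ) * (v l - v k) := by rw [e1]; ring
    have h6 : b - v k = (α : ℂ) * (v i - v k) + (β : ℂ) * (v j - v k) := by
      have : (β : ℂ) = 1 - α := by
        have : β = 1 - α := by linarith
        rw [this]; push_cast; ring
      rw [← e2, this]; ring
    have h7 : cr (v l - v k) (b - v k) = 0 := by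
      rw [h5, cr_smul_right, cr_self, mul_zero]
    rw [h6, cr_add_right, cr_smul_right, cr_smul_right] at h7
    exact h7
  have n1 := hkl.cr_nonneg_vert i
  have n2 := hkl.cr_nonneg_vert j
  have m1 : i = k ∨ i = l := by
    by_contra hcon
    push Not at hcon
    have := hkl.2 i hcon.1 hcon.2
    have h1 : 0 < α * cr (v l - v k) (v i - v k) := mul_pos hαp this
    have h2 : 0 ≤ β * cr (v l - v k) (v j - v k) := mul_nonneg hβ n2
    linarith
  have m2 : j = k ∨ j = l := by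
    by_contra hcon
    push Not at hcon
    have := hkl.2 j hcon.1 hcon.2
    have h1 : 0 < β * cr (v l - v k) (v j - v k) := mul_pos hβp this
    have h2 : 0 ≤ α * cr (v l - v k) (v i - v k) := mul_nonneg hα n1
    linarith
  rcases m1 with rfl | rfl
  · rcases m2 with rfl | rfl
    · exact absurd rfl hij
    · exact Or.inl hkl
  · rcases m2 with rfl | rfl
    · exact Or.inr hkl
    · exact absurd rfl hij

/-- A common exponent. -/
theorem common (hn : 3 ≤ n) (hv : ConvexIndependent ℝ v)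
    (hrat : ∀ i j k l : Fin n, IsSide v i j → IsSide v k l →
      ∃ m : ℕ, 0 < m ∧ (((v j - v i) / (v l - v k)) ^ m).im = 0) :
    ∃ (e : ℂ) (N : ℕ), e ≠ 0 ∧ 0 < N ∧ ∀ i j, IsSide v i j → (((v j - v i) / e) ^ N).im = 0 := by
  classical
  obtain ⟨i, j, k, l, hij, hkl, hd⟩ := two_sides hn hv
  choose! m hm using fun (p : Fin n × Fin n) (hp : IsSide v p.1 p.2) => hrat p.1 p.2 k l hp hkl
  refine ⟨v l - v k, ∏ p : Fin n × Fin n, if IsSide v p.1 p.2 then m p else 1, v_sub_ne hv hkl.1,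
    ?_, ?_⟩
  · apply Finset.prod_pos
    intro p _
    split_ifs with h
    · exact (hm p h).1
    · exact one_pos
  · intro a b hab
    rw [← Finset.mul_prod_erase Finset.univ _ (Finset.mem_univ (a, b)), if_pos hab]
    exact im_pow_zero (hm (a, b) hab).2 _

/-- The invariant function. -/
theorem ref (e : ℂ) (he : e ≠ 0) {N : ℕ} {a w : ℂ} (ha : a ≠ 0) (h : ((a / e) ^ N).im = 0) :
    ((a / conj a * conj w / e) ^ N).re = ((w / e) ^ N).re := by
  have hce : conj e ≠ 0 := (map_ne_zero _).2 he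
  have hca : conj a ≠ 0 := (map_ne_zero _).2 ha
  set z := (a / e) ^ N with hz
  have hz0 : z ≠ 0 := pow_ne_zero _ (div_ne_zero ha he)
  have hcz : conj z = z := by
    rw [conj_eq_iff_im]; exact h
  have h1 : (a / conj a * conj w / e) ^ N = z / conj z * conj ((w / e) ^ N) := by
    rw [hz, map_pow, map_pow, ← div_pow, ← mul_pow]
    congr 1
    rw [map_div₀, map_div₀]
    field_simp
  rw [h1, hcz, div_self hz0, one_mul, conj_re]

/-- The invariant set. -/
def AA (e : ℂ) (N : ℕ) : Set (ℂ × ℂ) := {p | 0 < ((p.2 / e) ^ N).re}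

theorem hyp_AA (hn : 3 ≤ n) (hv : ConvexIndependent ℝ v) {e : ℂ} {N : ℕ} (he : e ≠ 0)
    (h : ∀ i j, IsSide v i j → (((v j - v i) / e) ^ N).im = 0) (p : ℂ × ℂ) :
    HypAt v (AA e N) p := by
  intro _ _ τ _ hf
  refine ⟨fun s _ _ => Iff.rfl, fun hvx i j hij hs σ _ _ r _ _ => ?_⟩
  have him : (((v j - v i) / e) ^ N).im = 0 := by
    rcases side_of_point hn hv hij hf hvx hs with h1 | h1
    · exact h i j h1
    · have h2 := h j i h1
      have e1 : ((v j - v i) / e) = -((v i - v j) / e) := by ring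
      rw [e1, neg_pow]
      rcases neg_one_pow_eq_or ℂ N with h3 | h3
      · rw [h3, one_mul]; exact h2
      · rw [h3, neg_one_mul, neg_im, h2, neg_zero]
  change 0 < ((p.2 / e) ^ N).re ↔ 0 < ((((v j - v i) / (starRingEnd ℂ) (v j - v i) *
    (starRingEnd ℂ) p.2) / e) ^ N).re
  rw [ref e he (v_sub_ne hv hij) him]

theorem isOpen_AA (e : ℂ) (N : ℕ) : IsOpen (AA e N) := by
  have : Continuous (fun p : ℂ × ℂ => ((p.2 / e) ^ N).re) :=
    continuous_re.comp ((continuous_snd.div_const e).pow N)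
  exact isOpen_lt continuous_const this

theorem cone_AA (e : ℂ) (N : ℕ) (x w : ℂ) (c : ℝ) (hc : 0 < c) :
    ((x, w) ∈ AA e N ↔ (x, (c : ℂ) * w) ∈ AA e N) := by
  change 0 < ((w / e) ^ N).re ↔ 0 < ((((c : ℂ) * w) / e) ^ N).re
  have : (((c : ℂ) * w) / e) ^ N = ((c ^ N : ℝ) : ℂ) * (w / e) ^ N := by
    push_cast
    rw [← mul_pow]
    congr 1
    ring
  rw [this, re_ofReal_mul]
  exact (mul_pos_iff_of_pos_left (pow_pos hc N)).symm

/-- A root of a positive or negative number, scaled into the unit disc. -/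
theorem exists_dir {e : ℂ} (he : e ≠ 0) {N : ℕ} (hN : 0 < N) (ζ : ℂ) (hζ : ζ ≠ 0) :
    ∃ w : ℂ, ‖w‖ < 1 ∧ ∃ r : ℝ, 0 < r ∧ (w / e) ^ N = (r : ℂ) * ζ := by
  obtain ⟨z, hz⟩ : ∃ z : ℂ, z ^ N = ζ := IsAlgClosed.exists_pow_nat_eq ζ hN
  have hz0 : z ≠ 0 := by
    rintro rfl
    rw [zero_pow hN.ne'] at hz
    exact hζ hz.symm
  set c : ℝ := (2 * (‖e‖ * ‖z‖))⁻¹ with hc
  have hez : 0 < ‖e‖ * ‖z‖ := mul_pos (norm_pos_iff.2 he) (norm_pos_iff.2 hz0)
  have hcp : 0 < c := by rw [hc]; positivity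
  refine ⟨(c : ℂ) * (e * z), ?_, c ^ N, pow_pos hcp N, ?_⟩
  · rw [norm_mul, norm_real, Real.norm_eq_abs, abs_of_pos hcp, norm_mul, hc]
    have : (2 * (‖e‖ * ‖z‖))⁻¹ * (‖e‖ * ‖z‖) = 1 / 2 := by
      field_simp
    rw [this]; norm_num
  · have : (c : ℂ) * (e * z) / e = (c : ℂ) * z := by field_simp
    rw [this, mul_pow, hz]
    push_cast
    ring

theorem not_ergodic (hn : 3 ≤ n) (hv : ConvexIndependent ℝ v)
    (hrat : ∀ i j k l : Fin n, IsSide v i j → IsSide v k l →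
      ∃ m : ℕ, 0 < m ∧ (((v j - v i) / (v l - v k)) ^ m).im = 0) :
    ∃ A : Set (ℂ × ℂ), MeasurableSet A ∧
      (∀ x w : ℂ, ∀ c : ℝ, 0 < c → ((x, w) ∈ A ↔ (x, (c : ℂ) * w) ∈ A)) ∧
      (∀ p, HypAt v A p) ∧
      volume (A ∩ PP v ×ˢ Metric.ball (0 : ℂ) 1) ≠ 0 ∧
      volume (PP v ×ˢ Metric.ball (0 : ℂ) 1 \ A) ≠ 0 := by
  obtain ⟨e, N, he, hN, h⟩ := common hn hv hrat
  obtain ⟨y, hy⟩ := PP_nonempty hn hv
  have ho : IsOpen (PP v ×ˢ Metric.ball (0 : ℂ) 1) := isOpen_PP.prod Metric.isOpen_ball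
  refine ⟨AA e N, (isOpen_AA e N).measurableSet, fun x w c hc => cone_AA e N x w c hc,
    hyp_AA hn hv he h, ?_, ?_⟩
  · have h1 : IsOpen (AA e N ∩ PP v ×ˢ Metric.ball (0 : ℂ) 1) := (isOpen_AA e N).inter ho
    obtain ⟨w, hw, r, hr, hwr⟩ := exists_dir he hN 1 one_ne_zero
    refine (h1.measure_pos volume ⟨(y, w), ?_, hy, ?_⟩).ne'
    · change 0 < ((w / e) ^ N).re
      rw [hwr, mul_one, ofReal_re]; exact hr
    · rwa [mem_ball_zero_iff]
  · obtain ⟨w, hw, r, hr, hwr⟩ := exists_dir he hN (-1) (neg_ne_zero.2 one_ne_zero)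
    have h2 : IsOpen {p : ℂ × ℂ | ((p.2 / e) ^ N).re < 0} :=
      isOpen_lt (continuous_re.comp ((continuous_snd.div_const e).pow N)) continuous_const
    have h1 : IsOpen ({p : ℂ × ℂ | ((p.2 / e) ^ N).re < 0} ∩ PP v ×ˢ Metric.ball (0 : ℂ) 1) :=
      h2.inter ho
    have h3 : 0 < volume ({p : ℂ × ℂ | ((p.2 / e) ^ N).re < 0} ∩
        PP v ×ˢ Metric.ball (0 : ℂ) 1) := by
      refine h1.measure_pos volume ⟨(y, w), ?_, hy, ?_⟩
      · change ((w / e) ^ N).re < 0
        rw [hwr, mul_neg, mul_one, neg_re, ofReal_re]; linarith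
      · rwa [mem_ball_zero_iff]
    refine (h3.trans_le (measure_mono ?_)).ne'
    rintro p ⟨hp1, hp2⟩
    refine ⟨hp2, fun hp3 => ?_⟩
    have h4 : 0 < ((p.2 / e) ^ N).re := hp3
    have h5 : ((p.2 / e) ^ N).re < 0 := hp1
    linarith

end Pool.Agent.Lib.BilF.Conv17
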