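import Pool.Agent.Lib.MP_7bc51d_an_full.CapDefs

/-!
Rows TAU and CROSS.
-/

set_option autoImplicit false

namespace Pool.Agent.Lib.BilF.Cross57

open Complex MeasureTheory Set Filter Topology
open scoped ComplexConjugate
open Pool.Agent.Lib.Bil Pool.Agent.Lib.BilD Pool.Agent.Lib.BilF

variable {n : ℕ} {v : Fin n → ℂ}

/-- Direction of crossing. -/
theorem Rz_pos {g : List (Fin n × Fin n)} {s : Fin n × Fin n} {x w : ℂ}
    (h : Rz v (s :: g) x w) : 0 < cr (Lo v g w) (ed v s) := by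
  obtain ⟨-, -, h1, h2⟩ := h
  unfold ed
  rw [cr_sub_right]
  linarith

/-- The crossing point. -/
theorem cross_pt {g : List (Fin n × Fin n)} {s : Fin n × Fin n} {x w : ℂ}
    (h : Rz v (s :: g) x w) : ∃ θ : ℝ, 0 < θ ∧ θ < 1 ∧
      Fo v g (x + (tau v (s :: g) x w : ℂ) * w) = v s.1 + (θ : ℂ) * ed v s := by
  have hp := Rz_pos h
  obtain ⟨-, -, h1, h2⟩ := h
  set u := Lo v g w with hu
  set X := Fo v g x with hX
  set e := ed v s with he
  set t := cr e (X - v s.1) / cr u e with ht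
  have e1 : Fo v g (x + (tau v (s :: g) x w : ℂ) * w) = X + (t : ℂ) * u := by
    rw [Fo_add, Lo_smul]
    rfl
  refine ⟨cr u (X - v s.1) / cr u e, div_pos ?_ hp, ?_, ?_⟩
  · rw [cr_sub_right]; linarith
  · rw [div_lt_one hp, he, ed, cr_sub_right, cr_sub_right]; linarith
  · rw [e1]
    have hpl : ((cr u e : ℝ) : ℂ) * (X - v s.1) =
        ((cr u (X - v s.1) : ℝ) : ℂ) * e - ((cr e (X - v s.1) : ℝ) : ℂ) * u := by
      apply Complex.ext
      · simp only [cr, mul_re, sub_re, ofReal_re, ofReal_im, sub_im]; ring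
      · simp only [cr, mul_im, sub_im, ofReal_re, ofReal_im, sub_re]; ring
    have hne : ((cr u e : ℝ) : ℂ) ≠ 0 := by exact_mod_cast hp.ne'
    rw [ht]
    push_cast
    field_simp
    linear_combination hpl

theorem tau_step (hv : ConvexIndependent ℝ v) {g : List (Fin n × Fin n)} :
    ∀ {s : Fin n × Fin n} {x w : ℂ}, x ∈ KK v → Rz v (s :: g) x w →
    tau v g x w ≤ tau v (s :: g) x w ∧ 0 ≤ tau v g x w ∧ 0 ≤ cr (ed v s) (Fo v g x - v s.1) := by
  induction g with
  | nil =>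
    intro s x w hx h
    have hp := Rz_pos h
    have h0 : 0 ≤ cr (ed v s) (x - v s.1) := IsSide.cr_nonneg h.2.1 hx
    refine ⟨?_, le_refl _, h0⟩
    change 0 ≤ cr (ed v s) (Fo v [] x - v s.1) / cr (Lo v [] w) (ed v s)
    exact div_nonneg h0 hp.le
  | cons s1 g ih =>
    intro s x w hx h
    have hp := Rz_pos h
    obtain ⟨i1, i2, i3⟩ := ih hx h.1
    obtain ⟨θ, t0, t1, hθ⟩ := cross_pt h.1
    have hs1 := h.1.2.1
    have hne : v s1.2 - v s1.1 ≠ 0 := v_sub_ne hv hs1.1
    have hfix : Fo v (s1 :: g) (x + (tau v (s1 :: g) x w : ℂ) * w) = v s1.1 + (θ : ℂ) * ed v s1 := by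
      change RR v s1.1 s1.2 (Fo v g (x + (tau v (s1 :: g) x w : ℂ) * w)) = _
      rw [hθ]
      exact RR_line hne θ
    have hK : v s1.1 + (θ : ℂ) * ed v s1 ∈ KK v := side_point_mem_KK t0.le t1.le
    have h1 : 0 ≤ cr (ed v s) (v s1.1 + (θ : ℂ) * ed v s1 - v s.1) := IsSide.cr_nonneg h.2.1 hK
    have h2 : 0 ≤ tau v (s1 :: g) x w := i2.trans i1
    rw [← hfix, Fo_add, Lo_smul] at h1
    set T := tau v (s1 :: g) x w with hT
    set u := Lo v (s1 :: g) w with hu
    set X := Fo v (s1 :: g) x with hX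
    have h3 : cr (ed v s) (X + (T : ℂ) * u - v s.1) = cr (ed v s) (X - v s.1) - T * cr u (ed v s) := by
      have : X + (T : ℂ) * u - v s.1 = (X - v s.1) + (T : ℂ) * u := by ring
      rw [this, cr_add_right, cr_smul_right, cr_swap (ed v s) u]
      ring
    rw [h3] at h1
    refine ⟨?_, h2, ?_⟩
    · change T ≤ cr (ed v s) (X - v s.1) / cr u (ed v s)
      rw [le_div_iff₀ hp]
      linarith
    · have := mul_nonneg h2 hp.le
      linarith

theorem tau_nonneg (hv : ConvexIndependent ℝ v) {g : List (Fin n × Fin n)} {x w : ℂ}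
    (hx : x ∈ KK v) (h : Rz v g x w) : 0 ≤ tau v g x w := by
  cases g with
  | nil => exact le_refl _
  | cons s g => exact (tau_step hv hx h).2.1.trans (tau_step hv hx h).1

theorem tau_row : StTau := by
  intro n hn v hv g s x w hx h
  obtain ⟨i1, i2, i3⟩ := tau_step hv hx h
  refine ⟨i1, i3, ?_⟩
  obtain ⟨θ, t0, t1, hθ⟩ := cross_pt h
  rw [hθ, segment_eq_image']
  exact ⟨θ, ⟨t0.le, t1.le⟩, by simp [ed, real_smul]⟩

/-- Entry times of two points. -/
theorem tau_diff (hv : ConvexIndependent ℝ v) {R : ℝ} (hR : ∀ x ∈ KK v, ∀ y ∈ KK v, ‖x - y‖ ≤ R)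
    {g : List (Fin n × Fin n)} {x y w : ℂ} (hx : x ∈ KK v) (hy : y ∈ KK v) (h1 : Rz v g x w)
    (h2 : Rz v g y w) : tau v g y w * ‖w‖ ≤ tau v g x w * ‖w‖ + 2 * R := by
  have hR0 : 0 ≤ R := (norm_nonneg _).trans (hR x hx x hx)
  cases g with
  | nil => change 0 * ‖w‖ ≤ 0 * ‖w‖ + 2 * R; linarith
  | cons s g =>
    obtain ⟨θ, t0, t1, hθ⟩ := cross_pt h1
    obtain ⟨θ', t0', t1', hθ'⟩ := cross_pt h2
    set T := tau v (s :: g) x w with hT
    set T' := tau v (s :: g) y w with hT'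
    have hK : v s.1 + (θ : ℂ) * ed v s ∈ KK v := side_point_mem_KK t0.le t1.le
    have hK' : v s.1 + (θ' : ℂ) * ed v s ∈ KK v := side_point_mem_KK t0'.le t1'.le
    have h3 := hR _ hK' _ hK
    rw [← hθ, ← hθ', Fo_sub] at h3
    have hval : Val v g := h1.1.val
    rw [norm_Lo hv hval] at h3
    have h4 := hR x hx y hy
    have h5 : ((T' - T : ℝ) : ℂ) * w = (y + (T' : ℂ) * w - (x + (T : ℂ) * w)) + (x - y) := by
      push_cast; ring
    have h6 : |T' - T| * ‖w‖ ≤ R + R := by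
      rw [← Real.norm_eq_abs, ← norm_real, ← norm_mul, h5]
      exact (norm_add_le _ _).trans (add_le_add h3 h4)
    have h7 : (T' - T) * ‖w‖ ≤ |T' - T| * ‖w‖ :=
      mul_le_mul_of_nonneg_right (le_abs_self _) (norm_nonneg _)
    nlinarith

theorem ctt_nonneg (a b : ℝ) (p : List (Fin n × Fin n) × Fin n) (x w : ℂ) :
    0 ≤ ctt v a b p x w := by
  unfold ctt
  split_ifs
  · exact le_max_left _ _
  · exact zero_le_one

theorem ctt_bdd (a b : ℝ) (x w : ℂ) : BddBelow (Set.range fun p => ctt v a b p x w) :=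
  ⟨0, by rintro _ ⟨p, rfl⟩; exact ctt_nonneg a b p x w⟩

theorem Dp_le (a b : ℝ) (x w : ℂ) (p : List (Fin n × Fin n) × Fin n) :
    Dp v a b x w ≤ ctt v a b p x w := ciInf_le (ctt_bdd a b x w) p

/-- Comparison of parallel lines, one code. -/
theorem cross_code (hv : ConvexIndependent ℝ v) {R : ℝ}
    (hR : ∀ x ∈ KK v, ∀ y ∈ KK v, ‖x - y‖ ≤ R) {a b : ℝ} (ha : 0 < a) (hb : 0 < b) {x y w : ℂ}
    (hx : x ∈ KK v) (hy : y ∈ KK v) (g : List (Fin n × Fin n)) (hg : Rz v g x w) (l : Fin n) :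
    ∃ p : List (Fin n × Fin n) × Fin n, Rz v p.1 y w ∧
      ct v a b p y w ≤ ct v a b (g, l) x w + b * (|cr w (x - y)| / ‖w‖) + 2 * R * a := by
  have hcr : ∀ g : List (Fin n × Fin n), Val v g →
      |cr (Lo v g w) (Fo v g x - Fo v g y)| = |cr w (x - y)| := by
    intro g hg
    rw [Fo_sub]
    exact abs_cr_Lo hv hg w (x - y)
  by_cases hgy : Rz v g y w
  · refine ⟨(g, l), hgy, ?_⟩
    have h1 := tau_diff hv hR hx hy hg hgy
    have h2 : |cr (Lo v g w) (v l - Fo v g y)| ≤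
        |cr (Lo v g w) (v l - Fo v g x)| + |cr w (x - y)| := by
      rw [← hcr g hg.val]
      have : v l - Fo v g y = (v l - Fo v g x) + (Fo v g x - Fo v g y) := by ring
      rw [this, cr_add_right]
      exact abs_add_le _ _
    have h3 : |cr (Lo v g w) (v l - Fo v g y)| / ‖w‖ ≤
        |cr (Lo v g w) (v l - Fo v g x)| / ‖w‖ + |cr w (x - y)| / ‖w‖ := by
      rw [← add_div]
      exact div_le_div_of_nonneg_right h2 (norm_nonneg _)
    unfold ct
    have h4 := mul_le_mul_of_nonneg_left h1 ha.le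
    have h5 := mul_le_mul_of_nonneg_left h3 hb.le
    simp only
    linarith
  · -- the first separation
    have hex : ∀ g : List (Fin n × Fin n), Rz v g x w → ¬ Rz v g y w →
        ∃ (g' : List (Fin n × Fin n)) (s : Fin n × Fin n), Rz v (s :: g') x w ∧ Rz v g' y w ∧
          ¬ Rz v (s :: g') y w ∧ tau v g' x w ≤ tau v g x w := by
      intro g
      induction g with
      | nil => intro _ h; exact absurd trivial h
      | cons s g ih =>
        intro h1 h2
        by_cases h3 : Rz v g y w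
        · exact ⟨g, s, h1, h3, h2, (tau_step hv hx h1).1⟩
        · obtain ⟨g', s', q1, q2, q3, q4⟩ := ih h1.1 h3
          exact ⟨g', s', q1, q2, q3, q4.trans (tau_step hv hx h1).1⟩
    obtain ⟨g', s, q1, q2, q3, q4⟩ := hex g hg hgy
    have hsep : ∃ l', |cr (Lo v g' w) (v l' - Fo v g' y)| ≤ |cr w (x - y)| := by
      rw [← hcr g' q2.val, cr_sub_right (Lo v g' w) (Fo v g' x)]
      obtain ⟨-, hs, k1, k2⟩ := q1
      have hn : ¬ (cr (Lo v g' w) (v s.1) < cr (Lo v g' w) (Fo v g' y) ∧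
          cr (Lo v g' w) (Fo v g' y) < cr (Lo v g' w) (v s.2)) := fun h => q3 ⟨q2, hs, h.1, h.2⟩
      by_cases h5 : cr (Lo v g' w) (v s.1) < cr (Lo v g' w) (Fo v g' y)
      · have h6 : cr (Lo v g' w) (v s.2) ≤ cr (Lo v g' w) (Fo v g' y) := by
          by_contra h7
          exact hn ⟨h5, not_le.1 h7⟩
        refine ⟨s.2, ?_⟩
        rw [cr_sub_right, abs_sub_comm, abs_sub_comm (cr (Lo v g' w) (Fo v g' x)),
          abs_of_nonneg (by linarith), abs_of_nonneg (by linarith)]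
        linarith
      · have h6 := not_lt.1 h5
        refine ⟨s.1, ?_⟩
        rw [cr_sub_right, abs_of_nonneg (by linarith), abs_of_nonneg (by linarith)]
        linarith
    obtain ⟨l', hl'⟩ := hsep
    refine ⟨(g', l'), q2, ?_⟩
    have h1 := tau_diff hv hR hx hy q1.1 q2
    have h2 : tau v g' x w * ‖w‖ ≤ tau v g x w * ‖w‖ :=
      mul_le_mul_of_nonneg_right q4 (norm_nonneg _)
    have h3 : |cr (Lo v g' w) (v l' - Fo v g' y)| / ‖w‖ ≤ |cr w (x - y)| / ‖w‖ :=
      div_le_div_of_nonneg_right hl' (norm_nonneg _)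
    have h4 := mul_le_mul_of_nonneg_left (h1.trans (by linarith : _ ≤ tau v g x w * ‖w‖ + 2 * R)) ha.le
    have h5 := mul_le_mul_of_nonneg_left h3 hb.le
    have h6 : 0 ≤ b * (|cr (Lo v g w) (v l - Fo v g x)| / ‖w‖) := by positivity
    unfold ct
    simp only
    linarith

theorem Dp_cross (hn : 0 < n) (hv : ConvexIndependent ℝ v) {R : ℝ}
    (hR : ∀ x ∈ KK v, ∀ y ∈ KK v, ‖x - y‖ ≤ R) {a b : ℝ} (ha : 0 < a) (hb : 0 < b) {x y w : ℂ}
    (hx : x ∈ KK v) (hy : y ∈ KK v) :
    Dp v a b y w ≤ Dp v a b x w + b * (|cr w (x - y)| / ‖w‖) + 2 * R * a := by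
  have hR0 : 0 ≤ R := (norm_nonneg _).trans (hR x hx x hx)
  have : Nonempty (List (Fin n × Fin n) × Fin n) := ⟨([], ⟨0, hn⟩)⟩
  have hpos : 0 ≤ b * (|cr w (x - y)| / ‖w‖) + 2 * R * a := by positivity
  have key : ∀ p : List (Fin n × Fin n) × Fin n,
      Dp v a b y w - (b * (|cr w (x - y)| / ‖w‖) + 2 * R * a) ≤ ctt v a b p x w := by
    rintro ⟨g, l⟩
    by_cases hg : Rz v g x w
    · obtain ⟨p, hp1, hp2⟩ := cross_code hv hR ha hb hx hy g hg l
      have h1 := Dp_le (v := v) a b y w p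
      have e1 : ctt v a b p y w = max 0 (min 1 (ct v a b p y w)) := if_pos hp1
      have e2 : ctt v a b (g, l) x w = max 0 (min 1 (ct v a b (g, l) x w)) := if_pos hg
      rw [e2]
      rw [e1] at h1
      have h3 : max 0 (min 1 (ct v a b p y w)) ≤ max 0 (min 1 (ct v a b (g, l) x w)) +
          (b * (|cr w (x - y)| / ‖w‖) + 2 * R * a) := by
        apply max_le
        · have := le_max_left 0 (min 1 (ct v a b (g, l) x w))
          linarith
        · have h4 := le_max_right 0 (min 1 (ct v a b (g, l) x w))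
          rcases le_total 1 (ct v a b (g, l) x w) with h5 | h5
          · rw [min_eq_left h5] at h4 ⊢
            have := min_le_left 1 (ct v a b p y w)
            linarith
          · rw [min_eq_right h5] at h4 ⊢
            have := min_le_right 1 (ct v a b p y w)
            linarith
      linarith
    · have e2 : ctt v a b (g, l) x w = 1 := if_neg hg
      rw [e2]
      have h1 := Dp_le (v := v) a b y w ([], l)
      have e3 : ctt v a b ([], l) y w ≤ 1 := by
        unfold ctt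
        split_ifs
        · exact max_le zero_le_one (min_le_left _ _)
        · exact le_refl _
      linarith
  have h := le_ciInf key
  change _ ≤ Dp v a b x w at h
  linarith

theorem exists_diam (v : Fin n → ℂ) : ∃ R : ℝ, 0 < R ∧ ∀ x ∈ KK v, ∀ y ∈ KK v, ‖x - y‖ ≤ R := by
  have hb : Bornology.IsBounded (KK v) := isCompact_KK.isBounded
  obtain ⟨R, hR⟩ := hb.exists_norm_le
  refine ⟨2 * |R| + 1, by positivity, fun x hx y hy => ?_⟩
  have h1 := hR x hx
  have h2 := hR y hy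
  have h3 := norm_sub_le x y
  have h4 := le_abs_self R
  linarith

theorem DD0_cross (hn : 0 < n) (hv : ConvexIndependent ℝ v) {R : ℝ}
    (hR : ∀ x ∈ KK v, ∀ y ∈ KK v, ‖x - y‖ ≤ R) {a b : ℝ} (ha : 0 < a) (hb : 0 < b) {x y w : ℂ}
    (hx : x ∈ KK v) (hy : y ∈ KK v) :
    DD0 v a b y w ≤ DD0 v a b x w + b * (|cr w (x - y)| / ‖w‖) + 2 * R * a := by
  have h1 := Dp_cross hn hv hR ha hb (w := w) hx hy
  have h2 := Dp_cross hn hv hR ha hb (w := -w) hx hy
  rw [cr_neg_left, abs_neg, norm_neg] at h2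
  unfold DD0
  rcases le_total (Dp v a b x w) (Dp v a b x (-w)) with h | h
  · rw [min_eq_left h]
    exact (min_le_left _ _).trans h1
  · rw [min_eq_right h]
    exact (min_le_right _ _).trans h2

end Pool.Agent.Lib.BilF.Cross57
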