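import Pool.Agent.Lib.MP_7bc51d_an_full.CapDefs
import Pool.Agent.Lib.MP_7bc51d_an_full.Across82

/-!
# Rows (TAU) and (CROSS), and (NN), (LE), (NEAR), (FLOW) of the anisotropic distance
-/

set_option autoImplicit false

namespace Pool.Agent.Lib.BilF.Cross82

open Complex MeasureTheory Set Filter Topology
open scoped ComplexConjugate
open Pool.Agent.Lib.Bil Pool.Agent.Lib.BilD

variable {n : ℕ} {v : Fin n → ℂ}

theorem tau_eq (g : List (Fin n × Fin n)) (x w : ℂ) :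
    BilF.tau v g x w = Across82.tau v g x w := by
  cases g with
  | nil => rfl
  | cons s g =>
    simp only [BilF.tau, Across82.tau]
    rw [cr_swap (Lo v g w) (ed v s)]
    unfold ed
    rw [div_neg, neg_div]

/-- The line hits the last side of a realized word in its interior. -/
theorem hit (hv : ConvexIndependent ℝ v) {s : Fin n × Fin n} {g : List (Fin n × Fin n)} {x w : ℂ}
    (hR : Rz v (s :: g) x w) :
    ∃ σ : ℝ, 0 < σ ∧ σ < 1 ∧
      Fo v g (x + (BilF.tau v (s :: g) x w : ℂ) * w) = v s.1 + (σ : ℂ) * (v s.2 - v s.1) ∧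
      BilF.tau v (s :: g) x w * cr (v s.2 - v s.1) (Lo v g w) =
        - cr (v s.2 - v s.1) (Fo v g x - v s.1) ∧ cr (v s.2 - v s.1) (Lo v g w) < 0 := by
  obtain ⟨hR', hs, c1, c2⟩ := hR
  have hne := v_sub_ne hv hs.1
  have hout : cr (v s.2 - v s.1) (Lo v g w) < 0 := Across82.cr_ed_neg (by linarith)
  set τ := BilF.tau v (s :: g) x w with hτ
  have hτ' : τ * cr (v s.2 - v s.1) (Lo v g w) = - cr (v s.2 - v s.1) (Fo v g x - v s.1) := by
    rw [hτ, tau_eq]; simp only [Across82.tau]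
    rw [div_mul_cancel₀ _ hout.ne]
  have hF : ∀ t : ℝ, cr (v s.2 - v s.1) (Fo v g (x + (t : ℂ) * w) - v s.1) =
      cr (v s.2 - v s.1) (Fo v g x - v s.1) + t * cr (v s.2 - v s.1) (Lo v g w) := by
    intro t
    have e : Fo v g (x + (t : ℂ) * w) - v s.1 = (Fo v g x - v s.1) + (t : ℂ) * Lo v g w := by
      rw [Fo_add, Lo_smul]; ring
    rw [e, cr_add_right, cr_smul_right]
  set Q := Fo v g (x + (τ : ℂ) * w) with hQ
  have hz : cr (v s.2 - v s.1) (Q - v s.1) = 0 := by rw [hQ, hF, hτ']; ring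
  obtain ⟨σ, hσ⟩ := (cr_eq_zero_iff hne).1 hz
  have hQσ : Q = v s.1 + (σ : ℂ) * (v s.2 - v s.1) := by rw [← hσ]; ring
  have hcQ : cr (Lo v g w) Q = cr (Lo v g w) (Fo v g x) := by
    rw [hQ, Fo_add, Lo_smul, cr_add_right, cr_smul_right, cr_self]; ring
  have hd : 0 < cr (Lo v g w) (v s.2 - v s.1) := by rw [cr_sub_right]; linarith
  have e1 : cr (Lo v g w) Q = cr (Lo v g w) (v s.1) + σ * cr (Lo v g w) (v s.2 - v s.1) := by
    rw [hQσ, cr_add_right, cr_smul_right]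
  refine ⟨σ, ?_, ?_, hQσ, hτ', hout⟩
  · by_contra hcon
    push Not at hcon
    nlinarith
  · have e2 : cr (Lo v g w) (v s.2) = cr (Lo v g w) (v s.1) +
        cr (Lo v g w) (v s.2 - v s.1) := by
      rw [← cr_add_right]; congr 1; ring
    by_contra hcon
    push Not at hcon
    nlinarith

theorem spec (hv : ConvexIndependent ℝ v) {g : List (Fin n × Fin n)} {x w : ℂ}
    (hx : x ∈ KK v) (hR : Rz v g x w) :
    0 ≤ BilF.tau v g x w ∧ Fo v g (x + (BilF.tau v g x w : ℂ) * w) ∈ KK v ∧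
      ∀ h, h <:+ g → BilF.tau v h x w ≤ BilF.tau v g x w := by
  simp only [tau_eq]
  exact Across82.tau_spec hv hx hR

/-- Row (TAU). -/
theorem rTau : StTau := by
  intro n hn v hv g s x w hx hR
  obtain ⟨t1, t2, t3⟩ := spec hv hx hR
  obtain ⟨σ, s0, s1, e1, e2, e3⟩ := hit hv hR
  refine ⟨t3 g (List.suffix_cons s g), ?_, ?_⟩
  · change 0 ≤ cr (v s.2 - v s.1) (Fo v g x - v s.1)
    nlinarith
  · rw [e1]
    refine ⟨1 - σ, σ, by linarith, s0.le, by ring, ?_⟩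
    simp only [Complex.real_smul]
    push_cast
    ring

/-- Two parallel lines starting in the polygon enter a common copy at close times. -/
theorem tau_close (hv : ConvexIndependent ℝ v) {D0 : ℝ}
    (hD : ∀ y ∈ KK v, ∀ z ∈ KK v, ‖y - z‖ ≤ D0) {g : List (Fin n × Fin n)} {x y w : ℂ}
    (hx : x ∈ KK v) (hy : y ∈ KK v) (h1 : Rz v g x w) (h2 : Rz v g y w) :
    BilF.tau v g y w * ‖w‖ ≤ BilF.tau v g x w * ‖w‖ + 2 * D0 := by
  obtain ⟨-, p2, -⟩ := spec hv hx h1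
  obtain ⟨-, q2, -⟩ := spec hv hy h2
  set T := BilF.tau v g x w
  set U := BilF.tau v g y w
  have k := hD _ q2 _ p2
  rw [Fo_sub, norm_Lo hv h1.val] at k
  have e : (((U - T : ℝ) : ℂ)) * w = (y + (U : ℂ) * w - (x + (T : ℂ) * w)) + (x - y) := by
    push_cast; ring
  have k2 : ‖(((U - T : ℝ) : ℂ)) * w‖ ≤ D0 + D0 := by
    rw [e]
    exact (norm_add_le _ _).trans (add_le_add k (hD x hx y hy))
  rw [norm_mul, norm_real, Real.norm_eq_abs] at k2
  have k3 : (U - T) * ‖w‖ ≤ |U - T| * ‖w‖ := mul_le_mul_of_nonneg_right (le_abs_self _) (norm_nonneg _)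
  nlinarith

theorem exists_diam : ∃ D0 : ℝ, 0 < D0 ∧ ∀ y ∈ KK v, ∀ z ∈ KK v, ‖y - z‖ ≤ D0 := by
  obtain ⟨C, hC⟩ := (isCompact_KK (v := v)).isBounded.exists_norm_le
  refine ⟨2 * |C| + 1, by positivity, fun y hy z hz => ?_⟩
  have h1 := hC y hy
  have h2 := hC z hz
  have h3 := norm_sub_le y z
  have h4 := le_abs_self C
  linarith

/-- (CROSS) in terms of costs. -/
theorem ct_cross (hv : ConvexIndependent ℝ v) {D0 : ℝ}
    (hD : ∀ y ∈ KK v, ∀ z ∈ KK v, ‖y - z‖ ≤ D0) {a b : ℝ} (ha : 0 ≤ a) (hb : 0 ≤ b) {x y w : ℂ}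
    (hx : x ∈ KK v) (hy : y ∈ KK v) {g : List (Fin n × Fin n)} (hR : Rz v g x w)
    (l : Fin n) :
    ∃ q : List (Fin n × Fin n) × Fin n, Rz v q.1 y w ∧ ct v a b q y w ≤
      ct v a b (g, l) x w + (b * (|cr w (x - y)| / ‖w‖) + 2 * D0 * a) := by
  have hD0 : 0 ≤ D0 := (norm_nonneg _).trans (hD x hx x hx)
  have hsw : |cr w (y - x)| = |cr w (x - y)| := by
    rw [← abs_neg, ← cr_neg_right, neg_sub]
  rcases Across82.common_word hv hR (y := y) with h1 | ⟨s, h, h1, h2, i, h3⟩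
  · refine ⟨(g, l), h1, ?_⟩
    have k1 := tau_close hv hD hx hy hR h1
    have e : v l - Fo v g y = (v l - Fo v g x) + (Lo v g (x - y)) := by
      rw [← Fo_sub]; ring
    have k2 : |cr (Lo v g w) (v l - Fo v g y)| ≤
        |cr (Lo v g w) (v l - Fo v g x)| + |cr w (x - y)| := by
      rw [e, cr_add_right]
      refine (abs_add_le _ _).trans (add_le_add le_rfl ?_)
      rw [abs_cr_Lo hv hR.val]
    have k3 : |cr (Lo v g w) (v l - Fo v g y)| / ‖w‖ ≤
        |cr (Lo v g w) (v l - Fo v g x)| / ‖w‖ + |cr w (x - y)| / ‖w‖ := by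
      rw [← add_div]
      exact div_le_div_of_nonneg_right k2 (norm_nonneg _)
    have k4 := mul_le_mul_of_nonneg_left k3 hb
    have k5 := mul_le_mul_of_nonneg_left k1 ha
    unfold ct
    dsimp only
    linarith
  · have hhg : h <:+ g := (List.suffix_cons s h).trans h1
    have hRh := Across82.Rz_suffix hR hhg
    obtain ⟨t1, t2, t3⟩ := spec hv hx hR
    refine ⟨(h, i), h2, ?_⟩
    have k1 := tau_close hv hD hx hy hRh h2
    have k2 := mul_le_mul_of_nonneg_right (t3 h hhg) (norm_nonneg w)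
    have k3 : |cr (Lo v h w) (v i - Fo v h y)| / ‖w‖ ≤ |cr w (x - y)| / ‖w‖ := by
      rw [hsw] at h3
      exact div_le_div_of_nonneg_right h3 (norm_nonneg _)
    have k4 := mul_le_mul_of_nonneg_left k3 hb
    have k5 := mul_le_mul_of_nonneg_left (k1.trans (add_le_add k2 le_rfl)) ha
    have k6 : 0 ≤ b * (|cr (Lo v g w) (v l - Fo v g x)| / ‖w‖) := by positivity
    unfold ct
    dsimp only
    linarith

theorem ctt_nonneg (a b : ℝ) (p : List (Fin n × Fin n) × Fin n) (x w : ℂ) :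
    0 ≤ ctt v a b p x w := by
  unfold ctt
  split_ifs
  · exact le_max_left _ _
  · exact zero_le_one

theorem ctt_le_one (a b : ℝ) (p : List (Fin n × Fin n) × Fin n) (x w : ℂ) :
    ctt v a b p x w ≤ 1 := by
  unfold ctt
  split_ifs
  · exact max_le zero_le_one (min_le_left _ _)
  · exact le_rfl

theorem bdd (a b : ℝ) (x w : ℂ) :
    BddBelow (range (fun p : List (Fin n × Fin n) × Fin n => ctt v a b p x w)) :=
  ⟨0, by rintro _ ⟨p, rfl⟩; exact ctt_nonneg a b p x w⟩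

theorem Dp_le (a b : ℝ) (p : List (Fin n × Fin n) × Fin n) (x w : ℂ) :
    Dp v a b x w ≤ ctt v a b p x w := ciInf_le (bdd a b x w) p

theorem Dp_nonneg (a b : ℝ) (x w : ℂ) : 0 ≤ Dp v a b x w :=
  Real.iInf_nonneg fun p => ctt_nonneg a b p x w

theorem Dp_le_one (hn : 3 ≤ n) (a b : ℝ) (x w : ℂ) : Dp v a b x w ≤ 1 :=
  (Dp_le a b ([], ⟨0, by omega⟩) x w).trans (ctt_le_one a b _ x w)

theorem le_Dp (hn : 3 ≤ n) {a b : ℝ} {x w : ℂ} {c : ℝ} (h : ∀ p, c ≤ ctt v a b p x w) :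
    c ≤ Dp v a b x w := by
  haveI : Nonempty (Fin n) := ⟨⟨0, by omega⟩⟩
  exact le_ciInf h

theorem ctt_mono {a b a' b' : ℝ} {p q : List (Fin n × Fin n) × Fin n} {x y w w' : ℂ} {E : ℝ}
    (hE : 0 ≤ E) (hq : Rz v q.1 y w') (hp : Rz v p.1 x w)
    (h : ct v a b q y w' ≤ ct v a' b' p x w + E) : ctt v a b q y w' ≤ ctt v a' b' p x w + E := by
  unfold ctt
  rw [if_pos hq, if_pos hp]
  refine max_le (add_nonneg (le_max_left _ _) hE) ?_
  rcases le_total 1 (ct v a' b' p x w) with h1 | h1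
  · rw [min_eq_left h1, max_eq_right zero_le_one]
    exact (min_le_left _ _).trans (by linarith)
  · rw [min_eq_right h1]
    exact (min_le_right _ _).trans (h.trans (add_le_add (le_max_right _ _) le_rfl))

/-- Comparison principle for `Dp`. -/
theorem Dp_cmp (hn : 3 ≤ n) {a b a' b' : ℝ} {x y w w' : ℂ} {E : ℝ} (hE : 0 ≤ E)
    (h : ∀ g l, Rz v g x w → ∃ q : List (Fin n × Fin n) × Fin n, Rz v q.1 y w' ∧
      ct v a b q y w' ≤ ct v a' b' (g, l) x w + E) :
    Dp v a b y w' ≤ Dp v a' b' x w + E := by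
  have : Dp v a b y w' - E ≤ Dp v a' b' x w := by
    refine le_Dp hn fun p => ?_
    obtain ⟨g, l⟩ := p
    by_cases hR : Rz v g x w
    · obtain ⟨q, h1, h2⟩ := h g l hR
      have k := (Dp_le a b q y w').trans (ctt_mono hE h1 hR h2)
      linarith
    · have k : ctt v a' b' (g, l) x w = 1 := by unfold ctt; rw [if_neg hR]
      rw [k]
      have := Dp_le_one (v := v) hn a b y w'
      linarith
  linarith

theorem Dp_cross (hn : 3 ≤ n) (hv : ConvexIndependent ℝ v) {D0 : ℝ}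
    (hD : ∀ y ∈ KK v, ∀ z ∈ KK v, ‖y - z‖ ≤ D0) {a b : ℝ} (ha : 0 ≤ a) (hb : 0 ≤ b) {x y : ℂ}
    (hx : x ∈ KK v) (hy : y ∈ KK v) (w : ℂ) :
    Dp v a b y w ≤ Dp v a b x w + (b * (|cr w (x - y)| / ‖w‖) + 2 * D0 * a) := by
  have hD0 : 0 ≤ D0 := (norm_nonneg _).trans (hD x hx x hx)
  refine Dp_cmp hn (by positivity) fun g l hR => ?_
  exact ct_cross hv hD ha hb hx hy hR l

/-- Row (CROSS). -/
theorem cross (hn : 3 ≤ n) (hv : ConvexIndependent ℝ v) {D0 : ℝ}
    (hD : ∀ y ∈ KK v, ∀ z ∈ KK v, ‖y - z‖ ≤ D0) {a b : ℝ} (ha : 0 ≤ a) (hb : 0 ≤ b) {x y : ℂ}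
    (hx : x ∈ KK v) (hy : y ∈ KK v) (w : ℂ) :
    DD0 v a b y w ≤ DD0 v a b x w + b * (|cr w (x - y)| / ‖w‖) + 2 * D0 * a := by
  have h1 := Dp_cross hn hv hD ha hb hx hy w
  have h2 := Dp_cross hn hv hD ha hb hx hy (-w)
  rw [norm_neg, cr_neg_left, abs_neg] at h2
  unfold DD0
  rw [add_assoc, ← sub_le_iff_le_add]
  refine le_min ?_ ?_
  · have := min_le_left (Dp v a b y w) (Dp v a b y (-w))
    linarith
  · have := min_le_right (Dp v a b y w) (Dp v a b y (-w))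
    linarith

end Pool.Agent.Lib.BilF.Cross82
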