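import Pool.Agent.Lib.MP_7bc51d_an_full.Defs
import Pool.Agent.Lib.MP_7bc51d_an_full.Cut39
import Pool.Agent.Lib.MP_7bc51d_an_dense.Refl5
import Pool.Agent.Lib.MP_7bc51d_an.Potential

/-!
# Row CUT

The core `cut_core` works for every function `D` which is close to its value at the centre
(`osc`), Lipschitz along the flow across the sides (`par`) and small near the vertices.
-/

set_option autoImplicit false

namespace Pool.Agent.Lib.BilF.Cut40

open Complex MeasureTheory Set Filter Topology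
open scoped ComplexConjugate
open Pool.Agent.Lib.Bil Pool.Agent.Lib.BilD Pool.Agent.Lib.BilE Pool.Agent.Lib.BilF
open Pool.Agent.Lib.BilX.Cut39 (cut Zc cut_nonneg cut_le_one cut_eq_zero cut_measurable
  Zc_nonneg Zc_measurable cut_lip3 lint_Zc_sq meas_cut_lt_one)

variable {n : ℕ} {v : Fin n → ℂ} {C e0 ε : ℝ}

/-! ### Position of the points near a good point -/

theorem gX_in (H : Geo v C e0) {y : ℂ} (hy : y ∈ PP v) (G : ℂ → ℂ → ℝ) (w : ℂ) :
    gX v G y w = G y w := by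
  have hO : ∀ t ∈ SD v, y ∉ BilD.OO v t := by
    intro t ht h
    have h1 : Rs v t y ∈ PP v := h
    have h2 := (H.pp _).1 h1 t ht
    rw [Refl5.ds_Rs (H.edn t ht)] at h2
    have h3 := (H.pp _).1 hy t ht
    linarith
  unfold gX
  rw [indicator_of_mem hy, Finset.sum_eq_zero (fun t ht => indicator_of_notMem (hO t ht) _),
    add_zero]

theorem gX_out (H : Geo v C e0) {s : Fin n × Fin n} (hs : s ∈ SD v) {y : ℂ} (h1 : ds v s y < 0)
    (h2 : ∀ t ∈ SD v, t ≠ s → 0 < ds v t y) (h3 : Rs v s y ∈ PP v) (G : ℂ → ℂ → ℝ) (w : ℂ) :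
    gX v G y w = G (Rs v s y) (rl (ed v s) w) := by
  have hP : y ∉ PP v := fun h => by
    have := (H.pp _).1 h s hs
    linarith
  have hO : ∀ t ∈ SD v, t ≠ s → y ∉ BilD.OO v t := by
    intro t ht hts h
    have h4 : Rs v t y ∈ PP v := h
    have h5 := (H.pp _).1 h4 t ht
    rw [Refl5.ds_Rs (H.edn t ht)] at h5
    have := h2 t ht hts
    linarith
  unfold gX
  rw [indicator_of_notMem hP, zero_add,
    Finset.sum_eq_single s (fun t ht hts => indicator_of_notMem (hO t ht hts) _)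
    (fun h => absurd hs h), indicator_of_mem (show y ∈ BilD.OO v s from h3)]

/-- Position of a point near a good point. -/
theorem pos (H : Geo v C e0) (hε : 0 < ε) (hε0 : ε < e0) {x : ℂ} (hx : x ∈ PP v)
    (hk : ∀ k, C * ε ≤ ‖x - v k‖) {y : ℂ} (hy : ‖y - x‖ ≤ ε) (hd : ∀ s ∈ SD v, ds v s y ≠ 0) :
    y ∈ PP v ∨ ∃ s ∈ SD v, x ∈ Nr v ε s ∧ ds v s y < 0 ∧
      (∀ t ∈ SD v, t ≠ s → 8 * ε < ds v t y) ∧ Rs v s y ∈ PP v := by
  have hG : x ∈ Gd v C ε := ⟨fun s hs => ((H.pp x).1 hx s hs).le, hk⟩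
  have hxy : ∀ t, |ds v t x - ds v t y| ≤ ε := by
    intro t
    refine (Refl5.ds_sub_le x y).trans ?_
    rw [norm_sub_rev]; exact hy
  rcases H.dic ε hε hε0 x hG with h | ⟨s, hs, h⟩
  · left
    rw [H.pp]
    intro t ht
    have h1 := h t ht
    have h2 := (abs_le.1 (hxy t)).2
    linarith
  · have h8 : ∀ t ∈ SD v, t ≠ s → 8 * ε < ds v t y := by
      intro t ht hts
      have h1 := h.2 t ht hts
      have h2 := (abs_le.1 (hxy t)).2
      linarith
    rcases lt_or_gt_of_ne (hd s hs) with h3 | h3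
    · right
      refine ⟨s, hs, h, h3, h8, ?_⟩
      rw [H.pp]
      intro t ht
      rcases eq_or_ne t s with rfl | hts
      · rw [Refl5.ds_Rs (H.edn t hs)]; linarith
      · have h4 := h8 t ht hts
        have h5 := (abs_le.1 (Refl5.ds_sub_le (v := v) (s := t) y (Rs v s y))).2
        have h6 := Refl5.sub_Rs (H.edn s hs) y
        have h7 : |ds v s y| ≤ 3 * ε := by
          have h8 := abs_le.1 (hxy s)
          have h9 := abs_lt.1 h.1
          rw [abs_le]
          constructor <;> linarith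
        linarith
    · left
      rw [H.pp]
      intro t ht
      rcases eq_or_ne t s with rfl | hts
      · exact h3
      · have := h8 t ht hts
        linarith

theorem ds_line (s : Fin n × Fin n) (y w : ℂ) (r : ℝ) :
    ds v s (y + (r : ℂ) * w) = ds v s y + r * (cr (ed v s) w / ‖ed v s‖) := by
  unfold ds
  rw [add_sub_right_comm, cr_add_right, cr_smul_right, add_div, mul_div_assoc]

/-- The line through two points on different sides of a side crosses this side. -/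
theorem crosses (H : Geo v C e0) {s : Fin n × Fin n} (hs : s ∈ SD v) {y w : ℂ} {t : ℝ}
    (h1 : 0 < ds v s y) (h2 : ds v s (y + (t : ℂ) * w) < 0)
    (h3 : ∀ r ∈ SD v, r ≠ s → 0 < ds v r y)
    (h4 : ∀ r ∈ SD v, r ≠ s → 0 < ds v r (y + (t : ℂ) * w)) : An17.Crs v s y w := by
  set A := ds v s y with hA
  have hB := ds_line (v := v) s y w t
  rw [← hA] at hB
  set c := cr (ed v s) w / ‖ed v s‖ with hc
  set B := ds v s (y + (t : ℂ) * w) with hBd
  have hAB : 0 < A - B := by linarith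
  set σ : ℝ := A / (A - B) with hσ
  have hσ0 : 0 < σ := by positivity
  have hσ1 : σ < 1 := by
    rw [hσ, div_lt_one hAB]; linarith
  have hz0 : ds v s (y + ((σ * t : ℝ) : ℂ) * w) = 0 := by
    rw [ds_line, ← hA, ← hc]
    have : σ * t * c = σ * (B - A) := by rw [hB]; ring
    rw [this, hσ]
    field_simp
    ring
  have hz1 : ∀ r ∈ SD v, r ≠ s → 0 < ds v r (y + ((σ * t : ℝ) : ℂ) * w) := by
    intro r hr hrs
    have e1 := ds_line (v := v) r y w t
    have e2 := ds_line (v := v) r y w (σ * t)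
    have e3 : ds v r (y + ((σ * t : ℝ) : ℂ) * w) =
        (1 - σ) * ds v r y + σ * ds v r (y + (t : ℂ) * w) := by
      rw [e1, e2]; ring
    rw [e3]
    have := h3 r hr hrs
    have := h4 r hr hrs
    have h5 : 0 < 1 - σ := by linarith
    positivity
  obtain ⟨τ, ⟨hτ0, hτ1⟩, hτ⟩ := H.onside s hs _ hz0 hz1
  have hcr : cr w y = cr w (v s.1) + τ * cr w (ed v s) := by
    have : cr w (y + ((σ * t : ℝ) : ℂ) * w) = cr w y := by
      rw [cr_add_right, cr_smul_right, cr_self, mul_zero, add_zero]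
    rw [← this, hτ, cr_add_right, cr_smul_right]
  have hv2 : cr w (v s.2) = cr w (v s.1) + cr w (ed v s) := by
    unfold ed; rw [cr_sub_right]; ring
  have hne : cr w (ed v s) ≠ 0 := by
    intro h0
    have : c = 0 := by rw [hc, cr_swap, h0]; simp
    rw [this] at hB
    linarith
  rcases lt_or_gt_of_ne hne with h | h
  · right
    constructor
    · rw [hv2, hcr]; nlinarith
    · rw [hcr]; nlinarith
  · left
    constructor
    · rw [hcr]; nlinarith
    · rw [hv2, hcr]; nlinarith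

theorem Crs_line {s : Fin n × Fin n} {y w : ℂ} (t : ℝ) (h : An17.Crs v s y w) :
    An17.Crs v s (y + (t : ℂ) * w) w := by
  have e : cr w (y + (t : ℂ) * w) = cr w y := by
    rw [cr_add_right, cr_smul_right, cr_self, mul_zero, add_zero]
  unfold An17.Crs at h ⊢
  rw [e]
  exact h

theorem Rs_add (s : Fin n × Fin n) (y w : ℂ) (t : ℝ) :
    Rs v s (y + (t : ℂ) * w) = Rs v s y + (t : ℂ) * rl (ed v s) w := by
  unfold Rs
  rw [RR_add, rl_smul]
  rfl

/-! ### Abstract core -/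

/-- Local behaviour of a distance function at scale `ε`. -/
structure Loc (v : Fin n → ℂ) (C ε : ℝ) (D : ℂ → ℂ → ℝ) (δ a : ℝ) : Prop where
  osc : ∀ x ∈ PP v, (∀ k, C * ε ≤ ‖x - v k‖) → ∀ w, w ≠ 0 → ∀ y, ‖y - x‖ ≤ ε →
    (∀ s ∈ SD v, ds v s y ≠ 0) → |gX v D y w - D x w| ≤ δ
  par : ∀ x ∈ PP v, (∀ k, C * ε ≤ ‖x - v k‖) → ∀ w, w ≠ 0 → ∀ (y : ℂ) (t : ℝ), ‖y - x‖ ≤ ε →
    ‖y + (t : ℂ) * w - x‖ ≤ ε → (∀ s ∈ SD v, ds v s y ≠ 0) →
    (∀ s ∈ SD v, ds v s (y + (t : ℂ) * w) ≠ 0) →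
      |gX v D (y + (t : ℂ) * w) w - gX v D y w| ≤ a * (|t| * ‖w‖)

theorem gX_comp (H : Geo v C e0) (hε : 0 < ε) (hε0 : ε < e0) {x : ℂ} (hx : x ∈ PP v)
    (hk : ∀ k, C * ε ≤ ‖x - v k‖) {y : ℂ} (hy : ‖y - x‖ ≤ ε) (hd : ∀ s ∈ SD v, ds v s y ≠ 0)
    (φ : ℝ → ℝ) (D : ℂ → ℂ → ℝ) (w : ℂ) :
    gX v (fun x w => φ (D x w)) y w = φ (gX v D y w) := by
  rcases pos H hε hε0 hx hk hy hd with h | ⟨s, hs, _, h1, h2, h3⟩
  · rw [gX_in H h, gX_in H h]
  · have h2' : ∀ t ∈ SD v, t ≠ s → 0 < ds v t y := fun t ht hts => by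
      have := h2 t ht hts
      linarith
    rw [gX_out H hs h1 h2' h3, gX_out H hs h1 h2' h3]

theorem Zc_bdd (r0 : ℝ) (h0 : 0 < r0) (m : ℕ) : ∃ B : ℝ, ∀ t, Zc r0 m t ≤ B := by
  refine ⟨(m : ℝ)⁻¹ * ∑ i ∈ Finset.range m, (8 ^ i * r0)⁻¹, fun t => ?_⟩
  unfold Zc
  apply mul_le_mul_of_nonneg_left _ (by positivity)
  refine Finset.sum_le_sum (fun i _ => ?_)
  exact indicator_le_self' (fun _ _ => by positivity) _

theorem cut_core (H : Geo v C e0) (hε : 0 < ε) (hε0 : ε < e0) {D : ℂ → ℂ → ℝ}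
    (hm : Measurable (fun p : ℂ × ℂ => D p.1 p.2)) {r0 : ℝ} (hr : 0 < r0) (m : ℕ)
    (hnear : ∀ x ∈ PP v, ∀ w k, ‖x - v k‖ < 4 * C * ε → D x w ≤ r0) {δ a κ ν : ℝ}
    (hL : Loc v C ε D δ a) (hδ : δ ≤ r0 / 2) (ha : 0 ≤ a) (hκ : δ ≤ κ) (hν : 2 * a * ε ≤ ν) :
    Cut v C ε (fun x w => cut r0 m (D x w)) (fun x w => Zc r0 m (D x w)) κ ν := by
  refine ⟨(cut_measurable r0 m).comp hm, fun x w => cut_nonneg _ _ _, fun x w => cut_le_one _ _ _,
    ?_, (Zc_measurable r0 m).comp hm, fun x w => Zc_nonneg hr _ _, ?_, ?_, ?_⟩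
  · intro x hx w k hk
    exact cut_eq_zero hr m (hnear x hx w k hk)
  · obtain ⟨B, hB⟩ := Zc_bdd r0 hr m
    exact ⟨B, fun x w => hB _⟩
  · intro x hx hk w hw y hy hd
    rw [gX_comp H hε hε0 hx hk hy hd (cut r0 m) D w]
    have h1 := hL.osc x hx hk w hw y hy hd
    have h2 := cut_lip3 hr m (t0 := D x w) (t := gX v D y w) (t' := D x w) (h1.trans hδ)
      (by rw [sub_self, abs_zero]; positivity)
    have h3 := Zc_nonneg hr m (D x w)
    refine h2.trans ?_
    rw [mul_comm κ]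
    exact mul_le_mul_of_nonneg_left (h1.trans hκ) h3
  · intro x hx hk w hw y t hy hy' hd hd'
    rw [gX_comp H hε hε0 hx hk hy hd (cut r0 m) D w,
      gX_comp H hε hε0 hx hk hy' hd' (cut r0 m) D w]
    have h1 := hL.osc x hx hk w hw y hy hd
    have h1' := hL.osc x hx hk w hw _ hy' hd'
    have h2 := cut_lip3 hr m (t0 := D x w) (t := gX v D (y + (t : ℂ) * w) w)
      (t' := gX v D y w) (h1'.trans hδ) (h1.trans hδ)
    have h3 := Zc_nonneg hr m (D x w)
    have h4 := hL.par x hx hk w hw y t hy hy' hd hd'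
    have h5 : |t| * ‖w‖ ≤ 2 * ε := by
      have e : (t : ℂ) * w = (y + (t : ℂ) * w - x) - (y - x) := by ring
      have e2 : |t| * ‖w‖ = ‖(t : ℂ) * w‖ := by rw [norm_mul, norm_real, Real.norm_eq_abs]
      rw [e2, e]
      refine (norm_sub_le _ _).trans ?_
      linarith
    have h6 : a * (|t| * ‖w‖) ≤ ν := by
      refine le_trans (mul_le_mul_of_nonneg_left h5 ha) ?_
      linarith
    refine h2.trans ?_
    rw [mul_comm ν]
    exact mul_le_mul_of_nonneg_left (h4.trans h6) h3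

/-- The integral of the square of the slope, and the volume of the exceptional set. -/
theorem vol_core {D : ℂ → ℂ → ℝ} (hm : Measurable (fun p : ℂ × ℂ => D p.1 p.2)) {r0 K : ℝ}
    (hr : 0 < r0) (hK : 0 ≤ K) {m : ℕ} (h1m : 1 ≤ m)
    (hvol : ∀ r, r0 ≤ r → r ≤ 3 * (8 ^ m * r0) →
      volume {p : ℂ × ℂ | p ∈ DD v ∧ D p.1 p.2 ≤ r} ≤ ENNReal.ofReal (K * r ^ 2)) :
    (∫ p in DD v, Zc r0 m (D p.1 p.2) ^ 2) ≤ 9 * K / m ∧
    (volume {p : ℂ × ℂ | p ∈ DD v ∧ cut r0 m (D p.1 p.2) ≠ 1}).toReal ≤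
      K * (2 * (8 ^ m * r0)) ^ 2 := by
  have hv2 : ∀ r, r0 ≤ r → r ≤ 3 * (8 ^ m * r0) →
      (volume.restrict (DD v)) {p : ℂ × ℂ | D p.1 p.2 ≤ r} ≤ ENNReal.ofReal (K * r ^ 2) := by
    intro r ha hb
    have hms : MeasurableSet {p : ℂ × ℂ | D p.1 p.2 ≤ r} := hm measurableSet_Iic
    rw [Measure.restrict_apply hms]
    refine le_trans (measure_mono ?_) (hvol r ha hb)
    rintro p ⟨p1, p2⟩
    exact ⟨p2, p1⟩
  constructor
  · have h1 := lint_Zc_sq hr hK h1m (μ := volume.restrict (DD v))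
      (D := fun p : ℂ × ℂ => D p.1 p.2) hm hv2
    have hms : Measurable (fun p : ℂ × ℂ => Zc r0 m (D p.1 p.2) ^ 2) :=
      ((Zc_measurable r0 m).comp hm).pow_const 2
    rw [integral_eq_lintegral_of_nonneg_ae (Eventually.of_forall (fun p => sq_nonneg _))
      hms.aestronglyMeasurable]
    refine ENNReal.toReal_le_of_le_ofReal (by positivity) h1
  · have h1 := meas_cut_lt_one hr h1m (μ := volume.restrict (DD v))
      (D := fun p : ℂ × ℂ => D p.1 p.2) hv2
    have hms : MeasurableSet {p : ℂ × ℂ | cut r0 m (D p.1 p.2) ≠ 1} :=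
      ((cut_measurable r0 m).comp hm) (measurableSet_singleton (1 : ℝ)).compl
    rw [Measure.restrict_apply hms] at h1
    refine ENNReal.toReal_le_of_le_ofReal (by positivity) (le_trans (measure_mono ?_) h1)
    rintro p ⟨p1, p2⟩
    exact ⟨p2, p1⟩

/-! ### The distance of `An17` -/

theorem NN_le {a b : ℝ} (ha : 0 < a) (hb : 0 < b) (w z : ℂ) : An17.NN a b w z ≤ (a + b) * ‖z‖ := by
  unfold An17.NN
  rcases eq_or_ne w 0 with rfl | hw
  · rw [norm_zero, div_zero]; positivity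
  · have hn : 0 < ‖w‖ := norm_pos_iff.2 hw
    rw [div_le_iff₀ hn]
    have h1 := abs_dt_le w z
    have h2 := abs_cr_le w z
    nlinarith

theorem loc17 (hDA : An17.StDA) (hDR : An17.StDR) (hn : 3 ≤ n) (hv : ConvexIndependent ℝ v)
    (H : Geo v C e0) {L1 L2 : ℝ} (hL1 : 0 < L1) (hL2 : 0 < L2)
    (hDB : ∀ a b : ℝ, 0 < a → 0 < b → ∀ x ∈ PP v, ∀ y w : ℂ, w ≠ 0 → ‖x - y‖ ≤ 1 →
      An17.Dd v a b y w ≤ An17.Dd v a b x w + b * ‖x - y‖ + a * L1)
    (hDBS : ∀ a b : ℝ, 0 < a → 0 < b → ∀ ε, 0 < ε → ε < e0 →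
      ∀ s ∈ SD v, ∀ x ∈ PP v, ∀ y w : ℂ, w ≠ 0 → x ∈ Nr v ε s → y ∈ Nr v ε s → Rs v s y ∈ PP v →
        ‖x - y‖ ≤ 1 → |An17.Dd v a b (Rs v s y) (rl (ed v s) w) - An17.Dd v a b x w| ≤
          2 * b * ‖x - y‖ + a * L2)
    {a b : ℝ} (ha : 0 < a) (hb : 0 < b) (hε : 0 < ε) (hε0 : ε < e0) :
    Loc v C ε (An17.Dd v a b) (2 * b * ε + a * (L1 + L2)) a := by
  have hε1 : ε ≤ 1 := hε0.le.trans H.e01
  refine ⟨?_, ?_⟩
  · intro x hx hk w hw y hy hd
    have hxy : ‖x - y‖ ≤ ε := by rw [norm_sub_rev]; exact hy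
    rcases pos H hε hε0 hx hk hy hd with h | ⟨s, hs, hN, h1, h2, h3⟩
    · rw [gX_in H h]
      have e1 := hDB a b ha hb x hx y w hw (hxy.trans hε1)
      have e2 := hDB a b ha hb y h x w hw (hy.trans hε1)
      have e3 : b * ‖x - y‖ ≤ b * ε := mul_le_mul_of_nonneg_left hxy hb.le
      have e4 : b * ‖y - x‖ ≤ b * ε := mul_le_mul_of_nonneg_left hy hb.le
      have e5 : 0 < b * ε := by positivity
      have e6 : 0 < a * L1 := by positivity
      have e7 : 0 < a * L2 := by positivity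
      rw [abs_le]
      constructor <;> nlinarith
    · have h2' : ∀ t ∈ SD v, t ≠ s → 0 < ds v t y := fun t ht hts => by
        have := h2 t ht hts
        linarith
      rw [gX_out H hs h1 h2' h3]
      have hx0 := (H.pp x).1 hx s hs
      have hdd := abs_le.1 ((Refl5.ds_sub_le (v := v) (s := s) x y).trans hxy)
      have hN1 : x ∈ Nr v (8 / 9 * ε) s := by
        refine ⟨?_, ?_⟩
        · rw [abs_lt]; constructor <;> linarith
        · intro t ht hts
          have := hN.2 t ht hts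
          linarith
      have hN2 : y ∈ Nr v (8 / 9 * ε) s := by
        refine ⟨?_, ?_⟩
        · rw [abs_lt]; constructor <;> linarith
        · intro t ht hts
          have := h2 t ht hts
          linarith
      have e1 := hDBS a b ha hb (8 / 9 * ε) (by positivity) (by linarith) s hs x hx y w hw hN1 hN2 h3
        (hxy.trans hε1)
      have e3 : 2 * b * ‖x - y‖ ≤ 2 * b * ε := mul_le_mul_of_nonneg_left hxy (by positivity)
      have e6 : 0 < a * L1 := by positivity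
      refine e1.trans ?_
      nlinarith
  · intro x hx hk w hw y t hy hy' hd hd'
    rcases pos H hε hε0 hx hk hy hd with h | ⟨s, hs, hN, h1, h2, h3⟩
    · rcases pos H hε hε0 hx hk hy' hd' with h' | ⟨s, hs, hN, h1, h2, h3⟩
      · rw [gX_in H h, gX_in H h']
        exact hDA n hn v hv a b ha hb y w t
      · have h2' : ∀ r ∈ SD v, r ≠ s → 0 < ds v r (y + (t : ℂ) * w) := fun r ht hts => by
          have := h2 r ht hts
          linarith
        rw [gX_in H h, gX_out H hs h1 h2' h3]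
        have hc := crosses H hs ((H.pp y).1 h s hs) h1 (fun r hr _ => (H.pp y).1 h r hr) h2'
        rw [hDR n hn v hv a b ha hb s hs _ w (Crs_line t hc)]
        exact hDA n hn v hv a b ha hb y w t
    · have h2a : ∀ r ∈ SD v, r ≠ s → 0 < ds v r y := fun r ht hts => by
          have := h2 r ht hts
          linarith
      rcases pos H hε hε0 hx hk hy' hd' with h' | ⟨s', hs', hN', h1', h2', h3'⟩
      · rw [gX_in H h', gX_out H hs h1 h2a h3]
        have ey : y = (y + (t : ℂ) * w) + ((-t : ℝ) : ℂ) * w := by push_cast; ring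
        have hc := crosses H hs (y := y + (t : ℂ) * w) (w := w) (t := -t)
          ((H.pp _).1 h' s hs) (by rw [← ey]; exact h1) (fun r hr _ => (H.pp _).1 h' r hr)
          (by rw [← ey]; exact h2a)
        have hc2 := Crs_line (-t) hc
        rw [← ey] at hc2
        rw [hDR n hn v hv a b ha hb s hs _ w hc2]
        exact hDA n hn v hv a b ha hb y w t
      · have hss : s' = s := by
          by_contra hne
          have a1 := hN.2 s' hs' hne
          have a2 := (abs_lt.1 hN'.1).2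
          linarith
        subst hss
        have h2b : ∀ r ∈ SD v, r ≠ s' → 0 < ds v r (y + (t : ℂ) * w) := fun r ht hts => by
          have := h2' r ht hts
          linarith
        rw [gX_out H hs h1 h2a h3, gX_out H hs h1' h2b h3', Rs_add]
        have := hDA n hn v hv a b ha hb (Rs v s' y) (rl (ed v s') w) t
        rwa [norm_rl (H.edn s' hs)] at this

/-- (CUT) from the rows of `An17`. -/
theorem row (hDM : An17.StDM) (hDA : An17.StDA) (hDR : An17.StDR) (hDB : An17.StDB)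
    (hDBS : An17.StDBS) (hDC : An17.StDC) : StCut := by
  intro n v C e0 hn hv H
  obtain ⟨L1, hL1, hB1⟩ := hDB n hn v hv
  obtain ⟨L2, hL2, hB2⟩ := hDBS n hn v hv
  obtain ⟨K, hK, hC⟩ := hDC n hn v hv
  have hC1 := H.C1
  have hC0 : 0 < C := by linarith
  refine ⟨1 + 16 * C + 36 * K, by positivity, ?_⟩
  intro m r0 hm hr0 hr1
  have hL : 0 < L1 + L2 := by positivity
  refine ⟨min e0 (min (r0 / (8 * C)) (r0 ^ 2 / (32 * C * (L1 + L2)))), ?_, ?_⟩
  · exact lt_min H.e0p (lt_min (by positivity) (by positivity))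
  intro ε hε hεm
  have hε0 : ε < e0 := hεm.trans_le (min_le_left _ _)
  have hε1 : ε < r0 / (8 * C) := hεm.trans_le ((min_le_right _ _).trans (min_le_left _ _))
  have hε2 : ε < r0 ^ 2 / (32 * C * (L1 + L2)) :=
    hεm.trans_le ((min_le_right _ _).trans (min_le_right _ _))
  rw [lt_div_iff₀ (by positivity)] at hε1 hε2
  set a : ℝ := 8 * C * ε / r0 with ha
  set b : ℝ := r0 / (8 * C * ε) with hb
  have ha0 : 0 < a := by positivity
  have hb0 : 0 < b := by positivity
  have hab : a * b = 1 := by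
    rw [ha, hb]; field_simp
  obtain ⟨M0, M1, _, M3⟩ := hDM n hn v hv a b ha0 hb0
  have hδ : 2 * b * ε + a * (L1 + L2) ≤ r0 / 2 := by
    have e1 : 2 * b * ε = r0 / (4 * C) := by rw [hb]; field_simp; ring
    have e2 : r0 / (4 * C) ≤ r0 / 4 := by
      apply div_le_div_of_nonneg_left hr0.le (by norm_num) (by linarith)
    have e3 : a * (L1 + L2) ≤ r0 / 4 := by
      rw [ha, div_mul_eq_mul_div, div_le_div_iff₀ hr0 (by norm_num)]
      nlinarith
    rw [e1]; linarith
  have haε : 2 * a * ε = 16 * C * ε ^ 2 / r0 := by rw [ha]; ring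
  have hnear : ∀ x ∈ PP v, ∀ w k, ‖x - v k‖ < 4 * C * ε → An17.Dd v a b x w ≤ r0 := by
    intro x _ w k hk
    have h1 := (M1 x w k).trans (NN_le ha0 hb0 w (v k - x))
    rw [norm_sub_rev] at h1
    have h2 : (a + b) * ‖x - v k‖ ≤ (a + b) * (4 * C * ε) :=
      mul_le_mul_of_nonneg_left hk.le (by positivity)
    have h3 : b * (4 * C * ε) = r0 / 2 := by rw [hb]; field_simp; ring
    have h4 : a * (4 * C * ε) ≤ r0 / 2 := by
      have : a * (4 * C * ε) = 32 * (C * ε) ^ 2 / r0 := by rw [ha]; ring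
      rw [this, div_le_div_iff₀ hr0 (by norm_num)]
      have h5 : C * ε * 8 < r0 := by linarith
      have h6 : 0 < C * ε := by positivity
      nlinarith
    nlinarith
  have hloc := loc17 hDA hDR hn hv H hL1 hL2 hB1 (hB2 C e0 H) ha0 hb0 hε hε0
  refine ⟨fun x w => cut r0 m (An17.Dd v a b x w), fun x w => Zc r0 m (An17.Dd v a b x w), ?_, ?_⟩
  · refine cut_core H hε hε0 M3 hr0 m hnear hloc hδ ha0.le ?_ ?_
    · refine hδ.trans ?_
      have : 0 < (16 * C + 36 * K) * r0 := by positivity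
      nlinarith
    · rw [haε]
      apply div_le_div_of_nonneg_right _ hr0.le
      apply mul_le_mul_of_nonneg_right _ (by positivity)
      linarith
  · have hvol : ∀ r, r0 ≤ r → r ≤ 3 * (8 ^ m * r0) →
        volume {p : ℂ × ℂ | p ∈ DD v ∧ An17.Dd v a b p.1 p.2 ≤ r} ≤
          ENNReal.ofReal (4 * K * r ^ 2) := by
      intro r h1 _
      have hr : 0 < r := lt_of_lt_of_le hr0 h1
      refine (measure_mono ?_).trans ((hC a b ha0 hb0 (2 * r) (by positivity)).trans ?_)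
      · rintro p ⟨p1, p2⟩
        exact ⟨p1, by linarith⟩
      · apply ENNReal.ofReal_le_ofReal
        rw [hab, div_one]
        apply le_of_eq
        ring
    obtain ⟨h1, h2⟩ := vol_core (v := v) M3 hr0 (by positivity : 0 ≤ 4 * K) hm hvol
    have hm0 : (0 : ℝ) < m := by exact_mod_cast hm
    refine ⟨h1.trans ?_, h2.trans ?_⟩
    · apply div_le_div_of_nonneg_right _ hm0.le
      linarith
    · have e : (8 : ℝ) ^ (m + 1) = 8 * 8 ^ m := by rw [pow_succ]; ring
      rw [e]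
      have h8 : (0 : ℝ) < 8 ^ m * r0 := by positivity
      have e2 : 4 * K * (2 * (8 ^ m * r0)) ^ 2 = 16 * K * (8 ^ m * r0) ^ 2 := by ring
      have e3 : (1 + 16 * C + 36 * K) * (8 * 8 ^ m * r0) ^ 2 =
        64 * (1 + 16 * C + 36 * K) * (8 ^ m * r0) ^ 2 := by ring
      rw [e2, e3]
      apply mul_le_mul_of_nonneg_right _ (by positivity)
      nlinarith

end Pool.Agent.Lib.BilF.Cut40
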