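import Pool.Agent.Lib.MP_7bc51d_an_full.CapDefs
import Pool.Agent.Lib.MP_7bc51d_an_dense.TI33

/-!
# The anisotropic distance across a side
-/

set_option autoImplicit false

namespace Pool.Agent.Lib.BilF.Ext38

open Complex MeasureTheory Set Filter Topology
open scoped ComplexConjugate ENNReal
open Pool.Agent.Lib.Bil Pool.Agent.Lib.BilD Pool.Agent.Lib.BilD.TI33

variable {n : ℕ} {v : Fin n → ℂ} {C a b : ℝ} {D : ℂ → ℂ → ℝ}

/-- Reflected extension of a function on the phase space. -/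
noncomputable def gE (v : Fin n → ℂ) (G : ℂ → ℂ → ℝ) (x w : ℂ) : ℝ :=
  (PP v).indicator (fun x => G x w) x +
    ∑ s ∈ SD v, (OO v s).indicator (fun x => G (Rs v s x) (rl (ed v s) w)) x

theorem Rs_side {s : Fin n × Fin n} (he : ed v s ≠ 0) (τ : ℝ) :
    Rs v s (v s.1 + (τ : ℂ) * ed v s) = v s.1 + (τ : ℂ) * ed v s :=
  RR_line (v := v) he τ

theorem Rs_sub {s : Fin n × Fin n} (x y : ℂ) :
    Rs v s x - Rs v s y = rl (ed v s) (x - y) := RR_sub_RR v s.1 s.2 x y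

theorem p_KK {s : Fin n × Fin n} {τ : ℝ} (hτ : τ ∈ Ioo (0 : ℝ) 1) :
    v s.1 + (τ : ℂ) * ed v s ∈ KK v := side_point_mem_KK hτ.1.le hτ.2.le

theorem abs_cr_rl {s : Fin n × Fin n} (he : ed v s ≠ 0) (x y : ℂ) :
    |cr (rl (ed v s) x) (rl (ed v s) y)| = |cr x y| := by rw [cr_rl he, abs_neg]

/-- Across a side. -/
theorem ext_cross (hD : CutD v C a b D) {s : Fin n × Fin n} (hs : s ∈ SD v) (he : ed v s ≠ 0)
    {y z w : ℂ} {τ : ℝ} (hy : y ∈ KK v) (hz : Rs v s z ∈ KK v) (hτ : τ ∈ Ioo (0 : ℝ) 1)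
    (hp : v s.1 + (τ : ℂ) * ed v s ∈ segment ℝ y z) (hw : w ≠ 0) (hc : cr (ed v s) w ≠ 0) :
    |D (Rs v s z) (rl (ed v s) w) - D y w| ≤ b * (|cr w (y - z)| / ‖w‖) + 2 * (C * a) := by
  have hw0 : 0 < ‖w‖ := norm_pos_iff.2 hw
  have hw' : rl (ed v s) w ≠ 0 := by
    rw [← norm_pos_iff, norm_rl he]; exact hw0
  set p := v s.1 + (τ : ℂ) * ed v s with hpd
  have hpK : p ∈ KK v := p_KK hτ
  have e0 : D p (rl (ed v s) w) = D p w := hD.side s hs τ hτ w hc
  have h1 := hD.cross p hpK y hy w hw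
  have h2 := hD.cross y hy p hpK w hw
  have h3 := hD.cross p hpK (Rs v s z) hz (rl (ed v s) w) hw'
  have h4 := hD.cross (Rs v s z) hz p hpK (rl (ed v s) w) hw'
  have e1 : p - Rs v s z = rl (ed v s) (p - z) := by rw [← Rs_sub, Rs_side he]
  have e2 : Rs v s z - p = rl (ed v s) (z - p) := by rw [← Rs_sub, Rs_side he]
  rw [e1, abs_cr_rl he, norm_rl he] at h3
  rw [e2, abs_cr_rl he, norm_rl he] at h4
  obtain ⟨α, β, hα, hβ, hab, hpe⟩ := hp
  rw [real_smul, real_smul] at hpe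
  have hβ1 : (β : ℂ) = 1 - α := by
    have h0 : β = 1 - α := by linarith
    rw [h0]; push_cast; ring
  have f1 : p - y = ((-β : ℝ) : ℂ) * (y - z) := by
    rw [← hpe]; push_cast; rw [hβ1]; ring
  have f2 : p - z = ((α : ℝ) : ℂ) * (y - z) := by
    rw [← hpe, hβ1]; ring
  have g1 : |cr w (p - y)| = β * |cr w (y - z)| := by
    rw [f1, cr_smul_right, abs_mul, abs_neg, abs_of_nonneg hβ]
  have g2 : |cr w (y - p)| = β * |cr w (y - z)| := by
    rw [← g1, ← abs_neg, ← cr_neg_right, neg_sub]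
  have g3 : |cr w (p - z)| = α * |cr w (y - z)| := by
    rw [f2, cr_smul_right, abs_mul, abs_of_nonneg hα]
  have g4 : |cr w (z - p)| = α * |cr w (y - z)| := by
    rw [← g3, ← abs_neg, ← cr_neg_right, neg_sub]
  rw [g1] at h1
  rw [g2] at h2
  rw [g3] at h3
  rw [g4] at h4
  have k : b * (|cr w (y - z)| / ‖w‖) = b * (β * |cr w (y - z)| / ‖w‖) +
      b * (α * |cr w (y - z)| / ‖w‖) := by
    have : |cr w (y - z)| = β * |cr w (y - z)| + α * |cr w (y - z)| := by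
      rw [← add_mul, add_comm β α, hab, one_mul]
    conv_lhs => rw [this]
    ring
  rw [k, abs_le]
  rw [e0] at h3 h4
  constructor <;> linarith

/-- Along the flow across a side. -/
theorem ext_flow (hD : CutD v C a b D) {s : Fin n × Fin n} (hs : s ∈ SD v) (he : ed v s ≠ 0)
    {y w : ℂ} {t τ : ℝ} (hy : y ∈ KK v) (hz : Rs v s (y + (t : ℂ) * w) ∈ KK v)
    (hτ : τ ∈ Ioo (0 : ℝ) 1)
    (hp : v s.1 + (τ : ℂ) * ed v s ∈ segment ℝ y (y + (t : ℂ) * w)) (hc : cr (ed v s) w ≠ 0) :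
    |D (Rs v s (y + (t : ℂ) * w)) (rl (ed v s) w) - D y w| ≤ a * (|t| * ‖w‖) := by
  set p := v s.1 + (τ : ℂ) * ed v s with hpd
  have hpK : p ∈ KK v := p_KK hτ
  have e0 : D p (rl (ed v s) w) = D p w := hD.side s hs τ hτ w hc
  obtain ⟨α, β, hα, hβ, hab, hpe⟩ := hp
  rw [real_smul, real_smul] at hpe
  have hα1 : (α : ℂ) = 1 - β := by
    have h0 : α = 1 - β := by linarith
    rw [h0]; push_cast; ring
  have f1 : p = y + ((β * t : ℝ) : ℂ) * w := by
    rw [← hpe, hα1]; push_cast; ring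
  have f2 : y + (t : ℂ) * w = p + ((α * t : ℝ) : ℂ) * w := by
    rw [f1]; push_cast; rw [hα1]; ring
  have h1 := hD.flow y w (β * t) hy (by rw [← f1]; exact hpK)
  rw [← f1] at h1
  have f3 : Rs v s (y + (t : ℂ) * w) = p + ((α * t : ℝ) : ℂ) * rl (ed v s) w := by
    have h5 : Rs v s (y + (t : ℂ) * w) - Rs v s p = rl (ed v s) (y + (t : ℂ) * w - p) := Rs_sub _ _
    rw [Rs_side he, f2, add_sub_cancel_left, rl_smul, ← f2] at h5
    rw [← h5]; ring
  have h2 := hD.flow p (rl (ed v s) w) (α * t) hpK (by rw [← f3]; exact hz)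
  rw [← f3, norm_rl he, e0] at h2
  have k : a * (|t| * ‖w‖) = a * (|α * t| * ‖w‖) + a * (|β * t| * ‖w‖) := by
    rw [abs_mul, abs_mul, abs_of_nonneg hα, abs_of_nonneg hβ]
    have : |t| = α * |t| + β * |t| := by rw [← add_mul, hab, one_mul]
    conv_lhs => rw [this]
    ring
  rw [k]
  have e : D (Rs v s (y + (t : ℂ) * w)) (rl (ed v s) w) - D y w =
    (D (Rs v s (y + (t : ℂ) * w)) (rl (ed v s) w) - D p w) + (D p w - D y w) := by ring
  rw [e]
  exact (abs_add_le _ _).trans (add_le_add h2 h1)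

/-! ### values of the extension in a ball -/

/-- Type of a point of the ball: inside, or in the mirror copy at `s`. -/
def InP (v : Fin n → ℂ) (y : ℂ) : Prop := ∀ t ∈ SD v, 0 < ds v t y

def InM (v : Fin n → ℂ) (s : Fin n × Fin n) (y : ℂ) : Prop :=
  ds v s y < 0 ∧ (∀ t ∈ SD v, t ≠ s → 0 < ds v t y) ∧ Rs v s y ∈ PP v

theorem gE_in {C0 e0 : ℝ} (hg : Geo v C0 e0) (G : ℂ → ℂ → ℝ) {y : ℂ} (hy : InP v y) (w : ℂ) :
    gE v G y w = G y w := by
  unfold gE
  rw [indicator_of_mem ((hg.pp y).2 hy), Finset.sum_eq_zero, add_zero]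
  intro t ht
  exact indicator_of_notMem (not_mem_OO33 hg ht (hy t ht)) _

theorem gE_mi {C0 e0 : ℝ} (hg : Geo v C0 e0) (G : ℂ → ℂ → ℝ) {s : Fin n × Fin n} (hs : s ∈ SD v)
    {y : ℂ} (hy : InM v s y) (w : ℂ) : gE v G y w = G (Rs v s y) (rl (ed v s) w) := by
  unfold gE
  have h1 : y ∉ PP v := fun h => by
    have := (hg.pp y).1 h s hs
    have := hy.1
    linarith
  rw [indicator_of_notMem h1, zero_add, Finset.sum_eq_single s]
  · have h2 : y ∈ OO v s := hy.2.2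
    rw [indicator_of_mem h2]
  · intro t ht hts
    exact indicator_of_notMem (not_mem_OO33 hg ht (hy.2.1 t ht hts)) _
  · intro h
    exact absurd hs h

/-- Dichotomy in a ball around a good point. -/
theorem ball_cases {C0 e0 : ℝ} (hg : Geo v C0 e0) {ε : ℝ} (hε : 0 < ε) (hε0 : ε < e0) {x : ℂ}
    (hx : x ∈ Gd v C0 ε) :
    (∀ y, ‖x - y‖ ≤ ε → InP v y) ∨
      ∃ s ∈ SD v, ∀ y, ‖x - y‖ ≤ ε → (∀ t ∈ SD v, t ≠ s → 0 < ds v t y) ∧
        (0 < ds v s y → InP v y) ∧ (ds v s y < 0 → InM v s y) := by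
  rcases hg.dic ε hε hε0 x hx with h | ⟨s, hs, h1, h2⟩
  · left
    intro y hy t ht
    have := norm_lt_of33 hg hy ht
    have := h t ht
    linarith
  · right
    refine ⟨s, hs, fun y hy => ?_⟩
    have hoth : ∀ t ∈ SD v, t ≠ s → 8 * ε < ds v t y := by
      intro t ht hts
      have h3 := norm_lt_of33 hg hy ht
      have h4 := h2 t ht hts
      linarith
    have hsm : |ds v s y| < 3 * ε := by
      have h3 := ds_lip33 (hg.edn s hs) x y
      have h4 : |ds v s y| ≤ |ds v s x - ds v s y| + |ds v s x| := by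
        have := abs_sub_abs_le_abs_sub (ds v s y) (ds v s x)
        rw [abs_sub_comm] at this
        linarith
      linarith
    have hpos : ∀ t ∈ SD v, t ≠ s → 0 < ds v t y := fun t ht hts => by
      have := hoth t ht hts
      linarith
    refine ⟨hpos, fun h5 t ht => ?_, fun h5 => ⟨h5, hpos, (hg.pp _).2 (fun t ht => ?_)⟩⟩
    · by_cases hts : t = s
      · rw [hts]; exact h5
      · exact hpos t ht hts
    · by_cases hts : t = s
      · rw [hts, ds_Rs33 (hg.edn s hs)]; linarith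
      · have h6 := ds_lip33 (hg.edn t ht) (Rs v s y) y
        rw [norm_Rs_sub33 (hg.edn s hs)] at h6
        have h7 := (abs_le.1 h6).1
        have h8 := hoth t ht hts
        linarith

/-- The crossing point of a segment from the inside to the mirror copy. -/
theorem crossing {C0 e0 : ℝ} (hg : Geo v C0 e0) {s : Fin n × Fin n} (hs : s ∈ SD v) {y z : ℂ}
    (hy : InP v y) (hz1 : ds v s z < 0) (hz2 : ∀ t ∈ SD v, t ≠ s → 0 < ds v t z) :
    ∃ τ ∈ Ioo (0 : ℝ) 1, v s.1 + (τ : ℂ) * ed v s ∈ segment ℝ y z := by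
  have hy1 := hy s hs
  set d := ds v s y - ds v s z with hd
  have hd0 : 0 < d := by rw [hd]; linarith
  set α := - ds v s z / d with hα
  set β := ds v s y / d with hβ
  have hα0 : 0 < α := div_pos (by linarith) hd0
  have hβ0 : 0 < β := div_pos hy1 hd0
  have hab : α + β = 1 := by
    rw [hα, hβ, ← add_div, div_eq_one_iff_eq hd0.ne', hd]; ring
  set p := (α : ℂ) * y + (β : ℂ) * z with hp
  have h1 : ds v s p = 0 := by
    rw [hp, ds_comb33 s hab, hα, hβ]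
    field_simp
    ring
  have h2 : ∀ t ∈ SD v, t ≠ s → 0 < ds v t p := by
    intro t ht hts
    rw [hp, ds_comb33 t hab]
    have := hy t ht
    have := hz2 t ht hts
    positivity
  obtain ⟨τ, hτ, he⟩ := hg.onside s hs p h1 h2
  refine ⟨τ, hτ, ?_⟩
  rw [← he]
  exact ⟨α, β, hα0.le, hβ0.le, hab, by rw [real_smul, real_smul]⟩

/-- (EXT), across the flow. -/
theorem ext_ball (hD : CutD v C a b D) (hCa : 0 ≤ C * a) {C0 e0 : ℝ} (hg : Geo v C0 e0) {ε : ℝ}
    (hε : 0 < ε) (hε0 : ε < e0) {x : ℂ} (hx : x ∈ Gd v C0 ε) {y z w : ℂ} (hy : ‖x - y‖ ≤ ε)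
    (hz : ‖x - z‖ ≤ ε) (hw : w ≠ 0) (hcw : ∀ s ∈ SD v, cr (ed v s) w ≠ 0)
    (hys : ∀ s ∈ SD v, ds v s y ≠ 0) (hzs : ∀ s ∈ SD v, ds v s z ≠ 0) :
    |gE v D z w - gE v D y w| ≤ b * (|cr w (y - z)| / ‖w‖) + 2 * (C * a) := by
  have base : ∀ (u y z : ℂ), u ≠ 0 → y ∈ KK v → z ∈ KK v →
      |D z u - D y u| ≤ b * (|cr u (y - z)| / ‖u‖) + 2 * (C * a) := by
    intro u y z hu hy hz
    have h1 := hD.cross y hy z hz u hu
    have h2 := hD.cross z hz y hy u hu
    have e : |cr u (z - y)| = |cr u (y - z)| := by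
      rw [← abs_neg, ← cr_neg_right, neg_sub]
    rw [e] at h2
    rw [abs_le]
    constructor <;> linarith
  rcases ball_cases hg hε hε0 hx with h | ⟨s, hs, h⟩
  · have hy1 := h y hy
    have hz1 := h z hz
    rw [gE_in hg D hy1, gE_in hg D hz1]
    exact base w y z hw (PP_sub_KK ((hg.pp y).2 hy1)) (PP_sub_KK ((hg.pp z).2 hz1))
  · have he := hg.edn s hs
    obtain ⟨hy2, hy3, hy4⟩ := h y hy
    obtain ⟨hz2, hz3, hz4⟩ := h z hz
    rcases lt_or_gt_of_ne (hys s hs) with hy5 | hy5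
    · have hyM := hy4 hy5
      rcases lt_or_gt_of_ne (hzs s hs) with hz5 | hz5
      · have hzM := hz4 hz5
        rw [gE_mi hg D hs hyM, gE_mi hg D hs hzM]
        have hw' : rl (ed v s) w ≠ 0 := by
          rw [← norm_pos_iff, norm_rl he]; exact norm_pos_iff.2 hw
        have h1 := base (rl (ed v s) w) (Rs v s y) (Rs v s z) hw' (PP_sub_KK hyM.2.2)
          (PP_sub_KK hzM.2.2)
        rw [Rs_sub, abs_cr_rl he, norm_rl he] at h1
        exact h1
      · have hzP := hz3 hz5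
        rw [gE_mi hg D hs hyM, gE_in hg D hzP]
        obtain ⟨τ, hτ, hp⟩ := crossing hg hs hzP hy5 hy2
        have h1 := ext_cross hD hs he (PP_sub_KK ((hg.pp z).2 hzP)) (PP_sub_KK hyM.2.2) hτ hp hw
          (hcw s hs)
        have e : |cr w (z - y)| = |cr w (y - z)| := by
          rw [← abs_neg, ← cr_neg_right, neg_sub]
        rw [abs_sub_comm, ← e]
        exact h1
    · have hyP := hy3 hy5
      rcases lt_or_gt_of_ne (hzs s hs) with hz5 | hz5
      · have hzM := hz4 hz5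
        rw [gE_in hg D hyP, gE_mi hg D hs hzM]
        obtain ⟨τ, hτ, hp⟩ := crossing hg hs hyP hz5 hz2
        exact ext_cross hD hs he (PP_sub_KK ((hg.pp y).2 hyP)) (PP_sub_KK hzM.2.2) hτ hp hw
          (hcw s hs)
      · have hzP := hz3 hz5
        rw [gE_in hg D hyP, gE_in hg D hzP]
        exact base w y z hw (PP_sub_KK ((hg.pp y).2 hyP)) (PP_sub_KK ((hg.pp z).2 hzP))

/-- (EXT), along the flow. -/
theorem ext_line (hD : CutD v C a b D) {C0 e0 : ℝ} (hg : Geo v C0 e0) {ε : ℝ}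
    (hε : 0 < ε) (hε0 : ε < e0) {x : ℂ} (hx : x ∈ Gd v C0 ε) {y w : ℂ} {t : ℝ}
    (hy : ‖x - y‖ ≤ ε) (hz : ‖x - (y + (t : ℂ) * w)‖ ≤ ε)
    (hcw : ∀ s ∈ SD v, cr (ed v s) w ≠ 0)
    (hys : ∀ s ∈ SD v, ds v s y ≠ 0) (hzs : ∀ s ∈ SD v, ds v s (y + (t : ℂ) * w) ≠ 0) :
    |gE v D (y + (t : ℂ) * w) w - gE v D y w| ≤ a * (|t| * ‖w‖) := by
  rcases ball_cases hg hε hε0 hx with h | ⟨s, hs, h⟩
  · have hy1 := h y hy
    have hz1 := h _ hz
    rw [gE_in hg D hy1, gE_in hg D hz1]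
    exact hD.flow y w t (PP_sub_KK ((hg.pp y).2 hy1)) (PP_sub_KK ((hg.pp _).2 hz1))
  · have he := hg.edn s hs
    obtain ⟨hy2, hy3, hy4⟩ := h y hy
    obtain ⟨hz2, hz3, hz4⟩ := h _ hz
    rcases lt_or_gt_of_ne (hys s hs) with hy5 | hy5
    · have hyM := hy4 hy5
      rcases lt_or_gt_of_ne (hzs s hs) with hz5 | hz5
      · have hzM := hz4 hz5
        rw [gE_mi hg D hs hyM, gE_mi hg D hs hzM]
        have e : Rs v s (y + (t : ℂ) * w) = Rs v s y + (t : ℂ) * rl (ed v s) w := by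
          have h5 : Rs v s (y + (t : ℂ) * w) - Rs v s y = rl (ed v s) (y + (t : ℂ) * w - y) :=
            Rs_sub _ _
          rw [add_sub_cancel_left, rl_smul] at h5
          rw [← h5]; ring
        have h1 := hD.flow (Rs v s y) (rl (ed v s) w) t (PP_sub_KK hyM.2.2)
          (by rw [← e]; exact PP_sub_KK hzM.2.2)
        rw [← e, norm_rl he] at h1
        exact h1
      · have hzP := hz3 hz5
        rw [gE_mi hg D hs hyM, gE_in hg D hzP]
        obtain ⟨τ, hτ, hp⟩ := crossing hg hs hzP hy5 hy2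
        have e : y + (t : ℂ) * w + ((-t : ℝ) : ℂ) * w = y := by push_cast; ring
        have h1 := ext_flow hD hs he (y := y + (t : ℂ) * w) (t := -t)
          (PP_sub_KK ((hg.pp _).2 hzP)) (by rw [e]; exact PP_sub_KK hyM.2.2) hτ
          (by rw [e]; exact hp) (hcw s hs)
        rw [e, abs_neg] at h1
        rw [abs_sub_comm]
        exact h1
    · have hyP := hy3 hy5
      rcases lt_or_gt_of_ne (hzs s hs) with hz5 | hz5
      · have hzM := hz4 hz5
        rw [gE_in hg D hyP, gE_mi hg D hs hzM]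
        obtain ⟨τ, hτ, hp⟩ := crossing hg hs hyP hz5 hz2
        exact ext_flow hD hs he (PP_sub_KK ((hg.pp y).2 hyP)) (PP_sub_KK hzM.2.2) hτ hp (hcw s hs)
      · have hzP := hz3 hz5
        rw [gE_in hg D hyP, gE_in hg D hzP]
        exact hD.flow y w t (PP_sub_KK ((hg.pp y).2 hyP)) (PP_sub_KK ((hg.pp _).2 hzP))

/-- The extension of a function of `D`. -/
theorem gE_comp {C0 e0 : ℝ} (hg : Geo v C0 e0) {ε : ℝ} (hε : 0 < ε) (hε0 : ε < e0) {x : ℂ}
    (hx : x ∈ Gd v C0 ε) {y w : ℂ} (hy : ‖x - y‖ ≤ ε) (hys : ∀ s ∈ SD v, ds v s y ≠ 0)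
    (Φ : ℝ → ℝ) (G : ℂ → ℂ → ℝ) :
    gE v (fun x w => Φ (G x w)) y w = Φ (gE v G y w) := by
  rcases ball_cases hg hε hε0 hx with h | ⟨s, hs, h⟩
  · rw [gE_in hg _ (h y hy), gE_in hg _ (h y hy)]
  · rcases lt_or_gt_of_ne (hys s hs) with hy5 | hy5
    · rw [gE_mi hg _ hs ((h y hy).2.2 hy5), gE_mi hg _ hs ((h y hy).2.2 hy5)]
    · rw [gE_in hg _ ((h y hy).2.1 hy5), gE_in hg _ ((h y hy).2.1 hy5)]

/-- The extension of a product. -/
theorem gE_mul {C0 e0 : ℝ} (hg : Geo v C0 e0) {ε : ℝ} (hε : 0 < ε) (hε0 : ε < e0) {x : ℂ}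
    (hx : x ∈ Gd v C0 ε) {y w : ℂ} (hy : ‖x - y‖ ≤ ε) (hys : ∀ s ∈ SD v, ds v s y ≠ 0)
    (G H : ℂ → ℂ → ℝ) :
    gE v (fun x w => G x w * H x w) y w = gE v G y w * gE v H y w := by
  rcases ball_cases hg hε hε0 hx with h | ⟨s, hs, h⟩
  · rw [gE_in hg _ (h y hy), gE_in hg _ (h y hy), gE_in hg _ (h y hy)]
  · rcases lt_or_gt_of_ne (hys s hs) with hy5 | hy5
    · have hM := (h y hy).2.2 hy5
      rw [gE_mi hg _ hs hM, gE_mi hg _ hs hM, gE_mi hg _ hs hM]
    · have hP := (h y hy).2.1 hy5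
      rw [gE_in hg _ hP, gE_in hg _ hP, gE_in hg _ hP]

end Pool.Agent.Lib.BilF.Ext38
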