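import Pool.Agent.Lib.MP_7bc51d_an_full.Defs
import Pool.Agent.Lib.MP_7bc51d_an_full.CutD5
import Pool.Agent.Lib.MP_7bc51d_an_full.Ext82
import Pool.Agent.Lib.MP_7bc51d_an_full.Ext38
import Pool.Agent.Lib.MP_7bc51d_an_full.Cut39

/-!
# Row CUT: existence of the cutoffs
-/

set_option autoImplicit false

namespace Pool.Agent.Lib.BilF.Cut5

open Complex MeasureTheory Set Filter Topology
open scoped ComplexConjugate ENNReal
open Pool.Agent.Lib.Bil Pool.Agent.Lib.BilD Pool.Agent.Lib.BilF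
open Pool.Agent.Lib.BilX.Cut39 Pool.Agent.Lib.BilF.Ext38

variable {n : ℕ} {v : Fin n → ℂ} {L a b : ℝ} {D : ℂ → ℂ → ℝ}

/-- Across the flow, every direction. -/
theorem ball5 (hv : ConvexIndependent ℝ v) (hD : CutD v L a b D) (hCa : 0 ≤ L * a) {C0 e0 : ℝ}
    (hg : Geo v C0 e0) {ε : ℝ}
    (hε : 0 < ε) (hε0 : ε < e0) {x : ℂ} (hx : x ∈ Gd v C0 ε) {y z w : ℂ} (hy : ‖x - y‖ ≤ ε)
    (hz : ‖x - z‖ ≤ ε) (hw : w ≠ 0)
    (hys : ∀ s ∈ SD v, ds v s y ≠ 0) (hzs : ∀ s ∈ SD v, ds v s z ≠ 0) :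
    |gX v D z w - gX v D y w| ≤ b * (|cr w (y - z)| / ‖w‖) + 2 * L * a := by
  change |gE v D z w - gE v D y w| ≤ _
  have base : ∀ (u y z : ℂ), u ≠ 0 → y ∈ KK v → z ∈ KK v →
      |D z u - D y u| ≤ b * (|cr u (y - z)| / ‖u‖) + 2 * L * a := by
    intro u y z hu hy hz
    have h1 := hD.cross y hy z hz u hu
    have h2 := hD.cross z hz y hy u hu
    have e : |cr u (z - y)| = |cr u (y - z)| := by
      rw [← abs_neg, ← cr_neg_right, neg_sub]
    rw [e] at h2
    rw [abs_le]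
    constructor <;> linarith
  rcases ball_cases hg hε hε0 hx with h | ⟨s, hs, h⟩
  · have hy1 := h y hy
    have hz1 := h z hz
    rw [gE_in hg D hy1, gE_in hg D hz1]
    exact base w y z hw (PP_sub_KK ((hg.pp y).2 hy1)) (PP_sub_KK ((hg.pp z).2 hz1))
  · have he := hg.edn s hs
    obtain ⟨hy2, hy3, hy4⟩ := h y hy
    obtain ⟨hz2, hz3, hz4⟩ := h z hz
    rcases lt_or_gt_of_ne (hys s hs) with hy5 | hy5
    · have hyM := hy4 hy5
      rcases lt_or_gt_of_ne (hzs s hs) with hz5 | hz5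
      · have hzM := hz4 hz5
        rw [gE_mi hg D hs hyM, gE_mi hg D hs hzM]
        have hw' : rl (ed v s) w ≠ 0 := by
          rw [← norm_pos_iff, norm_rl he]; exact norm_pos_iff.2 hw
        have h1 := base (rl (ed v s) w) (Rs v s y) (Rs v s z) hw' (PP_sub_KK hyM.2.2)
          (PP_sub_KK hzM.2.2)
        rw [Rs_sub, abs_cr_rl he, norm_rl he] at h1
        exact h1
      · have hzP := hz3 hz5
        rw [gE_mi hg D hs hyM, gE_in hg D hzP]
        obtain ⟨τ, hτ, hp⟩ := Ext38.crossing hg hs hzP hy5 hy2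
        have h1 := Ext82.ext_cross hv hD hs hτ (PP_sub_KK ((hg.pp z).2 hzP))
          (PP_sub_KK hyM.2.2) hw hp
        have e : |cr w (z - y)| = |cr w (y - z)| := by
          rw [← abs_neg, ← cr_neg_right, neg_sub]
        rw [abs_sub_comm, ← e]
        exact h1
    · have hyP := hy3 hy5
      rcases lt_or_gt_of_ne (hzs s hs) with hz5 | hz5
      · have hzM := hz4 hz5
        rw [gE_in hg D hyP, gE_mi hg D hs hzM]
        obtain ⟨τ, hτ, hp⟩ := Ext38.crossing hg hs hyP hz5 hz2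
        exact Ext82.ext_cross hv hD hs hτ (PP_sub_KK ((hg.pp y).2 hyP)) (PP_sub_KK hzM.2.2) hw hp
      · have hzP := hz3 hz5
        rw [gE_in hg D hyP, gE_in hg D hzP]
        exact base w y z hw (PP_sub_KK ((hg.pp y).2 hyP)) (PP_sub_KK ((hg.pp z).2 hzP))

/-- Along the flow, every direction. -/
theorem line5 (hv : ConvexIndependent ℝ v) (ha : 0 ≤ a) (hD : CutD v L a b D) {C0 e0 : ℝ}
    (hg : Geo v C0 e0) {ε : ℝ}
    (hε : 0 < ε) (hε0 : ε < e0) {x : ℂ} (hx : x ∈ Gd v C0 ε) {y w : ℂ} {t : ℝ}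
    (hy : ‖x - y‖ ≤ ε) (hz : ‖x - (y + (t : ℂ) * w)‖ ≤ ε)
    (hys : ∀ s ∈ SD v, ds v s y ≠ 0) (hzs : ∀ s ∈ SD v, ds v s (y + (t : ℂ) * w) ≠ 0) :
    |gX v D (y + (t : ℂ) * w) w - gX v D y w| ≤ a * (|t| * ‖w‖) := by
  change |gE v D (y + (t : ℂ) * w) w - gE v D y w| ≤ _
  rcases ball_cases hg hε hε0 hx with h | ⟨s, hs, h⟩
  · have hy1 := h y hy
    have hz1 := h _ hz
    rw [gE_in hg D hy1, gE_in hg D hz1]
    exact hD.flow y w t (PP_sub_KK ((hg.pp y).2 hy1)) (PP_sub_KK ((hg.pp _).2 hz1))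
  · have he := hg.edn s hs
    obtain ⟨hy2, hy3, hy4⟩ := h y hy
    obtain ⟨hz2, hz3, hz4⟩ := h _ hz
    rcases lt_or_gt_of_ne (hys s hs) with hy5 | hy5
    · have hyM := hy4 hy5
      rcases lt_or_gt_of_ne (hzs s hs) with hz5 | hz5
      · have hzM := hz4 hz5
        rw [gE_mi hg D hs hyM, gE_mi hg D hs hzM]
        have e : Rs v s (y + (t : ℂ) * w) = Rs v s y + (t : ℂ) * rl (ed v s) w := by
          have h5 : Rs v s (y + (t : ℂ) * w) - Rs v s y = rl (ed v s) (y + (t : ℂ) * w - y) :=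
            Rs_sub _ _
          rw [add_sub_cancel_left, rl_smul] at h5
          rw [← h5]; ring
        have h1 := hD.flow (Rs v s y) (rl (ed v s) w) t (PP_sub_KK hyM.2.2)
          (by rw [← e]; exact PP_sub_KK hzM.2.2)
        rw [← e, norm_rl he] at h1
        exact h1
      · have hzP := hz3 hz5
        rw [gE_mi hg D hs hyM, gE_in hg D hzP]
        obtain ⟨τ, hτ, hp⟩ := Ext38.crossing hg hs hzP hy5 hy2
        have e : y + (t : ℂ) * w + ((-t : ℝ) : ℂ) * w = y := by push_cast; ring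
        have h1 := Ext82.ext_flow hv ha hD hs hτ (x := y + (t : ℂ) * w) (w := w) (t := -t)
          (PP_sub_KK ((hg.pp _).2 hzP)) (by rw [e]; exact PP_sub_KK hyM.2.2)
          (by rw [e]; exact hp)
        rw [e, abs_neg] at h1
        rw [abs_sub_comm]
        exact h1
    · have hyP := hy3 hy5
      rcases lt_or_gt_of_ne (hzs s hs) with hz5 | hz5
      · have hzM := hz4 hz5
        rw [gE_in hg D hyP, gE_mi hg D hs hzM]
        obtain ⟨τ, hτ, hp⟩ := Ext38.crossing hg hs hyP hz5 hz2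
        exact Ext82.ext_flow hv ha hD hs hτ (PP_sub_KK ((hg.pp y).2 hyP)) (PP_sub_KK hzM.2.2) hp
      · have hzP := hz3 hz5
        rw [gE_in hg D hyP, gE_in hg D hzP]
        exact hD.flow y w t (PP_sub_KK ((hg.pp y).2 hyP)) (PP_sub_KK ((hg.pp _).2 hzP))

/-- Zc is bounded. -/
theorem Zc_bd {r0 : ℝ} (h0 : 0 < r0) (m : ℕ) (t : ℝ) :
    Zc r0 m t ≤ (m : ℝ)⁻¹ * ∑ i ∈ Finset.range m, ((8 : ℝ) ^ i * r0)⁻¹ := by
  unfold Zc
  apply mul_le_mul_of_nonneg_left _ (by positivity)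
  apply Finset.sum_le_sum
  intro i _
  exact indicator_le_self' (fun _ _ => by positivity) _

/-- Volume bound in the form used by the cutoffs. -/
theorem hvol (hD : CutD v L a b D) (hL : 0 < L) (ha : 0 < a) (hb : 0 < b) (hab : a * b = 1)
    {r0 : ℝ} (h0 : 0 < r0) (hb1 : 1 / b ≤ r0) (hfin : volume (DD v) ≠ ∞) {r : ℝ} (hr : r0 ≤ r) :
    (volume.restrict (DD v)) {p : ℂ × ℂ | D p.1 p.2 ≤ r} ≤
      ENNReal.ofReal ((6 * L + 4 * (volume (DD v)).toReal) * r ^ 2) := by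
  have hrp : 0 < r := lt_of_lt_of_le h0 hr
  have hV : 0 ≤ (volume (DD v)).toReal := ENNReal.toReal_nonneg
  have hm : MeasurableSet {p : ℂ × ℂ | D p.1 p.2 ≤ r} := measurableSet_le hD.meas measurable_const
  rw [Measure.restrict_apply hm]
  rcases le_or_gt (2 * r) 1 with h | h
  · refine (measure_mono (t := {p : ℂ × ℂ | p.1 ∈ PP v ∧ ‖p.2‖ < 1 ∧ D p.1 p.2 < 2 * r})
      ?_).trans ((hD.vol (2 * r) (by positivity) h).trans (ENNReal.ofReal_le_ofReal ?_))
    · rintro p ⟨h1, h2⟩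
      have h1 : D p.1 p.2 ≤ r := h1
      refine ⟨h2.1, ?_, by linarith⟩
      have := h2.2
      rwa [Metric.mem_ball, dist_zero_right] at this
    · have e1 : L * (2 * r / b) * (2 * r / a + 1) = L * (4 * r ^ 2 / (a * b) + 2 * r * (1 / b)) := by
        field_simp
        ring
      rw [e1, hab, div_one]
      have e2 : r * (1 / b) ≤ r * r := mul_le_mul_of_nonneg_left (hb1.trans hr) hrp.le
      have e3 : L * (r * (1 / b)) ≤ L * (r * r) := mul_le_mul_of_nonneg_left e2 hL.le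
      nlinarith [mul_nonneg hV (sq_nonneg r)]
  · refine (measure_mono inter_subset_right).trans ?_
    rw [← ENNReal.ofReal_toReal hfin]
    apply ENNReal.ofReal_le_ofReal
    rw [ENNReal.toReal_ofReal hV]
    have e1 : 1 ≤ 4 * r ^ 2 := by nlinarith
    nlinarith [mul_nonneg hL.le (sq_nonneg r), mul_le_mul_of_nonneg_left e1 hV]

theorem DD_fin : volume (DD v) ≠ ∞ := by
  have h1 : Bornology.IsBounded (PP v) := (isCompact_KK (v := v)).isBounded.subset PP_sub_KK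
  have h2 : Bornology.IsBounded (DD v) := h1.prod Metric.isBounded_ball
  exact h2.measure_lt_top.ne

/-- (CUT) -/
theorem row : StCut := by
  intro n v Cg e0 hn hv G
  obtain ⟨L, hL, hall⟩ := CutD5.cutD hn hv
  have hC1 := G.C1
  have hCg : 0 < Cg := by linarith
  have hV : 0 ≤ (volume (DD v)).toReal := ENNReal.toReal_nonneg
  set C' : ℝ := 6 * L + 4 * (volume (DD v)).toReal with hC'
  have hC'0 : 0 ≤ C' := by positivity
  refine ⟨1 + 8 * Cg + 9 * C', by positivity, ?_⟩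
  intro m r0 hm h0 h01
  set e1 : ℝ := min e0 (r0 ^ 2 / (32 * Cg * (L + 1))) with he1
  refine ⟨e1, lt_min G.e0p (by positivity), ?_⟩
  intro ε hε hε1
  have hεe0 : ε < e0 := lt_of_lt_of_le hε1 (min_le_left _ _)
  have hε2 : 32 * Cg * (L + 1) * ε < r0 ^ 2 := by
    have h1 : ε < r0 ^ 2 / (32 * Cg * (L + 1)) := lt_of_lt_of_le hε1 (min_le_right _ _)
    rw [lt_div_iff₀ (by positivity)] at h1
    linarith
  set b : ℝ := r0 / (4 * Cg * ε) with hb
  set a : ℝ := 4 * Cg * ε / r0 with ha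
  have hb0 : 0 < b := by positivity
  have ha0 : 0 < a := by positivity
  have hab : a * b = 1 := by rw [ha, hb]; field_simp
  have hD : CutD v L a b (CutD5.D5 v a b) := hall a b ha0 hb0
  set D : ℂ → ℂ → ℝ := CutD5.D5 v a b with hDd
  have hbε : b * ε ≤ r0 / 4 := by
    have e : b * ε = r0 / 4 * (1 / Cg) := by rw [hb]; field_simp
    rw [e]
    have : 1 / Cg ≤ 1 := by rw [div_le_one hCg]; exact hC1
    nlinarith
  have haL : 2 * L * a ≤ r0 / 4 := by
    have e : 2 * L * a = 8 * L * Cg * ε / r0 := by rw [ha]; ring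
    rw [e, div_le_iff₀ h0]
    nlinarith [mul_pos hCg hε]
  have h1b : 1 / b ≤ r0 := by
    have e : 1 / b = 4 * Cg * ε / r0 := by rw [hb]; field_simp
    rw [e, div_le_iff₀ h0]
    nlinarith [mul_pos hCg hε, mul_pos hL (mul_pos hCg hε)]
  have hvol' : ∀ r, r0 ≤ r → r ≤ 3 * (8 ^ m * r0) →
      (volume.restrict (DD v)) {p : ℂ × ℂ | D p.1 p.2 ≤ r} ≤ ENNReal.ofReal (C' * r ^ 2) :=
    fun r hr _ => hvol hD hL ha0 hb0 hab h0 h1b DD_fin hr
  have hmp : 0 < m := hm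
  have hmr : (0 : ℝ) < m := by exact_mod_cast hmp
  have hDm : Measurable (fun p : ℂ × ℂ => D p.1 p.2) := hD.meas
  have hGd : ∀ x ∈ PP v, (∀ k, Cg * ε ≤ ‖x - v k‖) → x ∈ Gd v Cg ε := fun x hx hg =>
    ⟨fun s hs => ((G.pp x).1 hx s hs).le, hg⟩
  have hxne : ∀ x ∈ PP v, ∀ s ∈ SD v, ds v s x ≠ 0 := fun x hx s hs => ((G.pp x).1 hx s hs).ne'
  have hgx : ∀ (H : ℂ → ℂ → ℝ), ∀ x ∈ PP v, ∀ w, gX v H x w = H x w := fun H x hx w =>
    gE_in G H ((G.pp x).1 hx) w
  -- local oscillation of the distance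
  have hosc : ∀ x ∈ PP v, (∀ k, Cg * ε ≤ ‖x - v k‖) → ∀ w, w ≠ 0 → ∀ y, ‖y - x‖ ≤ ε →
      (∀ s ∈ SD v, ds v s y ≠ 0) → |gX v D y w - D x w| ≤ r0 / 2 := by
    intro x hx hg w hw y hy hys
    have h1 := ball5 hv hD (by positivity) G hε hεe0 (hGd x hx hg) (y := x) (z := y) (w := w)
      (by rw [sub_self, norm_zero]; exact hε.le) (by rw [norm_sub_rev]; exact hy) hw
      (hxne x hx) hys
    rw [hgx D x hx] at h1
    have h2 : |cr w (x - y)| / ‖w‖ ≤ ε := by
      have hwp : 0 < ‖w‖ := norm_pos_iff.2 hw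
      rw [div_le_iff₀ hwp]
      have h3 := abs_cr_le w (x - y)
      rw [norm_sub_rev] at h3
      calc |cr w (x - y)| ≤ ‖w‖ * ‖y - x‖ := h3
        _ ≤ ‖w‖ * ε := mul_le_mul_of_nonneg_left hy hwp.le
        _ = ε * ‖w‖ := by ring
    have h3 := mul_le_mul_of_nonneg_left h2 hb0.le
    linarith
  have hcomp : ∀ x ∈ PP v, (∀ k, Cg * ε ≤ ‖x - v k‖) → ∀ w, ∀ y, ‖y - x‖ ≤ ε →
      (∀ s ∈ SD v, ds v s y ≠ 0) →
        gX v (fun x w => cut r0 m (D x w)) y w = cut r0 m (gX v D y w) := by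
    intro x hx hg w y hy hys
    exact gE_comp G hε hεe0 (hGd x hx hg) (by rw [norm_sub_rev]; exact hy) hys (cut r0 m) D
  refine ⟨fun x w => cut r0 m (D x w), fun x w => Zc r0 m (D x w), ?_, ?_, ?_⟩
  · refine ⟨(cut_measurable r0 m).comp hDm, fun x w => cut_nonneg _ _ _,
      fun x w => cut_le_one _ _ _, ?_, (Zc_measurable r0 m).comp hDm,
      fun x w => Zc_nonneg h0 _ _, ⟨_, fun x w => Zc_bd h0 m _⟩, ?_, ?_⟩
    · intro x _ w k hk
      apply cut_eq_zero h0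
      refine (hD.near x w k).trans ?_
      have h1 : b * ‖x - v k‖ ≤ b * (4 * Cg * ε) := mul_le_mul_of_nonneg_left hk.le hb0.le
      have e : b * (4 * Cg * ε) = r0 := by rw [hb]; field_simp
      linarith
    · intro x hx hg w hw y hy hys
      change |gX v (fun x w => cut r0 m (D x w)) y w - cut r0 m (D x w)| ≤ _ * Zc r0 m (D x w)
      rw [hcomp x hx hg w y hy hys]
      have h1 := hosc x hx hg w hw y hy hys
      rw [abs_sub_comm] at h1
      have h2 := cut_lip h0 m h1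
      rw [abs_sub_comm]
      refine h2.trans ?_
      rw [mul_comm]
      apply mul_le_mul_of_nonneg_right _ (Zc_nonneg h0 _ _)
      refine h1.trans ?_
      nlinarith
    · intro x hx hg w hw y t hy hyt hys hzs
      change |gX v (fun x w => cut r0 m (D x w)) (y + (t : ℂ) * w) w -
        gX v (fun x w => cut r0 m (D x w)) y w| ≤ _ * Zc r0 m (D x w)
      rw [hcomp x hx hg w y hy hys, hcomp x hx hg w _ hyt hzs]
      have h1 := hosc x hx hg w hw y hy hys
      have h2 := hosc x hx hg w hw _ hyt hzs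
      have h3 := cut_lip3 h0 m h2 h1
      refine h3.trans ?_
      rw [mul_comm]
      apply mul_le_mul_of_nonneg_right _ (Zc_nonneg h0 _ _)
      have h4 := line5 hv ha0.le hD G hε hεe0 (hGd x hx hg) (y := y) (w := w) (t := t)
        (by rw [norm_sub_rev]; exact hy) (by rw [norm_sub_rev]; exact hyt) hys hzs
      refine h4.trans ?_
      have h5 : |t| * ‖w‖ ≤ 2 * ε := by
        have e : |t| * ‖w‖ = ‖(y + (t : ℂ) * w - x) - (y - x)‖ := by
          rw [show (y + (t : ℂ) * w - x) - (y - x) = (t : ℂ) * w by ring, norm_mul, norm_real,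
            Real.norm_eq_abs]
        rw [e]
        have := norm_sub_le (y + (t : ℂ) * w - x) (y - x)
        linarith
      calc a * (|t| * ‖w‖) ≤ a * (2 * ε) := mul_le_mul_of_nonneg_left h5 ha0.le
        _ = 8 * Cg * ε ^ 2 / r0 := by rw [ha]; ring
        _ ≤ (1 + 8 * Cg + 9 * C') * ε ^ 2 / r0 := by
            apply div_le_div_of_nonneg_right _ h0.le
            apply mul_le_mul_of_nonneg_right _ (sq_nonneg ε)
            linarith
  · have h1 := lint_Zc_sq (μ := volume.restrict (DD v)) h0 hC'0 hmp hDm hvol'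
    have hmeas : AEStronglyMeasurable (fun p : ℂ × ℂ => Zc r0 m (D p.1 p.2) ^ 2)
        (volume.restrict (DD v)) :=
      (((Zc_measurable r0 m).comp hDm).pow_const 2).aestronglyMeasurable
    rw [integral_eq_lintegral_of_nonneg_ae (Eventually.of_forall fun p => by
      change (0 : ℝ) ≤ Zc r0 m (D p.1 p.2) ^ 2; positivity) hmeas]
    have h2 := ENNReal.toReal_le_of_le_ofReal (by positivity) h1
    refine h2.trans ?_
    apply div_le_div_of_nonneg_right _ hmr.le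
    linarith
  · have h1 := meas_cut_lt_one (μ := volume.restrict (DD v)) h0 hmp hvol'
    have hms : MeasurableSet {p : ℂ × ℂ | cut r0 m (D p.1 p.2) ≠ 1} :=
      ((cut_measurable r0 m).comp hDm) (measurableSet_singleton (1 : ℝ)).compl
    rw [Measure.restrict_apply hms] at h1
    have e2 : {p : ℂ × ℂ | p ∈ DD v ∧ cut r0 m (D p.1 p.2) ≠ 1} =
        {p : ℂ × ℂ | cut r0 m (D p.1 p.2) ≠ 1} ∩ DD v := by
      ext p; exact and_comm
    change (volume {p : ℂ × ℂ | p ∈ DD v ∧ cut r0 m (D p.1 p.2) ≠ 1}).toReal ≤ _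
    rw [e2]
    have h2 := ENNReal.toReal_le_of_le_ofReal (by positivity) h1
    refine h2.trans ?_
    have h3 : 0 ≤ ((8 : ℝ) ^ m * r0) ^ 2 := sq_nonneg _
    have e3 : ((8 : ℝ) ^ (m + 1) * r0) ^ 2 = 64 * ((8 : ℝ) ^ m * r0) ^ 2 := by ring
    have e4 : (2 * ((8 : ℝ) ^ m * r0)) ^ 2 = 4 * ((8 : ℝ) ^ m * r0) ^ 2 := by ring
    rw [e3, e4]
    nlinarith [mul_nonneg hC'0 h3, mul_nonneg hCg.le h3]

end Pool.Agent.Lib.BilF.Cut5
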