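import Pool.Agent.Lib.MP_7bc51d_an_full.CutRow3
import Pool.Agent.Lib.MP_7bc51d_an_full.CutD5

/-!
# Row CUT without hypotheses
-/

set_option autoImplicit false

namespace Pool.Agent.Lib.BilF.CutAll3

open Complex MeasureTheory Set Filter Topology
open scoped ComplexConjugate
open Pool.Agent.Lib.Bil Pool.Agent.Lib.BilD Pool.Agent.Lib.BilE

theorem row : StCut := CutRow3.row fun n hn v hv => by
  obtain ⟨C, hC, h⟩ := CutD5.cutD (v := v) hn hv
  exact ⟨C, hC, fun a b ha hb => ⟨_, h a b ha hb⟩⟩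

end Pool.Agent.Lib.BilF.CutAll3
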