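import Pool.Agent.Lib.MP_7bc51d_an_full.Defs

/-!
# The anisotropic distance along the flow (row DA)
-/

set_option autoImplicit false

namespace Pool.Agent.Lib.BilF.DA1

open Complex MeasureTheory Set Filter Topology
open scoped ComplexConjugate
open Pool.Agent.Lib.Bil Pool.Agent.Lib.BilD Pool.Agent.Lib.BilE Pool.Agent.Lib.BilF An17

variable {n : ℕ} {v : Fin n → ℂ} {a b : ℝ}

theorem Rz_line (g : List (Fin n × Fin n)) (x w : ℂ) (t : ℝ) :
    Rz v g (x + (t : ℂ) * w) w ↔ Rz v g x w := by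
  induction g with
  | nil => exact Iff.rfl
  | cons s g ih =>
    have h1 : cr (Lo v g w) (Fo v g (x + (t : ℂ) * w)) = cr (Lo v g w) (Fo v g x) := by
      rw [Fo_add, Lo_smul, cr_add_right, cr_smul_right, cr_self, mul_zero, add_zero]
    change (Rz v g (x + (t : ℂ) * w) w ∧ IsSide v s.1 s.2 ∧
        cr (Lo v g w) (v s.1) < cr (Lo v g w) (Fo v g (x + (t : ℂ) * w)) ∧
        cr (Lo v g w) (Fo v g (x + (t : ℂ) * w)) < cr (Lo v g w) (v s.2)) ↔
      (Rz v g x w ∧ IsSide v s.1 s.2 ∧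
        cr (Lo v g w) (v s.1) < cr (Lo v g w) (Fo v g x) ∧
        cr (Lo v g w) (Fo v g x) < cr (Lo v g w) (v s.2))
    rw [h1, ih]

theorem NN_nn (ha : 0 < a) (hb : 0 < b) (w z : ℂ) : 0 ≤ NN a b w z := by
  unfold NN
  positivity

theorem dt_self (w : ℂ) : dt w w = ‖w‖ ^ 2 := by
  rw [← Complex.normSq_eq_norm_sq, Complex.normSq_apply]
  rfl

/-- the norm along the direction -/
theorem NN_line (ha : 0 < a) (u z : ℂ) (t : ℝ) :
    NN a b u (z - (t : ℂ) * u) ≤ NN a b u z + a * (|t| * ‖u‖) := by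
  rcases eq_or_ne u 0 with rfl | hu
  · simp [NN]
  have hp : 0 < ‖u‖ := norm_pos_iff.2 hu
  have h1 : cr u (z - (t : ℂ) * u) = cr u z := by
    rw [cr_sub_right, cr_smul_right, cr_self, mul_zero, sub_zero]
  have h2 : |dt u (z - (t : ℂ) * u)| ≤ |dt u z| + |t| * ‖u‖ ^ 2 := by
    rw [dt_sub_right, dt_smul_right, dt_self]
    refine (abs_sub _ _).trans ?_
    rw [abs_mul, abs_of_nonneg (sq_nonneg ‖u‖)]
  unfold NN
  rw [h1, div_add' _ _ _ hp.ne', div_le_div_iff_of_pos_right hp]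
  nlinarith [mul_le_mul_of_nonneg_left h2 ha.le]

theorem Cs_bdd (ha : 0 < a) (hb : 0 < b) (x w : ℂ) : BddBelow (Cs v a b x w) :=
  ⟨0, by rintro _ ⟨g, l, -, rfl⟩; exact NN_nn ha hb _ _⟩

theorem Cs_ne (hn : 3 ≤ n) (x w : ℂ) : (Cs v a b x w).Nonempty :=
  ⟨_, [], ⟨0, by omega⟩, trivial, rfl⟩

/-- one side along the line -/
theorem Dp_line (hn : 3 ≤ n) (hv : ConvexIndependent ℝ v) (ha : 0 < a) (hb : 0 < b) (x w : ℂ)
    (t : ℝ) : Dp v a b (x + (t : ℂ) * w) w ≤ Dp v a b x w + a * (|t| * ‖w‖) := by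
  rw [← sub_le_iff_le_add]
  refine le_csInf (Cs_ne hn x w) ?_
  rintro _ ⟨g, l, hg, rfl⟩
  rw [sub_le_iff_le_add]
  have h1 : Dp v a b (x + (t : ℂ) * w) w ≤
      NN a b (Lo v g w) (v l - Fo v g (x + (t : ℂ) * w)) :=
    csInf_le (Cs_bdd ha hb _ _) ⟨g, l, (Rz_line g x w t).2 hg, rfl⟩
  have h2 : v l - Fo v g (x + (t : ℂ) * w) = v l - Fo v g x - (t : ℂ) * Lo v g w := by
    rw [Fo_add, Lo_smul]
    ring
  rw [h2] at h1
  refine h1.trans ?_
  have h3 := NN_line (b := b) ha (Lo v g w) (v l - Fo v g x) t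
  rwa [norm_Lo hv hg.val] at h3

theorem Dd_line (hn : 3 ≤ n) (hv : ConvexIndependent ℝ v) (ha : 0 < a) (hb : 0 < b) (x w : ℂ)
    (t : ℝ) : Dd v a b (x + (t : ℂ) * w) w ≤ Dd v a b x w + a * (|t| * ‖w‖) := by
  have h1 := Dp_line hn hv ha hb x w t
  have h2 := Dp_line hn hv ha hb x (-w) (-t)
  have h3 : x + ((-t : ℝ) : ℂ) * -w = x + (t : ℂ) * w := by
    push_cast
    ring
  rw [h3, abs_neg, norm_neg] at h2
  unfold Dd
  rw [← min_add_add_right]
  exact min_le_min h1 h2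

theorem row : StDA := by
  intro n hn v hv a b ha hb x w t
  have h1 := Dd_line hn hv ha hb x w t
  have h2 := Dd_line hn hv ha hb (x + (t : ℂ) * w) w (-t)
  have h3 : x + (t : ℂ) * w + ((-t : ℝ) : ℂ) * w = x := by
    push_cast
    ring
  rw [h3, abs_neg] at h2
  rw [abs_le]
  constructor <;> linarith

end Pool.Agent.Lib.BilF.DA1
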