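import Pool.Agent.Lib.MP_7bc51d_an_full.Defs
import Pool.Agent.Lib.MP_7bc51d_an_full.Vol98

/-!
# Row DC (98): volume of the anisotropic neighbourhoods of the vertices
-/

set_option autoImplicit false

namespace Pool.Agent.Lib.BilF.DC98

open Complex MeasureTheory Set Filter Topology
open scoped ComplexConjugate ENNReal
open Pool.Agent.Lib.Bil Pool.Agent.Lib.BilD Pool.Agent.Lib.BilF Pool.Agent.Lib.BilF.Img98
open Pool.Agent.Lib.BilF.An17

variable {n : ℕ} {v : Fin n → ℂ}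

/-- The points seeing an unfolded vertex in a rectangle. -/
def See (v : Fin n → ℂ) (α β : ℝ) : Set (ℂ × ℂ) :=
  {p : ℂ × ℂ | p.1 ∈ PP v ∧ ‖p.2‖ < 1 ∧ ∃ (g : List (Fin n × Fin n)) (l : Fin n),
      Rz v g p.1 p.2 ∧ |dt (Lo v g p.2) (v l - Fo v g p.1)| < α * ‖p.2‖ ∧
        |cr (Lo v g p.2) (v l - Fo v g p.1)| < β * ‖p.2‖}

theorem see_of_Dp (hn : 3 ≤ n) (hv : ConvexIndependent ℝ v) {a b r : ℝ} (ha : 0 < a) (hb : 0 < b)
    {x w : ℂ} (hx : x ∈ PP v) (hw : ‖w‖ < 1) (hw0 : w ≠ 0) (h : Dp v a b x w < r) :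
    (x, w) ∈ See v (r / a) (r / b) := by
  have hne : (Cs v a b x w).Nonempty :=
    ⟨_, [], ⟨0, by omega⟩, trivial, rfl⟩
  obtain ⟨c, ⟨g, l, hg, rfl⟩, hc⟩ := exists_lt_of_csInf_lt hne h
  have hN := norm_Lo hv hg.val w
  have hwp : 0 < ‖w‖ := norm_pos_iff.2 hw0
  unfold NN at hc
  rw [hN, div_lt_iff₀ hwp] at hc
  have h1 : 0 ≤ a * |dt (Lo v g w) (v l - Fo v g x)| := by positivity
  have h2 : 0 ≤ b * |cr (Lo v g w) (v l - Fo v g x)| := by positivity
  refine ⟨hx, hw, g, l, hg, ?_, ?_⟩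
  · change |dt (Lo v g w) (v l - Fo v g x)| < r / a * ‖w‖
    rw [div_mul_eq_mul_div, lt_div_iff₀ ha]
    linarith
  · change |cr (Lo v g w) (v l - Fo v g x)| < r / b * ‖w‖
    rw [div_mul_eq_mul_div, lt_div_iff₀ hb]
    linarith

theorem row : StDC := by
  intro n hn v hv
  refine ⟨2 * (n * (4 * Real.pi)), by
    have : (0 : ℝ) < n := by exact_mod_cast (by omega : 0 < n)
    positivity, ?_⟩
  intro a b ha hb r hr
  have hsub : {p : ℂ × ℂ | p ∈ DD v ∧ Dd v a b p.1 p.2 < r} ⊆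
      See v (r / a) (r / b) ∪ ((fun p : ℂ × ℂ => (p.1, -p.2)) ⁻¹' See v (r / a) (r / b)) ∪
        {p : ℂ × ℂ | p.2 = 0} := by
    rintro ⟨x, w⟩ ⟨hp, hD⟩
    obtain ⟨hx, hw⟩ : x ∈ PP v ∧ ‖w‖ < 1 := by
      have := hp
      simp only [DD, BV, mem_prod, Metric.mem_ball, dist_zero_right] at this
      exact this
    by_cases hw0 : w = 0
    · right; exact hw0
    · left
      rcases min_lt_iff.1 hD with h | h
      · left; exact see_of_Dp hn hv ha hb hx hw hw0 h
      · right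
        exact see_of_Dp hn hv ha hb hx (by rwa [norm_neg]) (neg_ne_zero.2 hw0) h
  have hnull : volume {p : ℂ × ℂ | p.2 = 0} = 0 := by
    have : {p : ℂ × ℂ | p.2 = 0} = (univ : Set ℂ) ×ˢ ({0} : Set ℂ) := by
      ext p; simp
    rw [this, Measure.volume_eq_prod, Measure.prod_prod]
    simp
  have hneg : MeasurableEmbedding (fun p : ℂ × ℂ => (p.1, -p.2)) := by
    apply Continuous.measurableEmbedding (by fun_prop)
    intro p q hpq
    rw [Prod.mk.injEq] at hpq
    exact Prod.ext hpq.1 (neg_injective hpq.2)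
  have hS : volume (See v (r / a) (r / b)) ≤
      ENNReal.ofReal (n * (4 * Real.pi * (r / a) * (r / b))) :=
    vol_see hn hv (r / a) (r / b) (by positivity)
  have hS2 : volume ((fun p : ℂ × ℂ => (p.1, -p.2)) ⁻¹' See v (r / a) (r / b)) =
      volume (See v (r / a) (r / b)) := mp_neg_snd.measure_preimage_emb hneg _
  calc volume {p : ℂ × ℂ | p ∈ DD v ∧ Dd v a b p.1 p.2 < r}
      ≤ volume (See v (r / a) (r / b) ∪
        ((fun p : ℂ × ℂ => (p.1, -p.2)) ⁻¹' See v (r / a) (r / b)) ∪ {p : ℂ × ℂ | p.2 = 0}) :=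
        measure_mono hsub
    _ ≤ volume (See v (r / a) (r / b)) +
        volume ((fun p : ℂ × ℂ => (p.1, -p.2)) ⁻¹' See v (r / a) (r / b)) +
          volume {p : ℂ × ℂ | p.2 = 0} :=
        (measure_union_le _ _).trans (add_le_add (measure_union_le _ _) le_rfl)
    _ ≤ ENNReal.ofReal (n * (4 * Real.pi * (r / a) * (r / b))) +
        ENNReal.ofReal (n * (4 * Real.pi * (r / a) * (r / b))) := by
        rw [hnull, add_zero, hS2]
        exact add_le_add hS hS
    _ = ENNReal.ofReal (2 * (n * (4 * Real.pi)) * r ^ 2 / (a * b)) := by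
        rw [← ENNReal.ofReal_add (by positivity) (by positivity)]
        congr 1
        field_simp
        ring

end Pool.Agent.Lib.BilF.DC98
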