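import Pool.Agent.Lib.MP_7bc51d_an_full.Defs

/-!
# Row (DM): elementary facts on the anisotropic distance, measurability
-/

set_option autoImplicit false

namespace Pool.Agent.Lib.BilF.DM82

open Complex MeasureTheory Set Filter Topology
open scoped ComplexConjugate
open Pool.Agent.Lib.Bil Pool.Agent.Lib.BilD Pool.Agent.Lib.BilE Pool.Agent.Lib.BilF.An17

variable {n : ℕ} {v : Fin n → ℂ}

theorem NN_nonneg {a b : ℝ} (ha : 0 < a) (hb : 0 < b) (w z : ℂ) : 0 ≤ NN a b w z := by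
  unfold NN; positivity

theorem Cs_bdd {a b : ℝ} (ha : 0 < a) (hb : 0 < b) (x w : ℂ) : BddBelow (Cs v a b x w) := by
  refine ⟨0, ?_⟩
  rintro c ⟨g, l, -, rfl⟩
  exact NN_nonneg ha hb _ _

theorem mem_nil (a b : ℝ) (x w : ℂ) (k : Fin n) : NN a b w (v k - x) ∈ Cs v a b x w :=
  ⟨[], k, trivial, rfl⟩

theorem Cs_nonempty (hn : 3 ≤ n) (a b : ℝ) (x w : ℂ) : (Cs v a b x w).Nonempty :=
  ⟨_, mem_nil a b x w ⟨0, by omega⟩⟩

theorem Dq_nonneg {a b : ℝ} (ha : 0 < a) (hb : 0 < b) (x w : ℂ) : 0 ≤ An17.Dp v a b x w := by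
  refine Real.sInf_nonneg ?_
  rintro c ⟨g, l, -, rfl⟩
  exact NN_nonneg ha hb _ _

theorem Dq_le {a b : ℝ} (ha : 0 < a) (hb : 0 < b) {x w : ℂ} {g : List (Fin n × Fin n)}
    (hg : Rz v g x w) (l : Fin n) : An17.Dp v a b x w ≤ NN a b (Lo v g w) (v l - Fo v g x) :=
  csInf_le (Cs_bdd ha hb x w) ⟨g, l, hg, rfl⟩

theorem Dq_lt_iff (hn : 3 ≤ n) {a b : ℝ} (ha : 0 < a) (hb : 0 < b) {x w : ℂ} {c : ℝ} :
    An17.Dp v a b x w < c ↔ ∃ (g : List (Fin n × Fin n)) (l : Fin n), Rz v g x w ∧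
      NN a b (Lo v g w) (v l - Fo v g x) < c := by
  constructor
  · intro h
    obtain ⟨d, ⟨g, l, hg, rfl⟩, hd⟩ := exists_lt_of_csInf_lt (Cs_nonempty hn a b x w) h
    exact ⟨g, l, hg, hd⟩
  · rintro ⟨g, l, hg, h⟩
    exact (Dq_le ha hb hg l).trans_lt h

theorem NN_smul {a b r : ℝ} (hr : 0 < r) (w z : ℂ) : NN a b ((r : ℂ) * w) z = NN a b w z := by
  unfold NN
  have h1 : dt ((r : ℂ) * w) z = r * dt w z := by
    simp only [dt, mul_re, mul_im, ofReal_re, ofReal_im]; ring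
  rw [h1, cr_smul_left, abs_mul, abs_mul, abs_of_pos hr, norm_mul, norm_real, Real.norm_eq_abs,
    abs_of_pos hr]
  rw [show a * (r * |dt w z|) + b * (r * |cr w z|) = r * (a * |dt w z| + b * |cr w z|) by ring]
  exact mul_div_mul_left _ _ hr.ne'

theorem Rz_smul {r : ℝ} (hr : 0 < r) (g : List (Fin n × Fin n)) (x w : ℂ) :
    Rz v g x ((r : ℂ) * w) ↔ Rz v g x w := by
  induction g with
  | nil => exact Iff.rfl
  | cons s g ih =>
    simp only [Rz, Lo_smul, cr_smul_left]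
    rw [ih, mul_lt_mul_iff_right₀ hr, mul_lt_mul_iff_right₀ hr]

theorem Cs_smul {r : ℝ} (hr : 0 < r) (a b : ℝ) (x w : ℂ) :
    Cs v a b x ((r : ℂ) * w) = Cs v a b x w := by
  ext c
  simp only [Cs, mem_setOf_eq, Lo_smul, NN_smul hr, Rz_smul hr]

theorem Dd_smul {r : ℝ} (hr : 0 < r) (a b : ℝ) (x w : ℂ) :
    Dd v a b x ((r : ℂ) * w) = Dd v a b x w := by
  unfold Dd An17.Dp
  rw [← mul_neg, Cs_smul hr, Cs_smul hr]

theorem Dd_nonneg {a b : ℝ} (ha : 0 < a) (hb : 0 < b) (x w : ℂ) : 0 ≤ Dd v a b x w :=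
  le_min (Dq_nonneg ha hb x w) (Dq_nonneg ha hb x (-w))

theorem continuous_cost (a b : ℝ) (g : List (Fin n × Fin n)) (l : Fin n) :
    Continuous (fun p : ℂ × ℂ => a * |dt (Lo v g p.2) (v l - Fo v g p.1)| +
      b * |cr (Lo v g p.2) (v l - Fo v g p.1)|) := by
  have hL : Continuous (fun p : ℂ × ℂ => Lo v g p.2) := (continuous_Lo g).comp continuous_snd
  have hF : Continuous (fun p : ℂ × ℂ => Fo v g p.1) := (continuous_Fo g).comp continuous_fst
  unfold dt cr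
  fun_prop

theorem measurable_NN (a b : ℝ) (g : List (Fin n × Fin n)) (l : Fin n) :
    Measurable (fun p : ℂ × ℂ => NN a b (Lo v g p.2) (v l - Fo v g p.1)) := by
  have hL : Continuous (fun p : ℂ × ℂ => Lo v g p.2) := (continuous_Lo g).comp continuous_snd
  exact (continuous_cost a b g l).measurable.div hL.norm.measurable

theorem measurable_Dq (hn : 3 ≤ n) {a b : ℝ} (ha : 0 < a) (hb : 0 < b) :
    Measurable (fun p : ℂ × ℂ => An17.Dp v a b p.1 p.2) := by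
  refine measurable_of_Iio fun c => ?_
  have e : (fun p : ℂ × ℂ => An17.Dp v a b p.1 p.2) ⁻¹' Iio c =
      ⋃ (g : List (Fin n × Fin n)), ⋃ (l : Fin n), ({p : ℂ × ℂ | Rz v g p.1 p.2} ∩
        {p : ℂ × ℂ | NN a b (Lo v g p.2) (v l - Fo v g p.1) < c}) := by
    ext p
    simp only [mem_preimage, mem_Iio, mem_iUnion, mem_inter_iff, mem_setOf_eq]
    exact Dq_lt_iff hn ha hb
  rw [e]
  refine MeasurableSet.iUnion fun g => MeasurableSet.iUnion fun l => ?_
  exact (isOpen_Rz g).measurableSet.inter ((measurable_NN a b g l) measurableSet_Iio)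

theorem measurable_Dd (hn : 3 ≤ n) {a b : ℝ} (ha : 0 < a) (hb : 0 < b) :
    Measurable (fun p : ℂ × ℂ => Dd v a b p.1 p.2) := by
  have h := measurable_Dq (v := v) hn ha hb
  have h2 : Measurable (fun p : ℂ × ℂ => An17.Dp v a b p.1 (-p.2)) :=
    h.comp (measurable_fst.prodMk measurable_snd.neg)
  exact h.min h2

/-- Row (DM). -/
theorem row : StDM := by
  intro n hn v hv a b ha hb
  refine ⟨fun x w => Dd_nonneg ha hb x w, fun x w k => ?_, fun x w r hr => Dd_smul hr a b x w,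
    measurable_Dd hn ha hb⟩
  exact (min_le_left _ _).trans (csInf_le (Cs_bdd ha hb x w) (mem_nil a b x w k))

end Pool.Agent.Lib.BilF.DM82
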