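import Pool.Agent.Lib.MP_7bc51d_an_full.Vol41

/-!
# Reflection of the orbits at a side (sublevel form)
-/

set_option autoImplicit false

namespace Pool.Agent.Lib.BilF.Side41

open Complex MeasureTheory Set Filter
open scoped ComplexConjugate Topology ENNReal
open Pool.Agent.Lib.Bil Pool.Agent.Lib.BilF.Vol41

variable {n : ℕ} {v : Fin n → ℂ}

theorem Fo_app (g : List (Fin n × Fin n)) (s : Fin n × Fin n) (x : ℂ) :
    Fo v (g ++ [s]) x = Fo v g (RR v s.1 s.2 x) := by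
  induction g with
  | nil => rfl
  | cons t g ih =>
    change RR v t.1 t.2 (Fo v (g ++ [s]) x) = RR v t.1 t.2 (Fo v g (RR v s.1 s.2 x))
    rw [ih]

theorem Lo_app (g : List (Fin n × Fin n)) (s : Fin n × Fin n) (w : ℂ) :
    Lo v (g ++ [s]) w = Lo v g (rl (v s.2 - v s.1) w) := by
  induction g with
  | nil => rfl
  | cons t g ih =>
    change rl (v t.2 - v t.1) (Lo v (g ++ [s]) w) = rl (v t.2 - v t.1) (Lo v g _)
    rw [ih]

theorem Rz_app (g : List (Fin n × Fin n)) (s : Fin n × Fin n) (x w : ℂ) :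
    Rz v (g ++ [s]) x w ↔ Rz v [s] x w ∧ Rz v g (RR v s.1 s.2 x) (rl (v s.2 - v s.1) w) := by
  induction g with
  | nil =>
    simp only [List.nil_append, Rz, and_true]
  | cons t g ih =>
    change (Rz v (g ++ [s]) x w ∧ IsSide v t.1 t.2 ∧
      cr (Lo v (g ++ [s]) w) (v t.1) < cr (Lo v (g ++ [s]) w) (Fo v (g ++ [s]) x) ∧
      cr (Lo v (g ++ [s]) w) (Fo v (g ++ [s]) x) < cr (Lo v (g ++ [s]) w) (v t.2)) ↔ _
    rw [ih, Fo_app, Lo_app]
    constructor
    · rintro ⟨⟨h1, h2⟩, h3⟩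
      exact ⟨h1, h2, h3⟩
    · rintro ⟨h1, h2, h3⟩
      exact ⟨⟨h1, h2⟩, h3⟩

theorem Rz_single {s : Fin n × Fin n} {x w : ℂ} :
    Rz v [s] x w ↔ IsSide v s.1 s.2 ∧ cr w (v s.1) < cr w x ∧ cr w x < cr w (v s.2) := by
  constructor
  · rintro ⟨_, h⟩
    exact h
  · intro h
    exact ⟨trivial, h⟩

/-- the first crossed side is unique -/
theorem first_unique (hn : 3 ≤ n) (hv : ConvexIndependent ℝ v) {s s' : Fin n × Fin n} {x w : ℂ}
    (h : Rz v [s] x w) (h' : Rz v [s'] x w) : s = s' := by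
  obtain ⟨hs, h1, h2⟩ := Rz_single.1 h
  obtain ⟨hs', h1', h2'⟩ := Rz_single.1 h'
  refine enter_unique hn hv hs hs' (w := -w) (Q := cr (-w) x) ?_ ?_ ?_ ?_ <;>
    rw [cr_neg_left, cr_neg_left] <;> linarith

/-- after the reflection the reversed line crosses the same side -/
theorem back (hv : ConvexIndependent ℝ v) {s : Fin n × Fin n} {x w : ℂ} (h : Rz v [s] x w) :
    Rz v [s] (RR v s.1 s.2 x) (-rl (v s.2 - v s.1) w) := by
  obtain ⟨hs, h1, h2⟩ := Rz_single.1 h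
  obtain ⟨k1, k2⟩ := rl_cr_lt hv hs h1 h2
  refine Rz_single.2 ⟨hs, ?_, ?_⟩ <;> rw [cr_neg_left, cr_neg_left] <;> linarith

/-- some vertex of the copy `g` is close to `x` in the direction `w` -/
def Cl (v : Fin n → ℂ) (a b r : ℝ) (g : List (Fin n × Fin n)) (x w : ℂ) : Prop :=
  ∃ l, an a b (Lo v g w) (v l - Fo v g x) < r * ‖w‖

/-- the forward orbit of `(x, w)` comes close to a vertex -/
def Lt (v : Fin n → ℂ) (a b r : ℝ) (x w : ℂ) : Prop :=
  ∃ g : List (Fin n × Fin n), Rz v g x w ∧ Cl v a b r g x w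

theorem rl_neg (e w : ℂ) : rl e (-w) = -rl e w := by
  unfold rl
  rw [map_neg, mul_neg]

theorem an_neg (a b : ℝ) (w z : ℂ) : an a b (-w) z = an a b w z := by
  unfold an
  rw [cr_neg_left, abs_neg]
  have : dt (-w) z = -dt w z := by
    simp only [dt, neg_re, neg_im]; ring
  rw [this, abs_neg]

theorem Cl_nil_neg (a b r : ℝ) (x w : ℂ) : Cl v a b r [] x (-w) ↔ Cl v a b r [] x w := by
  unfold Cl
  simp only [Lo, Fo, an_neg, norm_neg]

theorem Cl_app (hv : ConvexIndependent ℝ v) (a b r : ℝ) {g : List (Fin n × Fin n)}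
    {s : Fin n × Fin n} (hs : IsSide v s.1 s.2) {x w : ℂ} :
    Cl v a b r (g ++ [s]) x w ↔ Cl v a b r g (RR v s.1 s.2 x) (rl (v s.2 - v s.1) w) := by
  unfold Cl
  rw [Fo_app, Lo_app, norm_rl (v_sub_ne hv hs.1)]

/-- forward orbits: either a vertex of the polygon itself, or after the crossing -/
theorem Lt_iff (hn : 3 ≤ n) (hv : ConvexIndependent ℝ v) (a b r : ℝ) {s : Fin n × Fin n}
    {x w : ℂ} (h : Rz v [s] x w) :
    Lt v a b r x w ↔ Cl v a b r [] x w ∨
      Lt v a b r (RR v s.1 s.2 x) (rl (v s.2 - v s.1) w) := by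
  have hs := (Rz_single.1 h).1
  constructor
  · rintro ⟨g, hR, hC⟩
    rcases List.eq_nil_or_concat g with rfl | ⟨g', s', rfl⟩
    · exact Or.inl hC
    · rw [List.concat_eq_append] at hR hC
      obtain ⟨h1, h2⟩ := (Rz_app g' s' x w).1 hR
      have hss := first_unique hn hv h h1
      subst hss
      exact Or.inr ⟨g', h2, (Cl_app hv a b r hs).1 hC⟩
  · rintro (hC | ⟨g, hR, hC⟩)
    · exact ⟨[], trivial, hC⟩
    · exact ⟨g ++ [s], (Rz_app g s x w).2 ⟨h, hR⟩, (Cl_app hv a b r hs).2 hC⟩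

/-- (SIDE) the two sided condition is invariant under the reflection. -/
theorem side_lt (hn : 3 ≤ n) (hv : ConvexIndependent ℝ v) (a b r : ℝ) {s : Fin n × Fin n}
    {x w : ℂ} (h : Rz v [s] x w) :
    (Lt v a b r x w ∨ Lt v a b r x (-w)) ↔
      (Lt v a b r (RR v s.1 s.2 x) (rl (v s.2 - v s.1) w) ∨
        Lt v a b r (RR v s.1 s.2 x) (-rl (v s.2 - v s.1) w)) := by
  have hs := (Rz_single.1 h).1
  have hne := v_sub_ne hv hs.1
  have h1 := Lt_iff hn hv a b r h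
  have h2 := Lt_iff hn hv a b r (back hv h)
  rw [RR_RR v hne, ← rl_neg, rl_rl hne, rl_neg, Cl_nil_neg] at h2
  have h3 : Cl v a b r [] x w → Lt v a b r x (-w) := fun hC =>
    ⟨[], trivial, (Cl_nil_neg a b r x w).2 hC⟩
  have h4 : Cl v a b r [] (RR v s.1 s.2 x) (rl (v s.2 - v s.1) w) →
      Lt v a b r (RR v s.1 s.2 x) (rl (v s.2 - v s.1) w) := fun hC => ⟨[], trivial, hC⟩
  rw [h1, h2]
  constructor
  · rintro ((hC | hL) | hL)
    · exact Or.inr (Or.inr (h3 hC))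
    · exact Or.inl hL
    · exact Or.inr (Or.inr hL)
  · rintro (hL | (hC | hL))
    · exact Or.inl (Or.inr hL)
    · exact Or.inl (Or.inr (h4 hC))
    · exact Or.inr hL

end Pool.Agent.Lib.BilF.Side41
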