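import Pool.Agent.Lib.MP_7bc51d_an_full.Defs
import Pool.Agent.Lib.MP_7bc51d_an_full.Side41

/-!
# (DR) exact reflection invariance of the anisotropic distance
-/

set_option autoImplicit false

namespace Pool.Agent.Lib.BilF.DR41

open Complex MeasureTheory Set Filter Topology
open scoped ComplexConjugate
open Pool.Agent.Lib.Bil Pool.Agent.Lib.BilD Pool.Agent.Lib.BilF.Vol41 Pool.Agent.Lib.BilF.Side41
open Pool.Agent.Lib.BilF

variable {n : ℕ} {v : Fin n → ℂ}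

theorem NN_nonneg {a b : ℝ} (ha : 0 < a) (hb : 0 < b) (w z : ℂ) : 0 ≤ An17.NN a b w z := by
  unfold An17.NN
  positivity

theorem Cs_bdd {a b : ℝ} (ha : 0 < a) (hb : 0 < b) (x w : ℂ) : BddBelow (An17.Cs v a b x w) := by
  refine ⟨0, ?_⟩
  rintro c ⟨g, l, _, rfl⟩
  exact NN_nonneg ha hb _ _

theorem NN_neg (a b : ℝ) (w z : ℂ) : An17.NN a b (-w) z = An17.NN a b w z := by
  have h := an_neg a b w z
  unfold an at h
  unfold An17.NN
  rw [h, norm_neg]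

/-- base costs -/
def Bs (v : Fin n → ℂ) (a b : ℝ) (x w : ℂ) : Set ℝ := {c | ∃ l, c = An17.NN a b w (v l - x)}

theorem Bs_sub (a b : ℝ) (x w : ℂ) : Bs v a b x w ⊆ An17.Cs v a b x w := by
  rintro c ⟨l, rfl⟩
  exact ⟨[], l, trivial, rfl⟩

theorem Bs_neg (a b : ℝ) (x w : ℂ) : Bs v a b x (-w) = Bs v a b x w := by
  ext c
  unfold Bs
  simp only [mem_ofPred_eq, NN_neg]

theorem Cs_eq (hn : 3 ≤ n) (hv : ConvexIndependent ℝ v) (a b : ℝ) {s : Fin n × Fin n} {x w : ℂ}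
    (h : Rz v [s] x w) :
    An17.Cs v a b x w = Bs v a b x w ∪
      An17.Cs v a b (RR v s.1 s.2 x) (rl (v s.2 - v s.1) w) := by
  ext c
  constructor
  · rintro ⟨g, l, hR, rfl⟩
    rcases List.eq_nil_or_concat g with rfl | ⟨g', s', rfl⟩
    · exact Or.inl ⟨l, rfl⟩
    · rw [List.concat_eq_append] at hR ⊢
      obtain ⟨h1, h2⟩ := (Rz_app g' s' x w).1 hR
      have hss := first_unique hn hv h h1
      subst hss
      refine Or.inr ⟨g', l, h2, ?_⟩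
      rw [Fo_app, Lo_app]
  · rintro (⟨l, rfl⟩ | ⟨g, l, hR, rfl⟩)
    · exact ⟨[], l, trivial, rfl⟩
    · refine ⟨g ++ [s], l, (Rz_app g s x w).2 ⟨h, hR⟩, ?_⟩
      rw [Fo_app, Lo_app]

theorem Cs_ne (hn : 3 ≤ n) (a b : ℝ) (x w : ℂ) : (An17.Cs v a b x w).Nonempty :=
  ⟨_, [], ⟨0, by omega⟩, trivial, rfl⟩

theorem Dd_eq (hn : 3 ≤ n) {a b : ℝ} (ha : 0 < a) (hb : 0 < b) (x w : ℂ) :
    An17.Dd v a b x w = sInf (An17.Cs v a b x w ∪ An17.Cs v a b x (-w)) := by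
  unfold An17.Dd An17.Dp
  rw [csInf_union (Cs_bdd ha hb x w) (Cs_ne hn a b x w) (Cs_bdd ha hb x (-w))
    (Cs_ne hn a b x (-w))]

theorem exit_case (hn : 3 ≤ n) (hv : ConvexIndependent ℝ v) {a b : ℝ} (ha : 0 < a) (hb : 0 < b)
    {s : Fin n × Fin n} {x w : ℂ} (h : Rz v [s] x w) :
    An17.Dd v a b (RR v s.1 s.2 x) (rl (v s.2 - v s.1) w) = An17.Dd v a b x w := by
  have hs := (Rz_single.1 h).1
  have hne := v_sub_ne hv hs.1
  rw [Dd_eq hn ha hb, Dd_eq hn ha hb]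
  have h1 := Cs_eq hn hv a b h
  have h2 := Cs_eq hn hv a b (back hv h)
  rw [RR_RR v hne, ← Side41.rl_neg, rl_rl hne, Side41.rl_neg, Bs_neg] at h2
  have h3 : Bs v a b x w ⊆ An17.Cs v a b x (-w) := by
    rw [← Bs_neg]
    exact Bs_sub a b x (-w)
  have h4 := Bs_sub (v := v) a b (RR v s.1 s.2 x) (rl (v s.2 - v s.1) w)
  congr 1
  rw [h1, h2]
  ext c
  constructor
  · rintro (hc | hc | hc)
    · exact Or.inl (Or.inr hc)
    · exact Or.inl (Or.inr (h4 hc))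
    · exact Or.inr hc
  · rintro ((hc | hc) | hc)
    · exact Or.inr (Or.inr (h3 hc))
    · exact Or.inl hc
    · exact Or.inr (Or.inr hc)

theorem Dd_neg (a b : ℝ) (x w : ℂ) : An17.Dd v a b x (-w) = An17.Dd v a b x w := by
  unfold An17.Dd
  rw [neg_neg, min_comm]

theorem row : An17.StDR := by
  intro n hn v hv a b ha hb s hs x w hC
  have hs' : IsSide v s.1 s.2 := mem_SD.1 hs
  change An17.Dd v a b (RR v s.1 s.2 x) (rl (v s.2 - v s.1) w) = _
  rcases hC with ⟨h1, h2⟩ | ⟨h1, h2⟩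
  · exact exit_case hn hv ha hb (Rz_single.2 ⟨hs', h1, h2⟩)
  · have h : Rz v [s] x (-w) := by
      refine Rz_single.2 ⟨hs', ?_, ?_⟩ <;> rw [cr_neg_left, cr_neg_left] <;> linarith
    have h3 := exit_case hn hv ha hb h
    rw [Side41.rl_neg, Dd_neg, Dd_neg] at h3
    exact h3

end Pool.Agent.Lib.BilF.DR41
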