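import Pool.Agent.Lib.MP_7bc51d_an_full.Defs
import Pool.Agent.Lib.MP_7bc51d_an.Potential
import Pool.Agent.Lib.MP_7bc51d_an.Traj
import Pool.Agent.Lib.MP_7bc51d_an_erg.Rec33

/-!
Row DBS: the anisotropic distance across a side.
-/

set_option autoImplicit false

namespace Pool.Agent.Lib.BilF.Dbs57

open Complex MeasureTheory Set Filter Topology
open scoped ComplexConjugate
open Pool.Agent.Lib.Bil Pool.Agent.Lib.BilD Pool.Agent.Lib.BilE Pool.Agent.Lib.BilF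
open Pool.Agent.Lib.BilF.An17

variable {n : ℕ} {v : Fin n → ℂ}

theorem bt {a c d : ℝ} (h : (c ≤ a ∧ a ≤ d) ∨ (d ≤ a ∧ a ≤ c)) :
    |a - c| ≤ |c - d| ∧ |a - d| ≤ |c - d| := by
  rcases h with ⟨h1, h2⟩ | ⟨h1, h2⟩
  · rw [abs_of_nonneg (by linarith : 0 ≤ a - c), abs_of_nonpos (by linarith : a - d ≤ 0),
      abs_of_nonpos (by linarith : c - d ≤ 0)]
    constructor <;> linarith
  · rw [abs_of_nonpos (by linarith : a - c ≤ 0), abs_of_nonneg (by linarith : 0 ≤ a - d),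
      abs_of_nonneg (by linarith : 0 ≤ c - d)]
    constructor <;> linarith

theorem bt1 {a1 a2 c d m : ℝ} (h1 : (c ≤ m ∧ m ≤ d) ∨ (d ≤ m ∧ m ≤ c))
    (h2 : (a1 ≤ m ∧ m ≤ a2) ∨ (a2 ≤ m ∧ m ≤ a1))
    (h3 : ¬ ((a1 < c ∧ c < a2) ∨ (a2 < c ∧ c < a1))) :
    (|a1 - c| ≤ |c - d| ∧ |a1 - d| ≤ |c - d|) ∨ (|a2 - c| ≤ |c - d| ∧ |a2 - d| ≤ |c - d|) := by
  rw [not_or, not_and, not_and, not_lt, not_lt] at h3
  obtain ⟨k1, k2⟩ := h3
  have key : ((c ≤ a1 ∧ a1 ≤ d) ∨ (d ≤ a1 ∧ a1 ≤ c)) ∨ ((c ≤ a2 ∧ a2 ≤ d) ∨ (d ≤ a2 ∧ a2 ≤ c)) := by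
    rcases le_or_gt c a1 with q1 | q1 <;> rcases le_or_gt c a2 with q2 | q2
    · rcases h1 with ⟨h11, h12⟩ | ⟨h11, h12⟩ <;> rcases h2 with ⟨h21, h22⟩ | ⟨h21, h22⟩
      · left; left; exact ⟨q1, by linarith⟩
      · right; left; exact ⟨q2, by linarith⟩
      · left; right; exact ⟨by linarith, by linarith⟩
      · right; right; exact ⟨by linarith, by linarith⟩
    · have q3 := k2 q2
      left
      rcases h1 with ⟨h11, h12⟩ | ⟨h11, h12⟩
      · left; exact ⟨q1, by linarith⟩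
      · right; exact ⟨by linarith, q3⟩
    · have q3 := k1 q1
      right
      rcases h1 with ⟨h11, h12⟩ | ⟨h11, h12⟩
      · left; exact ⟨q2, by linarith⟩
      · right; exact ⟨by linarith, q3⟩
    · rcases h1 with ⟨h11, h12⟩ | ⟨h11, h12⟩ <;> rcases h2 with ⟨h21, h22⟩ | ⟨h21, h22⟩
      · exfalso; linarith
      · exfalso; linarith
      · right; right; exact ⟨by linarith, q2.le⟩
      · left; right; exact ⟨by linarith, q1.le⟩
  rcases key with h | h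
  · exact Or.inl (bt h)
  · exact Or.inr (bt h)

theorem bt2 {a1 a2 c d m : ℝ} (h1 : (c ≤ m ∧ m ≤ d) ∨ (d ≤ m ∧ m ≤ c))
    (h2 : (a1 ≤ m ∧ m ≤ a2) ∨ (a2 ≤ m ∧ m ≤ a1))
    (h3 : ¬ (((a1 < c ∧ c < a2) ∨ (a2 < c ∧ c < a1)) ∧ ((a1 < d ∧ d < a2) ∨ (a2 < d ∧ d < a1)))) :
    (|a1 - c| ≤ |c - d| ∧ |a1 - d| ≤ |c - d|) ∨ (|a2 - c| ≤ |c - d| ∧ |a2 - d| ≤ |c - d|) := by
  by_cases hc : (a1 < c ∧ c < a2) ∨ (a2 < c ∧ c < a1)
  · have hd : ¬ ((a1 < d ∧ d < a2) ∨ (a2 < d ∧ d < a1)) := fun hd => h3 ⟨hc, hd⟩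
    have := bt1 (c := d) (d := c) (m := m) (h1.symm.imp (fun h => h) (fun h => h)) h2 hd
    rw [abs_sub_comm c d]
    rcases this with ⟨i1, i2⟩ | ⟨i1, i2⟩
    · exact Or.inl ⟨i2, i1⟩
    · exact Or.inr ⟨i2, i1⟩
  · exact bt1 h1 h2 hc

theorem ds_Rs {s : Fin n × Fin n} (he : ed v s ≠ 0) (y : ℂ) : ds v s (Rs v s y) = - ds v s y := by
  unfold ds Rs RR
  have h1 : v s.1 + rl (v s.2 - v s.1) (y - v s.1) - v s.1 = rl (ed v s) (y - v s.1) := by
    unfold ed; ring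
  rw [h1]
  have h2 := cr_rl he (ed v s) (y - v s.1)
  rw [rl_self he] at h2
  rw [h2, neg_div]

theorem ds_aff (s : Fin n × Fin n) (x y : ℂ) (t : ℝ) :
    ds v s (x + (t : ℂ) * (y - x)) = (1 - t) * ds v s x + t * ds v s y := by
  unfold ds
  rw [← mul_div_assoc, ← mul_div_assoc, ← add_div]
  congr 1
  simp only [cr, add_re, sub_re, add_im, sub_im, mul_re, mul_im, ofReal_re, ofReal_im]
  ring

theorem cr_aff (w x y : ℂ) (t : ℝ) :
    cr w (x + (t : ℂ) * (y - x)) = (1 - t) * cr w x + t * cr w y := by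
  simp only [cr, add_re, sub_re, add_im, sub_im, mul_re, mul_im, ofReal_re, ofReal_im]
  ring

theorem btw_aff {c d t : ℝ} (h0 : 0 ≤ t) (h1 : t ≤ 1) :
    (c ≤ (1 - t) * c + t * d ∧ (1 - t) * c + t * d ≤ d) ∨
      (d ≤ (1 - t) * c + t * d ∧ (1 - t) * c + t * d ≤ c) := by
  rcases le_total c d with h | h
  · left; constructor <;> nlinarith
  · right; constructor <;> nlinarith

/-- If the parallel lines through two points near a side, on different sides of it, do not both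
cross the side, then an end point of the side is close to both. -/
theorem end_near {C e0 : ℝ} (H : Geo v C e0) {ε : ℝ} (hε : 0 < ε) {s : Fin n × Fin n}
    (hs : s ∈ SD v) {x y w : ℂ} (hx : x ∈ PP v) (hxN : x ∈ Nr v ε s) (hyN : y ∈ Nr v ε s)
    (hy : Rs v s y ∈ PP v) (hc : ¬ (Crs v s x w ∧ Crs v s y w)) :
    ∃ k, (k = s.1 ∨ k = s.2) ∧ |cr w (v k - x)| ≤ |cr w (x - y)| ∧
      |cr w (v k - y)| ≤ |cr w (x - y)| := by
  have he := H.edn s hs
  have h1 : 0 < ds v s x := (H.pp x).1 hx s hs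
  have h2 : ds v s y < 0 := by
    have := (H.pp _).1 hy s hs
    rw [ds_Rs he] at this
    linarith
  have hden : 0 < ds v s x - ds v s y := by linarith
  set t := ds v s x / (ds v s x - ds v s y) with ht
  have t0 : 0 < t := div_pos h1 hden
  have t1 : t < 1 := by rw [ht, div_lt_one hden]; linarith
  have hp0 : ds v s (x + (t : ℂ) * (y - x)) = 0 := by
    rw [ds_aff, ht]
    field_simp
    ring
  obtain ⟨θ, hθ, hp⟩ := H.onside s hs _ hp0 (by
    intro r hr hrs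
    rw [ds_aff]
    have i1 := hxN.2 r hr hrs
    have i2 := hyN.2 r hr hrs
    have i3 : 0 < ds v r x := by linarith
    have i4 : 0 < ds v r y := by linarith
    have := mul_pos (by linarith : (0 : ℝ) < 1 - t) i3
    have := mul_pos t0 i4
    linarith)
  have e1 := cr_aff w x y t
  have e2 : cr w (x + (t : ℂ) * (y - x)) = (1 - θ) * cr w (v s.1) + θ * cr w (v s.2) := by
    rw [hp, ed]
    exact cr_aff w (v s.1) (v s.2) θ
  have b1 := btw_aff (c := cr w x) (d := cr w y) t0.le t1.le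
  have b2 := btw_aff (c := cr w (v s.1)) (d := cr w (v s.2)) hθ.1.le hθ.2.le
  rw [← e1] at b1
  rw [← e2] at b2
  have hfin := bt2 b1 b2 (by
    intro h
    exact hc ⟨h.1, h.2⟩)
  rw [cr_sub_right w x y]
  rcases hfin with h | h
  · exact ⟨s.1, Or.inl rfl, by rw [cr_sub_right]; exact h.1, by rw [cr_sub_right]; exact h.2⟩
  · exact ⟨s.2, Or.inr rfl, by rw [cr_sub_right]; exact h.1, by rw [cr_sub_right]; exact h.2⟩

theorem Rs_end {s : Fin n × Fin n} (he : ed v s ≠ 0) {k : Fin n} (hk : k = s.1 ∨ k = s.2) :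
    Rs v s (v k) = v k := by
  rcases hk with rfl | rfl
  · exact RR_left v s.1 s.2
  · exact RR_right v he

theorem NN_rl (a b : ℝ) {e : ℂ} (he : e ≠ 0) (w z : ℂ) : NN a b (rl e w) (rl e z) = NN a b w z := by
  unfold NN
  rw [Rec33.dt_rl2 he, cr_rl he, norm_rl he, abs_neg]

theorem NN_le {a b : ℝ} (ha : 0 < a) (hb : 0 < b) {w z u : ℂ} (hw : w ≠ 0)
    (h : |cr w z| ≤ |cr w u|) : NN a b w z ≤ a * ‖z‖ + b * ‖u‖ := by
  have hw' : 0 < ‖w‖ := norm_pos_iff.2 hw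
  unfold NN
  rw [div_le_iff₀ hw']
  have h1 := abs_dt_le w z
  have h2 := abs_cr_le w u
  have h3 : a * |dt w z| ≤ a * (‖w‖ * ‖z‖) := mul_le_mul_of_nonneg_left h1 ha.le
  have h4 : b * |cr w z| ≤ b * (‖w‖ * ‖u‖) := mul_le_mul_of_nonneg_left (h.trans h2) hb.le
  linarith

theorem row (hDM : StDM) (hDR : StDR) (hDB : StDB) : StDBS := by
  intro n hn v hv
  obtain ⟨L, hL, hB⟩ := hDB n hn v hv
  obtain ⟨R, hR⟩ := (isCompact_KK (v := v)).isBounded.exists_norm_le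
  have hR0 : 0 ≤ |R| := abs_nonneg R
  refine ⟨L + 2 * |R| + 1, by linarith, ?_⟩
  intro C e0 H a b ha hb ε hε hε0 s hs x hx y w hw hxN hyN hy hxy
  have he := H.edn s hs
  have hxy0 : 0 ≤ ‖x - y‖ := norm_nonneg _
  obtain ⟨m1, m2, -, -⟩ := hDM n hn v hv a b ha hb
  by_cases hc : Crs v s x w ∧ Crs v s y w
  · obtain ⟨cx, cy⟩ := hc
    have r1 := hDR n hn v hv a b ha hb s hs x w cx
    have r2 := hDR n hn v hv a b ha hb s hs y w cy
    have i1 := hB a b ha hb x hx y w hw hxy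
    have e1 : Rs v s y - Rs v s x = rl (ed v s) (y - x) := by
      unfold Rs
      rw [RR_sub_RR]
      rfl
    have e2 : ‖Rs v s y - Rs v s x‖ = ‖x - y‖ := by
      rw [e1, norm_rl he, norm_sub_rev]
    have hw' : rl (ed v s) w ≠ 0 := by
      rw [← norm_pos_iff, norm_rl he, norm_pos_iff]
      exact hw
    have i2 := hB a b ha hb (Rs v s y) hy (Rs v s x) (rl (ed v s) w) hw' (by rw [e2]; exact hxy)
    rw [r1, e2] at i2
    rw [r2] at i2 ⊢
    have k1 : a * L ≤ a * (L + 2 * |R| + 1) := mul_le_mul_of_nonneg_left (by linarith) ha.le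
    have k2 : 0 ≤ b * ‖x - y‖ := mul_nonneg hb.le hxy0
    rw [abs_le]
    constructor <;> linarith
  · obtain ⟨k, hk, k1, k2⟩ := end_near H hε hs hx hxN hyN hy hc
    have n1 := m2 x w k
    have n2 := m2 (Rs v s y) (rl (ed v s) w) k
    have p1 := m1 x w
    have p2 := m1 (Rs v s y) (rl (ed v s) w)
    have e3 : v k - Rs v s y = rl (ed v s) (v k - y) := by
      have : v k - Rs v s y = Rs v s (v k) - Rs v s y := by rw [Rs_end he hk]
      rw [this]
      unfold Rs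
      rw [RR_sub_RR]
      rfl
    rw [e3, NN_rl a b he] at n2
    have q1 := NN_le ha hb hw k1
    have q2 := NN_le ha hb hw k2
    have hvk : ‖v k‖ ≤ |R| := (hR _ (vert_mem_KK k)).trans (le_abs_self R)
    have hxk : ‖x‖ ≤ |R| := (hR _ (PP_sub_KK hx)).trans (le_abs_self R)
    have d1 : ‖v k - x‖ ≤ 2 * |R| := (norm_sub_le _ _).trans (by linarith)
    have d2 : ‖v k - y‖ ≤ 2 * |R| + 1 := by
      have : v k - y = (v k - x) + (x - y) := by ring
      rw [this]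
      exact (norm_add_le _ _).trans (by linarith)
    have d3 : a * ‖v k - x‖ ≤ a * (L + 2 * |R| + 1) :=
      mul_le_mul_of_nonneg_left (by linarith) ha.le
    have d4 : a * ‖v k - y‖ ≤ a * (L + 2 * |R| + 1) :=
      mul_le_mul_of_nonneg_left (by linarith) ha.le
    have k3 : 0 ≤ b * ‖x - y‖ := mul_nonneg hb.le hxy0
    rw [abs_le]
    constructor <;> linarith

end Pool.Agent.Lib.BilF.Dbs57
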