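import Pool.Agent.Lib.MP_7bc51d_an_erg.Defs

/-!
# Ergodicity of irrational polygonal billiards: definitions and row statements
-/

set_option autoImplicit false

namespace Pool.Agent.Lib.BilF

open Complex MeasureTheory Set Filter Topology
open scoped ComplexConjugate
open Pool.Agent.Lib.Bil Pool.Agent.Lib.BilD Pool.Agent.Lib.BilE

variable {n : ℕ}

/-! ### Functions on the phase space -/

/-- A function on the phase space, extended by reflection. -/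
noncomputable def gX (v : Fin n → ℂ) (G : ℂ → ℂ → ℝ) (x w : ℂ) : ℝ :=
  (PP v).indicator (fun x => G x w) x +
    ∑ s ∈ SD v, (BilD.OO v s).indicator (fun x => G (Rs v s x) (rl (ed v s) w)) x

/-- Modes of the extended function. -/
noncomputable def aX (v : Fin n → ℂ) (G : ℂ → ℂ → ℝ) (m : ℕ) (x : ℂ) : ℂ :=
  ∫ w in BV, (gX v G x w : ℂ) * em m w

/-- Mollified modes. -/
noncomputable def uX (v : Fin n → ℂ) (G : ℂ → ℂ → ℝ) (m : ℕ) (ε : ℝ) (x : ℂ) : ℂ :=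
  ∫ y, (et ε (x - y) : ℂ) * aX v G m y

/-- Derivative in `x`, direction `h`, of the mollified extended function. -/
noncomputable def dX (v : Fin n → ℂ) (G : ℂ → ℂ → ℝ) (ε : ℝ) (x w h : ℂ) : ℝ :=
  ∫ y, gX v G y w * fderiv ℝ (et ε) (x - y) h

/-- Unit vector. -/
noncomputable def nw (w : ℂ) : ℂ := w / (‖w‖ : ℂ)

/-- Energy along the flow. -/
noncomputable def XE (v : Fin n → ℂ) (G : ℂ → ℂ → ℝ) (ε : ℝ) : ℝ :=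
  ∫ p in DD v, dX v G ε p.1 p.2 (nw p.2) ^ 2

/-- Total gradient energy. -/
noncomputable def TE (v : Fin n → ℂ) (G : ℂ → ℂ → ℝ) (ε : ℝ) : ℝ :=
  ∫ p in DD v, (dX v G ε p.1 p.2 1 ^ 2 + dX v G ε p.1 p.2 I ^ 2)

/-- Admissible functions: measurable, values in `[-1,1]`. -/
structure AG (G : ℂ → ℂ → ℝ) : Prop where
  meas : Measurable (fun p : ℂ × ℂ => G p.1 p.2)
  bd : ∀ x w, |G x w| ≤ 1

/-- `G` vanishes at distance `< r` from the vertices. -/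
def VZ (v : Fin n → ℂ) (G : ℂ → ℂ → ℝ) (r : ℝ) : Prop :=
  ∀ x ∈ PP v, ∀ w k, ‖x - v k‖ < r → G x w = 0

/-- Product of a phase function with a line function. -/
def XF (X : ℂ → ℂ → ℝ) (F : ℂ → ℝ → ℝ) (x w : ℂ) : ℝ := X x w * F w (cr w x)

/-- Energy of the mode `m`. -/
noncomputable def EN (v : Fin n → ℂ) (G : ℂ → ℂ → ℝ) (m : ℕ) (ε : ℝ) : ℝ :=
  ∫ x in PP v, (‖dz (uX v G m ε) x‖ ^ 2 + ‖dzb (uX v G m ε) x‖ ^ 2)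

/-! ### Rows: velocity averaging -/

/-- (SMOX) -/
def StSmoX : Prop := ∀ (n : ℕ) (v : Fin n → ℂ) (C e0 : ℝ), Geo v C e0 → ∀ G, AG G →
  ∀ ε, 0 < ε → ∀ m : ℕ, ContDiff ℝ 2 (uX v G m ε) ∧
    ∀ x h : ℂ, fderiv ℝ (uX v G m ε) x h = ∫ y, (fderiv ℝ (et ε) (x - y) h : ℂ) * aX v G m y

/-- (MODEX) the ladder with source, at every point. -/
def StModeX : Prop := ∀ (n : ℕ) (v : Fin n → ℂ) (C e0 : ℝ), Geo v C e0 → ∀ G, AG G →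
  ∀ ε, 0 < ε → ∀ (x : ℂ) (m : ℕ),
    dz (uX v G m ε) x + dzb (uX v G (m + 2) ε) x =
      ∫ w in BV, (dX v G ε x w (nw w) : ℂ) * em (m + 1) w

/-- (REFLX) -/
def StReflX : Prop := ∀ (n : ℕ) (v : Fin n → ℂ) (C e0 : ℝ), Geo v C e0 → ∀ G, AG G →
  ∀ ε, 0 < ε → ε < e0 → ∀ s ∈ SD v, ∀ x ∈ Nr v ε s, ∀ m : ℕ,
    uX v G m ε (Rs v s x) = (conj (ed v s) / ed v s) ^ m * conj (uX v G m ε x)

/-- (ZEROX) everything vanishes near the vertices. -/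
def StZeroX : Prop := ∀ (n : ℕ) (v : Fin n → ℂ) (C e0 : ℝ), Geo v C e0 → ∀ G, AG G →
  ∀ ε, 0 < ε → ε < e0 → VZ v G (4 * C * ε) →
    (∀ (y w : ℂ) (k : Fin n), ‖y - v k‖ < 4 * C * ε → gX v G y w = 0) ∧
    (∀ (x w h : ℂ) (k : Fin n), ‖x - v k‖ < 3 * C * ε → dX v G ε x w h = 0) ∧
    (∀ (m : ℕ) (x : ℂ) (k : Fin n), ‖x - v k‖ < 3 * C * ε →
      uX v G m ε x = 0 ∧ fderiv ℝ (uX v G m ε) x = 0)

/-- (SIDEX) boundary condition of (EI), on all sides. -/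
def StSideX : Prop := ∀ (n : ℕ) (v : Fin n → ℂ) (C e0 : ℝ), Geo v C e0 →
  ConvexIndependent ℝ v → ∀ G, AG G → ∀ ε, 0 < ε → ε < e0 → VZ v G (4 * C * ε) →
    ∀ s ∈ SD v, ∀ t ∈ Ioo (0 : ℝ) 1, ∀ m : ℕ,
      (conj (uX v G m ε (v s.1 + (t : ℂ) * ed v s)) *
        fderiv ℝ (uX v G m ε) (v s.1 + (t : ℂ) * ed v s) (ed v s)).im = 0

/-- (BESX) Bessel inequalities, at every point. -/
def StBesX : Prop := ∃ C2 : ℝ, 0 < C2 ∧ ∀ (n : ℕ) (v : Fin n → ℂ) (C e0 : ℝ), Geo v C e0 →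
  ∀ G, AG G → ∀ ε, 0 < ε → ∀ (x : ℂ) (S : Finset ℕ),
    (∑ m ∈ S, ‖fderiv ℝ (uX v G m ε) x‖ ^ 2 ≤
      C2 * ∫ w in BV, (dX v G ε x w 1 ^ 2 + dX v G ε x w I ^ 2)) ∧
    (∑ m ∈ S, ‖∫ w in BV, (dX v G ε x w (nw w) : ℂ) * em m w‖ ^ 2 ≤
      C2 * ∫ w in BV, dX v G ε x w (nw w) ^ 2)

/-- (TELX) velocity averaging: for every `N ≥ 1`. -/
def StTelX : Prop := ∃ C5 : ℝ, 0 < C5 ∧ ∀ (n : ℕ) (v : Fin n → ℂ) (C e0 : ℝ), 3 ≤ n →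
  ConvexIndependent ℝ v → Geo v C e0 → ∀ G, AG G → ∀ ε, 0 < ε → ε < e0 → VZ v G (4 * C * ε) →
    ∀ m N : ℕ, 1 ≤ N → EN v G m ε ≤ C5 * (N * XE v G ε + TE v G ε / N)

/-! ### The anisotropic distance to the vertices (second design, not the main line) -/

namespace An17

/-- Anisotropic norm. -/
noncomputable def NN (a b : ℝ) (w z : ℂ) : ℝ := (a * |dt w z| + b * |cr w z|) / ‖w‖

/-- Costs of the unfolded vertices in front of `(x, w)`. -/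
def Cs (v : Fin n → ℂ) (a b : ℝ) (x w : ℂ) : Set ℝ :=
  {c | ∃ (g : List (Fin n × Fin n)) (l : Fin n), Rz v g x w ∧
    c = NN a b (Lo v g w) (v l - Fo v g x)}

noncomputable def Dp (v : Fin n → ℂ) (a b : ℝ) (x w : ℂ) : ℝ := sInf (Cs v a b x w)

/-- Anisotropic distance to the vertices along the orbit. -/
noncomputable def Dd (v : Fin n → ℂ) (a b : ℝ) (x w : ℂ) : ℝ := min (Dp v a b x w) (Dp v a b x (-w))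

/-- The line through `x` with direction `w` crosses the side `s`. -/
def Crs (v : Fin n → ℂ) (s : Fin n × Fin n) (x w : ℂ) : Prop :=
  (cr w (v s.1) < cr w x ∧ cr w x < cr w (v s.2)) ∨ (cr w (v s.2) < cr w x ∧ cr w x < cr w (v s.1))

/-- (DM) elementary facts and measurability. -/
def StDM : Prop := ∀ (n : ℕ), 3 ≤ n → ∀ v : Fin n → ℂ, ConvexIndependent ℝ v →
  ∀ a b : ℝ, 0 < a → 0 < b →
  (∀ x w, 0 ≤ Dd v a b x w) ∧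
  (∀ x w k, Dd v a b x w ≤ NN a b w (v k - x)) ∧
  (∀ x w (r : ℝ), 0 < r → Dd v a b x ((r : ℂ) * w) = Dd v a b x w) ∧
  Measurable (fun p : ℂ × ℂ => Dd v a b p.1 p.2)

/-- (DA) along the flow: exact, all points. -/
def StDA : Prop := ∀ (n : ℕ), 3 ≤ n → ∀ v : Fin n → ℂ, ConvexIndependent ℝ v →
  ∀ a b : ℝ, 0 < a → 0 < b →
  ∀ (x w : ℂ) (t : ℝ), |Dd v a b (x + (t : ℂ) * w) w - Dd v a b x w| ≤ a * (|t| * ‖w‖)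

/-- (DR) reflection: exact. -/
def StDR : Prop := ∀ (n : ℕ), 3 ≤ n → ∀ v : Fin n → ℂ, ConvexIndependent ℝ v → ∀ a b : ℝ,
  0 < a → 0 < b → ∀ s ∈ SD v, ∀ x w : ℂ, Crs v s x w →
    Dd v a b (Rs v s x) (rl (ed v s) w) = Dd v a b x w

/-- (DB) across the flow: from a point of the polygon to an arbitrary point, the same direction. -/
def StDB : Prop := ∀ (n : ℕ), 3 ≤ n → ∀ v : Fin n → ℂ, ConvexIndependent ℝ v →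
  ∃ L : ℝ, 0 < L ∧ ∀ a b : ℝ, 0 < a → 0 < b → ∀ x ∈ PP v, ∀ y w : ℂ, w ≠ 0 → ‖x - y‖ ≤ 1 →
    Dd v a b y w ≤ Dd v a b x w + b * ‖x - y‖ + a * L

/-- (DBS) across the flow and across a side. -/
def StDBS : Prop := ∀ (n : ℕ), 3 ≤ n → ∀ v : Fin n → ℂ, ConvexIndependent ℝ v →
  ∃ L : ℝ, 0 < L ∧ ∀ C e0, Geo v C e0 → ∀ a b : ℝ, 0 < a → 0 < b → ∀ ε, 0 < ε → ε < e0 →
    ∀ s ∈ SD v, ∀ x ∈ PP v, ∀ y w : ℂ, w ≠ 0 → x ∈ Nr v ε s → y ∈ Nr v ε s → Rs v s y ∈ PP v →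
      ‖x - y‖ ≤ 1 → |Dd v a b (Rs v s y) (rl (ed v s) w) - Dd v a b x w| ≤ 2 * b * ‖x - y‖ + a * L

/-- (DC) volume. -/
def StDC : Prop := ∀ (n : ℕ), 3 ≤ n → ∀ v : Fin n → ℂ, ConvexIndependent ℝ v →
  ∃ K : ℝ, 0 < K ∧ ∀ a b : ℝ, 0 < a → 0 < b → ∀ r : ℝ, 0 < r →
    volume {p : ℂ × ℂ | p ∈ DD v ∧ Dd v a b p.1 p.2 < r} ≤ ENNReal.ofReal (K * r ^ 2 / (a * b))

end An17

/-! ### The cutoff -/

/-- A cutoff `X` with local oscillation `R` (`κ` across, `ν` along the flow) at scale `ε`. -/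
structure Cut (v : Fin n → ℂ) (C ε : ℝ) (X R : ℂ → ℂ → ℝ) (κ ν : ℝ) : Prop where
  meas : Measurable (fun p : ℂ × ℂ => X p.1 p.2)
  x0 : ∀ x w, 0 ≤ X x w
  x1 : ∀ x w, X x w ≤ 1
  vz : VZ v X (4 * C * ε)
  rm : Measurable (fun p : ℂ × ℂ => R p.1 p.2)
  r0 : ∀ x w, 0 ≤ R x w
  rb : ∃ B : ℝ, ∀ x w, R x w ≤ B
  osc : ∀ x ∈ PP v, (∀ k, C * ε ≤ ‖x - v k‖) → ∀ w, w ≠ 0 → ∀ y, ‖y - x‖ ≤ ε →
    (∀ s ∈ SD v, ds v s y ≠ 0) → |gX v X y w - X x w| ≤ κ * R x w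
  par : ∀ x ∈ PP v, (∀ k, C * ε ≤ ‖x - v k‖) → ∀ w, w ≠ 0 → ∀ (y : ℂ) (t : ℝ), ‖y - x‖ ≤ ε →
    ‖y + (t : ℂ) * w - x‖ ≤ ε → (∀ s ∈ SD v, ds v s y ≠ 0) →
    (∀ s ∈ SD v, ds v s (y + (t : ℂ) * w) ≠ 0) →
      |gX v X (y + (t : ℂ) * w) w - gX v X y w| ≤ ν * R x w

/-- (CUT) existence of the cutoffs: `m` levels between `r0` and `8 ^ (m + 1) * r0`. -/
def StCut : Prop := ∀ (n : ℕ) (v : Fin n → ℂ) (C e0 : ℝ), 3 ≤ n → ConvexIndependent ℝ v →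
  Geo v C e0 → ∃ K : ℝ, 0 < K ∧ ∀ (m : ℕ) (r0 : ℝ), 1 ≤ m → 0 < r0 → r0 ≤ 1 →
    ∃ e1 : ℝ, 0 < e1 ∧ ∀ ε, 0 < ε → ε < e1 → ∃ X R : ℂ → ℂ → ℝ,
      Cut v C ε X R (K * r0) (K * ε ^ 2 / r0) ∧
      ∫ p in DD v, R p.1 p.2 ^ 2 ≤ K / m ∧
      (volume {p : ℂ × ℂ | p ∈ DD v ∧ X p.1 p.2 ≠ 1}).toReal ≤ K * (8 ^ (m + 1) * r0) ^ 2

/-! ### Estimates for `f = (X F)` mollified -/

/-- (LINE) near a good point the extended line function is constant on almost every line: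
`x - rl w (y - x)` is the mirror image of `y` at the normal of `w` through `x`. -/
def StLine : Prop := ∀ (n : ℕ) (v : Fin n → ℂ) (C e0 : ℝ), Geo v C e0 → ∀ F, LFS v F →
  ∀ ε, 0 < ε → ε < e0 → ∀ x ∈ Gd v C ε, ∀ᵐ w : ℂ, ∀ᵐ y : ℂ, ‖y - x‖ ≤ ε →
    gx v F (x - rl w (y - x)) w = gx v F y w

/-- (ESTX) energy along the flow. -/
def StEstX : Prop := ∃ K : ℝ, 0 < K ∧ ∀ (n : ℕ) (v : Fin n → ℂ) (C e0 : ℝ), Geo v C e0 →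
  ∀ F, LFS v F → ∀ ε, 0 < ε → ε < e0 → ∀ (X R : ℂ → ℂ → ℝ) (κ ν : ℝ), 0 ≤ κ → 0 ≤ ν →
    Cut v C ε X R κ ν → XE v (XF X F) ε ≤ K * ν ^ 2 / ε ^ 2 * ∫ p in DD v, R p.1 p.2 ^ 2

/-- (ESTT) total energy. -/
def StEstT : Prop := ∃ K : ℝ, 0 < K ∧ ∀ (n : ℕ) (v : Fin n → ℂ) (C e0 : ℝ), Geo v C e0 →
  ∀ F, LFS v F → ∀ ε, 0 < ε → ε < e0 → ∀ (X R : ℂ → ℂ → ℝ) (κ ν : ℝ), 0 ≤ κ → 0 ≤ ν →
    Cut v C ε X R κ ν →
      TE v (XF X F) ε ≤ K * (κ ^ 2 / ε ^ 2 * (∫ p in DD v, R p.1 p.2 ^ 2) + Me v F ε)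

/-- (CONV) the mollified modes of `X F` are close to the modes of `F`. -/
def StConv : Prop := ∀ (n : ℕ) (v : Fin n → ℂ) (C e0 : ℝ), Geo v C e0 → ∀ F, LFS v F →
  ∀ p : ℕ, ∀ η > 0, ∃ δ > 0, ∀ ε, 0 < ε → ε < δ → ∀ X : ℂ → ℂ → ℝ,
    Measurable (fun p : ℂ × ℂ => X p.1 p.2) → (∀ x w, 0 ≤ X x w) → (∀ x w, X x w ≤ 1) →
    (volume {q : ℂ × ℂ | q ∈ DD v ∧ X q.1 q.2 ≠ 1}).toReal ≤ δ →
      ∫ x in PP v, ‖uX v (XF X F) p ε x - (∫ y, et 1 y : ℝ) * am v F p x‖ ≤ η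

/-- (LIMX) -/
def StLimX : Prop := ∀ (n : ℕ) (v : Fin n → ℂ) (C e0 : ℝ), 3 ≤ n → ConvexIndependent ℝ v →
  Geo v C e0 → ∀ F, LFS v F → ∀ p : ℕ,
    (∀ η > 0, ∃ (ε : ℝ) (X : ℂ → ℂ → ℝ), 0 < ε ∧ ε < η ∧
      Measurable (fun p : ℂ × ℂ => X p.1 p.2) ∧ (∀ x w, 0 ≤ X x w) ∧ (∀ x w, X x w ≤ 1) ∧
      (volume {q : ℂ × ℂ | q ∈ DD v ∧ X q.1 q.2 ≠ 1}).toReal ≤ η ∧ EN v (XF X F) p ε ≤ η) →
    ∃ c : ℂ, ∀ᵐ x, x ∈ PP v → am v F p x = c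

/-- (SMALLX) the energy of the cut function is small at small scales. -/
def StSmallX : Prop := ∀ (n : ℕ) (v : Fin n → ℂ) (C e0 : ℝ), 3 ≤ n → ConvexIndependent ℝ v →
  Geo v C e0 → ∀ F, LFS v F → ∀ p : ℕ,
    ∀ η > 0, ∃ (ε : ℝ) (X : ℂ → ℂ → ℝ), 0 < ε ∧ ε < η ∧
      Measurable (fun p : ℂ × ℂ => X p.1 p.2) ∧ (∀ x w, 0 ≤ X x w) ∧ (∀ x w, X x w ≤ 1) ∧
      (volume {q : ℂ × ℂ | q ∈ DD v ∧ X q.1 q.2 ≠ 1}).toReal ≤ η ∧ EN v (XF X F) p ε ≤ η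

/-- (CONSTF) all modes of an admissible line function are constant. -/
def StConstF : Prop := ∀ (n : ℕ) (v : Fin n → ℂ), 3 ≤ n → ConvexIndependent ℝ v →
  ∀ F, LFS v F → Hg F → ∀ p : ℕ, p ≤ 1 → ∃ c : ℂ, ∀ᵐ x, x ∈ PP v →
    ∫ w in BV, (F w (cr w x) : ℂ) * em p w = c

theorem gx_eq (v : Fin n → ℂ) (F : ℂ → ℝ → ℝ) (x w : ℂ) :
    gx v F x w = gX v (fun x w => F w (cr w x)) x w := rfl

end Pool.Agent.Lib.BilF
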