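import Pool.Agent.Lib.MP_7bc51d_an_full.Defs
import Pool.Agent.Lib.MP_7bc51d_an_full.Compl48
import Pool.Agent.Lib.MP_7bc51d_an_erg.Fin12
import Pool.Agent.Lib.MP_7bc51d_an_erg.Const1
import Pool.Agent.Lib.MP_7bc51d_an_dense.Geo40

/-!
# Invariant functions and invariant sets depend on the direction only
-/

set_option autoImplicit false

namespace Pool.Agent.Lib.BilF.Dir48

open Complex MeasureTheory Set Filter Topology
open scoped ComplexConjugate
open Pool.Agent.Lib.Bil Pool.Agent.Lib.BilD Pool.Agent.Lib.BilE Pool.Agent.Lib.BilF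

variable {n : ℕ} {v : Fin n → ℂ}

/-- All modes of a homogeneous admissible line function are constant. -/
def StModes : Prop := ∀ (n : ℕ) (v : Fin n → ℂ), 3 ≤ n → ConvexIndependent ℝ v →
  ∀ F, LFS v F → Hg F → ∀ p : ℕ, ∃ c : ℂ, ∀ᵐ x, x ∈ PP v →
    ∫ w in BV, (F w (cr w x) : ℂ) * em p w = c

theorem modes (hSmall : StSmallX) (hLim : StLimX) : StModes := by
  intro n v hn hv F hF _ p
  obtain ⟨C, e0, hG⟩ := Geo40.row n hn v hv
  obtain ⟨c, hc⟩ := hLim n v C e0 hn hv hG F hF p (hSmall n v C e0 hn hv hG F hF p)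
  refine ⟨c, ?_⟩
  filter_upwards [hc] with x hx hxP
  rw [← Const1.am_PP hG p hxP]
  exact hx hxP

theorem meas_dir {F : ℂ → ℝ → ℝ} (hF : LF F) (x : ℂ) :
    Measurable (fun w => F w (cr w x)) := by
  have hcr : Measurable (fun w : ℂ => cr w x) := by
    unfold cr
    fun_prop
  exact hF.meas.comp (measurable_id.prodMk hcr)

theorem meas_joint {F : ℂ → ℝ → ℝ} (hF : LF F) :
    Measurable (fun q : ℂ × ℂ => F q.2 (cr q.2 q.1)) := by
  have hcr : Measurable (fun q : ℂ × ℂ => cr q.2 q.1) := by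
    unfold cr
    fun_prop
  exact hF.meas.comp (measurable_snd.prodMk hcr)

/-- If all modes are constant, the line function depends on the direction only. -/
theorem dirfun {F : ℂ → ℝ → ℝ} (hF : LF F) (hg : Hg F)
    (hc : ∀ p : ℕ, ∃ c : ℂ, ∀ᵐ x, x ∈ PP v → ∫ w in BV, (F w (cr w x) : ℂ) * em p w = c) :
    ∃ H : ℂ → ℝ, Measurable H ∧ (∀ r : ℝ, 0 < r → ∀ w, H ((r : ℂ) * w) = H w) ∧
      (∀ w, ∃ Q, H w = F w Q) ∧
      ∀ᵐ q : ℂ × ℂ, q.1 ∈ PP v → F q.2 (cr q.2 q.1) = H q.2 := by
  choose c hc using hc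
  have hall : ∀ᵐ x, x ∈ PP v → ∀ p, ∫ w in BV, (F w (cr w x) : ℂ) * em p w = c p := by
    have h1 := ae_all_iff.2 hc
    filter_upwards [h1] with x hx hxP p
    exact hx p hxP
  -- a good base point
  have hbase : ∃ x0 : ℂ, (∀ᵐ x : ℂ, x ∉ PP v) ∨
      ∀ p, ∫ w in BV, (F w (cr w x0) : ℂ) * em p w = c p := by
    by_cases h0 : ∀ᵐ x : ℂ, x ∉ PP v
    · exact ⟨0, Or.inl h0⟩
    · have h1 : ∃ᵐ x : ℂ, x ∈ PP v := by
        intro h2
        exact h0 h2
      obtain ⟨x0, hx0, hx1⟩ := (h1.and_eventually hall).exists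
      exact ⟨x0, Or.inr (hx1 hx0)⟩
  obtain ⟨x0, hx0⟩ := hbase
  have hhom : ∀ x : ℂ, ∀ r : ℝ, 0 < r → ∀ w, F ((r : ℂ) * w) (cr ((r : ℂ) * w) x) =
      F w (cr w x) := by
    intro x r hr w
    have h1 : cr ((r : ℂ) * w) x = r * cr w x := by
      unfold cr
      simp
      ring
    rw [h1]
    exact hg r hr w _
  refine ⟨fun w => F w (cr w x0), meas_dir hF x0, hhom x0, fun w => ⟨_, rfl⟩, ?_⟩
  have hPm : MeasurableSet {q : ℂ × ℂ | q.1 ∈ PP v} :=
    isOpen_PP.measurableSet.preimage measurable_fst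
  have hS : MeasurableSet {q : ℂ × ℂ | q.1 ∈ PP v → F q.2 (cr q.2 q.1) = F q.2 (cr q.2 x0)} := by
    have h1 : MeasurableSet {q : ℂ × ℂ | F q.2 (cr q.2 q.1) = F q.2 (cr q.2 x0)} :=
      measurableSet_eq_fun (meas_joint hF) ((meas_dir hF x0).comp measurable_snd)
    have h2 : {q : ℂ × ℂ | q.1 ∈ PP v → F q.2 (cr q.2 q.1) = F q.2 (cr q.2 x0)} =
        {q : ℂ × ℂ | q.1 ∈ PP v}ᶜ ∪ {q : ℂ × ℂ | F q.2 (cr q.2 q.1) = F q.2 (cr q.2 x0)} := by
      ext q
      simp only [mem_ofPred_eq, mem_union, mem_compl_iff]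
      tauto
    rw [h2]
    exact hPm.compl.union h1
  rw [Measure.volume_eq_prod, Measure.ae_prod_iff_ae_ae hS]
  rcases hx0 with h0 | h0
  · filter_upwards [h0] with x hx
    exact Eventually.of_forall fun w hxP => absurd hxP hx
  · filter_upwards [hall] with x hx
    by_cases hxP : x ∈ PP v
    · have h1 := Compl48.plane (h := fun w => F w (cr w x) - F w (cr w x0))
        ((meas_dir hF x).sub (meas_dir hF x0)) (M := 2) ?_ ?_ ?_
      · filter_upwards [h1] with w hw _
        exact sub_eq_zero.1 hw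
      · intro w
        have h2 := hF.bd w (cr w x)
        have h3 := hF.bd w (cr w x0)
        calc |F w (cr w x) - F w (cr w x0)| ≤ |F w (cr w x)| + |F w (cr w x0)| := abs_sub _ _
          _ ≤ 2 := by linarith
      · intro r hr w
        rw [hhom x r hr w, hhom x0 r hr w]
      · intro p
        have hemb : ∀ w : ℂ, ‖em p w‖ ≤ 1 := by
          intro w
          unfold BilD.em
          rw [norm_pow, norm_div, norm_real, norm_norm, RCLike.norm_conj]
          exact pow_le_one₀ (by positivity) (div_self_le_one _)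
        have hint : ∀ y : ℂ, IntegrableOn (fun w => (F w (cr w y) : ℂ) * em p w) BV := by
          intro y
          have : IsFiniteMeasure ((volume : Measure ℂ).restrict BV) := by
            refine ⟨?_⟩
            rw [Measure.restrict_apply_univ]
            exact measure_ball_lt_top
          have hem : Measurable (BilD.em p) := by
            unfold BilD.em
            exact ((continuous_conj.measurable).div
              (measurable_ofReal.comp measurable_norm)).pow_const p
          refine Integrable.of_bound (((measurable_ofReal.comp (meas_dir hF y)).mul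
            hem).aestronglyMeasurable) 1 (Eventually.of_forall fun w => ?_)
          rw [norm_mul, norm_real, Real.norm_eq_abs]
          exact mul_le_one₀ (hF.bd w _) (norm_nonneg _) (hemb w)
        have h4 : ∫ w in BV, ((F w (cr w x) - F w (cr w x0) : ℝ) : ℂ) * em p w =
            (∫ w in BV, (F w (cr w x) : ℂ) * em p w) -
              ∫ w in BV, (F w (cr w x0) : ℂ) * em p w := by
          rw [← integral_sub (hint x) (hint x0)]
          refine integral_congr_ae (Eventually.of_forall fun w => ?_)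
          push_cast
          ring
        have h5 := hx hxP p
        rw [h5, h0 p, sub_self] at h4
        exact h4
    · exact Eventually.of_forall fun w h => absurd h hxP

/-- Every invariant set is a set of directions, up to a null set. -/
theorem dirset (h : StModes) (hn : 3 ≤ n) (hv : ConvexIndependent ℝ v)
    {A : Set (ℂ × ℂ)} (hA : MeasurableSet A)
    (hcone : ∀ x w : ℂ, ∀ c : ℝ, 0 < c → ((x, w) ∈ A ↔ (x, (c : ℂ) * w) ∈ A))
    (H : ∀ᵐ p ∂(volume : Measure (ℂ × ℂ)), HypAt v A p) :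
    ∃ S : Set ℂ, MeasurableSet S ∧ (∀ w : ℂ, ∀ c : ℝ, 0 < c → (w ∈ S ↔ (c : ℂ) * w ∈ S)) ∧
      ∀ᵐ q : ℂ × ℂ, q.1 ∈ PP v → (q ∈ A ↔ q.2 ∈ S) := by
  have hch := chord_of_hyp (v := v) H
  have hF := Fin12.lfs_FA hn hv hA H
  have hhom : Hg (FA v A) := BilM.FA_hom hcone
  obtain ⟨G, hG1, hG2, hG3, hG4⟩ := dirfun hF.lf hhom (fun p => h n v hn hv _ hF hhom p)
  refine ⟨G ⁻¹' {1}, hG1 (measurableSet_singleton 1), ?_, ?_⟩
  · intro w c hc
    simp only [mem_preimage, mem_singleton_iff]
    rw [hG2 c hc w]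
  · have h1 := BilM.ae_prod_FA hA hch
    rw [← Measure.volume_eq_prod] at h1
    filter_upwards [hG4, h1] with q g1 g2 hq
    have g3 := g1 hq
    rw [g2 hq] at g3
    simp only [mem_preimage, mem_singleton_iff]
    rw [← g3]
    by_cases hqA : q ∈ A
    · simp [hqA]
    · simp [hqA]

end Pool.Agent.Lib.BilF.Dir48
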