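import Pool.Agent.Lib.MP_7bc51d_an_dense.Basic

/-!
# Pointwise estimates for derivatives of mollified functions
-/

set_option autoImplicit false

namespace Pool.Agent.Lib.BilF.Est38

open Complex MeasureTheory Set Filter Topology
open scoped ComplexConjugate ENNReal
open Pool.Agent.Lib.Bil Pool.Agent.Lib.BilD

/-- Mirror image at the line through `x` normal to `w`. -/
noncomputable def mir (x w y : ℂ) : ℂ := x - rl w (y - x)

theorem det_zero {ε : ℝ} (hε : 0 < ε) {h : ℂ} (hh : ε ≤ ‖h‖) : fderiv ℝ (et ε) h = 0 := by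
  apply IsLocalMin.fderiv_eq_zero
  exact Eventually.of_forall (fun z => by rw [BilD.et_zero hε hh]; exact et_nonneg ε z)

theorem det_cont (ε : ℝ) (h : ℂ) : Continuous (fun z => fderiv ℝ (et ε) z h) :=
  ((et_contDiff ε).continuous_fderiv (by simp)).clm_apply continuous_const

theorem det_cs {ε : ℝ} (hε : 0 < ε) (h : ℂ) :
    HasCompactSupport (fun z => fderiv ℝ (et ε) z h) := by
  apply HasCompactSupport.of_support_subset_isCompact (isCompact_closedBall (0 : ℂ) ε)
  intro z hz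
  rw [mem_closedBall_zero_iff]
  by_contra hc
  apply hz
  change fderiv ℝ (et ε) z h = 0
  rw [det_zero hε (not_le.mp hc).le]
  rfl

theorem det_int {ε : ℝ} (hε : 0 < ε) (x h : ℂ) :
    Integrable (fun y => fderiv ℝ (et ε) (x - y) h) :=
  ((det_cont ε h).integrable_of_hasCompactSupport (det_cs hε h)).comp_sub_left x

theorem g_int {ε : ℝ} (hε : 0 < ε) (x h : ℂ) {G : ℂ → ℝ} (hG : Measurable G) {B : ℝ}
    (hB : ∀ y, |G y| ≤ B) : Integrable (fun y => G y * fderiv ℝ (et ε) (x - y) h) := by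
  apply (det_int hε x h).bdd_mul (c := B) hG.aestronglyMeasurable
  exact Eventually.of_forall (fun y => by rw [Real.norm_eq_abs]; exact hB y)

theorem vol_ball (x : ℂ) {ε : ℝ} (hε : 0 < ε) :
    (volume (Metric.ball x ε)).toReal = Real.pi * ε ^ 2 := by
  rw [Complex.volume_ball, ENNReal.toReal_mul, ENNReal.toReal_pow, ENNReal.toReal_ofReal hε.le]
  simp [mul_comm]

/-- The basic bound: a function of size `d` on the ball. -/
theorem bound {B ε : ℝ} (hB : 0 < B) (hb : ∀ h k : ℂ, |fderiv ℝ (et ε) h k| ≤ B / ε ^ 3 * ‖k‖)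
    (hε : 0 < ε) {G : ℂ → ℝ} (x w : ℂ) {d : ℝ} (hd : 0 ≤ d)
    (h : ∀ᵐ y, y ∈ Metric.ball x ε → |G y| ≤ d) :
    |∫ y, G y * fderiv ℝ (et ε) (x - y) w| ≤ Real.pi * B * d * ‖w‖ / ε := by
  have h1 : ∫ y, G y * fderiv ℝ (et ε) (x - y) w =
      ∫ y in Metric.ball x ε, G y * fderiv ℝ (et ε) (x - y) w := by
    symm
    apply setIntegral_eq_integral_of_forall_compl_eq_zero
    intro y hy
    rw [det_zero hε (by
      rw [Metric.mem_ball, dist_eq_norm, not_lt] at hy
      rwa [norm_sub_rev] at hy)]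
    simp
  rw [h1, ← Real.norm_eq_abs]
  have h2 := norm_setIntegral_le_of_norm_le_const_ae' (μ := volume) (s := Metric.ball x ε)
    (f := fun y => G y * fderiv ℝ (et ε) (x - y) w) (C := d * (B / ε ^ 3 * ‖w‖))
    measure_ball_lt_top (by
      filter_upwards [h] with y hy hyb
      rw [Real.norm_eq_abs, abs_mul]
      exact mul_le_mul (hy hyb) (hb _ _) (abs_nonneg _) hd)
  refine h2.trans (le_of_eq ?_)
  rw [Measure.real, vol_ball x hε]
  field_simp

theorem mir_mp {w : ℂ} (hw : w ≠ 0) (x : ℂ) :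
    MeasurePreserving (mir x w) (volume : Measure ℂ) volume := by
  have h1 : MeasurePreserving (fun y : ℂ => y - x) (volume : Measure ℂ) volume :=
    measurePreserving_sub_right volume x
  have h2 : MeasurePreserving (fun y : ℂ => x - y) (volume : Measure ℂ) volume :=
    Measure.measurePreserving_sub_left volume x
  exact h2.comp ((mp_rl hw).comp h1)

theorem mir_mir {w : ℂ} (hw : w ≠ 0) (x y : ℂ) : mir x w (mir x w y) = y := by
  unfold mir
  rw [show x - rl w (y - x) - x = ((-1 : ℝ) : ℂ) * rl w (y - x) by push_cast; ring, rl_smul,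
    rl_rl hw]
  push_cast
  ring

theorem mir_emb {w : ℂ} (hw : w ≠ 0) (x : ℂ) : MeasurableEmbedding (mir x w) := by
  have hm : Measurable (mir x w) := (mir_mp hw x).measurable
  exact (MeasurableEquiv.mk ⟨mir x w, mir x w, mir_mir hw x, mir_mir hw x⟩ hm hm).measurableEmbedding

/-- The mirror as a linear isometry. -/
theorem det_mir {w : ℂ} (hw : w ≠ 0) (ε : ℝ) (x y : ℂ) :
    fderiv ℝ (et ε) (x - mir x w y) w = - fderiv ℝ (et ε) (x - y) w := by
  let A : ℂ →L[ℝ] ℂ := LinearMap.toContinuousLinearMap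
    { toFun := fun z => - rl w z
      map_add' := fun a b => by rw [rl_add]; ring
      map_smul' := fun t a => by
        rw [RingHom.id_apply, real_smul, rl_smul, real_smul]; ring }
  have hA : ∀ z, A z = - rl w z := fun z => rfl
  have hAn : ∀ z, ‖A z‖ = ‖z‖ := fun z => by rw [hA, norm_neg, norm_rl hw]
  have he : (fun z => et ε (A z)) = et ε := funext (fun z => et_norm ε (hAn z))
  have hz : x - mir x w y = A (x - y) := by
    rw [hA]; unfold mir
    rw [show x - y = ((-1 : ℝ) : ℂ) * (y - x) by push_cast; ring, rl_smul]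
    push_cast; ring
  have hd : DifferentiableAt ℝ (et ε) (A (x - y)) :=
    ((et_contDiff ε).differentiable (by simp)).differentiableAt
  have h1 : HasFDerivAt (fun z => et ε (A z)) ((fderiv ℝ (et ε) (A (x - y))).comp A) (x - y) :=
    HasFDerivAt.comp (x - y) hd.hasFDerivAt A.hasFDerivAt
  rw [he] at h1
  have hAw : A w = -w := by rw [hA, rl_self hw]
  rw [hz, h1.fderiv, ContinuousLinearMap.comp_apply, hAw, map_neg, neg_neg]

/-- (XODD) -/
theorem xodd : ∃ K : ℝ, 0 < K ∧ ∀ ε : ℝ, 0 < ε → ∀ (G : ℂ → ℝ), Measurable G → ∀ B0 : ℝ,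
    (∀ y, |G y| ≤ B0) → ∀ (x w : ℂ) (d : ℝ), 0 ≤ d → w ≠ 0 →
    (∀ᵐ y, y ∈ Metric.ball x ε → |G (mir x w y) - G y| ≤ d) →
    |∫ y, G y * fderiv ℝ (et ε) (x - y) w| ≤ K * d * ‖w‖ / ε := by
  obtain ⟨B, hB, hb⟩ := exists_fderiv_et_bound
  refine ⟨Real.pi * B, by positivity, ?_⟩
  intro ε hε G hG B0 hB0 x w d hd hw h
  set I := ∫ y, G y * fderiv ℝ (et ε) (x - y) w with hI
  have e1 : ∫ y, G (mir x w y) * fderiv ℝ (et ε) (x - y) w = - I := by
    have h1 := (mir_mp hw x).integral_comp (mir_emb hw x)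
      (fun y => G y * fderiv ℝ (et ε) (x - y) w)
    rw [hI, ← h1, ← integral_neg]
    congr 1
    funext y
    rw [det_mir hw]
    ring
  have i1 := g_int hε x w hG hB0
  have i2 : Integrable (fun y => G (mir x w y) * fderiv ℝ (et ε) (x - y) w) :=
    g_int hε x w (hG.comp (mir_mp hw x).measurable) (fun y => hB0 _)
  have e2 : ∫ y, (G (mir x w y) - G y) * fderiv ℝ (et ε) (x - y) w = - (2 * I) := by
    have : (fun y => (G (mir x w y) - G y) * fderiv ℝ (et ε) (x - y) w) =
        fun y => G (mir x w y) * fderiv ℝ (et ε) (x - y) w - G y * fderiv ℝ (et ε) (x - y) w := by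
      funext y; ring
    rw [this, integral_sub i2 i1, e1, ← hI]
    ring
  have e3 := bound hB (hb ε hε) hε x w hd h (G := fun y => G (mir x w y) - G y)
  rw [e2, abs_neg, abs_mul, abs_two] at e3
  have h0 : 0 ≤ |I| := abs_nonneg _
  linarith

/-- (GRAD) -/
theorem gradl : ∃ K : ℝ, 0 < K ∧ ∀ ε : ℝ, 0 < ε → ∀ (X F : ℂ → ℝ), Measurable X → Measurable F →
    ∀ B0 M : ℝ, (∀ y, |X y| ≤ B0) → (∀ y, |F y| ≤ M) → ∀ (x h : ℂ) (c d : ℝ), 0 ≤ d →
    (∀ᵐ y, y ∈ Metric.ball x ε → |X y - c| ≤ d) →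
    |(∫ y, X y * F y * fderiv ℝ (et ε) (x - y) h) - c * ∫ y, F y * fderiv ℝ (et ε) (x - y) h| ≤
      K * (M * d) * ‖h‖ / ε := by
  obtain ⟨B, hB, hb⟩ := exists_fderiv_et_bound
  refine ⟨Real.pi * B, by positivity, ?_⟩
  intro ε hε X F hX hF B0 M hB0 hM x h c d hd hy
  have hM0 : 0 ≤ M := (abs_nonneg _).trans (hM 0)
  have i1 : Integrable (fun y => X y * F y * fderiv ℝ (et ε) (x - y) h) :=
    g_int hε x h (hX.mul hF) (B := B0 * M) (fun y => by
      rw [abs_mul]
      exact mul_le_mul (hB0 y) (hM y) (abs_nonneg _) ((abs_nonneg _).trans (hB0 y)))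
  have i2 := g_int hε x h hF hM
  have e2 : (∫ y, X y * F y * fderiv ℝ (et ε) (x - y) h) -
      c * ∫ y, F y * fderiv ℝ (et ε) (x - y) h =
      ∫ y, ((X y - c) * F y) * fderiv ℝ (et ε) (x - y) h := by
    rw [← integral_const_mul, ← integral_sub i1 (i2.const_mul c)]
    congr 1
    funext y
    ring
  rw [e2]
  exact bound hB (hb ε hε) hε x h (by positivity) (by
    filter_upwards [hy] with y hy1 hy2
    rw [abs_mul, mul_comm M d]
    exact mul_le_mul (hy1 hy2) (hM y) (abs_nonneg _) hd)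

end Pool.Agent.Lib.BilF.Est38
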