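import Pool.Agent.Lib.MP_7bc51d_an_full.Defs
import Pool.Agent.Lib.MP_7bc51d_an_dense.Refl5
import Pool.Agent.Lib.MP_7bc51d_an_dense.Side5

/-!
# Reflection of the mollified modes of a general phase space function at a side
-/

set_option autoImplicit false

namespace Pool.Agent.Lib.BilF.ReflX29

open Complex MeasureTheory Set Filter Topology
open scoped ComplexConjugate
open Pool.Agent.Lib.Bil Pool.Agent.Lib.BilD Pool.Agent.Lib.BilD.Refl5
open Pool.Agent.Lib.BilD.Side5

variable {n : ℕ} {v : Fin n → ℂ}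

/-- Formula for the extended function near a side. -/
theorem gX_near {C e0 : ℝ} (H : Geo v C e0) {G : ℂ → ℂ → ℝ} {s : Fin n × Fin n} (hs : s ∈ SD v)
    {y w : ℂ} (h1 : ∀ t ∈ SD v, t ≠ s → 0 < ds v t y)
    (h2 : ∀ t ∈ SD v, t ≠ s → 0 < ds v t (Rs v s y)) :
    gX v G y w = (if 0 < ds v s y then G y w else 0) +
      (if ds v s y < 0 then G (Rs v s y) (rl (ed v s) w) else 0) := by
  have hP : y ∈ PP v ↔ 0 < ds v s y := by
    rw [H.pp]
    constructor
    · intro h; exact h s hs
    · intro h t ht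
      by_cases hts : t = s
      · rw [hts]; exact h
      · exact h1 t ht hts
  have hO : y ∈ OO v s ↔ ds v s y < 0 := by
    unfold BilD.OO
    rw [mem_ofPred_eq, H.pp]
    constructor
    · intro h
      have := h s hs
      rw [ds_Rs (H.edn s hs)] at this
      linarith
    · intro h t ht
      by_cases hts : t = s
      · rw [hts, ds_Rs (H.edn s hs)]; linarith
      · exact h2 t ht hts
  have hO' : ∀ t ∈ SD v, t ≠ s → y ∉ OO v t := by
    intro t ht hts h
    unfold BilD.OO at h
    rw [mem_ofPred_eq, H.pp] at h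
    have := h t ht
    rw [ds_Rs (H.edn t ht)] at this
    have := h1 t ht hts
    linarith
  unfold gX
  congr 1
  · by_cases h : 0 < ds v s y
    · rw [indicator_of_mem (hP.2 h), if_pos h]
    · rw [indicator_of_notMem (fun h3 => h (hP.1 h3)), if_neg h]
  · rw [Finset.sum_eq_single s]
    · by_cases h : ds v s y < 0
      · rw [indicator_of_mem (hO.2 h), if_pos h]
      · rw [indicator_of_notMem (fun h3 => h (hO.1 h3)), if_neg h]
    · intro t ht hts
      rw [indicator_of_notMem (hO' t ht hts)]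
    · intro h; exact absurd hs h

/-- The extended function is symmetric near a side. -/
theorem gX_refl {C e0 : ℝ} (H : Geo v C e0) {G : ℂ → ℂ → ℝ} {s : Fin n × Fin n} (hs : s ∈ SD v)
    {y w : ℂ} (h1 : ∀ t ∈ SD v, t ≠ s → 0 < ds v t y)
    (h2 : ∀ t ∈ SD v, t ≠ s → 0 < ds v t (Rs v s y)) :
    gX v G (Rs v s y) (rl (ed v s) w) = gX v G y w := by
  have he := H.edn s hs
  rw [gX_near H hs h1 h2, gX_near H hs h2 (by rw [Rs_Rs he]; exact h1), ds_Rs he, Rs_Rs he,
    rl_rl he, add_comm]
  congr 1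
  · by_cases h : 0 < ds v s y
    · rw [if_pos h, if_pos (by linarith)]
    · rw [if_neg h, if_neg (by intro h3; apply h; linarith)]
  · by_cases h : ds v s y < 0
    · rw [if_pos h, if_pos (by linarith)]
    · rw [if_neg h, if_neg (by intro h3; apply h; linarith)]

theorem aX_refl {C e0 : ℝ} (H : Geo v C e0) {G : ℂ → ℂ → ℝ} {s : Fin n × Fin n} (hs : s ∈ SD v)
    {y : ℂ} (h1 : ∀ t ∈ SD v, t ≠ s → 0 < ds v t y)
    (h2 : ∀ t ∈ SD v, t ≠ s → 0 < ds v t (Rs v s y)) (m : ℕ) :
    aX v G m (Rs v s y) = (conj (ed v s) / ed v s) ^ m * conj (aX v G m y) := by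
  have he := H.edn s hs
  unfold aX
  have e1 := (mp_rl_BV he).integral_comp (rl_emb he)
    (fun w => (gX v G (Rs v s y) w : ℂ) * em m w)
  rw [← e1]
  have e2 : ∀ w, (gX v G (Rs v s y) (rl (ed v s) w) : ℂ) * em m (rl (ed v s) w) =
      (conj (ed v s) / ed v s) ^ m * conj ((gX v G y w : ℂ) * em m w) := by
    intro w
    rw [gX_refl H hs h1 h2, em_rl he, map_mul, conj_ofReal]
    ring
  simp_rw [e2]
  rw [integral_const_mul, integral_conj]

/-- (REFLX) -/
theorem uX_refl {C e0 : ℝ} (H : Geo v C e0) (G : ℂ → ℂ → ℝ) {ε : ℝ} (hε : 0 < ε)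
    {s : Fin n × Fin n} (hs : s ∈ SD v) {x : ℂ} (hx : x ∈ Nr v ε s) (m : ℕ) :
    uX v G m ε (Rs v s x) = (conj (ed v s) / ed v s) ^ m * conj (uX v G m ε x) := by
  have he := H.edn s hs
  unfold uX
  have hemb : MeasurableEmbedding (Rs v s) := by
    have hc : Continuous (Rs v s) := by
      have : Rs v s = fun x => v s.1 + rl (ed v s) (x - v s.1) := rfl
      rw [this]
      exact continuous_const.add ((continuous_rl _).comp (continuous_id.sub continuous_const))
    let E : ℂ ≃ₜ ℂ :=
      { toFun := Rs v s, invFun := Rs v s, left_inv := Rs_Rs he, right_inv := Rs_Rs he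
        continuous_toFun := hc, continuous_invFun := hc }
    exact E.measurableEmbedding
  have e1 := (mp_Rs he).integral_comp hemb
    (fun y => (et ε (Rs v s x - y) : ℂ) * aX v G m y)
  rw [← e1]
  have e2 : ∀ y, (et ε (Rs v s x - Rs v s y) : ℂ) * aX v G m (Rs v s y) =
      (conj (ed v s) / ed v s) ^ m * conj ((et ε (x - y) : ℂ) * aX v G m y) := by
    intro y
    rw [et_norm (norm_Rs_sub he x y), map_mul, conj_ofReal]
    by_cases hy : ‖x - y‖ < ε
    · obtain ⟨h1, h2⟩ := Nr_ball H hε hs hx hy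
      rw [aX_refl H hs h1 h2]
      ring
    · rw [Refl5.et_zero hε (not_lt.1 hy)]
      simp
  simp_rw [e2]
  rw [integral_const_mul, integral_conj]

/-- everything vanishes near the vertices -/
theorem gX_zero {C e0 : ℝ} (H : Geo v C e0) {G : ℂ → ℂ → ℝ} {ε : ℝ} (hε : 0 < ε)
    (hε0 : ε < e0) (hV : VZ v G (4 * C * ε)) {y w : ℂ} {k : Fin n}
    (hk : ‖y - v k‖ < 4 * C * ε) : gX v G y w = 0 := by
  have hN : ∀ s ∈ SD v, ∀ z ∈ OO v s, ds v s z < 0 := by
    intro s hs z hz
    unfold BilD.OO at hz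
    rw [mem_ofPred_eq, H.pp] at hz
    have := hz s hs
    rw [ds_Rs (H.edn s hs)] at this
    linarith
  unfold gX
  have h1 : (PP v).indicator (fun x => G x w) y = 0 := by
    by_cases h : y ∈ PP v
    · rw [indicator_of_mem h]
      exact hV y h w k hk
    · rw [indicator_of_notMem h]
  rw [h1, zero_add]
  apply Finset.sum_eq_zero
  intro s hs
  by_cases h : y ∈ OO v s
  · rw [indicator_of_mem h]
    have hks : k = s.1 ∨ k = s.2 := by
      by_contra hc
      push Not at hc
      have := H.far ε hε hε0 s hs k hc.1 hc.2 y (by linarith [hN s hs y h])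
      linarith
    have hfix : Rs v s (v k) = v k := by
      rcases hks with h2 | h2
      · rw [Rs_def, h2, sub_self]
        have : rl (ed v s) 0 = 0 := by
          have := rl_smul (ed v s) 0 0
          simpa using this
        rw [this, add_zero]
      · rw [Rs_def, h2]
        have : v s.2 - v s.1 = ed v s := rfl
        rw [this, rl_self (H.edn s hs), ← this]
        ring
    refine hV _ h _ k ?_
    rw [← hfix, norm_Rs_sub (H.edn s hs)]
    exact hk
  · rw [indicator_of_notMem h]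

/-- (SIDEX) -/
theorem uX_side {C e0 : ℝ} (H : Geo v C e0) (hW : StWP) (G : ℂ → ℂ → ℝ) {ε : ℝ} (hε : 0 < ε)
    (hε0 : ε < e0) (m : ℕ) (hd : Differentiable ℝ (uX v G m ε)) {s : Fin n × Fin n}
    (hs : s ∈ SD v) {t : ℝ} (ht : t ∈ Ioo (0 : ℝ) 1) :
    WW v C ε (v s.1 + (t : ℂ) * ed v s) * (conj (uX v G m ε (v s.1 + (t : ℂ) * ed v s)) *
        fderiv ℝ (uX v G m ε) (v s.1 + (t : ℂ) * ed v s) (ed v s)).im = 0 := by
  have he := H.edn s hs
  set x := v s.1 + (t : ℂ) * ed v s with hx
  by_cases hW0 : WW v C ε x = 0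
  · rw [hW0, zero_mul]
  obtain ⟨⟨-, -, h3, -⟩, -⟩ := hW n v C e0 H |>.imp (fun h => h ε hε) id
  have hk := h3 x hW0
  have hgd : x ∈ Gd v C ε := by
    refine ⟨fun s' hs' => ?_, hk⟩
    have hside := mem_SD.1 hs'
    have hnn : ∀ k, 0 ≤ ds v s' (v k) := fun k =>
      div_nonneg (hside.cr_nonneg_vert k) (norm_nonneg _)
    have hx2 : x - v s'.1 = ((1 - t : ℝ) : ℂ) * (v s.1 - v s'.1) + (t : ℂ) * (v s.2 - v s'.1) := by
      rw [hx, ed]; push_cast; ring
    have : ds v s' x = (1 - t) * ds v s' (v s.1) + t * ds v s' (v s.2) := by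
      unfold ds
      rw [hx2, cr_add_right, cr_smul_right, cr_smul_right]
      ring
    rw [this]
    exact add_nonneg (mul_nonneg (by linarith [ht.2]) (hnn _)) (mul_nonneg ht.1.le (hnn _))
  have hds0 : ds v s x = 0 := by
    unfold ds
    rw [hx, add_sub_cancel_left, cr_smul_right, cr_self, mul_zero, zero_div]
  have hNr : x ∈ Nr v ε s := by
    rcases H.dic ε hε hε0 x hgd with h | ⟨s', hs', h⟩
    · have := h s hs
      rw [hds0] at this
      linarith
    · by_cases hss : s = s'
      · rw [hss]; exact h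
      · have := h.2 s hs hss
        rw [hds0] at this
        linarith
  rw [im_zero (c := (conj (ed v s) / ed v s) ^ m) ?_ ?_ ?_, mul_zero]
  · exact hd.differentiableAt
  · rw [norm_pow, norm_div, RCLike.norm_conj, div_self (norm_ne_zero_iff.2 he), one_pow]
  · have hcont : Continuous (fun t' : ℝ => x + (t' : ℂ) * ed v s) := by fun_prop
    have hnh : ∀ᶠ t' : ℝ in 𝓝 0, x + (t' : ℂ) * ed v s ∈ Nr v ε s := by
      apply hcont.continuousAt.eventually_mem
      apply (Nr_open ε s).mem_nhds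
      simpa using hNr
    filter_upwards [hnh] with t' ht'
    have h5 := uX_refl H G hε hs ht' m
    have h6 : Rs v s (x + (t' : ℂ) * ed v s) = x + (t' : ℂ) * ed v s := by
      rw [Rs_def, hx]
      have : v s.1 + (t : ℂ) * ed v s + (t' : ℂ) * ed v s - v s.1 =
          ((t + t' : ℝ) : ℂ) * ed v s := by push_cast; ring
      rw [this, rl_smul, rl_self he]
      push_cast; ring
    rw [h6] at h5
    exact h5

theorem row : StReflX := fun _ _ _ _ H G _ _ hε _ _ hs _ hx m => uX_refl H G hε hs hx m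

end Pool.Agent.Lib.BilF.ReflX29
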