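import Pool.Agent.Lib.MP_7bc51d_an_full.Smo21
import Pool.Agent.Lib.MP_7bc51d_an_full.EstA29
import Pool.Agent.Lib.MP_7bc51d_an_full.ReflX29
import Pool.Agent.Lib.MP_7bc51d_an_full.ConvX89
import Pool.Agent.Lib.MP_7bc51d_an_erg.Hinv33

/-!
# Row ESTT: total gradient energy of a cut line function
-/

set_option autoImplicit false

namespace Pool.Agent.Lib.BilF.EstT87

open Complex MeasureTheory Set Filter Topology
open scoped ComplexConjugate
open Pool.Agent.Lib.Bil Pool.Agent.Lib.BilD Pool.Agent.Lib.BilE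
open Pool.Agent.Lib.BilD.Refl5 (Nr_ball ds_sub_le)

variable {n : ℕ} {v : Fin n → ℂ}

theorem gXn {C e0 : ℝ} (H : Geo v C e0) {G : ℂ → ℂ → ℝ} {s : Fin n × Fin n} (hs : s ∈ SD v)
    {y w : ℂ} (h1 : ∀ t ∈ SD v, t ≠ s → 0 < ds v t y)
    (h2 : ∀ t ∈ SD v, t ≠ s → 0 < ds v t (Rs v s y)) :
    gX v G y w = (if 0 < ds v s y then G y w else 0) +
      (if ds v s y < 0 then G (Rs v s y) (rl (ed v s) w) else 0) :=
  ReflX29.gX_near H hs h1 h2

/-- Near a good point exactly one term of the extension is present. -/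
theorem single {C e0 : ℝ} (H : Geo v C e0) {ε : ℝ} (hε : 0 < ε) (hε0 : ε < e0) {x : ℂ}
    (hx : x ∈ PP v) (hg : ∀ k, C * ε ≤ ‖x - v k‖) {y : ℂ} (hy : ‖x - y‖ < ε)
    (hds : ∀ s ∈ SD v, ds v s y ≠ 0) (w : ℂ) :
    ∃ y' w' : ℂ, ∀ G : ℂ → ℂ → ℝ, gX v G y w = G y' w' := by
  have hxp := (H.pp x).1 hx
  have hGd : x ∈ Gd v C ε := ⟨fun s hs => (hxp s hs).le, hg⟩
  rcases H.dic ε hε hε0 x hGd with h1 | ⟨s, hs, h1⟩
  · have hpos : ∀ s ∈ SD v, 0 < ds v s y := by
      intro s hs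
      have h3 := h1 s hs
      have h2 := ds_sub_le (v := v) (s := s) x y
      rw [abs_le] at h2
      linarith [h2.2]
    refine ⟨y, w, fun G => ?_⟩
    unfold gX
    rw [indicator_of_mem ((H.pp y).2 hpos), Finset.sum_eq_zero, add_zero]
    intro s hs
    apply indicator_of_notMem
    intro h
    have h3 := (H.pp _).1 h s hs
    rw [Refl5.ds_Rs (H.edn s hs)] at h3
    linarith [hpos s hs]
  · obtain ⟨h2, h3⟩ := Nr_ball H hε hs h1 hy
    by_cases h0 : 0 < ds v s y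
    · refine ⟨y, w, fun G => ?_⟩
      rw [gXn H hs h2 h3, if_pos h0, if_neg (by linarith), add_zero]
    · have h4 : ds v s y < 0 := lt_of_le_of_ne (not_lt.1 h0) (hds s hs)
      refine ⟨Rs v s y, rl (ed v s) w, fun G => ?_⟩
      rw [gXn H hs h2 h3, if_neg h0, if_pos h4, zero_add]

theorem AG_XF {C ε : ℝ} {F : ℂ → ℝ → ℝ} (hF : LFS v F) {X R : ℂ → ℂ → ℝ} {κ ν : ℝ}
    (hX : Cut v C ε X R κ ν) : AG (XF X F) :=
  ⟨(ConvX89.bm_XF hF.lf hX.meas hX.x0 hX.x1).meas, (ConvX89.bm_XF hF.lf hX.meas hX.x0 hX.x1).bd⟩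

/-- pointwise bound at a good point -/
theorem pt_good {B : ℝ} (hB : ∀ ε, 0 < ε → ∀ h k : ℂ, |fderiv ℝ (et ε) h k| ≤ B / ε ^ 3 * ‖k‖)
    {C e0 : ℝ} (H : Geo v C e0) {F : ℂ → ℝ → ℝ} (hF : LFS v F)
    {ε : ℝ} (hε : 0 < ε) (hε0 : ε < e0) {X R : ℂ → ℂ → ℝ} {κ ν : ℝ} (hκ : 0 ≤ κ)
    (hX : Cut v C ε X R κ ν) {x : ℂ} (hx : x ∈ PP v) (hg : ∀ k, C * ε ≤ ‖x - v k‖) {w : ℂ}
    (hw : w ≠ 0) (h : ℂ) (hh1 : ‖h‖ = 1) :
    |dX v (XF X F) ε x w h| ≤ Real.pi * B * κ / ε * R x w + |gd v F ε x w h| := by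
  have hAG := AG_XF hF hX
  have hgm := Smo21.gm (v := v) hAG
  have hm1 : Measurable (fun y => gX v (XF X F) y w) := hgm.meas_x w
  have hb1 : ∀ y, |gX v (XF X F) y w| ≤ (n : ℝ) ^ 2 + 1 := fun y => hgm.bd y w
  have hm2 : Measurable (fun y => gx v F y w) := gx_meas_x hF.lf w
  have hb2 : ∀ y, |gx v F y w| ≤ (n : ℝ) ^ 2 + 1 := fun y => by
    rw [abs_of_nonneg (gx_nonneg hF y w)]; exact gx_le hF y w
  have hik : Integrable (fun y => fderiv ℝ (et ε) (x - y) h) :=
    ((Mass12.fderiv_et_cont ε h).integrable_of_hasCompactSupport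
      (Mass12.fderiv_et_cs hε h)).comp_sub_left x
  have hi1 : Integrable (fun y => gX v (XF X F) y w * fderiv ℝ (et ε) (x - y) h) :=
    hik.bdd_mul (c := (n : ℝ) ^ 2 + 1) hm1.aestronglyMeasurable
      (Eventually.of_forall (fun y => by rw [Real.norm_eq_abs]; exact hb1 y))
  have hi2 : Integrable (fun y => gx v F y w * fderiv ℝ (et ε) (x - y) h) :=
    hik.bdd_mul (c := (n : ℝ) ^ 2 + 1) hm2.aestronglyMeasurable
      (Eventually.of_forall (fun y => by rw [Real.norm_eq_abs]; exact hb2 y))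
  have hsplit : dX v (XF X F) ε x w h = (∫ y, (gX v (XF X F) y w - X x w * gx v F y w) *
      fderiv ℝ (et ε) (x - y) h) + X x w * gd v F ε x w h := by
    unfold dX gd
    rw [← integral_const_mul, ← integral_add]
    · congr 1
      funext y
      ring
    · have : (fun y => (gX v (XF X F) y w - X x w * gx v F y w) * fderiv ℝ (et ε) (x - y) h) =
          fun y => gX v (XF X F) y w * fderiv ℝ (et ε) (x - y) h -
            X x w * (gx v F y w * fderiv ℝ (et ε) (x - y) h) := by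
        funext y; ring
      rw [this]
      exact hi1.sub (hi2.const_mul _)
    · exact hi2.const_mul _
  have hds : ∀ᵐ y : ℂ, ∀ s ∈ SD v, ds v s y ≠ 0 := by
    rw [Filter.eventually_all_finset]
    intro s hs
    exact Hinv33.ae_ds s (H.edn s hs)
  have hB3 : 0 ≤ B / ε ^ 3 := by
    have := (abs_nonneg _).trans (hB ε hε 0 1)
    rw [norm_one, mul_one] at this
    exact this
  have hR := hX.r0 x w
  have hmain : |∫ y, (gX v (XF X F) y w - X x w * gx v F y w) * fderiv ℝ (et ε) (x - y) h| ≤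
      ∫ y, (Metric.ball x ε).indicator (fun _ => κ * R x w * (B / ε ^ 3)) y := by
    rw [← Real.norm_eq_abs]
    apply norm_integral_le_of_norm_le
    · rw [integrable_indicator_iff Metric.isOpen_ball.measurableSet]
      exact integrableOn_const measure_ball_lt_top.ne
    · filter_upwards [hds] with y hy
      by_cases hyb : y ∈ Metric.ball x ε
      · rw [indicator_of_mem hyb]
        have hyx : ‖x - y‖ < ε := by
          rw [Metric.mem_ball, dist_comm, dist_eq_norm] at hyb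
          exact hyb
        obtain ⟨y', w', hG⟩ := single H hε hε0 hx hg hyx hy w
        have e1 : gX v (XF X F) y w = gX v X y w * F w' (cr w' y') := by
          rw [hG, hG]; rfl
        have e2 : gx v F y w = F w' (cr w' y') := by
          rw [gx_eq, hG]
        have e3 := hX.osc x hx hg w hw y (by rw [norm_sub_rev]; exact hyx.le) hy
        have e4 : |F w' (cr w' y')| ≤ 1 := hF.lf.bd _ _
        rw [e1, e2, Real.norm_eq_abs, abs_mul]
        have e5 : gX v X y w * F w' (cr w' y') - X x w * F w' (cr w' y') =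
            (gX v X y w - X x w) * F w' (cr w' y') := by ring
        rw [e5, abs_mul]
        have e6 := hB ε hε (x - y) h
        rw [hh1, mul_one] at e6
        have e7 : |gX v X y w - X x w| * |F w' (cr w' y')| ≤ κ * R x w * 1 :=
          mul_le_mul e3 e4 (abs_nonneg _) (mul_nonneg hκ hR)
        rw [mul_one] at e7
        exact mul_le_mul e7 e6 (abs_nonneg _) (mul_nonneg hκ hR)
      · rw [indicator_of_notMem hyb]
        have hyx : ε ≤ ‖x - y‖ := by
          rw [Metric.mem_ball, dist_comm, dist_eq_norm] at hyb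
          exact not_lt.1 hyb
        rw [Mass12.fderiv_et_zero' hε hyx]
        simp
  have hI : ∫ y, (Metric.ball x ε).indicator (fun _ => κ * R x w * (B / ε ^ 3)) y =
      Real.pi * B * κ / ε * R x w := by
    rw [integral_indicator Metric.isOpen_ball.measurableSet, setIntegral_const, smul_eq_mul]
    have : volume.real (Metric.ball x ε) = ε ^ 2 * Real.pi := by
      unfold Measure.real
      rw [Complex.volume_ball]
      rw [ENNReal.toReal_mul, ENNReal.toReal_pow, ENNReal.toReal_ofReal hε.le]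
      rfl
    rw [this]
    field_simp
  rw [hI] at hmain
  rw [hsplit]
  have h8 : |X x w * gd v F ε x w h| ≤ |gd v F ε x w h| := by
    rw [abs_mul, abs_of_nonneg (hX.x0 x w)]
    exact mul_le_of_le_one_left (abs_nonneg _) (hX.x1 x w)
  exact (abs_add_le _ _).trans (add_le_add hmain h8)

theorem sq_le {a b c : ℝ} (h : |a| ≤ b + |c|) : a ^ 2 ≤ 2 * b ^ 2 + 2 * c ^ 2 := by
  have h1 : a ^ 2 ≤ (b + |c|) ^ 2 := by
    rw [← sq_abs a]
    exact pow_le_pow_left₀ (abs_nonneg _) h 2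
  have h2 := sq_abs c
  nlinarith [sq_nonneg (b - |c|)]

/-- (ESTT) -/
theorem row (hZ : StZeroX) : StEstT := by
  obtain ⟨B, hB0, hB⟩ := exists_fderiv_et_bound
  refine ⟨4 * (Real.pi * B) ^ 2 + 2, by positivity, ?_⟩
  intro n v C e0 H F hF ε hε hε0 X R κ ν hκ hν hX
  have hAG := AG_XF hF hX
  have hgm := Smo21.gm (v := v) hAG
  -- vanishing near the vertices
  have hVZ : VZ v (XF X F) (4 * C * ε) := by
    intro x hx w k hk
    unfold XF
    rw [hX.vz x hx w k hk, zero_mul]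
  obtain ⟨-, hz2, -⟩ := hZ n v C e0 H (XF X F) hAG ε hε hε0 hVZ
  -- pointwise
  have hpt : ∀ x ∈ PP v, ∀ w : ℂ, w ≠ 0 →
      dX v (XF X F) ε x w 1 ^ 2 + dX v (XF X F) ε x w I ^ 2 ≤
        4 * (Real.pi * B * κ / ε) ^ 2 * R x w ^ 2 + 2 * hh v F ε (x, w) := by
    intro x hx w hw
    by_cases hg : ∀ k, C * ε ≤ ‖x - v k‖
    · have h1 := sq_le (pt_good hB H hF hε hε0 hκ hX hx hg hw 1 norm_one)
      have h2 := sq_le (pt_good hB H hF hε hε0 hκ hX hx hg hw I Complex.norm_I)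
      unfold hh
      nlinarith
    · push Not at hg
      obtain ⟨k, hk⟩ := hg
      have hC := H.C1
      have hk3 : ‖x - v k‖ < 3 * C * ε := by nlinarith
      rw [hz2 x w 1 k hk3, hz2 x w I k hk3]
      have h0 : 0 ≤ 4 * (Real.pi * B * κ / ε) ^ 2 * R x w ^ 2 + 2 * hh v F ε (x, w) := by
        unfold hh
        positivity
      simpa using h0
  -- integrability
  have hDfin : volume (DD v) < ⊤ := by
    unfold DD
    rw [Measure.volume_eq_prod, Measure.prod_prod]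
    exact ENNReal.mul_lt_top vol_PP_lt measure_ball_lt_top
  have hint : ∀ (f : ℂ × ℂ → ℝ), Measurable f → ∀ c : ℝ, (∀ p, |f p| ≤ c) →
      IntegrableOn f (DD v) := by
    intro f hf c hc
    have : IntegrableOn (fun _ : ℂ × ℂ => c) (DD v) := integrableOn_const hDfin.ne
    exact this.mono' hf.aestronglyMeasurable (Eventually.of_forall (fun z => by
      rw [Real.norm_eq_abs]; exact hc z))
  obtain ⟨BR, hBR⟩ := hX.rb
  have hiR : IntegrableOn (fun p : ℂ × ℂ => R p.1 p.2 ^ 2) (DD v) := by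
    apply hint _ (hX.rm.pow_const 2) (BR ^ 2)
    intro p
    rw [abs_pow, abs_of_nonneg (hX.r0 _ _)]
    exact pow_le_pow_left₀ (hX.r0 _ _) (hBR _ _) 2
  have hgen : ∀ G : ℂ → ℂ → ℝ, AG G → IntegrableOn (fun p : ℂ × ℂ => dX v G ε p.1 p.2 1 ^ 2 +
      dX v G ε p.1 p.2 I ^ 2) (DD v) := by
    intro G hG
    have hg := Smo21.gm (v := v) hG
    have hm : ∀ h : ℂ, Measurable (fun p : ℂ × ℂ => dX v G ε p.1 p.2 h) :=
      fun h => BilG.gG_meas2 hg h
    have hb : ∀ (h : ℂ), ‖h‖ = 1 → IntegrableOn (fun p : ℂ × ℂ => dX v G ε p.1 p.2 h ^ 2)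
        (DD v) := by
      intro h hh1
      obtain ⟨c, hc⟩ : ∃ c : ℝ, ∀ p : ℂ × ℂ, |dX v G ε p.1 p.2 h| ≤ c :=
        ⟨_, fun p => by have := BilG.gG_bound hg hε p.1 p.2 h; rw [hh1] at this; exact this⟩
      apply hint _ ((hm h).pow_const 2) (c ^ 2)
      intro p
      rw [abs_pow]
      exact pow_le_pow_left₀ (abs_nonneg _) (hc p) 2
    exact (hb 1 norm_one).add (hb I Complex.norm_I)
  have hAF : AG (fun x w => F w (cr w x)) :=
    ⟨(ConvX89.bm_F hF.lf).meas, (ConvX89.bm_F hF.lf).bd⟩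
  have hih : IntegrableOn (fun p : ℂ × ℂ => hh v F ε p) (DD v) := hgen _ hAF
  have hid : IntegrableOn (fun p : ℂ × ℂ => dX v (XF X F) ε p.1 p.2 1 ^ 2 +
      dX v (XF X F) ε p.1 p.2 I ^ 2) (DD v) := hgen _ hAG
  have hw0 : ∀ᵐ p : ℂ × ℂ, p.2 ≠ 0 := by
    have hw : ∀ᵐ w : ℂ, w ≠ 0 := by simp [ae_iff, measure_singleton]
    exact Measure.quasiMeasurePreserving_snd.ae hw
  have hle : TE v (XF X F) ε ≤ ∫ p in DD v, (4 * (Real.pi * B * κ / ε) ^ 2 * R p.1 p.2 ^ 2 +
      2 * hh v F ε p) := by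
    unfold TE
    apply setIntegral_mono_ae_restrict hid ((hiR.const_mul _).add (hih.const_mul _))
    filter_upwards [ae_restrict_mem measurableSet_DD, ae_restrict_of_ae hw0] with p hp hp0
    exact hpt p.1 (mem_DD.1 hp).1 p.2 hp0
  refine hle.trans ?_
  rw [integral_add (hiR.const_mul _) (hih.const_mul _), integral_const_mul, integral_const_mul]
  have hMe0 : 0 ≤ Me v F ε := by
    unfold Me
    exact integral_nonneg (fun p => by unfold hh; positivity)
  have hR0 : 0 ≤ ∫ p in DD v, R p.1 p.2 ^ 2 := integral_nonneg (fun p => sq_nonneg _)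
  have e1 : 4 * (Real.pi * B * κ / ε) ^ 2 * (∫ p in DD v, R p.1 p.2 ^ 2) =
      4 * (Real.pi * B) ^ 2 * (κ ^ 2 / ε ^ 2 * ∫ p in DD v, R p.1 p.2 ^ 2) := by
    field_simp
  have e2 : ∫ p in DD v, hh v F ε p = Me v F ε := rfl
  rw [e1, e2]
  have h3 : 0 ≤ κ ^ 2 / ε ^ 2 * ∫ p in DD v, R p.1 p.2 ^ 2 := by positivity
  have h4 : 0 ≤ 4 * (Real.pi * B) ^ 2 := by positivity
  nlinarith [mul_nonneg h4 hMe0]

end Pool.Agent.Lib.BilF.EstT87
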