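import Pool.Agent.Lib.MP_7bc51d_an_full.LimC22
import Pool.Agent.Lib.MP_7bc51d_an_erg.Fin12
import Pool.Agent.Lib.MP_7bc51d_an.Generic

/-!
# From small energy of approximants of the two lowest modes to ergodicity
-/

set_option autoImplicit false

namespace Pool.Agent.Lib.BilF.Glue22

open Complex MeasureTheory Set Filter Topology
open scoped ComplexConjugate
open Pool.Agent.Lib.Bil Pool.Agent.Lib.BilD Pool.Agent.Lib.BilE Pool.Agent.Lib.BilH
open Pool.Agent.Lib.BilE.Fin12 Pool.Agent.Lib.BilF.LimC22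

variable {n : ℕ} {v : Fin n → ℂ}

/-- the modes of a line function on the polygon -/
noncomputable def md (F : ℂ → ℝ → ℝ) (p : ℕ) (x : ℂ) : ℂ :=
  ∫ w in BV, (F w (cr w x) : ℂ) * em p w

theorem md_bound {F : ℂ → ℝ → ℝ} (hF : LF F) (p : ℕ) (x : ℂ) :
    ‖md F p x‖ ≤ (volume BV).toReal := by
  unfold md
  have h1 := norm_setIntegral_le_of_norm_le_const (μ := (volume : Measure ℂ)) (s := BV)
    (f := fun w => (F w (cr w x) : ℂ) * em p w) (C := 1) vol_BV (by
      intro w _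
      rw [norm_mul, norm_real, Real.norm_eq_abs]
      calc |F w (cr w x)| * ‖em p w‖ ≤ 1 * 1 :=
            mul_le_mul (hF.bd _ _) (em_norm p w) (norm_nonneg _) zero_le_one
        _ = 1 := one_mul 1)
  rw [one_mul] at h1
  exact h1

theorem md_meas {F : ℂ → ℝ → ℝ} (hF : LF F) (p : ℕ) : Measurable (md F p) := by
  have h1 : Measurable (fun q : ℂ × ℂ => (F q.2 (cr q.2 q.1) : ℂ) * em p q.2) :=
    (measurable_ofReal.comp (BilM.meas_F_swap hF)).mul ((em_meas p).comp measurable_snd)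
  have h2 : StronglyMeasurable (Function.uncurry
      (fun (x w : ℂ) => (F w (cr w x) : ℂ) * em p w)) := h1.stronglyMeasurable
  exact h2.integral_prod_right.measurable

theorem md_int {F : ℂ → ℝ → ℝ} (hF : LF F) (p : ℕ) : IntegrableOn (md F p) (PP v) :=
  Measure.integrableOn_of_bounded (M := (volume BV).toReal) isBounded_PP.measure_lt_top.ne
    (md_meas hF p).aestronglyMeasurable (Eventually.of_forall (fun x => md_bound hF p x))

/-- (SE) the two lowest modes of an admissible homogeneous line function are approximated in mean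
by `C ^ 1` functions of small energy. -/
def SE22 (v : Fin n → ℂ) : Prop := ∀ F, LFS v F → Hg F → ∀ p : ℕ, p ≤ 1 →
  SmallEn (PP v) (md F p)

theorem modes_const (hE : SE22 v) {F : ℂ → ℝ → ℝ} (hF : LFS v F) (hH : Hg F) {p : ℕ}
    (hp : p ≤ 1) : ∃ c : ℂ, ∀ᵐ x, x ∈ PP v → ∫ w in BV, (F w (cr w x) : ℂ) * em p w = c :=
  const_of_energy isOpen_PP convex_PP isBounded_PP (md_int hF.lf p) (hE F hF hH p hp)

/-- null or conull -/
theorem fin22 (hE : SE22 v) (hn : 3 ≤ n) (hv : ConvexIndependent ℝ v) (hirr : IrrPair v)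
    {A : Set (ℂ × ℂ)} (hA : MeasurableSet A)
    (hcone : ∀ x w : ℂ, ∀ c : ℝ, 0 < c → ((x, w) ∈ A ↔ (x, (c : ℂ) * w) ∈ A))
    (H : ∀ᵐ p ∂(volume : Measure (ℂ × ℂ)), HypAt v A p) :
    volume (A ∩ (PP v ×ˢ Metric.ball (0 : ℂ) 1)) = 0 ∨
      volume ((PP v ×ˢ Metric.ball (0 : ℂ) 1) \ A) = 0 := by
  have hch := chord_of_hyp (v := v) H
  have hF := lfs_FA hn hv hA H
  have hhom : Hom0 (FA v A) := BilM.FA_hom hcone
  have hs : ∀ i, SymAt (FA v A) (v i) (v (nxt hn hv i) - v i) := fun i =>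
    symAt_FA hn hv (inv_of_hyp hv H) hch (nxt_side hn hv i)
  have key : ∀ p : ℕ, p ≤ 1 → ∃ c : ℝ, ∀ᵐ q : ℂ × ℂ, q.1 ∈ PP v →
      (A.indicator (1 : ℂ × ℂ → ℝ) q - (∅ : Set (ℂ × ℂ)).indicator 1 q) +
        (-1) ^ p * (A.indicator (1 : ℂ × ℂ → ℝ) (q.1, -q.2) -
          (∅ : Set (ℂ × ℂ)).indicator 1 (q.1, -q.2)) = c := by
    intro p hp
    refine mode_sets hn hv hirr hA MeasurableSet.empty hcone (fun _ _ _ _ => Iff.rfl) H
      (Eventually.of_forall (fun q => hyp_empty q)) (k := p) ?_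
    obtain ⟨c, hc0, hc⟩ := modes01 hn hv hF.lf hhom hs hp (modes_const hE hF hhom hp)
    refine ⟨c, hc0, ?_⟩
    filter_upwards [hc, mode_eq hA hch] with x g1 g2 hxP
    rw [g2 hxP p, g1 hxP]
    unfold mode
    simp
  obtain ⟨c, hc⟩ := key 0 (by omega)
  obtain ⟨d, hd⟩ := key 1 le_rfl
  have h3 : ∀ᵐ p : ℂ × ℂ, p.1 ∈ PP v →
      A.indicator (1 : ℂ × ℂ → ℝ) p - (∅ : Set (ℂ × ℂ)).indicator 1 p = (c + d) / 2 := by
    filter_upwards [hc, hd] with p g1 g2 hp
    have g3 := g1 hp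
    have g4 := g2 hp
    rw [pow_zero, one_mul] at g3
    rw [pow_one] at g4
    linarith
  rcases BilM.ind_diff_cases h3 (Metric.ball (0 : ℂ) 1) with h | h | h
  · left
    apply measure_mono_null _ h
    intro p hp
    exact ⟨fun hcon => hcon.1 hp.1, hp.2⟩
  · left; exact h.1
  · right; exact h.1

/-- the problem, from (SE) -/
theorem final (hE : ∀ (n : ℕ) (v : Fin n → ℂ), 3 ≤ n → ConvexIndependent ℝ v → SE22 v) :
    ∀ n : ℕ, 3 ≤ n →
    ∀ᵐ v ∂(MeasureTheory.volume : MeasureTheory.Measure (Fin n → ℂ)),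
      ConvexIndependent ℝ v →
      ∀ A : Set (ℂ × ℂ), MeasurableSet A →
        (∀ x w : ℂ, ∀ c : ℝ, 0 < c → ((x, w) ∈ A ↔ (x, (c : ℂ) * w) ∈ A)) →
        (∀ᵐ p ∂(MeasureTheory.volume : MeasureTheory.Measure (ℂ × ℂ)),
          p.1 ∈ interior (convexHull ℝ (Set.range v)) → p.2 ≠ 0 →
          ∀ τ : ℝ, 0 < τ →
            p.1 + (τ : ℂ) * p.2 ∈ frontier (convexHull ℝ (Set.range v)) →
            (∀ s : ℝ, 0 ≤ s → s < τ → (p ∈ A ↔ (p.1 + (s : ℂ) * p.2, p.2) ∈ A)) ∧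
            (p.1 + (τ : ℂ) * p.2 ∉ Set.range v →
              ∀ i j : Fin n, i ≠ j → p.1 + (τ : ℂ) * p.2 ∈ segment ℝ (v i) (v j) →
                ∀ σ : ℝ, 0 < σ →
                  p.1 + (τ : ℂ) * p.2 + (σ : ℂ) *
                      ((v j - v i) / (starRingEnd ℂ) (v j - v i) * (starRingEnd ℂ) p.2)
                    ∈ frontier (convexHull ℝ (Set.range v)) →
                  ∀ r : ℝ, 0 < r → r < σ →
                    (p ∈ A ↔
                      (p.1 + (τ : ℂ) * p.2 + (r : ℂ) *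
                          ((v j - v i) / (starRingEnd ℂ) (v j - v i) * (starRingEnd ℂ) p.2),
                        (v j - v i) / (starRingEnd ℂ) (v j - v i) * (starRingEnd ℂ) p.2) ∈ A))) →
        MeasureTheory.volume
            (A ∩ (interior (convexHull ℝ (Set.range v)) ×ˢ Metric.ball (0 : ℂ) 1)) = 0 ∨
          MeasureTheory.volume
            ((interior (convexHull ℝ (Set.range v)) ×ˢ Metric.ball (0 : ℂ) 1) \ A) = 0 := by
  intro n hn
  filter_upwards [ae_irr n] with v hirr hv A hA hcone H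
  obtain ⟨i, j, k, l, hij, hkl, hd⟩ := two_sides hn hv
  have hpair : IrrPair v := ⟨i, j, k, l, hij, hkl, hirr i j k l hij.1 hkl.1 hd⟩
  exact fin22 (hE n v hn hv) hn hv hpair hA hcone H

end Pool.Agent.Lib.BilF.Glue22
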