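import Pool.Agent.Lib.MP_7bc51d_an_full.Irr62
import Pool.Agent.Lib.MP_7bc51d_an_full.Conv17
import Pool.Agent.Lib.MP_7bc51d_an_full.All16

/-!
# A convex polygon is ergodic if and only if two of its sides are at an irrational angle
-/

set_option autoImplicit false

namespace Pool.Agent.Lib.BilF.Ang62

open Complex MeasureTheory Set Filter Topology
open scoped ComplexConjugate ENNReal
open Pool.Agent.Lib.Bil Pool.Agent.Lib.BilH

variable {n : ℕ} {v : Fin n → ℂ}

/-- Two sides at an angle which is not a rational multiple of `π`. -/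
def IrrationalSides (v : Fin n → ℂ) : Prop :=
  ∃ i j k l : Fin n, i ≠ j ∧ k ≠ l ∧
    segment ℝ (v i) (v j) ⊆ frontier (convexHull ℝ (Set.range v)) ∧
    segment ℝ (v k) (v l) ⊆ frontier (convexHull ℝ (Set.range v)) ∧
    ∀ q : ℚ, Complex.arg ((v j - v i) / (v l - v k)) ≠ (q : ℝ) * Real.pi

theorem frontier_of_side (hv : ConvexIndependent ℝ v) {i j : Fin n} (h : IsSide v i j) :
    segment ℝ (v i) (v j) ⊆ frontier (convexHull ℝ (Set.range v)) := by
  intro x hx
  refine mem_frontier.2 ⟨convex_KK.segment_subset (vert_mem_KK i) (vert_mem_KK j) hx, fun hP => ?_⟩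
  have h1 := h.cr_pos hv hP
  obtain ⟨a, b, -, -, hab, rfl⟩ := hx
  have h2 : (a : ℂ) + (b : ℂ) = 1 := by rw [← ofReal_add, hab, ofReal_one]
  have h3 : a • v i + b • v j - v i = (b : ℂ) * (v j - v i) := by
    simp only [real_smul]
    linear_combination (v i) * h2
  rw [h3, cr_smul_right, cr_self, mul_zero] at h1
  exact lt_irrefl _ h1

theorem im_pow_zero_of_arg {r : ℂ} {q : ℚ} (h : arg r = (q : ℝ) * Real.pi) :
    (r ^ q.den).im = 0 := by
  have h1 : r = (‖r‖ : ℂ) * Complex.exp (arg r * I) := (Complex.norm_mul_exp_arg_mul_I r).symm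
  have h2 : r ^ q.den = ((‖r‖ ^ q.den : ℝ) : ℂ) *
      Complex.exp (((q.den * arg r : ℝ) : ℂ) * I) := by
    conv_lhs => rw [h1]
    rw [mul_pow, ← Complex.exp_nat_mul]
    push_cast
    ring_nf
  rw [h2, im_ofReal_mul, Complex.exp_ofReal_mul_I_im, h]
  have h3 : (q.den : ℝ) * ((q : ℝ) * Real.pi) = (q.num : ℝ) * Real.pi := by
    have h4 : (q.den : ℝ) * (q : ℝ) = (q.num : ℝ) := by
      have := Rat.den_mul_eq_num q
      exact_mod_cast this
    rw [← mul_assoc, h4]
  rw [h3, Real.sin_int_mul_pi, mul_zero]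

theorem ae_irrationalSides (n : ℕ) (hn : 3 ≤ n) :
    ∀ᵐ v : Fin n → ℂ, ConvexIndependent ℝ v → IrrationalSides v := by
  filter_upwards [ae_irr n] with v hirr hv
  obtain ⟨i, j, k, l, hij, hkl, hd⟩ := two_sides hn hv
  refine ⟨i, j, k, l, hij.1, hkl.1, frontier_of_side hv hij, frontier_of_side hv hkl,
    fun q hq => ?_⟩
  exact hirr i j k l hij.1 hkl.1 hd q.den q.den_pos (im_pow_zero_of_arg hq)

theorem irrationalSides_iff (hn : 3 ≤ n) (hv : ConvexIndependent ℝ v) :
    IrrationalSides v ↔ IrrPair v := by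
  constructor
  · rintro ⟨i, j, k, l, hij, hkl, h1, h2, h⟩
    exact irrPair_of hn hv hij hkl h1 h2 h
  · rintro ⟨i, j, k, l, hij, hkl, h⟩
    exact ⟨i, j, k, l, hij.1, hkl.1, frontier_of_side hv hij, frontier_of_side hv hkl,
      fun q hq => h q.den q.den_pos (im_pow_zero_of_arg hq)⟩

theorem dir_add (θ : ℝ) : dir (θ + 2 * Real.pi) = dir θ := by
  unfold dir
  push_cast
  rw [add_mul, Complex.exp_add, Complex.exp_two_pi_mul_I, mul_one]

theorem continuous_dir : Continuous dir := by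
  unfold dir
  fun_prop

theorem exists_angle {e : ℂ} (he : e ≠ 0) {N : ℕ} (hN : 0 < N) {ζ : ℂ} (hζ : ζ ≠ 0) :
    ∃ θ : ℝ, θ ∈ Icc (-Real.pi) Real.pi ∧ ∃ r : ℝ, 0 < r ∧ (dir θ / e) ^ N = (r : ℂ) * ζ := by
  obtain ⟨w, -, r, hr, hw⟩ := Conv17.exists_dir he hN ζ hζ
  have hw0 : w ≠ 0 := by
    rintro rfl
    rw [zero_div, zero_pow hN.ne'] at hw
    have h1 : (r : ℂ) ≠ 0 := by exact_mod_cast hr.ne'
    exact (mul_ne_zero h1 hζ) hw.symm
  have hρ : 0 < ‖w‖ := norm_pos_iff.2 hw0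
  have hρc : (‖w‖ : ℂ) ≠ 0 := by exact_mod_cast hρ.ne'
  refine ⟨arg w, ⟨(Complex.neg_pi_lt_arg w).le, Complex.arg_le_pi w⟩, r / ‖w‖ ^ N,
    div_pos hr (pow_pos hρ N), ?_⟩
  have e1 : dir (arg w) = w / (‖w‖ : ℂ) := by
    rw [eq_div_iff hρc, mul_comm]; exact dir_arg _
  rw [e1]
  have e2 : (w / (‖w‖ : ℂ) / e) ^ N = (w / e) ^ N / (‖w‖ : ℂ) ^ N := by
    rw [← div_pow]; congr 1; field_simp
  rw [e2, hw]
  push_cast
  field_simp

theorem open_pos (hn : 3 ≤ n) (hv : ConvexIndependent ℝ v) {U : Set ℝ} (hU : IsOpen U) {θ : ℝ}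
    (hθ : θ ∈ Icc (-Real.pi) Real.pi) (hθU : θ ∈ U) {B : Set (ℂ × ℝ)}
    (hB : ∀ x θ, θ ∈ U → (x, θ) ∈ B) : volume (phase v ∩ B) ≠ 0 := by
  obtain ⟨y, hy⟩ := PP_nonempty hn hv
  have hpi : (-Real.pi) ≠ Real.pi := by
    have := Real.pi_pos
    linarith
  rw [← closure_Ioo hpi] at hθ
  obtain ⟨φ, hφU, hφ⟩ := mem_closure_iff.1 hθ U hU hθU
  have ho : IsOpen (PP v ×ˢ (U ∩ Ioo (-Real.pi) Real.pi)) := isOpen_PP.prod (hU.inter isOpen_Ioo)
  have h1 : 0 < volume (PP v ×ˢ (U ∩ Ioo (-Real.pi) Real.pi)) :=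
    ho.measure_pos volume ⟨(y, φ), hy, hφU, hφ⟩
  refine (h1.trans_le (measure_mono ?_)).ne'
  rintro ⟨x, ψ⟩ ⟨hx, hψU, hψ⟩
  exact ⟨⟨hx, hψ.1, hψ.2.le⟩, hB x ψ hψU⟩

theorem not_ergodic (hn : 3 ≤ n) (hv : ConvexIndependent ℝ v) (h : ¬ IrrationalSides v) :
    ¬ Ergodic v := by
  have hrat : ∀ i j k l : Fin n, IsSide v i j → IsSide v k l →
      ∃ m : ℕ, 0 < m ∧ (((v j - v i) / (v l - v k)) ^ m).im = 0 := by
    intro i j k l hij hkl
    by_contra hcon
    push Not at hcon
    exact h ((irrationalSides_iff hn hv).2 ⟨i, j, k, l, hij, hkl, hcon⟩)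
  obtain ⟨e, N, he, hN, hc⟩ := Conv17.common hn hv hrat
  intro herg
  have hcont : Continuous (fun θ : ℝ => ((dir θ / e) ^ N).re) :=
    continuous_re.comp ((continuous_dir.div_const e).pow N)
  set A : Set (ℂ × ℝ) := {p | 0 < ((dir p.2 / e) ^ N).re} with hA
  have hAo : IsOpen A := isOpen_lt continuous_const (hcont.comp continuous_snd)
  have hinv : FlowInvariant v A := by
    refine Eventually.of_forall (fun p _ q hq => ?_)
    rcases hq with ⟨h1, -⟩ | ⟨i, j, t, s, hij, ht, hs, hin, hout, hseg, hd, -, -⟩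
    · change 0 < ((dir p.2 / e) ^ N).re ↔ 0 < ((dir q.2 / e) ^ N).re
      rw [h1]
    · have hK : p.1 + (t : ℂ) * dir p.2 ∈ KK v :=
        convex_KK.segment_subset (vert_mem_KK i) (vert_mem_KK j)
          (openSegment_subset_segment ℝ _ _ hseg)
      have hr : p.1 + (t : ℂ) * dir p.2 ∉ Set.range v := by
        rintro ⟨k, hk⟩
        rw [← hk, openSegment_eq_image'] at hseg
        obtain ⟨a, ⟨ha0, ha1⟩, hka⟩ := hseg
        simp only [real_smul] at hka
        have hne := v_sub_ne hv hij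
        by_cases hki : k = i
        · rw [hki] at hka
          have h3 : (a : ℂ) * (v j - v i) = 0 := by linear_combination hka
          rcases mul_eq_zero.1 h3 with h4 | h4
          · exact ha0.ne' (by exact_mod_cast h4)
          · exact hne h4
        · by_cases hkj : k = j
          · rw [hkj] at hka
            have h3 : (1 - (a : ℂ)) * (v j - v i) = 0 := by linear_combination -hka
            rcases mul_eq_zero.1 h3 with h4 | h4
            · have : (1 : ℝ) - a = 0 := by exact_mod_cast h4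
              linarith
            · exact hne h4
          · exact no_between hv hki hkj ha0.le ha1.le hka.symm
      have hf : p.1 + (t : ℂ) * dir p.2 ∈ frontier (convexHull ℝ (Set.range v)) :=
        mem_frontier.2 ⟨hK, hout⟩
      have him : (((v j - v i) / e) ^ N).im = 0 := by
        rcases Conv17.side_of_point hn hv hij hf hr (openSegment_subset_segment ℝ _ _ hseg) with
          h1 | h1
        · exact hc i j h1
        · have h2 := hc j i h1
          have e1 : ((v j - v i) / e) = -((v i - v j) / e) := by ring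
          rw [e1]
          rcases neg_pow_or ((v i - v j) / e) N with h3 | h3
          · rw [h3]; exact h2
          · rw [h3, neg_im, h2, neg_zero]
      change 0 < ((dir p.2 / e) ^ N).re ↔ 0 < ((dir q.2 / e) ^ N).re
      rw [hd, Conv17.ref e he (v_sub_ne hv hij) him]
  have hper : ∀ (x : ℂ) (θ : ℝ), (x, θ) ∈ A ↔ (x, θ + 2 * Real.pi) ∈ A := by
    intro x θ
    change 0 < ((dir θ / e) ^ N).re ↔ 0 < ((dir (θ + 2 * Real.pi) / e) ^ N).re
    rw [dir_add]
  rcases herg A hAo.measurableSet hper hinv with h1 | h1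
  · obtain ⟨θ, hθ, r, hr, hw⟩ := exists_angle he hN (ζ := 1) one_ne_zero
    refine open_pos hn hv (U := {θ | 0 < ((dir θ / e) ^ N).re})
      (isOpen_lt continuous_const hcont) hθ ?_ (B := A) (fun x θ hθ => hθ) h1
    change 0 < ((dir θ / e) ^ N).re
    rw [hw, mul_one, ofReal_re]
    exact hr
  · obtain ⟨θ, hθ, r, hr, hw⟩ := exists_angle he hN (ζ := -1) (neg_ne_zero.2 one_ne_zero)
    rw [diff_eq] at h1
    refine open_pos hn hv (U := {θ | ((dir θ / e) ^ N).re < 0})
      (isOpen_lt hcont continuous_const) hθ ?_ (B := Aᶜ) (fun x θ hθ hcon => ?_) h1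
    · change ((dir θ / e) ^ N).re < 0
      rw [hw, mul_neg, mul_one, neg_re, ofReal_re]
      linarith
    · have h2 : ((dir θ / e) ^ N).re < 0 := hθ
      have h3 : 0 < ((dir θ / e) ^ N).re := hcon
      linarith

theorem ergodic_iff (hn : 3 ≤ n) (hv : ConvexIndependent ℝ v) :
    Ergodic v ↔ IrrationalSides v := by
  constructor
  · intro h
    by_contra hcon
    exact not_ergodic hn hv hcon h
  · intro h
    exact ergodic All16.const hn hv ((irrationalSides_iff hn hv).1 h)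

end Pool.Agent.Lib.BilF.Ang62
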