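import Pool.Agent.Lib.MP_7bc51d_an.Code
import Pool.Agent.Lib.MP_7bc51d_an.Words
import Pool.Agent.Lib.MP_7bc51d_an.Mink

/-!
# Disjoint images of the unfolding words (98)

For `x` in the open polygon the maps `(x, w) ↦ (Fo g x, Lo g w)` on the sets `Rz v g x w` preserve
the volume and have pairwise disjoint images.
-/

set_option autoImplicit false

namespace Pool.Agent.Lib.BilF.Img98

open Complex MeasureTheory Set Filter Topology
open scoped ComplexConjugate ENNReal
open Pool.Agent.Lib.Bil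

variable {n : ℕ} {v : Fin n → ℂ}

theorem RR_sub_v {i j : Fin n} (y : ℂ) : RR v i j y - v i = rl (v j - v i) (y - v i) := by
  unfold RR; ring

/-- The entrance side of the last copy. -/
theorem entr (hv : ConvexIndependent ℝ v) {s : Fin n × Fin n} {g : List (Fin n × Fin n)} {x w : ℂ}
    (h : Rz v (s :: g) x w) :
    cr (Lo v (s :: g) w) (v s.2) < cr (Lo v (s :: g) w) (Fo v (s :: g) x) ∧
      cr (Lo v (s :: g) w) (Fo v (s :: g) x) < cr (Lo v (s :: g) w) (v s.1) := by
  obtain ⟨_, h2, h3, h4⟩ := h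
  have hne := v_sub_ne hv h2.1
  have e1 : cr (Lo v (s :: g) w) (Fo v (s :: g) x - v s.1) = - cr (Lo v g w) (Fo v g x - v s.1) := by
    change cr (rl (v s.2 - v s.1) (Lo v g w)) (RR v s.1 s.2 (Fo v g x) - v s.1) = _
    rw [RR_sub_v, cr_rl hne]
  have e2 : cr (Lo v (s :: g) w) (v s.2 - v s.1) = - cr (Lo v g w) (v s.2 - v s.1) := by
    change cr (rl (v s.2 - v s.1) (Lo v g w)) (v s.2 - v s.1) = _
    conv_lhs => rw [← rl_self hne]
    rw [rl_self hne]
    nth_rewrite 2 [← rl_self hne]
    rw [cr_rl hne]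
  rw [cr_sub_right, cr_sub_right] at e1 e2
  constructor <;> linarith

/-- The virtual origin is on the inner side of the exit side. -/
theorem inner_side (hv : ConvexIndependent ℝ v) {x : ℂ} (hx : x ∈ PP v) {w : ℂ}
    {g : List (Fin n × Fin n)} : ∀ {s : Fin n × Fin n}, Rz v (s :: g) x w →
      0 < cr (v s.2 - v s.1) (Fo v g x - v s.1) := by
  induction g with
  | nil =>
    intro s h
    exact h.2.1.cr_pos hv hx
  | cons s' g ih =>
    intro s h
    have h' := h.1
    have hi := ih h'
    have hne := v_sub_ne hv h'.2.1.1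
    obtain ⟨k1, k2⟩ := entr hv h'
    set y := Fo v (s' :: g) x with hy
    set u := Lo v (s' :: g) w with hu
    have e0 : cr (v s'.2 - v s'.1) (y - v s'.1) = - cr (v s'.2 - v s'.1) (Fo v g x - v s'.1) := by
      have : y - v s'.1 = rl (v s'.2 - v s'.1) (Fo v g x - v s'.1) := RR_sub_v _
      rw [this]
      nth_rewrite 1 [← rl_self hne]
      rw [cr_rl hne]
    obtain ⟨t, t0, t1, te, tw⟩ := side_line k1 k2
    set E := v s'.1 + (t : ℂ) * (v s'.2 - v s'.1) with hE
    have hEK : E ∈ KK v := side_point_mem_KK t0.le t1.le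
    have hu0 : u ≠ 0 := by
      intro h0
      rw [h0, cr_zero_left, cr_zero_left] at k1
      exact lt_irrefl _ k1
    have hcr : cr u (y - E) = 0 := by rw [cr_sub_right, te, sub_self]
    obtain ⟨r, hr⟩ := (cr_eq_zero_iff hu0).1 hcr
    have hyE : y = E + (r : ℂ) * u := by rw [← hr]; ring
    have e1 : cr (v s'.2 - v s'.1) (y - v s'.1) = r * cr (v s'.2 - v s'.1) u := by
      have : y - v s'.1 = (t : ℂ) * (v s'.2 - v s'.1) + (r : ℂ) * u := by rw [hyE, hE]; ring
      rw [this, cr_add_right, cr_smul_right, cr_smul_right, cr_self, mul_zero, zero_add]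
    have hr0 : r < 0 := by
      by_contra hcon
      push Not at hcon
      have : 0 ≤ r * cr (v s'.2 - v s'.1) u := mul_nonneg hcon tw.le
      linarith
    have hEs : 0 ≤ cr (v s.2 - v s.1) (E - v s.1) := h.2.1.cr_nonneg hEK
    have hout : cr (v s.2 - v s.1) u < 0 := by
      have := h.2.2.1.trans h.2.2.2
      rw [cr_swap, cr_sub_right]
      linarith
    have e2 : cr (v s.2 - v s.1) (y - v s.1) =
        cr (v s.2 - v s.1) (E - v s.1) + r * cr (v s.2 - v s.1) u := by
      have : y - v s.1 = (E - v s.1) + (r : ℂ) * u := by rw [hyE]; ring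
      rw [this, cr_add_right, cr_smul_right]
    rw [e2]
    have := mul_pos_of_neg_of_neg hr0 hout
    linarith

theorem Fo_not_mem (hv : ConvexIndependent ℝ v) {x : ℂ} (hx : x ∈ PP v) {w : ℂ}
    {g : List (Fin n × Fin n)} {s : Fin n × Fin n} (h : Rz v (s :: g) x w) :
    Fo v (s :: g) x ∉ PP v := by
  intro hmem
  have h1 := inner_side hv hx h
  have h2 := h.2.1.cr_pos hv hmem
  have hne := v_sub_ne hv h.2.1.1
  have e0 : cr (v s.2 - v s.1) (Fo v (s :: g) x - v s.1) =
      - cr (v s.2 - v s.1) (Fo v g x - v s.1) := by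
    have : Fo v (s :: g) x - v s.1 = rl (v s.2 - v s.1) (Fo v g x - v s.1) := RR_sub_v _
    rw [this]
    nth_rewrite 1 [← rl_self hne]
    rw [cr_rl hne]
  linarith

/-- The word is determined by the image. -/
theorem word_unique (hn : 3 ≤ n) (hv : ConvexIndependent ℝ v) {x x' w w' : ℂ} (hx : x ∈ PP v)
    (hx' : x' ∈ PP v) {g g' : List (Fin n × Fin n)} (h : Rz v g x w) (h' : Rz v g' x' w')
    (e : Fo v g x = Fo v g' x') (e' : Lo v g w = Lo v g' w') : g = g' := by
  induction g generalizing g' with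
  | nil =>
    cases g' with
    | nil => rfl
    | cons s' g' => exact absurd (e ▸ hx : Fo v (s' :: g') x' ∈ PP v) (Fo_not_mem hv hx' h')
  | cons s g ih =>
    cases g' with
    | nil => exact absurd (e.symm ▸ hx' : Fo v (s :: g) x ∈ PP v) (Fo_not_mem hv hx h)
    | cons s' g' =>
      obtain ⟨k1, k2⟩ := entr hv h
      obtain ⟨k1', k2'⟩ := entr hv h'
      rw [← e, ← e'] at k1' k2'
      have hs : s = s' := enter_unique hn hv h.2.1 h'.2.1 k1 k2 k1' k2'
      subst hs
      have hne := v_sub_ne hv h.2.1.1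
      have f1 : Fo v g x = Fo v g' x' := by
        have e2 : RR v s.1 s.2 (Fo v g x) = RR v s.1 s.2 (Fo v g' x') := e
        rw [← RR_RR v hne (Fo v g x), e2, RR_RR v hne]
      have f2 : Lo v g w = Lo v g' w' := by
        have e2 : rl (v s.2 - v s.1) (Lo v g w) = rl (v s.2 - v s.1) (Lo v g' w') := e'
        rw [← rl_rl hne (Lo v g w), e2, rl_rl hne]
      rw [ih h.1 h'.1 f1 f2]

/-- The unfolding map on the phase space. -/
noncomputable def Ph (v : Fin n → ℂ) (g : List (Fin n × Fin n)) (p : ℂ × ℂ) : ℂ × ℂ :=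
  (Fo v g p.1, Lo v g p.2)

theorem continuous_Ph (g : List (Fin n × Fin n)) : Continuous (Ph v g) :=
  ((continuous_Fo g).comp continuous_fst).prodMk ((continuous_Lo g).comp continuous_snd)

theorem mp_Fo (hv : ConvexIndependent ℝ v) {g : List (Fin n × Fin n)} (hg : Val v g) :
    MeasurePreserving (Fo v g) volume volume := by
  induction g with
  | nil => exact MeasurePreserving.id _
  | cons s g ih => exact (mp_RR (v_sub_ne hv hg.head.1)).comp (ih hg.tail)

theorem mp_Ph (hv : ConvexIndependent ℝ v) {g : List (Fin n × Fin n)} (hg : Val v g) :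
    MeasurePreserving (Ph v g) volume volume :=
  (mp_Fo hv hg).prod (mp_Lo hv hg)

theorem Ph_injective (hv : ConvexIndependent ℝ v) {g : List (Fin n × Fin n)} (hg : Val v g) :
    Function.Injective (Ph v g) := by
  intro p q h
  rw [Ph, Ph, Prod.mk.injEq] at h
  have h1 : p.1 = q.1 := by rw [← Un_Fo hv hg p.1, h.1, Un_Fo hv hg]
  have h2 : p.2 = q.2 := by
    have h3 : Lo v g (p.2 - q.2) = 0 := by rw [Lo_sub, h.2, sub_self]
    have h4 := norm_Lo hv hg (p.2 - q.2)
    rw [h3, norm_zero] at h4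
    exact sub_eq_zero.1 (norm_eq_zero.1 h4.symm)
  exact Prod.ext h1 h2

/-- The volume of the points whose orbit (in the sense of lines) meets `Y` is at most the volume of
`Y`. -/
theorem vol_words (hn : 3 ≤ n) (hv : ConvexIndependent ℝ v) {Y : Set (ℂ × ℂ)}
    (hY : MeasurableSet Y) :
    volume {p : ℂ × ℂ | p.1 ∈ PP v ∧ ∃ g, Rz v g p.1 p.2 ∧ Ph v g p ∈ Y} ≤ volume Y := by
  set S : List (Fin n × Fin n) → Set (ℂ × ℂ) := fun g =>
    {p | p.1 ∈ PP v ∧ Rz v g p.1 p.2 ∧ Ph v g p ∈ Y} with hS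
  have hSm : ∀ g, MeasurableSet (S g) := by
    intro g
    have h1 : MeasurableSet {p : ℂ × ℂ | p.1 ∈ PP v} :=
      (isOpen_interior.preimage continuous_fst).measurableSet
    have h2 : MeasurableSet {p : ℂ × ℂ | Rz v g p.1 p.2} := (isOpen_Rz g).measurableSet
    have h3 : MeasurableSet {p : ℂ × ℂ | Ph v g p ∈ Y} := (continuous_Ph g).measurable hY
    exact h1.inter (h2.inter h3)
  have hU : {p : ℂ × ℂ | p.1 ∈ PP v ∧ ∃ g, Rz v g p.1 p.2 ∧ Ph v g p ∈ Y} = ⋃ g, S g := by
    ext p
    simp only [hS, mem_ofPred_eq, mem_iUnion]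
    constructor
    · rintro ⟨h1, g, h2, h3⟩; exact ⟨g, h1, h2, h3⟩
    · rintro ⟨g, h1, h2, h3⟩; exact ⟨h1, g, h2, h3⟩
  have hemb : ∀ g, Val v g → MeasurableEmbedding (Ph v g) := fun g hg =>
    (continuous_Ph g).measurableEmbedding (Ph_injective hv hg)
  have hvol : ∀ g, volume (S g) = volume (Ph v g '' S g) := by
    intro g
    by_cases hg : Val v g
    · have h := (mp_Ph hv hg).measure_preimage_emb (hemb g hg) (Ph v g '' S g)
      rw [preimage_image_eq _ (Ph_injective hv hg)] at h
      exact h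
    · have : S g = ∅ := by
        ext p
        simp only [hS, mem_ofPred_eq, mem_empty_iff_false, iff_false]
        rintro ⟨_, h2, _⟩
        exact hg h2.val
      rw [this, image_empty]
  have himm : ∀ g, MeasurableSet (Ph v g '' S g) := by
    intro g
    by_cases hg : Val v g
    · exact (hemb g hg).measurableSet_image' (hSm g)
    · have : S g = ∅ := by
        ext p
        simp only [hS, mem_ofPred_eq, mem_empty_iff_false, iff_false]
        rintro ⟨_, h2, _⟩
        exact hg h2.val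
      rw [this, image_empty]
      exact MeasurableSet.empty
  have hdisj : Pairwise (fun g g' => Disjoint (Ph v g '' S g) (Ph v g' '' S g')) := by
    intro g g' hne
    rw [Set.disjoint_left]
    rintro q ⟨p, hp, rfl⟩ ⟨p', hp', he⟩
    rw [Ph, Ph, Prod.mk.injEq] at he
    exact hne (word_unique hn hv hp.1 hp'.1 hp.2.1 hp'.2.1 he.1.symm he.2.symm)
  calc volume {p : ℂ × ℂ | p.1 ∈ PP v ∧ ∃ g, Rz v g p.1 p.2 ∧ Ph v g p ∈ Y}
      = volume (⋃ g, S g) := by rw [hU]
    _ ≤ ∑' g, volume (S g) := measure_iUnion_le _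
    _ = ∑' g, volume (Ph v g '' S g) := by congr 1; ext g; exact hvol g
    _ = volume (⋃ g, Ph v g '' S g) := (measure_iUnion hdisj himm).symm
    _ ≤ volume Y := by
      apply measure_mono
      apply iUnion_subset
      rintro g q ⟨p, hp, rfl⟩
      exact hp.2.2

end Pool.Agent.Lib.BilF.Img98
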