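import Pool.Agent.Lib.MP_7bc51d_an_full.Ang62

/-!
# Irrational pairs of sides
-/

set_option autoImplicit false

namespace Pool.Agent.Lib.BilF.Ang62

open Complex MeasureTheory Set Filter Topology
open scoped ComplexConjugate ENNReal
open Pool.Agent.Lib.Bil Pool.Agent.Lib.BilH

variable {n : ℕ} {v : Fin n → ℂ}

theorem side_of_frontier (hn : 3 ≤ n) (hv : ConvexIndependent ℝ v) {i j : Fin n} (hij : i ≠ j)
    (h : segment ℝ (v i) (v j) ⊆ frontier (convexHull ℝ (Set.range v))) :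
    IsSide v i j ∨ IsSide v j i := by
  have hne := v_sub_ne hv hij
  set c : ℂ := v i + ((1 / 2 : ℝ) : ℂ) * (v j - v i) with hc
  have hcO : c ∈ openSegment ℝ (v i) (v j) := by
    rw [openSegment_eq_image']
    exact ⟨1 / 2, ⟨by norm_num, by norm_num⟩, by simp only [real_smul]; rfl⟩
  obtain ⟨hK, hP⟩ := mem_frontier.1 (h (openSegment_subset_segment ℝ _ _ hcO))
  have hr : c ∉ Set.range v := by
    rintro ⟨k, hk⟩
    have h2 : (((1 / 2 : ℝ) : ℝ) : ℂ) ≠ 0 := by norm_num
    by_cases hki : k = i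
    · rw [hki, hc] at hk
      have h3 : ((1 / 2 : ℝ) : ℂ) * (v j - v i) = 0 := by linear_combination -hk
      rcases mul_eq_zero.1 h3 with h4 | h4
      · exact h2 h4
      · exact hne h4
    · by_cases hkj : k = j
      · rw [hkj, hc] at hk
        have h3 : (1 - ((1 / 2 : ℝ) : ℂ)) * (v j - v i) = 0 := by linear_combination hk
        rcases mul_eq_zero.1 h3 with h4 | h4
        · norm_num at h4
        · exact hne h4
      · exact no_between hv hki hkj (s := 1 / 2) (by norm_num) (by norm_num) hk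
  obtain ⟨k, l, hkl, s, hs0, hs1, hs⟩ := exists_side hn hv hK hP hr
  have h0 : cr (v l - v k) (c - v k) = 0 := by
    rw [hs, add_sub_cancel_left, cr_smul_right, cr_self, mul_zero]
  rcases side_of_zero hkl hij hcO h0 with ⟨h1, h2⟩ | ⟨h1, h2⟩
  · left; rw [h1, h2]; exact hkl
  · right; rw [h1, h2]; exact hkl

theorem im_pow_ne {r : ℂ} (hr : r ≠ 0) (h : ∀ q : ℚ, arg r ≠ (q : ℝ) * Real.pi) (m : ℕ)
    (hm : 0 < m) : (r ^ m).im ≠ 0 := by
  intro h0
  have h1 : r = (‖r‖ : ℂ) * Complex.exp (arg r * I) := (Complex.norm_mul_exp_arg_mul_I r).symm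
  have h2 : r ^ m = ((‖r‖ ^ m : ℝ) : ℂ) * Complex.exp (((m * arg r : ℝ) : ℂ) * I) := by
    conv_lhs => rw [h1]
    rw [mul_pow, ← Complex.exp_nat_mul]
    push_cast
    ring_nf
  rw [h2, im_ofReal_mul, Complex.exp_ofReal_mul_I_im] at h0
  have h3 : ‖r‖ ^ m ≠ 0 := pow_ne_zero _ (norm_ne_zero_iff.2 hr)
  have h4 : Real.sin (m * arg r) = 0 := by
    rcases mul_eq_zero.1 h0 with h5 | h5
    · exact absurd h5 h3
    · exact h5
  obtain ⟨t, ht⟩ := Real.sin_eq_zero_iff.1 h4
  have hm0 : (m : ℝ) ≠ 0 := by exact_mod_cast hm.ne'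
  apply h ((t : ℚ) / (m : ℚ))
  push_cast
  field_simp
  linarith

theorem neg_pow_or (a : ℂ) (m : ℕ) : (-a) ^ m = a ^ m ∨ (-a) ^ m = -a ^ m := by
  rcases Nat.even_or_odd m with h | h
  · exact Or.inl (Even.neg_pow h a)
  · exact Or.inr (Odd.neg_pow h a)

/-- Two boundary segments at an irrational angle. -/
theorem irrPair_of (hn : 3 ≤ n) (hv : ConvexIndependent ℝ v) {i j k l : Fin n} (hij : i ≠ j)
    (hkl : k ≠ l) (h1 : segment ℝ (v i) (v j) ⊆ frontier (convexHull ℝ (Set.range v)))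
    (h2 : segment ℝ (v k) (v l) ⊆ frontier (convexHull ℝ (Set.range v)))
    (h : ∀ q : ℚ, arg ((v j - v i) / (v l - v k)) ≠ (q : ℝ) * Real.pi) : IrrPair v := by
  have hne1 := v_sub_ne hv hij
  have hne2 := v_sub_ne hv hkl
  have hr : (v j - v i) / (v l - v k) ≠ 0 := div_ne_zero hne1 hne2
  have key := im_pow_ne hr h
  have key2 : ∀ m : ℕ, 0 < m → ((-((v j - v i) / (v l - v k))) ^ m).im ≠ 0 := by
    intro m hm h0
    rcases neg_pow_or ((v j - v i) / (v l - v k)) m with h3 | h3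
    · rw [h3] at h0
      exact key m hm h0
    · rw [h3, neg_im, neg_eq_zero] at h0
      exact key m hm h0
  rcases side_of_frontier hn hv hij h1 with a1 | a1 <;>
    rcases side_of_frontier hn hv hkl h2 with a2 | a2
  · exact ⟨i, j, k, l, a1, a2, key⟩
  · refine ⟨i, j, l, k, a1, a2, fun m hm => ?_⟩
    have e : (v j - v i) / (v k - v l) = -((v j - v i) / (v l - v k)) := by
      rw [← div_neg]; congr 1; ring
    rw [e]
    exact key2 m hm
  · refine ⟨j, i, k, l, a1, a2, fun m hm => ?_⟩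
    have e : (v i - v j) / (v l - v k) = -((v j - v i) / (v l - v k)) := by
      rw [← neg_div]; congr 1; ring
    rw [e]
    exact key2 m hm
  · refine ⟨j, i, l, k, a1, a2, fun m hm => ?_⟩
    have e : (v i - v j) / (v k - v l) = (v j - v i) / (v l - v k) := by
      rw [← neg_sub (v j) (v i), ← neg_sub (v l) (v k), neg_div_neg_eq]
    rw [e]
    exact key m hm

end Pool.Agent.Lib.BilF.Ang62
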