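import Pool.Agent.Lib.MP_7bc51d_an_full.Defs
import Pool.Agent.Lib.MP_7bc51d_an_erg.Hinv33

/-!
# Row LINE: the extended line function is constant on lines near a good point
-/

set_option autoImplicit false

namespace Pool.Agent.Lib.BilF.Line33

open Complex MeasureTheory Set Filter Topology
open scoped ComplexConjugate
open Pool.Agent.Lib.Bil Pool.Agent.Lib.BilD Pool.Agent.Lib.BilD.TI33 Pool.Agent.Lib.BilE
open Pool.Agent.Lib.BilE.Hinv33 Pool.Agent.Lib.BilF

variable {n : ℕ} {v : Fin n → ℂ}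

/-- Mirror image of a point of a line parallel to `w`. -/
theorem mirror {w : ℂ} (hw : w ≠ 0) (x : ℂ) (Q r : ℝ) :
    x - rl w (chi w (Q, r) - x) = chi w (Q, 2 * dt w x / (w.re ^ 2 + w.im ^ 2) - r) := by
  have hc : conj w ≠ 0 := by simpa using hw
  have hN : w.re ^ 2 + w.im ^ 2 ≠ 0 := by
    intro h0
    apply hw
    apply Complex.ext
    · simp only [zero_re]; nlinarith [sq_nonneg w.re, sq_nonneg w.im]
    · simp only [zero_im]; nlinarith [sq_nonneg w.re, sq_nonneg w.im]
  have hNc : ((w.re ^ 2 + w.im ^ 2 : ℝ) : ℂ) ≠ 0 := by exact_mod_cast hN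
  have hww : w * conj w = ((w.re ^ 2 + w.im ^ 2 : ℝ) : ℂ) := by
    rw [mul_conj, normSq_apply]
    congr 1
    ring
  have hdt : x * conj w + w * conj x = ((2 * dt w x : ℝ) : ℂ) := by
    apply Complex.ext
    · simp only [dt, mul_re, mul_im, add_re, add_im, conj_re, conj_im, ofReal_re]
      ring
    · simp only [dt, mul_re, mul_im, add_re, add_im, conj_re, conj_im, ofReal_im]
      ring
  unfold chi bs rl
  simp only
  rw [← mul_left_inj' hc, ← mul_left_inj' hNc]
  simp only [map_sub, map_add, map_mul, conj_ofReal, conj_I]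
  have e1 : ∀ z : ℂ, w / conj w * z * conj w = w * z := by
    intro z
    field_simp
  rw [sub_mul, e1]
  push_cast
  push_cast at hww hdt hNc
  field_simp
  linear_combination (((w.re : ℂ) ^ 2 + (w.im : ℂ) ^ 2)) * hdt - 2 * (dt w x : ℂ) * hww

theorem row : StLine := by
  intro n v C e0 hg F hF ε hε hε0 x hx
  have hw1 : ∀ᵐ w : ℂ, w ≠ 0 ∧ ∀ s ∈ SD v, Sw v F s w := by
    have hw0 : ∀ᵐ w : ℂ, w ≠ 0 := by simp [ae_iff, measure_singleton]
    have h2 : ∀ᵐ w : ℂ, ∀ s ∈ SD v, Sw v F s w := by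
      rw [Filter.eventually_all_finset]
      intro s hs
      have he := hg.edn s hs
      have hsym := hF.sym s hs
      unfold SymAt at hsym
      filter_upwards [hsym, ae_not_mem_line (ed v s)] with w h1 h2
      refine ⟨?_, h1⟩
      intro h3
      apply h2
      obtain ⟨t, ht⟩ := (cr_eq_zero_iff he).1 h3
      rw [Submodule.mem_span_singleton]
      exact ⟨t, by rw [real_smul]; exact ht.symm⟩
    filter_upwards [hw0, h2] with w h3 h4
    exact ⟨h3, h4⟩
  filter_upwards [hw1] with w hwS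
  obtain ⟨hw, hS⟩ := hwS
  have hv' : ∀ᵐ Q : ℝ, ∃ c : ℝ, ∀ᵐ r : ℝ, ‖x - chi w (Q, r)‖ ≤ 5 / 4 * ε →
      gx v F (chi w (Q, r)) w = c := by
    rcases hg.dic ε hε hε0 x hx with h | ⟨s, hs, h⟩
    · exact val_int hg F hε h hw
    · exact val_side hg hε hs h hw (hS s hs)
  have hf : Measurable (fun y => gx v F y w) := gx_meas_x hF.lf w
  have hmir : Measurable (fun y : ℂ => x - rl w (y - x)) :=
    (continuous_const.sub ((continuous_rl w).comp (continuous_id.sub continuous_const))).measurable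
  have hSm : MeasurableSet {y : ℂ | ‖y - x‖ ≤ ε → gx v F (x - rl w (y - x)) w = gx v F y w} := by
    have e1 : {y : ℂ | ‖y - x‖ ≤ ε → gx v F (x - rl w (y - x)) w = gx v F y w} =
        {y : ℂ | ‖y - x‖ ≤ ε}ᶜ ∪ {y : ℂ | gx v F (x - rl w (y - x)) w = gx v F y w} := by
      ext y
      simp only [mem_ofPred_eq, mem_union, mem_compl_iff]
      tauto
    rw [e1]
    refine MeasurableSet.union ?_ (measurableSet_eq_fun (hf.comp hmir) hf)
    exact (measurableSet_le (measurable_id.sub_const x).norm measurable_const).compl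
  have h1 : ∀ᵐ z : ℝ × ℝ, ‖chi w z - x‖ ≤ ε →
      gx v F (x - rl w (chi w z - x)) w = gx v F (chi w z) w := by
    have hm : MeasurableSet {z : ℝ × ℝ | ‖chi w z - x‖ ≤ ε →
        gx v F (x - rl w (chi w z - x)) w = gx v F (chi w z) w} :=
      (mp_chi hw).measurable hSm
    rw [Measure.volume_eq_prod, Measure.ae_prod_iff_ae_ae hm]
    filter_upwards [hv'] with Q hQ
    obtain ⟨c, hc⟩ := hQ
    have hc2 := (Measure.measurePreserving_sub_left volume
      (2 * dt w x / (w.re ^ 2 + w.im ^ 2))).quasiMeasurePreserving.ae hc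
    filter_upwards [hc, hc2] with r h1 h2 h3
    have h5 : ‖x - (x - rl w (chi w (Q, r) - x))‖ = ‖chi w (Q, r) - x‖ := by
      rw [sub_sub_cancel, norm_rl hw]
    rw [mirror hw] at h5 ⊢
    rw [h1 (by rw [norm_sub_rev]; linarith), h2 (by rw [h5]; linarith)]
  rw [ae_iff] at h1 ⊢
  have h2 := (mp_chi hw).measure_preimage hSm.compl.nullMeasurableSet
  have h3 : {z : ℝ × ℝ | ¬ (‖chi w z - x‖ ≤ ε →
      gx v F (x - rl w (chi w z - x)) w = gx v F (chi w z) w)} =
      chi w ⁻¹' {y : ℂ | ‖y - x‖ ≤ ε → gx v F (x - rl w (y - x)) w = gx v F y w}ᶜ := rfl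
  rw [h3, h2] at h1
  exact h1

end Pool.Agent.Lib.BilF.Line33
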