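import Pool.Agent.Lib.MP_7bc51d_an_full.CapDefs

/-!
# The anisotropic distance: measurability, bounds, behaviour along the flow
-/

set_option autoImplicit false

namespace Pool.Agent.Lib.BilF.Mnf22

open Complex MeasureTheory Set Filter Topology
open scoped ComplexConjugate
open Pool.Agent.Lib.Bil Pool.Agent.Lib.BilD Pool.Agent.Lib.BilF

variable {n : ℕ} {v : Fin n → ℂ} {a b : ℝ}

/-! ### bounds -/

theorem ctt_nn (p : List (Fin n × Fin n) × Fin n) (x w : ℂ) : 0 ≤ ctt v a b p x w := by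
  unfold ctt
  split_ifs
  · exact le_max_left _ _
  · exact zero_le_one

theorem ctt_le (p : List (Fin n × Fin n) × Fin n) (x w : ℂ) : ctt v a b p x w ≤ 1 := by
  unfold ctt
  split_ifs
  · exact max_le zero_le_one (min_le_left _ _)
  · exact le_rfl

theorem bdd (x w : ℂ) : BddBelow (range (fun p => ctt v a b p x w)) :=
  ⟨0, by rintro _ ⟨p, rfl⟩; exact ctt_nn p x w⟩

theorem Dp_nn (x w : ℂ) : 0 ≤ Dp v a b x w := Real.iInf_nonneg (fun p => ctt_nn p x w)

theorem Dp_le_ctt (p : List (Fin n × Fin n) × Fin n) (x w : ℂ) :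
    Dp v a b x w ≤ ctt v a b p x w := ciInf_le (bdd x w) p

theorem Dp_le (x w : ℂ) : Dp v a b x w ≤ 1 := by
  rcases isEmpty_or_nonempty (List (Fin n × Fin n) × Fin n) with h | ⟨⟨p⟩⟩
  · unfold Dp
    rw [Real.iInf_of_isEmpty]
    exact zero_le_one
  · exact (Dp_le_ctt p x w).trans (ctt_le p x w)

theorem nn (x w : ℂ) : 0 ≤ DD0 v a b x w := le_min (Dp_nn _ _) (Dp_nn _ _)

theorem le (x w : ℂ) : DD0 v a b x w ≤ 1 := (min_le_left _ _).trans (Dp_le _ _)

theorem near (hb : 0 < b) (x w : ℂ) (l : Fin n) : DD0 v a b x w ≤ b * ‖x - v l‖ := by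
  have h1 : ct v a b ([], l) x w ≤ b * ‖x - v l‖ := by
    change a * (0 * ‖w‖) + b * (|cr w (v l - x)| / ‖w‖) ≤ b * ‖x - v l‖
    rw [zero_mul, mul_zero, zero_add]
    refine mul_le_mul_of_nonneg_left ?_ hb.le
    rcases eq_or_ne w 0 with rfl | hw
    · simp
    · rw [div_le_iff₀ (norm_pos_iff.2 hw), mul_comm ‖x - v l‖, norm_sub_rev]
      exact abs_cr_le _ _
  have h2 : ctt v a b ([], l) x w ≤ b * ‖x - v l‖ := by
    unfold ctt
    rw [if_pos (show Rz v ([] : List (Fin n × Fin n)) x w from trivial)]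
    exact max_le (by positivity) ((min_le_right _ _).trans h1)
  exact (min_le_left _ _).trans ((Dp_le_ctt _ _ _).trans h2)

/-! ### measurability -/

theorem tau_meas (g : List (Fin n × Fin n)) :
    Measurable (fun q : ℂ × ℂ => tau v g q.1 q.2) := by
  cases g with
  | nil => exact measurable_const
  | cons s g =>
    have hL : Continuous (fun p : ℂ × ℂ => Lo v g p.2) := (continuous_Lo g).comp continuous_snd
    have hF : Continuous (fun p : ℂ × ℂ => Fo v g p.1) := (continuous_Fo g).comp continuous_fst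
    have c1 : Continuous (fun p : ℂ × ℂ => cr (ed v s) (Fo v g p.1 - v s.1)) := by
      unfold cr; fun_prop
    have c2 : Continuous (fun p : ℂ × ℂ => cr (Lo v g p.2) (ed v s)) := by
      unfold cr; fun_prop
    exact c1.measurable.div c2.measurable

theorem ct_meas (p : List (Fin n × Fin n) × Fin n) :
    Measurable (fun q : ℂ × ℂ => ct v a b p q.1 q.2) := by
  have hL : Continuous (fun q : ℂ × ℂ => Lo v p.1 q.2) := (continuous_Lo p.1).comp continuous_snd
  have hF : Continuous (fun q : ℂ × ℂ => Fo v p.1 q.1) := (continuous_Fo p.1).comp continuous_fst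
  have c1 : Continuous (fun q : ℂ × ℂ => |cr (Lo v p.1 q.2) (v p.2 - Fo v p.1 q.1)|) := by
    unfold cr; fun_prop
  have c2 : Measurable (fun q : ℂ × ℂ => ‖q.2‖) := continuous_snd.norm.measurable
  unfold ct
  exact (((tau_meas p.1).mul c2).const_mul a).add ((c1.measurable.div c2).const_mul b)

theorem ctt_meas (p : List (Fin n × Fin n) × Fin n) :
    Measurable (fun q : ℂ × ℂ => ctt v a b p q.1 q.2) := by
  unfold ctt
  exact Measurable.ite (isOpen_Rz p.1).measurableSet
    (measurable_const.max (measurable_const.min (ct_meas p))) measurable_const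

theorem Dp_meas : Measurable (fun q : ℂ × ℂ => Dp v a b q.1 q.2) := by
  unfold Dp
  exact Measurable.iInf (fun p => ctt_meas p)

theorem meas : Measurable (fun q : ℂ × ℂ => DD0 v a b q.1 q.2) := by
  have h1 : Measurable (fun q : ℂ × ℂ => Dp v a b q.1 (-q.2)) :=
    Dp_meas.comp (measurable_fst.prodMk measurable_snd.neg)
  exact Dp_meas.min h1

/-! ### along the flow -/

theorem Rz_line (g : List (Fin n × Fin n)) (x w : ℂ) (t : ℝ) :
    Rz v g (x + (t : ℂ) * w) w ↔ Rz v g x w := by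
  induction g with
  | nil => exact Iff.rfl
  | cons s g ih =>
    have h1 : cr (Lo v g w) (Fo v g (x + (t : ℂ) * w)) = cr (Lo v g w) (Fo v g x) := by
      rw [Fo_add, Lo_smul, cr_add_right, cr_smul_right, cr_self, mul_zero, add_zero]
    change (Rz v g (x + (t : ℂ) * w) w ∧ IsSide v s.1 s.2 ∧
        cr (Lo v g w) (v s.1) < cr (Lo v g w) (Fo v g (x + (t : ℂ) * w)) ∧
        cr (Lo v g w) (Fo v g (x + (t : ℂ) * w)) < cr (Lo v g w) (v s.2)) ↔
      (Rz v g x w ∧ IsSide v s.1 s.2 ∧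
        cr (Lo v g w) (v s.1) < cr (Lo v g w) (Fo v g x) ∧
        cr (Lo v g w) (Fo v g x) < cr (Lo v g w) (v s.2))
    rw [h1, ih]

theorem tau_line {g : List (Fin n × Fin n)} (s : Fin n × Fin n) {x w : ℂ}
    (h : Rz v (s :: g) x w) (t : ℝ) :
    tau v (s :: g) (x + (t : ℂ) * w) w = tau v (s :: g) x w - t := by
  obtain ⟨-, -, h1, h2⟩ := h
  have hpos : 0 < cr (Lo v g w) (ed v s) := by
    unfold ed
    rw [cr_sub_right]
    linarith
  change cr (ed v s) (Fo v g (x + (t : ℂ) * w) - v s.1) / cr (Lo v g w) (ed v s) =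
    cr (ed v s) (Fo v g x - v s.1) / cr (Lo v g w) (ed v s) - t
  have e1 : cr (ed v s) (Fo v g (x + (t : ℂ) * w) - v s.1) =
      cr (ed v s) (Fo v g x - v s.1) - t * cr (Lo v g w) (ed v s) := by
    rw [Fo_add, Lo_smul, add_sub_right_comm, cr_add_right, cr_smul_right,
      cr_swap (ed v s) (Lo v g w)]
    ring
  rw [e1]
  field_simp

theorem ct_line (ha : 0 < a) (p : List (Fin n × Fin n) × Fin n) {x w : ℂ} (h : Rz v p.1 x w)
    (t : ℝ) : ct v a b p (x + (t : ℂ) * w) w ≤ ct v a b p x w + a * (|t| * ‖w‖) := by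
  obtain ⟨g, l⟩ := p
  have h1 : cr (Lo v g w) (v l - Fo v g (x + (t : ℂ) * w)) = cr (Lo v g w) (v l - Fo v g x) := by
    rw [Fo_add, Lo_smul, ← sub_sub, cr_sub_right, cr_smul_right, cr_self, mul_zero, sub_zero]
  have h2 : tau v g (x + (t : ℂ) * w) w ≤ tau v g x w + |t| := by
    cases g with
    | nil =>
      change (0 : ℝ) ≤ 0 + |t|
      positivity
    | cons s g =>
      rw [tau_line s h t]
      have := neg_le_abs t
      linarith
  unfold ct
  simp only
  rw [h1]
  have h3 : a * (tau v g (x + (t : ℂ) * w) w * ‖w‖) ≤ a * ((tau v g x w + |t|) * ‖w‖) := by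
    gcongr
  nlinarith

theorem ctt_line (ha : 0 < a) (p : List (Fin n × Fin n) × Fin n) (x w : ℂ) (t : ℝ) :
    ctt v a b p (x + (t : ℂ) * w) w ≤ ctt v a b p x w + a * (|t| * ‖w‖) := by
  have hnn : 0 ≤ a * (|t| * ‖w‖) := by positivity
  unfold ctt
  by_cases h : Rz v p.1 x w
  · rw [if_pos h, if_pos ((Rz_line p.1 x w t).2 h)]
    have h1 := ct_line (b := b) ha p h t
    have h2 : min 1 (ct v a b p (x + (t : ℂ) * w) w) ≤
        min 1 (ct v a b p x w) + a * (|t| * ‖w‖) := by
      rw [← min_add_add_right]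
      exact min_le_min (by linarith) h1
    exact max_le (add_nonneg (le_max_left _ _) hnn) (h2.trans (by gcongr; exact le_max_right _ _))
  · rw [if_neg h, if_neg (fun h' => h ((Rz_line p.1 x w t).1 h'))]
    linarith

theorem Dp_line (ha : 0 < a) (x w : ℂ) (t : ℝ) :
    Dp v a b (x + (t : ℂ) * w) w ≤ Dp v a b x w + a * (|t| * ‖w‖) := by
  rcases isEmpty_or_nonempty (List (Fin n × Fin n) × Fin n) with h | h
  · unfold Dp
    rw [Real.iInf_of_isEmpty, Real.iInf_of_isEmpty]
    positivity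
  · rw [← sub_le_iff_le_add]
    refine le_ciInf (fun p => ?_)
    rw [sub_le_iff_le_add]
    exact (Dp_le_ctt p _ _).trans (ctt_line ha p x w t)

theorem DD0_line (ha : 0 < a) (x w : ℂ) (t : ℝ) :
    DD0 v a b (x + (t : ℂ) * w) w ≤ DD0 v a b x w + a * (|t| * ‖w‖) := by
  unfold DD0
  rw [← min_add_add_right]
  have h1 := Dp_line (v := v) (b := b) ha x w t
  have h2 := Dp_line (v := v) (b := b) ha x (-w) (-t)
  have e1 : x + ((-t : ℝ) : ℂ) * (-w) = x + (t : ℂ) * w := by push_cast; ring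
  rw [e1, abs_neg, norm_neg] at h2
  exact min_le_min h1 h2

theorem flow (ha : 0 < a) (x w : ℂ) (t : ℝ) :
    |DD0 v a b (x + (t : ℂ) * w) w - DD0 v a b x w| ≤ a * (|t| * ‖w‖) := by
  have h1 := DD0_line (v := v) (b := b) ha x w t
  have h2 := DD0_line (v := v) (b := b) ha (x + (t : ℂ) * w) w (-t)
  have e1 : x + (t : ℂ) * w + ((-t : ℝ) : ℂ) * w = x := by push_cast; ring
  rw [e1, abs_neg] at h2
  rw [abs_le]
  constructor <;> linarith

end Pool.Agent.Lib.BilF.Mnf22
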