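import Mathlib

/-!
# The cutoff function of the real variable and the ladder inequality
-/

set_option autoImplicit false

namespace Pool.Agent.Lib.BilU.Phi40

open MeasureTheory Set

/-- The radii of the cutoff levels. -/
noncomputable def ra (r0 : ℝ) (i : ℕ) : ℝ := 8 ^ (i + 1) * r0

/-- The cutoff: average of `m` levels. -/
noncomputable def Ph (m : ℕ) (r0 d : ℝ) : ℝ :=
  (m : ℝ)⁻¹ * ∑ i ∈ Finset.range m, max 0 (min 1 (d / ra r0 i - 1))

/-- Lipschitz bound of the cutoff. -/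
noncomputable def Wh (m : ℕ) (r0 d : ℝ) : ℝ :=
  (m : ℝ)⁻¹ * ∑ i ∈ Finset.range m,
    (Icc (ra r0 i / 2) (3 * ra r0 i)).indicator (fun _ => (ra r0 i)⁻¹) d

theorem ra_pos {r0 : ℝ} (h : 0 < r0) (i : ℕ) : 0 < ra r0 i := by unfold ra; positivity

theorem ra_ge {r0 : ℝ} (h : 0 < r0) (i : ℕ) : 8 * r0 ≤ ra r0 i := by
  unfold ra
  have : (1 : ℝ) ≤ 8 ^ i := one_le_pow₀ (by norm_num)
  rw [pow_succ]
  nlinarith

theorem ra_step {r0 : ℝ} (h : 0 < r0) {i j : ℕ} (hij : i < j) : 8 * ra r0 i ≤ ra r0 j := by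
  unfold ra
  have h1 : (8 : ℝ) ^ (i + 2) ≤ 8 ^ (j + 1) := pow_le_pow_right₀ (by norm_num) (by omega)
  have h2 : (8 : ℝ) ^ (i + 2) = 8 * 8 ^ (i + 1) := by rw [pow_succ]; ring
  nlinarith

theorem Ph_nonneg (m : ℕ) (r0 d : ℝ) : 0 ≤ Ph m r0 d := by
  unfold Ph
  exact mul_nonneg (by positivity) (Finset.sum_nonneg (fun i _ => le_max_left _ _))

theorem Ph_le_one (m : ℕ) (r0 d : ℝ) : Ph m r0 d ≤ 1 := by
  unfold Ph
  rcases Nat.eq_zero_or_pos m with rfl | hm
  · simp
  have hm' : (0 : ℝ) < m := by exact_mod_cast hm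
  have h1 : ∑ i ∈ Finset.range m, max 0 (min 1 (d / ra r0 i - 1)) ≤ m := by
    calc _ ≤ ∑ i ∈ Finset.range m, (1 : ℝ) :=
          Finset.sum_le_sum (fun i _ => max_le zero_le_one (min_le_left _ _))
      _ = m := by simp
  rw [inv_mul_le_iff₀ hm', mul_one]
  exact h1

theorem Ph_zero {m : ℕ} {r0 d : ℝ} (h0 : 0 < r0) (hd : d ≤ 8 * r0) : Ph m r0 d = 0 := by
  unfold Ph
  rw [Finset.sum_eq_zero, mul_zero]
  intro i _
  have h1 := ra_ge h0 i
  have h2 : d / ra r0 i ≤ 1 := by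
    rw [div_le_one (ra_pos h0 i)]
    linarith
  exact max_eq_left ((min_le_right _ _).trans (by linarith))

theorem Ph_one {m : ℕ} {r0 d : ℝ} (h0 : 0 < r0) (hm : 0 < m) (hd : 2 * ra r0 (m - 1) ≤ d) :
    Ph m r0 d = 1 := by
  unfold Ph
  have hm' : (m : ℝ) ≠ 0 := by positivity
  rw [Finset.sum_congr rfl (g := fun _ => (1 : ℝ))]
  · simp [hm']
  · intro i hi
    have hi' : i ≤ m - 1 := by have := Finset.mem_range.1 hi; omega
    have h1 : ra r0 i ≤ ra r0 (m - 1) := by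
      rcases eq_or_lt_of_le hi' with h | h
      · rw [h]
      · have := ra_step h0 h
        have := ra_pos h0 i
        linarith
    have h2 : 2 ≤ d / ra r0 i := by
      rw [le_div_iff₀ (ra_pos h0 i)]
      linarith
    rw [min_eq_left (by linarith)]
    norm_num

theorem Ph_continuous (m : ℕ) (r0 : ℝ) : Continuous (Ph m r0) := by
  unfold Ph
  fun_prop

theorem Wh_nonneg {r0 : ℝ} (h0 : 0 < r0) (m : ℕ) (d : ℝ) : 0 ≤ Wh m r0 d := by
  unfold Wh
  exact mul_nonneg (by positivity) (Finset.sum_nonneg (fun i _ =>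
    indicator_nonneg (fun _ _ => (inv_pos.2 (ra_pos h0 i)).le) _))

theorem Wh_measurable (m : ℕ) (r0 : ℝ) : Measurable (Wh m r0) := by
  unfold Wh
  apply Measurable.const_mul
  apply Finset.measurable_fun_sum
  intro i _
  exact measurable_const.indicator measurableSet_Icc

theorem clamp_lip (x y : ℝ) : |max 0 (min 1 x) - max 0 (min 1 y)| ≤ |x - y| :=
  (abs_max_sub_max_le_max _ _ _ _).trans (by
    rw [sub_self, abs_zero]
    refine max_le (abs_nonneg _) ?_
    exact (abs_min_sub_min_le_max _ _ _ _).trans (by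
      rw [sub_self, abs_zero]
      exact max_le (abs_nonneg _) le_rfl))

/-- Local Lipschitz bound of the cutoff. -/
theorem Ph_lip {m : ℕ} {r0 d d' : ℝ} (h0 : 0 < r0) (hd : |d - d'| ≤ r0) :
    |Ph m r0 d - Ph m r0 d'| ≤ |d - d'| * Wh m r0 d := by
  unfold Ph Wh
  rw [← mul_sub, ← Finset.sum_sub_distrib, abs_mul, abs_of_nonneg (by positivity : (0 : ℝ) ≤ (m : ℝ)⁻¹)]
  have h1 : |∑ i ∈ Finset.range m, (max 0 (min 1 (d / ra r0 i - 1)) -
      max 0 (min 1 (d' / ra r0 i - 1)))| ≤ ∑ i ∈ Finset.range m, |d - d'| *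
      (Icc (ra r0 i / 2) (3 * ra r0 i)).indicator (fun _ => (ra r0 i)⁻¹) d := by
    refine (Finset.abs_sum_le_sum_abs _ _).trans (Finset.sum_le_sum (fun i _ => ?_))
    have hp := ra_pos h0 i
    have hg := ra_ge h0 i
    have habs := abs_le.1 hd
    by_cases hi : d ∈ Icc (ra r0 i / 2) (3 * ra r0 i)
    · rw [indicator_of_mem hi]
      refine (clamp_lip _ _).trans (le_of_eq ?_)
      have : d / ra r0 i - 1 - (d' / ra r0 i - 1) = (d - d') * (ra r0 i)⁻¹ := by
        field_simp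
        ring
      rw [this, abs_mul, abs_of_pos (inv_pos.2 hp)]
    · rw [indicator_of_notMem hi, mul_zero]
      rw [mem_Icc, not_and_or, not_le, not_le] at hi
      rcases hi with hi | hi
      · have e1 : d / ra r0 i ≤ 1 := by rw [div_le_one hp]; linarith
        have e2 : d' / ra r0 i ≤ 1 := by rw [div_le_one hp]; linarith
        rw [max_eq_left ((min_le_right _ _).trans (by linarith)),
          max_eq_left ((min_le_right _ _).trans (by linarith)), sub_self, abs_zero]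
      · have e1 : 2 ≤ d / ra r0 i := by rw [le_div_iff₀ hp]; linarith
        have e2 : 2 ≤ d' / ra r0 i := by rw [le_div_iff₀ hp]; linarith
        rw [min_eq_left (by linarith), min_eq_left (by linarith), sub_self, abs_zero]
  calc (m : ℝ)⁻¹ * _ ≤ (m : ℝ)⁻¹ * _ := mul_le_mul_of_nonneg_left h1 (by positivity)
    _ = _ := by rw [← Finset.mul_sum]; ring

/-- The square of the Lipschitz bound: the levels are disjoint. -/
theorem Wh_sq {m : ℕ} {r0 : ℝ} (h0 : 0 < r0) (d : ℝ) :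
    Wh m r0 d ^ 2 ≤ ((m : ℝ)⁻¹) ^ 2 * ∑ i ∈ Finset.range m,
      (Icc (ra r0 i / 2) (3 * ra r0 i)).indicator (fun _ => ((ra r0 i)⁻¹) ^ 2) d := by
  unfold Wh
  rw [mul_pow]
  refine mul_le_mul_of_nonneg_left (le_of_eq ?_) (by positivity)
  by_cases hex : ∃ i ∈ Finset.range m, d ∈ Icc (ra r0 i / 2) (3 * ra r0 i)
  · obtain ⟨i, him, hi⟩ := hex
    have hother : ∀ j ∈ Finset.range m, j ≠ i → d ∉ Icc (ra r0 j / 2) (3 * ra r0 j) := by
      intro j _ hji hj
      have hpi := ra_pos h0 i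
      have hpj := ra_pos h0 j
      rcases lt_or_gt_of_ne hji with h | h
      · have := ra_step h0 h
        linarith [hj.2, hi.1]
      · have := ra_step h0 h
        linarith [hi.2, hj.1]
    rw [Finset.sum_eq_single_of_mem i him (fun j hj hji => indicator_of_notMem (hother j hj hji) _),
      Finset.sum_eq_single_of_mem i him (fun j hj hji => indicator_of_notMem (hother j hj hji) _),
      indicator_of_mem hi, indicator_of_mem hi]
  · push Not at hex
    rw [Finset.sum_eq_zero (fun i hi => indicator_of_notMem (hex i hi) _),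
      Finset.sum_eq_zero (fun i hi => indicator_of_notMem (hex i hi) _)]
    ring

/-- Energy of the cutoff from the volume bound of the sublevel sets. -/
theorem lintegral_Wh {α : Type*} [MeasurableSpace α] {μ : Measure α} {D : α → ℝ}
    (hD : Measurable D) {m : ℕ} {r0 C0 : ℝ} (h0 : 0 < r0)
    (hV : ∀ i < m, μ {p | D p ≤ 3 * ra r0 i} ≤ ENNReal.ofReal (C0 * (ra r0 i) ^ 2)) :
    ∫⁻ p, ENNReal.ofReal (Wh m r0 (D p) ^ 2) ∂μ ≤ ENNReal.ofReal (C0 / m) := by
  rcases Nat.eq_zero_or_pos m with rfl | hm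
  · simp [Wh]
  have hm' : (0 : ℝ) < m := by exact_mod_cast hm
  have hb : ∀ p, ENNReal.ofReal (Wh m r0 (D p) ^ 2) ≤ ∑ i ∈ Finset.range m,
      {p | D p ≤ 3 * ra r0 i}.indicator
        (fun _ => ENNReal.ofReal (((m : ℝ)⁻¹) ^ 2 * ((ra r0 i)⁻¹) ^ 2)) p := by
    intro p
    refine (ENNReal.ofReal_le_ofReal (Wh_sq h0 (D p))).trans ?_
    rw [Finset.mul_sum, ENNReal.ofReal_sum_of_nonneg]
    · refine Finset.sum_le_sum (fun i _ => ?_)
      by_cases hi : D p ∈ Icc (ra r0 i / 2) (3 * ra r0 i)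
      · rw [indicator_of_mem hi, indicator_of_mem (show p ∈ {p | D p ≤ 3 * ra r0 i} from hi.2)]
      · rw [indicator_of_notMem hi, mul_zero, ENNReal.ofReal_zero]
        exact zero_le
    · intro i _
      exact mul_nonneg (by positivity) (indicator_nonneg (fun _ _ => by positivity) _)
  calc ∫⁻ p, ENNReal.ofReal (Wh m r0 (D p) ^ 2) ∂μ
      ≤ ∫⁻ p, ∑ i ∈ Finset.range m, {p | D p ≤ 3 * ra r0 i}.indicator
        (fun _ => ENNReal.ofReal (((m : ℝ)⁻¹) ^ 2 * ((ra r0 i)⁻¹) ^ 2)) p ∂μ := lintegral_mono hb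
    _ = ∑ i ∈ Finset.range m, ENNReal.ofReal (((m : ℝ)⁻¹) ^ 2 * ((ra r0 i)⁻¹) ^ 2) *
        μ {p | D p ≤ 3 * ra r0 i} := by
        rw [lintegral_finsetSum]
        · refine Finset.sum_congr rfl (fun i _ => ?_)
          rw [lintegral_indicator (measurableSet_le hD measurable_const), setLIntegral_const]
        · intro i _
          exact measurable_const.indicator (measurableSet_le hD measurable_const)
    _ ≤ ∑ i ∈ Finset.range m, ENNReal.ofReal (((m : ℝ)⁻¹) ^ 2 * C0) := by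
        refine Finset.sum_le_sum (fun i hi => ?_)
        refine (mul_le_mul_right (hV i (Finset.mem_range.1 hi)) _).trans ?_
        rw [← ENNReal.ofReal_mul (by positivity)]
        refine ENNReal.ofReal_le_ofReal (le_of_eq ?_)
        have := (ra_pos h0 i).ne'
        field_simp
    _ = ENNReal.ofReal (C0 / m) := by
        rw [Finset.sum_const, Finset.card_range, nsmul_eq_mul, ← ENNReal.ofReal_natCast,
          ← ENNReal.ofReal_mul (by positivity)]
        congr 1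
        field_simp

/-- Ladder with a source. -/
theorem ladder {D G : ℕ → ℝ} {A B : ℝ} (hD : ∀ j, 0 ≤ D j) (hG : ∀ j, 0 ≤ G j)
    (hs : ∀ j, √(D j) ≤ √(G j) + √(D (j + 1)))
    (hA : ∀ N, ∑ j ∈ Finset.range N, D (j + 1) ≤ A) (hB : ∀ N, ∑ j ∈ Finset.range N, G j ≤ B)
    (N : ℕ) (hN : 1 ≤ N) : D 0 ≤ 2 * (N * B + A / N) := by
  have hN' : (0 : ℝ) < N := by exact_mod_cast hN
  have h1 : ∀ k, √(D 0) ≤ ∑ j ∈ Finset.range k, √(G j) + √(D k) := by
    intro k
    induction k with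
    | zero => simp
    | succ k ih =>
      rw [Finset.sum_range_succ]
      linarith [hs k]
  obtain ⟨k, hkN, hk⟩ : ∃ k ∈ Finset.range N, D (k + 1) ≤ A / N := by
    by_contra hcon
    push Not at hcon
    have h2 : ∑ j ∈ Finset.range N, A / N < ∑ j ∈ Finset.range N, D (j + 1) :=
      Finset.sum_lt_sum_of_nonempty ⟨0, Finset.mem_range.2 hN⟩ hcon
    rw [Finset.sum_const, Finset.card_range, nsmul_eq_mul, mul_div_cancel₀ _ hN'.ne'] at h2
    exact absurd (hA N) (not_le.2 h2)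
  have hk1 : ((k + 1 : ℕ) : ℝ) ≤ N := by
    have := Finset.mem_range.1 hkN
    exact_mod_cast this
  have hB0 : 0 ≤ B := by simpa using hB 0
  have h3 : (∑ j ∈ Finset.range (k + 1), √(G j)) ^ 2 ≤ N * B := by
    have h4 := sq_sum_le_card_mul_sum_sq (s := Finset.range (k + 1)) (f := fun j => √(G j))
    rw [Finset.card_range] at h4
    refine h4.trans ?_
    have h5 : ∑ j ∈ Finset.range (k + 1), √(G j) ^ 2 = ∑ j ∈ Finset.range (k + 1), G j :=
      Finset.sum_congr rfl (fun j _ => Real.sq_sqrt (hG j))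
    rw [h5]
    calc ((k + 1 : ℕ) : ℝ) * ∑ j ∈ Finset.range (k + 1), G j ≤ ((k + 1 : ℕ) : ℝ) * B :=
          mul_le_mul_of_nonneg_left (hB _) (by positivity)
      _ ≤ N * B := mul_le_mul_of_nonneg_right hk1 hB0
  have h6 := h1 (k + 1)
  have h7 : √(D (k + 1)) ^ 2 ≤ A / N := by rw [Real.sq_sqrt (hD _)]; exact hk
  have h8 : D 0 = √(D 0) ^ 2 := (Real.sq_sqrt (hD 0)).symm
  have h9 : 0 ≤ ∑ j ∈ Finset.range (k + 1), √(G j) :=
    Finset.sum_nonneg (fun _ _ => Real.sqrt_nonneg _)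
  have h10 := Real.sqrt_nonneg (D 0)
  have h11 := Real.sqrt_nonneg (D (k + 1))
  rw [h8]
  nlinarith [sq_nonneg (∑ j ∈ Finset.range (k + 1), √(G j) - √(D (k + 1)))]

end Pool.Agent.Lib.BilU.Phi40
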