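import Pool.Agent.Lib.MP_7bc51d_an_full.Defs

/-!
# (SMALLX): the energy of the cut function is small at small scales
-/

set_option autoImplicit false

namespace Pool.Agent.Lib.BilF.SmallX12

open Complex MeasureTheory Set Filter Topology
open scoped ComplexConjugate
open Pool.Agent.Lib.Bil Pool.Agent.Lib.BilD Pool.Agent.Lib.BilE Pool.Agent.Lib.BilF

variable {n : ℕ} {v : Fin n → ℂ}

theorem ag_XF {F : ℂ → ℝ → ℝ} (hF : LF F) {X : ℂ → ℂ → ℝ}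
    (hm : Measurable (fun p : ℂ × ℂ => X p.1 p.2)) (h0 : ∀ x w, 0 ≤ X x w)
    (h1 : ∀ x w, X x w ≤ 1) : AG (XF X F) := by
  constructor
  · have hc : Measurable (fun p : ℂ × ℂ => cr p.2 p.1) := by
      apply Continuous.measurable; unfold cr; fun_prop
    exact hm.mul (hF.meas.comp (measurable_snd.prodMk hc))
  · intro x w
    unfold XF
    rw [abs_mul, abs_of_nonneg (h0 x w)]
    calc X x w * |F w (cr w x)| ≤ 1 * 1 :=
          mul_le_mul (h1 x w) (hF.bd _ _) (abs_nonneg _) zero_le_one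
      _ = 1 := one_mul 1

theorem vz_XF {F : ℂ → ℝ → ℝ} {X : ℂ → ℂ → ℝ} {r : ℝ} (h : VZ v X r) : VZ v (XF X F) r := by
  intro x hx w k hk
  unfold XF
  rw [h x hx w k hk, zero_mul]

theorem arith {C5 K K1 K2 m r0 ε N XEv TEv R2 Mev η : ℝ} (hC5 : 0 < C5) (hK : 0 < K)
    (hK1 : 0 < K1) (hK2 : 0 < K2) (hm : 0 < m) (hr0 : 0 < r0) (hε : 0 < ε) (hεr : ε ≤ r0)
    (hN1 : r0 ^ 2 / ε ^ 2 ≤ N) (hN2 : N ≤ r0 ^ 2 / ε ^ 2 + 1) (_hR0 : 0 ≤ R2) (hR : R2 ≤ K / m)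
    (hX : XEv ≤ K1 * (K * ε ^ 2 / r0) ^ 2 / ε ^ 2 * R2)
    (hT : TEv ≤ K2 * ((K * r0) ^ 2 / ε ^ 2 * R2 + Mev))
    (hM : ε ^ 2 * Mev ≤ η * r0 ^ 2 / (2 * C5 * K2)) (hη : 0 < η)
    (hm2 : C5 * (2 * K1 + K2) * K ^ 3 / m ≤ η / 2) :
    C5 * (N * XEv + TEv / N) ≤ η := by
  have e2 : 0 < ε ^ 2 := by positivity
  have r2 : 0 < r0 ^ 2 := by positivity
  have hle : ε ^ 2 ≤ r0 ^ 2 := by gcongr
  have h1 : 1 ≤ r0 ^ 2 / ε ^ 2 := by rw [le_div_iff₀ e2, one_mul]; exact hle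
  have hNpos : 0 < N := by linarith
  have hN3 : N ≤ 2 * (r0 ^ 2 / ε ^ 2) := by linarith
  have a1 : XEv ≤ K1 * (K * ε ^ 2 / r0) ^ 2 / ε ^ 2 * (K / m) :=
    hX.trans (by gcongr)
  have a1' : K1 * (K * ε ^ 2 / r0) ^ 2 / ε ^ 2 * (K / m) = K1 * K ^ 3 * ε ^ 2 / (r0 ^ 2 * m) := by
    field_simp
  rw [a1'] at a1
  have b1 : N * XEv ≤ 2 * K1 * K ^ 3 / m := by
    have hpos : 0 ≤ K1 * K ^ 3 * ε ^ 2 / (r0 ^ 2 * m) := by positivity
    calc N * XEv ≤ N * (K1 * K ^ 3 * ε ^ 2 / (r0 ^ 2 * m)) := by gcongr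
      _ ≤ 2 * (r0 ^ 2 / ε ^ 2) * (K1 * K ^ 3 * ε ^ 2 / (r0 ^ 2 * m)) := by gcongr
      _ = 2 * K1 * K ^ 3 / m := by field_simp
  have a2 : TEv ≤ K2 * ((K * r0) ^ 2 / ε ^ 2 * (K / m) + Mev) := hT.trans (by gcongr)
  have b2 : TEv / N ≤ K2 * K ^ 3 / m + K2 * (ε ^ 2 * Mev) / r0 ^ 2 ∨ TEv / N ≤ 0 := by
    by_cases hs : TEv ≤ 0
    · right
      exact div_nonpos_of_nonpos_of_nonneg hs hNpos.le
    · left
      push Not at hs
      calc TEv / N ≤ TEv / (r0 ^ 2 / ε ^ 2) := by gcongr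
        _ = TEv * ε ^ 2 / r0 ^ 2 := by field_simp
        _ ≤ K2 * ((K * r0) ^ 2 / ε ^ 2 * (K / m) + Mev) * ε ^ 2 / r0 ^ 2 := by gcongr
        _ = K2 * K ^ 3 / m + K2 * (ε ^ 2 * Mev) / r0 ^ 2 := by field_simp
  have hM2 : K2 * (ε ^ 2 * Mev) / r0 ^ 2 ≤ η / (2 * C5) := by
    rw [div_le_iff₀ r2]
    calc K2 * (ε ^ 2 * Mev) ≤ K2 * (η * r0 ^ 2 / (2 * C5 * K2)) := by gcongr
      _ = η / (2 * C5) * r0 ^ 2 := by field_simp
  have hq : 0 ≤ K2 * K ^ 3 / m := by positivity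
  have hq2 : 0 ≤ η / (2 * C5) := by positivity
  have b3 : TEv / N ≤ K2 * K ^ 3 / m + η / (2 * C5) := by
    rcases b2 with h | h
    · linarith
    · linarith
  calc C5 * (N * XEv + TEv / N) ≤
        C5 * (2 * K1 * K ^ 3 / m + (K2 * K ^ 3 / m + η / (2 * C5))) := by
          gcongr
    _ = C5 * (2 * K1 + K2) * K ^ 3 / m + η / 2 := by field_simp; ring
    _ ≤ η / 2 + η / 2 := by gcongr
    _ = η := by ring

theorem row (hCut : StCut) (hTel : StTelX) (hEX : StEstX) (hET : StEstT) (hMass : StMass) :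
    StSmallX := by
  obtain ⟨C5, hC5, hTel⟩ := hTel
  obtain ⟨K1, hK1, hEX⟩ := hEX
  obtain ⟨K2, hK2, hET⟩ := hET
  intro n v C e0 hn hv hG F hF p η hη
  obtain ⟨K, hK, hCut⟩ := hCut n v C e0 hn hv hG
  have hC1 := hG.C1
  have he0 := hG.e0p
  -- the number of levels
  obtain ⟨m, hm⟩ := exists_nat_gt (2 * (C5 * (2 * K1 + K2) * K ^ 3) / η)
  have hmq : 0 < 2 * (C5 * (2 * K1 + K2) * K ^ 3) / η := by positivity
  have hmpos : (0 : ℝ) < m := hmq.trans hm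
  have hm1 : 1 ≤ m := by
    have : 0 < m := by exact_mod_cast hmpos
    omega
  have hm2 : C5 * (2 * K1 + K2) * K ^ 3 / m ≤ η / 2 := by
    rw [div_le_iff₀ hmpos]
    rw [div_lt_iff₀ hη] at hm
    linarith
  -- the scale of the cutoff
  set A : ℝ := (8 : ℝ) ^ (m + 1) with hA
  have hApos : 0 < A := by positivity
  set r0 : ℝ := min 1 (√(η / K) / A) with hr0
  have hr0pos : 0 < r0 := lt_min one_pos (by positivity)
  have hr01 : r0 ≤ 1 := min_le_left _ _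
  have hvol : K * (A * r0) ^ 2 ≤ η := by
    have h1 : A * r0 ≤ √(η / K) := by
      have : r0 ≤ √(η / K) / A := min_le_right _ _
      rw [le_div_iff₀ hApos] at this
      linarith
    have h2 : (A * r0) ^ 2 ≤ η / K := by
      calc (A * r0) ^ 2 ≤ √(η / K) ^ 2 := by gcongr
        _ = η / K := Real.sq_sqrt (by positivity)
    rw [le_div_iff₀ hK] at h2
    linarith
  obtain ⟨e1, he1, hCut⟩ := hCut m r0 hm1 hr0pos hr01
  obtain ⟨d, hd, hMass⟩ := hMass n v C e0 hG F hF (η * r0 ^ 2 / (2 * C5 * K2)) (by positivity)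
  set ε : ℝ := min (min e0 e1) (min (min η r0) d) / 2 with hεdef
  have hmin : 0 < min (min e0 e1) (min (min η r0) d) :=
    lt_min (lt_min he0 he1) (lt_min (lt_min hη hr0pos) hd)
  have hε : 0 < ε := by positivity
  have hεlt : ε < min (min e0 e1) (min (min η r0) d) := by rw [hεdef]; linarith
  have hεe0 : ε < e0 := hεlt.trans_le ((min_le_left _ _).trans (min_le_left _ _))
  have hεe1 : ε < e1 := hεlt.trans_le ((min_le_left _ _).trans (min_le_right _ _))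
  have hεη : ε < η := hεlt.trans_le
    ((min_le_right _ _).trans ((min_le_left _ _).trans (min_le_left _ _)))
  have hεr : ε < r0 := hεlt.trans_le
    ((min_le_right _ _).trans ((min_le_left _ _).trans (min_le_right _ _)))
  have hεd : ε < d := hεlt.trans_le ((min_le_right _ _).trans (min_le_right _ _))
  obtain ⟨X, R, hX, hR, hV⟩ := hCut ε hε hεe1
  refine ⟨ε, X, hε, hεη, hX.meas, hX.x0, hX.x1, hV.trans hvol, ?_⟩
  have hAG : AG (XF X F) := ag_XF hF.lf hX.meas hX.x0 hX.x1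
  have hVZ : VZ v (XF X F) (4 * C * ε) := vz_XF hX.vz
  have hκ : 0 ≤ K * r0 := by positivity
  have hν : 0 ≤ K * ε ^ 2 / r0 := by positivity
  have hXE := hEX n v C e0 hG F hF ε hε hεe0 X R (K * r0) (K * ε ^ 2 / r0) hκ hν hX
  have hTE := hET n v C e0 hG F hF ε hε hεe0 X R (K * r0) (K * ε ^ 2 / r0) hκ hν hX
  set N : ℕ := ⌈r0 ^ 2 / ε ^ 2⌉₊ with hN
  have hq : 1 ≤ r0 ^ 2 / ε ^ 2 := by
    rw [le_div_iff₀ (by positivity), one_mul]
    gcongr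
  have hN1 : 1 ≤ N := by
    rw [hN, Nat.one_le_ceil_iff]
    linarith
  refine (hTel n v C e0 hn hv hG (XF X F) hAG ε hε hεe0 hVZ p N hN1).trans ?_
  exact arith hC5 hK hK1 hK2 hmpos hr0pos hε hεr.le (Nat.le_ceil _)
    (Nat.ceil_lt_add_one (by positivity)).le
    (integral_nonneg (fun _ => sq_nonneg _)) hR hXE hTE (hMass ε hε hεd) hη hm2

end Pool.Agent.Lib.BilF.SmallX12
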