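import Pool.Agent.Lib.MP_7bc51d_an.Code

/-!
# Volume of the phase points whose orbit comes close to a vertex within time `T`
-/

set_option autoImplicit false

namespace Pool.Agent.Lib.BilF.Vol30

open Complex MeasureTheory Set Filter
open scoped ComplexConjugate Topology ENNReal
open Pool.Agent.Lib.Bil

variable {n : ℕ} {v : Fin n → ℂ}

/-- Time at which the line through `y` with velocity `u` meets the line of the side `s`. -/
noncomputable def ts (v : Fin n → ℂ) (s : Fin n × Fin n) (y u : ℂ) : ℝ :=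
  cr (v s.2 - v s.1) (v s.1 - y) / cr (v s.2 - v s.1) u

/-- Time of the last crossing of the word `g` (most recent crossing first). -/
noncomputable def tau (v : Fin n → ℂ) : List (Fin n × Fin n) → ℂ → ℂ → ℝ
  | [], _, _ => 0
  | s :: g, x, w => ts v s (Fo v g x) (Lo v g w)

theorem cr_ed_rl (hv : ConvexIndependent ℝ v) {s : Fin n × Fin n} (hs : IsSide v s.1 s.2) (u : ℂ) :
    cr (v s.2 - v s.1) (rl (v s.2 - v s.1) u) = - cr (v s.2 - v s.1) u := by
  have hne := v_sub_ne hv hs.1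
  have := cr_rl hne (v s.2 - v s.1) u
  rwa [rl_self hne] at this

theorem cr_ed_RR (hv : ConvexIndependent ℝ v) {s : Fin n × Fin n} (hs : IsSide v s.1 s.2) (y : ℂ) :
    cr (v s.2 - v s.1) (v s.1 - RR v s.1 s.2 y) = - cr (v s.2 - v s.1) (v s.1 - y) := by
  have e : v s.1 - RR v s.1 s.2 y = rl (v s.2 - v s.1) (v s.1 - y) := by
    have h := RR_sub_RR v s.1 s.2 (v s.1) y
    rwa [RR_left] at h
  rw [e, cr_ed_rl hv hs]

theorem ts_RR (hv : ConvexIndependent ℝ v) {s : Fin n × Fin n} (hs : IsSide v s.1 s.2) (y u : ℂ) :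
    ts v s (RR v s.1 s.2 y) (rl (v s.2 - v s.1) u) = ts v s y u := by
  unfold ts
  rw [cr_ed_rl hv hs, cr_ed_RR hv hs, neg_div_neg_eq]

/-- The entrance conditions after the crossing of `s`. -/
theorem enter_cond (hv : ConvexIndependent ℝ v) {s : Fin n × Fin n} (hs : IsSide v s.1 s.2)
    {y u : ℂ} (h1 : cr u (v s.1) < cr u y) (h2 : cr u y < cr u (v s.2)) :
    cr (rl (v s.2 - v s.1) u) (v s.2) < cr (rl (v s.2 - v s.1) u) (RR v s.1 s.2 y) ∧
      cr (rl (v s.2 - v s.1) u) (RR v s.1 s.2 y) < cr (rl (v s.2 - v s.1) u) (v s.1) := by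
  have hne := v_sub_ne hv hs.1
  have e1 : cr (rl (v s.2 - v s.1) u) (RR v s.1 s.2 y) - cr (rl (v s.2 - v s.1) u) (v s.1) =
      - cr u (y - v s.1) := by
    rw [← cr_sub_right]
    have h := RR_sub_RR v s.1 s.2 y (v s.1)
    rw [RR_left] at h
    rw [h, cr_rl hne]
  have e2 : cr (rl (v s.2 - v s.1) u) (RR v s.1 s.2 y) - cr (rl (v s.2 - v s.1) u) (v s.2) =
      - cr u (y - v s.2) := by
    rw [← cr_sub_right]
    have h := RR_sub_RR v s.1 s.2 y (v s.2)
    rw [RR_right v hne] at h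
    rw [h, cr_rl hne]
  rw [cr_sub_right] at e1 e2
  constructor <;> linarith

/-- The exit side is crossed later than the entrance side. -/
theorem ts_mono {s : Fin n × Fin n} (hs : IsSide v s.1 s.2)
    {y u : ℂ} {t : ℝ} (hK : y + (t : ℂ) * u ∈ KK v)
    (h1 : cr u (v s.1) < cr u y) (h2 : cr u y < cr u (v s.2)) : t ≤ ts v s y u := by
  have h0 : cr (v s.2 - v s.1) u < 0 := by
    rw [cr_swap, cr_sub_right]; linarith
  have h3 := hs.cr_nonneg hK
  have e : y + (t : ℂ) * u - v s.1 = -(v s.1 - y) + (t : ℂ) * u := by ring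
  rw [e, cr_add_right, cr_neg_right, cr_smul_right] at h3
  unfold ts
  rw [le_div_iff_of_neg h0]
  linarith

/-- The entrance point lies on the side. -/
theorem entry_mem (hv : ConvexIndependent ℝ v) {s : Fin n × Fin n} (hs : IsSide v s.1 s.2)
    {y u : ℂ} (h1 : cr u (v s.1) < cr u y) (h2 : cr u y < cr u (v s.2)) :
    RR v s.1 s.2 y + ((ts v s y u : ℝ) : ℂ) * rl (v s.2 - v s.1) u ∈ KK v := by
  obtain ⟨k1, k2⟩ := enter_cond hv hs h1 h2
  set u' := rl (v s.2 - v s.1) u with hu'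
  set y' := RR v s.1 s.2 y with hy'
  have hw : u' ≠ 0 := by
    intro h
    rw [h, cr_zero_left, cr_zero_left] at k1
    exact lt_irrefl _ k1
  obtain ⟨t, t0, t1, te, tw⟩ := side_line k1 k2
  have hcr : cr u' (v s.1 + (t : ℂ) * (v s.2 - v s.1) - y') = 0 := by
    rw [cr_sub_right, te, sub_self]
  obtain ⟨r, hr⟩ := (cr_eq_zero_iff hw).1 hcr
  have hrs : ts v s y u = r := by
    rw [← ts_RR hv hs, ← hu', ← hy']
    unfold ts
    have e : v s.1 - y' = (r : ℂ) * u' - (t : ℂ) * (v s.2 - v s.1) := by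
      rw [← hr]; ring
    rw [e, cr_sub_right, cr_smul_right, cr_smul_right, cr_self, mul_zero, sub_zero]
    field_simp
  rw [hrs]
  have e2 : y' + (r : ℂ) * u' = v s.1 + (t : ℂ) * (v s.2 - v s.1) := by
    rw [← hr]; ring
  rw [e2]
  exact side_point_mem_KK t0.le t1.le

/-- Along a word, the current point at the time `tau` lies in the closed polygon, and `tau ≥ 0`. -/
theorem tau_spec (hv : ConvexIndependent ℝ v) (g : List (Fin n × Fin n)) {x w : ℂ}
    (hx : x ∈ PP v) (hg : Rz v g x w) :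
    Fo v g x + ((tau v g x w : ℝ) : ℂ) * Lo v g w ∈ KK v ∧ 0 ≤ tau v g x w := by
  induction g with
  | nil =>
    refine ⟨?_, le_rfl⟩
    change x + ((0 : ℝ) : ℂ) * w ∈ KK v
    rw [ofReal_zero, zero_mul, add_zero]
    exact PP_sub_KK hx
  | cons s g ih =>
    obtain ⟨i1, i2⟩ := ih hg.1
    refine ⟨entry_mem hv hg.2.1 hg.2.2.1 hg.2.2.2, ?_⟩
    exact i2.trans (ts_mono hg.2.1 i1 hg.2.2.1 hg.2.2.2)

theorem tau_cons_ge (hv : ConvexIndependent ℝ v) {s : Fin n × Fin n} {g : List (Fin n × Fin n)}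
    {x w : ℂ} (hx : x ∈ PP v) (hg : Rz v (s :: g) x w) : tau v g x w ≤ tau v (s :: g) x w :=
  ts_mono hg.2.1 (tau_spec hv g hx hg.1).1 hg.2.2.1 hg.2.2.2

/-- Uniqueness of the word with given end data. -/
theorem word_unique (hn : 3 ≤ n) (hv : ConvexIndependent ℝ v) (g : List (Fin n × Fin n)) :
    ∀ (g' : List (Fin n × Fin n)) (x x' w w' : ℂ), x ∈ PP v → x' ∈ PP v → Rz v g x w →
      Rz v g' x' w' → Fo v g x = Fo v g' x' → Lo v g w = Lo v g' w' → g = g' := by
  have key : ∀ (s : Fin n × Fin n) (g : List (Fin n × Fin n)) (x y w : ℂ), x ∈ PP v → y ∈ PP v →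
      Rz v (s :: g) x w → y = Fo v (s :: g) x → False := by
    intro s g x y w hx hy hg hyx
    have h1 := (tau_spec hv (s :: g) hx hg).2
    have h2 := enter_cond hv hg.2.1 hg.2.2.1 hg.2.2.2
    have h3 := hg.2.1.cr_pos hv hy
    have h4 : 0 < cr (v s.2 - v s.1) (Lo v (s :: g) w) := by
      change 0 < cr (v s.2 - v s.1) (rl (v s.2 - v s.1) (Lo v g w))
      rw [cr_swap, cr_sub_right]
      linarith [h2.1.trans h2.2]
    have h5 : tau v (s :: g) x w = ts v s (Fo v (s :: g) x) (Lo v (s :: g) w) :=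
      (ts_RR hv hg.2.1 _ _).symm
    rw [h5, ← hyx] at h1
    unfold ts at h1
    have h6 : 0 ≤ cr (v s.2 - v s.1) (v s.1 - y) := by
      by_contra hcon
      push Not at hcon
      have := div_neg_of_neg_of_pos hcon h4
      linarith
    have e : y - v s.1 = -(v s.1 - y) := by ring
    rw [e, cr_neg_right] at h3
    linarith
  induction g with
  | nil =>
    intro g' x x' w w' hx hx' hg hg' hF hL
    cases g' with
    | nil => rfl
    | cons s' g' => exact (key s' g' x' x w' hx' hx hg' hF).elim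
  | cons s g ih =>
    intro g' x x' w w' hx hx' hg hg' hF hL
    cases g' with
    | nil => exact (key s g x x' w hx hx' hg hF.symm).elim
    | cons s' g' =>
      have k1 := enter_cond hv hg.2.1 hg.2.2.1 hg.2.2.2
      have k2 := enter_cond hv hg'.2.1 hg'.2.2.1 hg'.2.2.2
      have e1 : Lo v (s :: g) w = rl (v s.2 - v s.1) (Lo v g w) := rfl
      have e2 : Lo v (s' :: g') w' = rl (v s'.2 - v s'.1) (Lo v g' w') := rfl
      have e3 : Fo v (s :: g) x = RR v s.1 s.2 (Fo v g x) := rfl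
      have e4 : Fo v (s' :: g') x' = RR v s'.1 s'.2 (Fo v g' x') := rfl
      rw [← e1, ← e3] at k1
      rw [← e2, ← e4, ← hF, ← hL] at k2
      have hss : s = s' := enter_unique hn hv hg.2.1 hg'.2.1 k1.1 k1.2 k2.1 k2.2
      subst hss
      have hne := v_sub_ne hv hg.2.1.1
      have f1 : Fo v g x = Fo v g' x' := by
        rw [← RR_RR v hne (Fo v g x), ← RR_RR v hne (Fo v g' x'), ← e3, ← e4, hF]
      have f2 : Lo v g w = Lo v g' w' := by
        rw [← rl_rl hne (Lo v g w), ← rl_rl hne (Lo v g' w'), ← e1, ← e2, hL]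
      rw [ih g' x x' w w' hx hx' hg.1 hg'.1 f1 f2]

/-! ### the folded phase points -/

/-- The folding on the phase space. -/
noncomputable def MG (v : Fin n → ℂ) (g : List (Fin n × Fin n)) (p : ℂ × ℂ) : ℂ × ℂ :=
  (Fo v g p.1, Lo v g p.2)

theorem mp_Fo (hv : ConvexIndependent ℝ v) {g : List (Fin n × Fin n)} (hg : Val v g) :
    MeasurePreserving (Fo v g) volume volume := by
  induction g with
  | nil => exact MeasurePreserving.id _
  | cons s g ih => exact (mp_RR (v_sub_ne hv hg.head.1)).comp (ih hg.tail)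

theorem mp_MG (hv : ConvexIndependent ℝ v) {g : List (Fin n × Fin n)} (hg : Val v g) :
    MeasurePreserving (MG v g) volume volume := (mp_Fo hv hg).prod (mp_Lo hv hg)

theorem MG_inj (hv : ConvexIndependent ℝ v) {g : List (Fin n × Fin n)} (hg : Val v g) :
    Function.Injective (MG v g) := by
  intro p q h
  have h1 : Fo v g p.1 = Fo v g q.1 := congrArg Prod.fst h
  have h2 : Lo v g p.2 = Lo v g q.2 := congrArg Prod.snd h
  have h3 : p.1 = q.1 := by rw [← Un_Fo hv hg p.1, h1, Un_Fo hv hg]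
  have h4 : ‖p.2 - q.2‖ = 0 := by rw [← norm_Lo hv hg, Lo_sub, h2, sub_self, norm_zero]
  exact Prod.ext h3 (sub_eq_zero.1 (norm_eq_zero.1 h4))

theorem MG_cont (g : List (Fin n × Fin n)) : Continuous (MG v g) :=
  ((continuous_Fo g).comp continuous_fst).prodMk ((continuous_Lo g).comp continuous_snd)

theorem MG_emb (hv : ConvexIndependent ℝ v) {g : List (Fin n × Fin n)} (hg : Val v g) :
    MeasurableEmbedding (MG v g) := (MG_cont g).measurableEmbedding (MG_inj hv hg)

theorem vol_image (hv : ConvexIndependent ℝ v) {g : List (Fin n × Fin n)} (hg : Val v g)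
    (S : Set (ℂ × ℂ)) : volume (MG v g '' S) = volume S := by
  have h := (mp_MG hv hg).measure_preimage_emb (MG_emb hv hg) (MG v g '' S)
  rw [preimage_image_eq _ (MG_inj hv hg)] at h
  exact h.symm

/-- Phase points whose orbit, after the crossings `g` made within the distance `T`, is on a line at
distance `< δ` from a vertex. -/
def SS (v : Fin n → ℂ) (δ T : ℝ) (g : List (Fin n × Fin n)) : Set (ℂ × ℂ) :=
  {p | p ∈ DD v ∧ Rz v g p.1 p.2 ∧ tau v g p.1 p.2 * ‖p.2‖ < T ∧
    ∃ l, |cr (Lo v g p.2) (v l - Fo v g p.1)| < δ * ‖p.2‖}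

theorem continuous_crf {f g : ℂ × ℂ → ℂ} (hf : Continuous f) (hg : Continuous g) :
    Continuous (fun p => cr (f p) (g p)) := by
  unfold cr; fun_prop

theorem measurable_ts (s : Fin n × Fin n) : Measurable (fun p : ℂ × ℂ => ts v s p.1 p.2) := by
  unfold ts
  exact (continuous_crf continuous_const (continuous_const.sub continuous_fst)).measurable.div
    (continuous_crf continuous_const continuous_snd).measurable

theorem measurable_tau (g : List (Fin n × Fin n)) :
    Measurable (fun p : ℂ × ℂ => tau v g p.1 p.2) := by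
  cases g with
  | nil => exact measurable_const
  | cons s g => exact (measurable_ts s).comp (MG_cont g).measurable

theorem measurableSet_SS (δ T : ℝ) (g : List (Fin n × Fin n)) : MeasurableSet (SS v δ T g) := by
  have e : SS v δ T g = DD v ∩ ({p : ℂ × ℂ | Rz v g p.1 p.2} ∩
      ({p : ℂ × ℂ | tau v g p.1 p.2 * ‖p.2‖ < T} ∩
        ⋃ l, {p : ℂ × ℂ | |cr (Lo v g p.2) (v l - Fo v g p.1)| < δ * ‖p.2‖})) := by
    ext p
    simp only [SS, mem_setOf_eq, mem_inter_iff, mem_iUnion]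
  rw [e]
  refine measurableSet_DD.inter ((isOpen_Rz g).measurableSet.inter ((measurableSet_lt
    ((measurable_tau g).mul continuous_snd.norm.measurable) measurable_const).inter
    (MeasurableSet.iUnion fun l => ?_)))
  refine (isOpen_lt ?_ ?_).measurableSet
  · exact (continuous_crf ((continuous_Lo g).comp continuous_snd)
      (continuous_const.sub ((continuous_Fo g).comp continuous_fst))).abs
  · exact continuous_const.mul continuous_snd.norm

/-- Points close to the polygon, before the entrance through `s`, on a line close to `v l`. -/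
def VT (v : Fin n → ℂ) (δ T : ℝ) (s : Fin n × Fin n) (l : Fin n) : Set (ℂ × ℂ) :=
  {q | ‖q.2‖ < 1 ∧ 0 < cr (v s.2 - v s.1) q.2 ∧ 0 ≤ ts v s q.1 q.2 ∧
    ts v s q.1 q.2 * ‖q.2‖ < T ∧ |cr q.2 (v l - q.1)| < δ * ‖q.2‖}

theorem measurableSet_VT (δ T : ℝ) (s : Fin n × Fin n) (l : Fin n) :
    MeasurableSet (VT v δ T s l) := by
  have h1 : MeasurableSet {q : ℂ × ℂ | ‖q.2‖ < 1} :=
    (isOpen_lt continuous_snd.norm continuous_const).measurableSet
  have h2 : MeasurableSet {q : ℂ × ℂ | 0 < cr (v s.2 - v s.1) q.2} :=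
    (isOpen_lt continuous_const (continuous_crf continuous_const continuous_snd)).measurableSet
  have h3 : MeasurableSet {q : ℂ × ℂ | 0 ≤ ts v s q.1 q.2} :=
    measurableSet_le measurable_const (measurable_ts s)
  have h4 : MeasurableSet {q : ℂ × ℂ | ts v s q.1 q.2 * ‖q.2‖ < T} :=
    measurableSet_lt ((measurable_ts s).mul continuous_snd.norm.measurable) measurable_const
  have h5 : MeasurableSet {q : ℂ × ℂ | |cr q.2 (v l - q.1)| < δ * ‖q.2‖} :=
    (isOpen_lt (continuous_crf continuous_snd (continuous_const.sub continuous_fst)).abs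
      (continuous_const.mul continuous_snd.norm)).measurableSet
  exact h1.inter (h2.inter (h3.inter (h4.inter h5)))

theorem image_sub (hv : ConvexIndependent ℝ v) {δ T : ℝ} (s : Fin n × Fin n)
    (g : List (Fin n × Fin n)) : MG v (s :: g) '' SS v δ T (s :: g) ⊆ ⋃ s, ⋃ l, VT v δ T s l := by
  rintro q ⟨p, ⟨hp, hg, ht, l, hl⟩, rfl⟩
  have hval := hg.val
  have hn2 : ‖Lo v (s :: g) p.2‖ = ‖p.2‖ := norm_Lo hv hval _
  have k := enter_cond hv hg.2.1 hg.2.2.1 hg.2.2.2
  have h5 : tau v (s :: g) p.1 p.2 = ts v s (Fo v (s :: g) p.1) (Lo v (s :: g) p.2) :=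
    (ts_RR hv hg.2.1 _ _).symm
  refine mem_iUnion.2 ⟨s, mem_iUnion.2 ⟨l, ?_, ?_, ?_, ?_, ?_⟩⟩
  · change ‖Lo v (s :: g) p.2‖ < 1
    rw [hn2]; exact (mem_DD.1 hp).2
  · change 0 < cr (v s.2 - v s.1) (rl (v s.2 - v s.1) (Lo v g p.2))
    rw [cr_swap, cr_sub_right]
    linarith [k.1.trans k.2]
  · change 0 ≤ ts v s (Fo v (s :: g) p.1) (Lo v (s :: g) p.2)
    rw [← h5]
    exact (tau_spec hv (s :: g) (mem_DD.1 hp).1 hg).2
  · change ts v s (Fo v (s :: g) p.1) (Lo v (s :: g) p.2) * ‖Lo v (s :: g) p.2‖ < T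
    rw [← h5, hn2]; exact ht
  · change |cr (Lo v (s :: g) p.2) (v l - Fo v (s :: g) p.1)| < δ * ‖Lo v (s :: g) p.2‖
    rw [hn2]; exact hl

/-! ### areas -/

theorem area_box {c : ℝ → ℝ} (hc : Measurable c) (a r L : ℝ) (hr : 0 ≤ r) :
    volume {z : ℝ × ℝ | |a - z.1| < r ∧ c z.1 - L < z.2 ∧ z.2 ≤ c z.1} ≤
      ENNReal.ofReal (2 * r * L) := by
  have hm : MeasurableSet {z : ℝ × ℝ | |a - z.1| < r ∧ c z.1 - L < z.2 ∧ z.2 ≤ c z.1} := by
    have h1 : MeasurableSet {z : ℝ × ℝ | |a - z.1| < r} :=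
      measurableSet_lt (by fun_prop) measurable_const
    have h2 : MeasurableSet {z : ℝ × ℝ | c z.1 - L < z.2} :=
      measurableSet_lt (by fun_prop) measurable_snd
    have h3 : MeasurableSet {z : ℝ × ℝ | z.2 ≤ c z.1} :=
      measurableSet_le measurable_snd (by fun_prop)
    exact h1.inter (h2.inter h3)
  rw [Measure.volume_eq_prod, Measure.prod_apply hm]
  have h1 : ∀ Q : ℝ, volume (Prod.mk Q ⁻¹'
      {z : ℝ × ℝ | |a - z.1| < r ∧ c z.1 - L < z.2 ∧ z.2 ≤ c z.1}) ≤
      (Ioo (a - r) (a + r)).indicator (fun _ => ENNReal.ofReal L) Q := by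
    intro Q
    by_cases hQ : Q ∈ Ioo (a - r) (a + r)
    · rw [indicator_of_mem hQ]
      have : Prod.mk Q ⁻¹' {z : ℝ × ℝ | |a - z.1| < r ∧ c z.1 - L < z.2 ∧ z.2 ≤ c z.1} ⊆
          Ioc (c Q - L) (c Q) := fun t ht => ⟨ht.2.1, ht.2.2⟩
      refine (measure_mono this).trans ?_
      rw [Real.volume_Ioc]
      apply ENNReal.ofReal_le_ofReal
      linarith
    · have : Prod.mk Q ⁻¹' {z : ℝ × ℝ | |a - z.1| < r ∧ c z.1 - L < z.2 ∧ z.2 ≤ c z.1} = ∅ := by
        ext t
        simp only [mem_preimage, mem_setOf_eq, mem_empty_iff_false, iff_false]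
        rintro ⟨h, _⟩
        rw [abs_lt] at h
        exact hQ ⟨by linarith, by linarith⟩
      rw [this, measure_empty]
      exact zero_le
  refine (lintegral_mono h1).trans ?_
  rw [lintegral_indicator measurableSet_Ioo, lintegral_const, Measure.restrict_apply_univ,
    Real.volume_Ioo]
  rw [mul_comm, ← ENNReal.ofReal_mul (by linarith)]
  apply ENNReal.ofReal_le_ofReal
  apply le_of_eq; ring

/-- Area of the points before the side `s` on lines close to `p`. -/
theorem area_flux (s : Fin n × Fin n) (p : ℂ) {δ T : ℝ} (hδ : 0 ≤ δ) {u : ℂ}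
    (hu : 0 < cr (v s.2 - v s.1) u) :
    volume {y : ℂ | 0 ≤ ts v s y u ∧ ts v s y u * ‖u‖ < T ∧ |cr u (p - y)| < δ * ‖u‖} ≤
      ENNReal.ofReal (2 * δ * T) := by
  have hu0 : u ≠ 0 := by
    rintro rfl
    rw [cr_zero_right] at hu
    exact lt_irrefl _ hu
  have hnu : 0 < ‖u‖ := norm_pos_iff.2 hu0
  rw [← (mp_chi hu0).measure_preimage_emb (chi_emb hu0)]
  have hc : Measurable (fun Q : ℝ => ts v s (bs u Q) u) := by
    have : Continuous (fun Q : ℝ => bs u Q) := by unfold bs; fun_prop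
    exact ((measurable_ts s).comp (this.prodMk continuous_const).measurable)
  have hts : ∀ z : ℝ × ℝ, ts v s (chi u z) u = ts v s (bs u z.1) u - z.2 := by
    intro z
    unfold ts chi
    have e : v s.1 - (bs u z.1 + (z.2 : ℂ) * u) = (v s.1 - bs u z.1) - (z.2 : ℂ) * u := by ring
    rw [e, cr_sub_right _ (v s.1 - bs u z.1), cr_smul_right]
    field_simp
  have hsub : chi u ⁻¹' {y : ℂ | 0 ≤ ts v s y u ∧ ts v s y u * ‖u‖ < T ∧
      |cr u (p - y)| < δ * ‖u‖} ⊆
      {z : ℝ × ℝ | |cr u p - z.1| < δ * ‖u‖ ∧ ts v s (bs u z.1) u - T / ‖u‖ < z.2 ∧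
        z.2 ≤ ts v s (bs u z.1) u} := by
    rintro z ⟨h1, h2, h3⟩
    rw [hts] at h1 h2
    rw [cr_sub_right, cr_chi hu0] at h3
    refine ⟨h3, ?_, by linarith⟩
    have : ts v s (bs u z.1) u - z.2 < T / ‖u‖ := by
      rw [lt_div_iff₀ hnu]; exact h2
    linarith
  refine (measure_mono hsub).trans ((area_box hc _ _ _ (by positivity)).trans ?_)
  apply ENNReal.ofReal_le_ofReal
  apply le_of_eq
  field_simp

/-- Area of the points of a disc on lines close to `p`. -/
theorem area_disc (p : ℂ) {δ R : ℝ} (hδ : 0 ≤ δ) {u : ℂ} (hu0 : u ≠ 0) :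
    volume {y : ℂ | ‖y‖ < R ∧ |cr u (p - y)| < δ * ‖u‖} ≤ ENNReal.ofReal (4 * δ * R) := by
  have hnu : 0 < ‖u‖ := norm_pos_iff.2 hu0
  rw [← (mp_chi hu0).measure_preimage_emb (chi_emb hu0)]
  have hsub : chi u ⁻¹' {y : ℂ | ‖y‖ < R ∧ |cr u (p - y)| < δ * ‖u‖} ⊆
      {z : ℝ × ℝ | |cr u p - z.1| < δ * ‖u‖ ∧ R / ‖u‖ - 2 * R / ‖u‖ < z.2 ∧
        z.2 ≤ R / ‖u‖} := by
    rintro z ⟨h1, h3⟩
    rw [cr_sub_right, cr_chi hu0] at h3
    have h4 : (conj u * chi u z).re = z.2 * ‖u‖ ^ 2 := by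
      rw [← normsq_eq]
      simp only [chi, bs, mul_re, mul_im, add_re, add_im, conj_re, conj_im, ofReal_re, ofReal_im,
        I_re, I_im]
      ring
    have h5 : |z.2| * ‖u‖ ^ 2 ≤ ‖u‖ * ‖chi u z‖ := by
      have h6 := Complex.abs_re_le_norm (conj u * chi u z)
      rw [h4, abs_mul, abs_of_nonneg (sq_nonneg ‖u‖), norm_mul, RCLike.norm_conj] at h6
      exact h6
    have h7 : |z.2| * ‖u‖ < R := by
      have : |z.2| * ‖u‖ * ‖u‖ < R * ‖u‖ := by nlinarith
      exact lt_of_mul_lt_mul_right this hnu.le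
    have h8 : |z.2| < R / ‖u‖ := by rw [lt_div_iff₀ hnu]; exact h7
    rw [abs_lt] at h8
    refine ⟨h3, ?_, h8.2.le⟩
    have e : R / ‖u‖ - 2 * R / ‖u‖ = -(R / ‖u‖) := by ring
    rw [e]; exact h8.1
  refine (measure_mono hsub).trans ((area_box (c := fun _ => R / ‖u‖) measurable_const _ _ _
    (by positivity)).trans ?_)
  apply ENNReal.ofReal_le_ofReal
  apply le_of_eq
  field_simp
  ring

theorem vol_of_fibre {S : Set (ℂ × ℂ)} (hS : MeasurableSet S) (hb : ∀ q ∈ S, ‖q.2‖ < 1) {c : ℝ≥0∞}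
    (h : ∀ u : ℂ, u ≠ 0 → volume {y : ℂ | (y, u) ∈ S} ≤ c) :
    volume S ≤ c * volume (Metric.ball (0 : ℂ) 1) := by
  rw [Measure.volume_eq_prod, Measure.prod_apply_symm hS]
  have h0 : ∀ᵐ u : ℂ, u ≠ 0 := by
    rw [ae_iff]
    have : {a : ℂ | ¬ a ≠ 0} = {0} := by ext a; simp
    rw [this]; exact measure_singleton _
  have h1 : ∀ᵐ u : ℂ, volume ((fun y => (y, u)) ⁻¹' S) ≤
      (Metric.ball (0 : ℂ) 1).indicator (fun _ => c) u := by
    filter_upwards [h0] with u hu
    by_cases hb1 : u ∈ Metric.ball (0 : ℂ) 1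
    · rw [indicator_of_mem hb1]
      exact h u hu
    · have : (fun y => (y, u)) ⁻¹' S = ∅ := by
        ext y
        simp only [mem_preimage, mem_empty_iff_false, iff_false]
        intro hy
        exact hb1 (mem_ball_zero_iff.2 (hb _ hy))
      rw [this, measure_empty]
      exact zero_le
  refine (lintegral_mono_ae h1).trans ?_
  rw [lintegral_indicator Metric.isOpen_ball.measurableSet, lintegral_const,
    Measure.restrict_apply_univ]

/-- (C) volume of the phase points whose orbit comes within the distance `T` to a line at distance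
`< δ` from a vertex. -/
theorem volC (hn : 3 ≤ n) (hv : ConvexIndependent ℝ v) : ∃ C : ℝ, 0 < C ∧
    ∀ δ T : ℝ, 0 ≤ δ → 0 ≤ T → volume {p : ℂ × ℂ | p ∈ DD v ∧ ∃ g, Rz v g p.1 p.2 ∧
      tau v g p.1 p.2 * ‖p.2‖ < T ∧ ∃ l, |cr (Lo v g p.2) (v l - Fo v g p.1)| < δ * ‖p.2‖} ≤
      ENNReal.ofReal (C * δ * (T + 1)) := by
  obtain ⟨R, hR⟩ := (isBounded_PP (v := v)).subset_ball (0 : ℂ)
  set R1 := max R 1 with hR1
  have hR1p : 1 ≤ R1 := le_max_right _ _
  have hPR : ∀ x ∈ PP v, ‖x‖ < R1 := fun x hx =>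
    (mem_ball_zero_iff.1 (hR hx)).trans_le (le_max_left _ _)
  set B := (volume (Metric.ball (0 : ℂ) 1)).toReal with hB
  have hBt : volume (Metric.ball (0 : ℂ) 1) = ENNReal.ofReal B :=
    (ENNReal.ofReal_toReal measure_ball_lt_top.ne).symm
  have hB0 : 0 ≤ B := ENNReal.toReal_nonneg
  refine ⟨(n * (4 * R1) + (n * n) * n * 2) * B + 1, by positivity, ?_⟩
  intro δ T hδ hT
  have hsub : {p : ℂ × ℂ | p ∈ DD v ∧ ∃ g, Rz v g p.1 p.2 ∧
      tau v g p.1 p.2 * ‖p.2‖ < T ∧ ∃ l, |cr (Lo v g p.2) (v l - Fo v g p.1)| < δ * ‖p.2‖} ⊆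
      SS v δ T [] ∪ ⋃ c : (Fin n × Fin n) × List (Fin n × Fin n), SS v δ T (c.1 :: c.2) := by
    rintro p ⟨hp, g, hg⟩
    cases g with
    | nil => exact Or.inl ⟨hp, hg⟩
    | cons s g => exact Or.inr (mem_iUnion.2 ⟨(s, g), hp, hg⟩)
  refine (measure_mono hsub).trans ((measure_union_le _ _).trans ?_)
  -- the first chord
  have h1 : volume (SS v δ T []) ≤ ENNReal.ofReal (n * (4 * δ * R1) * B) := by
    have hs1 : SS v δ T [] ⊆ ⋃ l, {p : ℂ × ℂ | ‖p.2‖ < 1 ∧ ‖p.1‖ < R1 ∧
        |cr p.2 (v l - p.1)| < δ * ‖p.2‖} := by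
      rintro p ⟨hp, _, _, l, hl⟩
      exact mem_iUnion.2 ⟨l, (mem_DD.1 hp).2, hPR _ (mem_DD.1 hp).1, hl⟩
    refine (measure_mono hs1).trans ((measure_iUnion_le _).trans ?_)
    have hl : ∀ l, volume {p : ℂ × ℂ | ‖p.2‖ < 1 ∧ ‖p.1‖ < R1 ∧
        |cr p.2 (v l - p.1)| < δ * ‖p.2‖} ≤ ENNReal.ofReal (4 * δ * R1) * ENNReal.ofReal B := by
      intro l
      rw [← hBt]
      refine vol_of_fibre ?_ (fun q hq => hq.1) ?_
      · exact ((isOpen_lt continuous_snd.norm continuous_const).inter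
          ((isOpen_lt continuous_fst.norm continuous_const).inter
          (isOpen_lt (continuous_crf continuous_snd (continuous_const.sub continuous_fst)).abs
            (continuous_const.mul continuous_snd.norm)))).measurableSet
      · intro u hu
        refine (measure_mono ?_).trans (area_disc (v l) hδ hu)
        rintro y ⟨_, h2, h3⟩
        exact ⟨h2, h3⟩
    rw [tsum_fintype]
    refine (Finset.sum_le_sum (fun l _ => hl l)).trans ?_
    rw [Finset.sum_const, Finset.card_univ, Fintype.card_fin, nsmul_eq_mul,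
      ← ENNReal.ofReal_mul (by positivity), ← ENNReal.ofReal_natCast,
      ← ENNReal.ofReal_mul (by positivity)]
    apply ENNReal.ofReal_le_ofReal
    apply le_of_eq; ring
  -- all other chords
  have h2 : volume (⋃ c : (Fin n × Fin n) × List (Fin n × Fin n), SS v δ T (c.1 :: c.2)) ≤
      ENNReal.ofReal ((n * n) * n * (2 * δ * T) * B) := by
    have e1 : ∀ c : (Fin n × Fin n) × List (Fin n × Fin n),
        volume (SS v δ T (c.1 :: c.2)) = volume (MG v (c.1 :: c.2) '' SS v δ T (c.1 :: c.2)) := by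
      intro c
      rcases (SS v δ T (c.1 :: c.2)).eq_empty_or_nonempty with h | ⟨p, hp⟩
      · rw [h, image_empty]
      · exact (vol_image hv hp.2.1.val _).symm
    have hmeas : ∀ c : (Fin n × Fin n) × List (Fin n × Fin n),
        MeasurableSet (MG v (c.1 :: c.2) '' SS v δ T (c.1 :: c.2)) := by
      intro c
      rcases (SS v δ T (c.1 :: c.2)).eq_empty_or_nonempty with h | ⟨p, hp⟩
      · rw [h, image_empty]; exact MeasurableSet.empty
      · exact (MG_emb hv hp.2.1.val).measurableSet_image.2 (measurableSet_SS δ T _)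
    have hdisj : Pairwise (Function.onFun Disjoint
        (fun c : (Fin n × Fin n) × List (Fin n × Fin n) =>
          MG v (c.1 :: c.2) '' SS v δ T (c.1 :: c.2))) := by
      intro c c' hcc
      rw [Function.onFun, Set.disjoint_left]
      rintro q ⟨p, hp, hpq⟩ ⟨p', hp', hpq'⟩
      apply hcc
      have hw := word_unique hn hv (c.1 :: c.2) (c'.1 :: c'.2) p.1 p'.1 p.2 p'.2
        (mem_DD.1 hp.1).1 (mem_DD.1 hp'.1).1 hp.2.1 hp'.2.1
        ((congrArg Prod.fst hpq).trans (congrArg Prod.fst hpq').symm)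
        ((congrArg Prod.snd hpq).trans (congrArg Prod.snd hpq').symm)
      rw [List.cons.injEq] at hw
      exact Prod.ext hw.1 hw.2
    refine (measure_iUnion_le _).trans ?_
    rw [tsum_congr e1, ← measure_iUnion hdisj hmeas]
    have hs2 : (⋃ c : (Fin n × Fin n) × List (Fin n × Fin n),
        MG v (c.1 :: c.2) '' SS v δ T (c.1 :: c.2)) ⊆ ⋃ s, ⋃ l, VT v δ T s l :=
      iUnion_subset (fun c => image_sub hv c.1 c.2)
    refine (measure_mono hs2).trans ((measure_iUnion_le _).trans ?_)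
    have hl : ∀ s l, volume (VT v δ T s l) ≤ ENNReal.ofReal (2 * δ * T) * ENNReal.ofReal B := by
      intro s l
      rw [← hBt]
      refine vol_of_fibre (measurableSet_VT δ T s l) (fun q hq => hq.1) ?_
      intro u hu
      by_cases hu2 : 0 < cr (v s.2 - v s.1) u
      · refine (measure_mono ?_).trans (area_flux s (v l) hδ hu2)
        rintro y ⟨_, _, h3, h4, h5⟩
        exact ⟨h3, h4, h5⟩
      · have : {y : ℂ | (y, u) ∈ VT v δ T s l} = ∅ := by
          ext y
          simp only [mem_setOf_eq, mem_empty_iff_false, iff_false]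
          exact fun h => hu2 h.2.1
        rw [this, measure_empty]; exact zero_le
    rw [tsum_fintype]
    have hs3 : ∀ s : Fin n × Fin n, volume (⋃ l, VT v δ T s l) ≤
        ENNReal.ofReal (n * (2 * δ * T) * B) := by
      intro s
      refine (measure_iUnion_le _).trans ?_
      rw [tsum_fintype]
      refine (Finset.sum_le_sum (fun l _ => hl s l)).trans ?_
      rw [Finset.sum_const, Finset.card_univ, Fintype.card_fin, nsmul_eq_mul,
        ← ENNReal.ofReal_mul (by positivity), ← ENNReal.ofReal_natCast,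
        ← ENNReal.ofReal_mul (by positivity)]
      apply ENNReal.ofReal_le_ofReal
      apply le_of_eq; ring
    refine (Finset.sum_le_sum (fun s _ => hs3 s)).trans ?_
    rw [Finset.sum_const, Finset.card_univ, Fintype.card_prod, Fintype.card_fin, nsmul_eq_mul,
      Nat.cast_mul, ← ENNReal.ofReal_natCast, ← ENNReal.ofReal_mul (by positivity),
      ← ENNReal.ofReal_mul (by positivity)]
    apply ENNReal.ofReal_le_ofReal
    apply le_of_eq; ring
  refine (add_le_add h1 h2).trans ?_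
  rw [← ENNReal.ofReal_add (by positivity) (by positivity)]
  apply ENNReal.ofReal_le_ofReal
  have p1 : 0 ≤ (n : ℝ) * (4 * R1) * B * δ * T := by positivity
  have p2 : 0 ≤ ((n : ℝ) * n) * n * 2 * B * δ := by positivity
  have p3 : 0 ≤ δ * (T + 1) := by positivity
  nlinarith

end Pool.Agent.Lib.BilF.Vol30
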