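import Pool.Agent.Lib.MP_7bc51d_an.Code
import Pool.Agent.Lib.MP_7bc51d_an.Words

/-!
# The volume of the phase points whose orbit comes close to a vertex
-/

set_option autoImplicit false

namespace Pool.Agent.Lib.BilF.Vol41

open Complex MeasureTheory Set Filter
open scoped ComplexConjugate Topology ENNReal
open Pool.Agent.Lib.Bil

variable {n : ℕ} {v : Fin n → ℂ}

/-- the anisotropic length of `z` in direction `w` -/
noncomputable def an (a b : ℝ) (w z : ℂ) : ℝ := a * |dt w z| + b * |cr w z|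

theorem cont_an (a b : ℝ) : Continuous (fun p : ℂ × ℂ => an a b p.1 p.2) := by
  unfold an dt cr
  fun_prop

/-- targets: displacement to some vertex is short -/
def Tg (v : Fin n → ℂ) (a b r : ℝ) : Set (ℂ × ℂ) :=
  {q | ‖q.2‖ < 1 ∧ ∃ l, an a b q.2 (v l - q.1) < r * ‖q.2‖}

theorem isOpen_Tg (a b r : ℝ) : IsOpen (Tg v a b r) := by
  have h1 : IsOpen {q : ℂ × ℂ | ‖q.2‖ < 1} := isOpen_lt (by fun_prop) continuous_const
  have h2 : ∀ l, IsOpen {q : ℂ × ℂ | an a b q.2 (v l - q.1) < r * ‖q.2‖} := by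
    intro l
    refine isOpen_lt ?_ (by fun_prop)
    exact (cont_an a b).comp (by fun_prop : Continuous fun q : ℂ × ℂ => (q.2, v l - q.1))
  have : Tg v a b r = {q : ℂ × ℂ | ‖q.2‖ < 1} ∩
      ⋃ l, {q : ℂ × ℂ | an a b q.2 (v l - q.1) < r * ‖q.2‖} := by
    ext q
    simp only [Tg, mem_ofPred_eq, mem_inter_iff, mem_iUnion]
  rw [this]
  exact h1.inter (isOpen_iUnion h2)

/-- the folding of the phase space along a word -/
noncomputable def Ph (v : Fin n → ℂ) (g : List (Fin n × Fin n)) (p : ℂ × ℂ) : ℂ × ℂ :=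
  (Fo v g p.1, Lo v g p.2)

theorem continuous_Ph (g : List (Fin n × Fin n)) : Continuous (Ph v g) :=
  ((continuous_Fo g).comp continuous_fst).prodMk ((continuous_Lo g).comp continuous_snd)

theorem mp_Fo (hv : ConvexIndependent ℝ v) {g : List (Fin n × Fin n)} (hg : Val v g) :
    MeasurePreserving (Fo v g) volume volume := by
  induction g with
  | nil => exact MeasurePreserving.id _
  | cons s g ih => exact (mp_RR (v_sub_ne hv hg.head.1)).comp (ih hg.tail)

theorem mp_Ph (hv : ConvexIndependent ℝ v) {g : List (Fin n × Fin n)} (hg : Val v g) :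
    MeasurePreserving (Ph v g) volume volume := by
  have := (mp_Fo hv hg).prod (mp_Lo hv hg)
  exact this

theorem Lo_inj (hv : ConvexIndependent ℝ v) {g : List (Fin n × Fin n)} (hg : Val v g) {w w' : ℂ}
    (h : Lo v g w = Lo v g w') : w = w' := by
  have h1 : Lo v g (w - w') = 0 := by rw [Lo_sub, h, sub_self]
  have h2 := norm_Lo hv hg (w - w')
  rw [h1, norm_zero] at h2
  exact sub_eq_zero.1 (norm_eq_zero.1 h2.symm)

theorem Fo_inj (hv : ConvexIndependent ℝ v) {g : List (Fin n × Fin n)} (hg : Val v g) {x x' : ℂ}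
    (h : Fo v g x = Fo v g x') : x = x' := by
  rw [← Un_Fo hv hg x, h, Un_Fo hv hg]

theorem Ph_emb (hv : ConvexIndependent ℝ v) {g : List (Fin n × Fin n)} (hg : Val v g) :
    MeasurableEmbedding (Ph v g) := by
  refine (continuous_Ph g).measurableEmbedding ?_
  intro p p' h
  have h1 : Fo v g p.1 = Fo v g p'.1 := congrArg Prod.fst h
  have h2 : Lo v g p.2 = Lo v g p'.2 := congrArg Prod.snd h
  exact Prod.ext (Fo_inj hv hg h1) (Lo_inj hv hg h2)

/-- A line inside the polygon: it enters through `s'`, leaves through `s`; a point before the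
entrance is on the inner side of the exit side. -/
theorem inner_exit {s s' : Fin n × Fin n} (hs : IsSide v s.1 s.2) {w x : ℂ}
    (h1 : cr w (v s'.2) < cr w x) (h2 : cr w x < cr w (v s'.1))
    (hx : cr (v s'.2 - v s'.1) (x - v s'.1) < 0)
    (h3 : cr w (v s.1) < cr w x) (h4 : cr w x < cr w (v s.2)) :
    0 < cr (v s.2 - v s.1) (x - v s.1) := by
  obtain ⟨t, t0, t1, te, tw⟩ := side_line h1 h2
  set b := v s'.1 + (t : ℂ) * (v s'.2 - v s'.1) with hb
  have hw : w ≠ 0 := by
    rintro rfl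
    rw [cr_zero_left, cr_zero_left] at h1
    exact lt_irrefl _ h1
  have hcr : cr w (b - x) = 0 := by rw [cr_sub_right, te, sub_self]
  obtain ⟨r, hr⟩ := (cr_eq_zero_iff hw).1 hcr
  have hbK : b ∈ KK v := side_point_mem_KK t0.le t1.le
  have k1 : 0 ≤ cr (v s.2 - v s.1) (b - v s.1) := hs.cr_nonneg hbK
  -- the entrance is later than x
  have e1 : x - v s'.1 = (t : ℂ) * (v s'.2 - v s'.1) - (r : ℂ) * w := by
    rw [← hr, hb]; ring
  rw [e1, cr_sub_right, cr_smul_right, cr_smul_right, cr_self, mul_zero, zero_sub] at hx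
  have hr0 : 0 < r := by
    by_contra hcon
    push Not at hcon
    nlinarith
  -- the line leaves through s
  have h5 : cr (v s.2 - v s.1) w < 0 := by
    rw [cr_swap, cr_sub_right]; linarith
  have e2 : x - v s.1 = (b - v s.1) - (r : ℂ) * w := by
    rw [← hr]; ring
  rw [e2, cr_sub_right, cr_smul_right]
  nlinarith

theorem rl_cr_lt (hv : ConvexIndependent ℝ v) {s : Fin n × Fin n} (hs : IsSide v s.1 s.2)
    {w x : ℂ} (h3 : cr w (v s.1) < cr w x) (h4 : cr w x < cr w (v s.2)) :
    cr (rl (v s.2 - v s.1) w) (v s.2) < cr (rl (v s.2 - v s.1) w) (RR v s.1 s.2 x) ∧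
      cr (rl (v s.2 - v s.1) w) (RR v s.1 s.2 x) < cr (rl (v s.2 - v s.1) w) (v s.1) := by
  have hne := v_sub_ne hv hs.1
  have e1 := rfh_eq (v := v) s hne w x
  have e2 := rfh_eq (v := v) s hne w (v s.2)
  rw [RR_right v hne] at e2
  unfold rfh at e1 e2
  constructor
  · rw [e1, e2]; linarith
  · rw [e1]; linarith

/-- After at least one crossing the folded starting point is outside of the polygon. -/
theorem outside (hv : ConvexIndependent ℝ v) {x w : ℂ} (hx : x ∈ PP v) :
    ∀ (g : List (Fin n × Fin n)) (s : Fin n × Fin n), Rz v (s :: g) x w →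
      cr (v s.2 - v s.1) (Fo v (s :: g) x - v s.1) < 0 := by
  intro g
  induction g with
  | nil =>
    intro s h
    obtain ⟨_, hs, _, _⟩ := h
    have h1 := hs.cr_pos hv hx
    change cr (v s.2 - v s.1) (RR v s.1 s.2 x - v s.1) < 0
    have hne := v_sub_ne hv hs.1
    have e : RR v s.1 s.2 x - v s.1 = rl (v s.2 - v s.1) (x - v s.1) := by
      unfold RR; ring
    rw [e]
    have h2 := cr_rl hne (v s.2 - v s.1) (x - v s.1)
    rw [rl_self hne] at h2
    rw [h2]
    linarith
  | cons s' g ih =>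
    intro s h
    obtain ⟨h0, hs, h3, h4⟩ := h
    have hne := v_sub_ne hv hs.1
    have h5 := ih s' h0
    obtain ⟨h00, hs', h3', h4'⟩ := h0
    obtain ⟨k1, k2⟩ := rl_cr_lt hv hs' h3' h4'
    have h6 := inner_exit hs (s' := s') (w := Lo v (s' :: g) w) (x := Fo v (s' :: g) x) k1 k2 h5 h3 h4
    change cr (v s.2 - v s.1) (RR v s.1 s.2 (Fo v (s' :: g) x) - v s.1) < 0
    have e : RR v s.1 s.2 (Fo v (s' :: g) x) - v s.1 =
        rl (v s.2 - v s.1) (Fo v (s' :: g) x - v s.1) := by
      unfold RR; ring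
    rw [e]
    have h2 := cr_rl hne (v s.2 - v s.1) (Fo v (s' :: g) x - v s.1)
    rw [rl_self hne] at h2
    rw [h2]
    linarith

theorem not_PP (hv : ConvexIndependent ℝ v) {x w : ℂ} (hx : x ∈ PP v)
    {g : List (Fin n × Fin n)} {s : Fin n × Fin n} (h : Rz v (s :: g) x w) :
    Fo v (s :: g) x ∉ PP v := by
  intro hm
  have h1 := outside hv hx g s h
  have h2 := h.2.1.cr_pos hv hm
  linarith

/-- The word is determined by its image. -/
theorem word_unique (hn : 3 ≤ n) (hv : ConvexIndependent ℝ v) :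
    ∀ (g g' : List (Fin n × Fin n)) (x w x' w' : ℂ), x ∈ PP v → x' ∈ PP v → Rz v g x w →
      Rz v g' x' w' → Fo v g x = Fo v g' x' → Lo v g w = Lo v g' w' → g = g' := by
  intro g
  induction g with
  | nil =>
    intro g' x w x' w' hx hx' h h' e1 e2
    match g', h' with
    | [], _ => rfl
    | s' :: g', h' =>
      exfalso
      apply not_PP hv hx' h'
      rw [← e1]
      exact hx
  | cons s g ih =>
    intro g' x w x' w' hx hx' h h' e1 e2
    match g', h' with
    | [], h' =>
      exfalso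
      apply not_PP hv hx h
      rw [e1]
      exact hx'
    | s' :: g', h' =>
      obtain ⟨h0, hs, h3, h4⟩ := h
      obtain ⟨h0', hs', h3', h4'⟩ := h'
      obtain ⟨k1, k2⟩ := rl_cr_lt hv hs h3 h4
      obtain ⟨k1', k2'⟩ := rl_cr_lt hv hs' h3' h4'
      have f1 : RR v s.1 s.2 (Fo v g x) = RR v s'.1 s'.2 (Fo v g' x') := e1
      have f2 : rl (v s.2 - v s.1) (Lo v g w) = rl (v s'.2 - v s'.1) (Lo v g' w') := e2
      rw [← f1, ← f2] at k1' k2'
      have hss : s = s' := enter_unique hn hv hs hs' k1 k2 k1' k2'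
      subst hss
      have hne := v_sub_ne hv hs.1
      have g1 : Fo v g x = Fo v g' x' := by
        rw [← RR_RR v hne (Fo v g x), f1, RR_RR v hne]
      have g2 : Lo v g w = Lo v g' w' := by
        rw [← rl_rl hne (Lo v g w), f2, rl_rl hne]
      rw [ih g' x w x' w' hx hx' h0 h0' g1 g2]

/-- phase points whose forward orbit along the word `g` gets close to a vertex -/
def Ag (v : Fin n → ℂ) (a b r : ℝ) (g : List (Fin n × Fin n)) : Set (ℂ × ℂ) :=
  {p | p ∈ DD v ∧ Rz v g p.1 p.2 ∧ ∃ l, an a b (Lo v g p.2) (v l - Fo v g p.1) < r * ‖p.2‖}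

theorem meas_Ag (a b r : ℝ) (g : List (Fin n × Fin n)) : MeasurableSet (Ag v a b r g) := by
  have h2 : ∀ l, IsOpen {p : ℂ × ℂ | an a b (Lo v g p.2) (v l - Fo v g p.1) < r * ‖p.2‖} := by
    intro l
    refine isOpen_lt ?_ (by fun_prop)
    exact (cont_an a b).comp (((continuous_Lo g).comp continuous_snd).prodMk
      (continuous_const.sub ((continuous_Fo g).comp continuous_fst)))
  have : Ag v a b r g = DD v ∩ ({p : ℂ × ℂ | Rz v g p.1 p.2} ∩
      ⋃ l, {p : ℂ × ℂ | an a b (Lo v g p.2) (v l - Fo v g p.1) < r * ‖p.2‖}) := by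
    ext q
    simp only [Ag, mem_ofPred_eq, mem_inter_iff, mem_iUnion]
  rw [this]
  exact measurableSet_DD.inter ((isOpen_Rz g).inter (isOpen_iUnion h2)).measurableSet

theorem image_sub (hv : ConvexIndependent ℝ v) (a b r : ℝ) (g : List (Fin n × Fin n)) :
    Ph v g '' Ag v a b r g ⊆ Tg v a b r := by
  rintro _ ⟨p, ⟨hD, hR, l, hl⟩, rfl⟩
  have h1 := norm_Lo hv hR.val p.2
  refine ⟨?_, l, ?_⟩
  · change ‖Lo v g p.2‖ < 1
    rw [h1]
    exact (mem_DD.1 hD).2
  · change an a b (Lo v g p.2) (v l - Fo v g p.1) < r * ‖Lo v g p.2‖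
    rw [h1]
    exact hl

theorem vol_Ag (hv : ConvexIndependent ℝ v) (a b r : ℝ) (g : List (Fin n × Fin n)) :
    volume (Ag v a b r g) = volume (Ph v g '' Ag v a b r g) := by
  by_cases hg : Val v g
  · have h2 := (mp_Ph hv hg).measure_preimage_emb (Ph_emb hv hg) (Ph v g '' Ag v a b r g)
    rw [preimage_image_eq _ (Ph_emb hv hg).injective] at h2
    exact h2
  · have : Ag v a b r g = ∅ := by
      rw [eq_empty_iff_forall_notMem]
      rintro p ⟨_, hR, _⟩
      exact hg hR.val
    rw [this, image_empty]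

theorem disj_image (hn : 3 ≤ n) (hv : ConvexIndependent ℝ v) (a b r : ℝ) :
    Pairwise (Function.onFun Disjoint fun g : List (Fin n × Fin n) => Ph v g '' Ag v a b r g) := by
  intro g g' hne
  rw [Function.onFun, Set.disjoint_left]
  rintro _ ⟨p, ⟨hD, hR, _⟩, rfl⟩ ⟨p', ⟨hD', hR', _⟩, he⟩
  apply hne
  exact word_unique hn hv g g' p.1 p.2 p'.1 p'.2 (mem_DD.1 hD).1 (mem_DD.1 hD').1 hR hR'
    (congrArg Prod.fst he).symm (congrArg Prod.snd he).symm

theorem sum_le (hn : 3 ≤ n) (hv : ConvexIndependent ℝ v) (a b r : ℝ) :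
    volume (⋃ g, Ag v a b r g) ≤ volume (Tg v a b r) := by
  refine (measure_iUnion_le _).trans ?_
  calc ∑' g, volume (Ag v a b r g) = ∑' g, volume (Ph v g '' Ag v a b r g) := by
        refine tsum_congr fun g => vol_Ag hv a b r g
    _ = volume (⋃ g, Ph v g '' Ag v a b r g) := by
        rw [measure_iUnion (disj_image hn hv a b r)]
        intro g
        by_cases hg : Val v g
        · exact (Ph_emb hv hg).measurableSet_image.2 (meas_Ag a b r g)
        · have : Ag v a b r g = ∅ := by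
            rw [eq_empty_iff_forall_notMem]
            rintro p ⟨_, hR, _⟩
            exact hg hR.val
          rw [this, image_empty]
          exact MeasurableSet.empty
    _ ≤ volume (Tg v a b r) := by
        apply measure_mono
        exact iUnion_subset fun g => image_sub hv a b r g

theorem vol_box {w : ℂ} (hw : w ≠ 0) {a b r : ℝ} (ha : 0 < a) (hb : 0 < b) (hr : 0 < r) (c : ℂ) :
    volume {x : ℂ | an a b w (c - x) < r * ‖w‖} ≤ ENNReal.ofReal (4 * r ^ 2 / (a * b)) := by
  have hnw : 0 < ‖w‖ := norm_pos_iff.2 hw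
  have hmp : MeasurePreserving (fun x : ℂ => c - x) volume volume :=
    Measure.measurePreserving_sub_left volume c
  have hmeas : MeasurableSet {z : ℂ | an a b w z < r * ‖w‖} := by
    refine (isOpen_lt ?_ continuous_const).measurableSet
    exact (cont_an a b).comp (by fun_prop : Continuous fun z : ℂ => (w, z))
  have h1 : volume {x : ℂ | an a b w (c - x) < r * ‖w‖} = volume {z : ℂ | an a b w z < r * ‖w‖} :=
    hmp.measure_preimage hmeas.nullMeasurableSet
  rw [h1, ← (mp_chi hw).measure_preimage hmeas.nullMeasurableSet]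
  have h2 : chi w ⁻¹' {z : ℂ | an a b w z < r * ‖w‖} ⊆
      Ioo (-(r * ‖w‖ / b)) (r * ‖w‖ / b) ×ˢ Ioo (-(r / (a * ‖w‖))) (r / (a * ‖w‖)) := by
    intro z hz
    rw [mem_preimage, mem_ofPred_eq, an, cr_chi hw] at hz
    have hdt : dt w (chi w z) = z.2 * ‖w‖ ^ 2 := by
      have e1 : dt w (chi w z) = dt w (bs w z.1) + z.2 * dt w w := by
        unfold chi
        simp only [dt, add_re, add_im, mul_re, mul_im, ofReal_re, ofReal_im]
        ring
      have e2 : dt w (bs w z.1) = 0 := by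
        unfold bs
        simp only [dt, mul_re, mul_im, ofReal_re, ofReal_im, I_re, I_im]
        ring
      have e3 : dt w w = ‖w‖ ^ 2 := by
        rw [← normsq_eq]
        simp only [dt]
        ring
      rw [e1, e2, e3, zero_add]
    rw [hdt, abs_mul, abs_of_nonneg (sq_nonneg ‖w‖)] at hz
    have k1 : 0 ≤ a * (|z.2| * ‖w‖ ^ 2) := by positivity
    have k2 : 0 ≤ b * |z.1| := by positivity
    constructor
    · rw [mem_Ioo, ← abs_lt, lt_div_iff₀ hb]
      linarith
    · rw [mem_Ioo, ← abs_lt, lt_div_iff₀ (by positivity)]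
      have : |z.2| * (a * ‖w‖) * ‖w‖ < r * ‖w‖ := by nlinarith
      exact lt_of_mul_lt_mul_right this hnw.le
  refine (measure_mono h2).trans ?_
  rw [Measure.volume_eq_prod, Measure.prod_prod, Real.volume_Ioo, Real.volume_Ioo,
    ← ENNReal.ofReal_mul (by
      have : 0 < r * ‖w‖ / b := by positivity
      linarith)]
  apply ENNReal.ofReal_le_ofReal
  apply le_of_eq
  field_simp
  ring

theorem vol_Tg {a b r : ℝ} (ha : 0 < a) (hb : 0 < b) (hr : 0 < r) :
    volume (Tg v a b r) ≤ ENNReal.ofReal (4 * Real.pi * n * (r ^ 2 / (a * b))) := by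
  have hsub : Tg v a b r = ⋃ l, {q : ℂ × ℂ | ‖q.2‖ < 1 ∧ an a b q.2 (v l - q.1) < r * ‖q.2‖} := by
    ext q
    simp only [Tg, mem_ofPred_eq, mem_iUnion, exists_and_left]
  have hl : ∀ l, volume {q : ℂ × ℂ | ‖q.2‖ < 1 ∧ an a b q.2 (v l - q.1) < r * ‖q.2‖} ≤
      ENNReal.ofReal (4 * Real.pi * (r ^ 2 / (a * b))) := by
    intro l
    have hmeas : MeasurableSet {q : ℂ × ℂ | ‖q.2‖ < 1 ∧ an a b q.2 (v l - q.1) < r * ‖q.2‖} := by
      have c1 : IsOpen {q : ℂ × ℂ | ‖q.2‖ < 1} := isOpen_lt (by fun_prop) continuous_const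
      have c2 : IsOpen {q : ℂ × ℂ | an a b q.2 (v l - q.1) < r * ‖q.2‖} := by
        refine isOpen_lt ?_ (by fun_prop)
        exact (cont_an a b).comp (by fun_prop : Continuous fun q : ℂ × ℂ => (q.2, v l - q.1))
      exact (c1.inter c2).measurableSet
    rw [Measure.volume_eq_prod, Measure.prod_apply_symm hmeas]
    have h0 : ∀ᵐ w : ℂ, w ≠ 0 := by
      rw [ae_iff]
      simp
    calc ∫⁻ w : ℂ, volume ((fun x => (x, w)) ⁻¹'
          {q : ℂ × ℂ | ‖q.2‖ < 1 ∧ an a b q.2 (v l - q.1) < r * ‖q.2‖})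
        ≤ ∫⁻ w : ℂ, (Metric.ball (0 : ℂ) 1).indicator
            (fun _ => ENNReal.ofReal (4 * r ^ 2 / (a * b))) w := by
          apply lintegral_mono_ae
          filter_upwards [h0] with w hw
          by_cases hw1 : ‖w‖ < 1
          · rw [indicator_of_mem (mem_ball_zero_iff.2 hw1)]
            refine (measure_mono ?_).trans (vol_box hw ha hb hr (v l))
            intro x hx
            exact hx.2
          · rw [indicator_of_notMem (fun h => hw1 (mem_ball_zero_iff.1 h))]
            have : (fun x => (x, w)) ⁻¹'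
                {q : ℂ × ℂ | ‖q.2‖ < 1 ∧ an a b q.2 (v l - q.1) < r * ‖q.2‖} = ∅ := by
              rw [eq_empty_iff_forall_notMem]
              intro x hx
              exact hw1 hx.1
            rw [this, measure_empty]
      _ = ENNReal.ofReal (4 * r ^ 2 / (a * b)) * volume (Metric.ball (0 : ℂ) 1) := by
          rw [lintegral_indicator measurableSet_ball, setLIntegral_const]
      _ = ENNReal.ofReal (4 * Real.pi * (r ^ 2 / (a * b))) := by
          rw [Complex.volume_ball]
          simp only [ENNReal.ofReal_one, one_pow, one_mul]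
          rw [← ENNReal.ofReal_coe_nnreal, ← ENNReal.ofReal_mul (by positivity)]
          congr 1
          rw [NNReal.coe_real_pi]
          ring
  rw [hsub]
  refine (measure_iUnion_le _).trans ?_
  rw [tsum_fintype]
  refine (Finset.sum_le_sum fun l _ => hl l).trans ?_
  rw [Finset.sum_const, Finset.card_univ, Fintype.card_fin, nsmul_eq_mul,
    ← ENNReal.ofReal_natCast, ← ENNReal.ofReal_mul (by positivity)]
  apply ENNReal.ofReal_le_ofReal
  apply le_of_eq
  ring

/-- (C) -/
theorem volC (hn : 3 ≤ n) (hv : ConvexIndependent ℝ v) {a b r : ℝ} (ha : 0 < a) (hb : 0 < b)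
    (hr : 0 < r) :
    volume {p : ℂ × ℂ | p ∈ DD v ∧ ∃ (g : List (Fin n × Fin n)) (l : Fin n), Rz v g p.1 p.2 ∧
      a * |dt (Lo v g p.2) (v l - Fo v g p.1)| + b * |cr (Lo v g p.2) (v l - Fo v g p.1)| <
        r * ‖p.2‖} ≤ ENNReal.ofReal (4 * Real.pi * n * (r ^ 2 / (a * b))) := by
  refine le_trans (measure_mono ?_) ((sum_le hn hv a b r).trans (vol_Tg ha hb hr))
  rintro p ⟨hD, g, l, hR, hl⟩
  exact mem_iUnion.2 ⟨g, hD, hR, l, hl⟩

end Pool.Agent.Lib.BilF.Vol41
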