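import Pool.Agent.Lib.MP_7bc51d_an_full.ReflX29
import Pool.Agent.Lib.MP_7bc51d_an_dense.Basic

/-!
# Rows ZEROX and SIDEX
-/

set_option autoImplicit false

namespace Pool.Agent.Lib.BilF.ZeroX29

open Complex MeasureTheory Set Filter Topology
open scoped ComplexConjugate
open Pool.Agent.Lib.Bil Pool.Agent.Lib.BilD Pool.Agent.Lib.BilD.Refl5
open Pool.Agent.Lib.BilD.Side5 Pool.Agent.Lib.BilF.ReflX29

variable {n : ℕ} {v : Fin n → ℂ}

theorem near_add {C ε : ℝ} (hC : 1 ≤ C) (hε : 0 < ε) {x y z : ℂ} (h : ‖x - z‖ < 3 * C * ε)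
    (hy : ‖x - y‖ ≤ ε) : ‖y - z‖ < 4 * C * ε := by
  have h1 : ‖y - z‖ ≤ ‖x - z‖ + ‖x - y‖ := by
    calc ‖y - z‖ = ‖(x - z) - (x - y)‖ := by congr 1; ring
      _ ≤ _ := norm_sub_le _ _
  have : ε ≤ C * ε := le_mul_of_one_le_left hε.le hC
  nlinarith

theorem uX_zero {C e0 : ℝ} (H : Geo v C e0) {G : ℂ → ℂ → ℝ} {ε : ℝ} (hε : 0 < ε)
    (hε0 : ε < e0) (hV : VZ v G (4 * C * ε)) (m : ℕ) {x : ℂ} {k : Fin n}
    (hk : ‖x - v k‖ < 3 * C * ε) : uX v G m ε x = 0 := by
  unfold uX
  rw [← integral_zero ℂ ℂ]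
  congr 1
  funext y
  by_cases hy : ε ≤ ‖x - y‖
  · rw [BilD.et_zero hε hy]; simp
  · have h1 := near_add H.C1 hε hk (not_le.1 hy).le
    have : aX v G m y = 0 := by
      unfold aX
      rw [← integral_zero ℂ ℂ]
      congr 1
      · funext w
        rw [gX_zero H hε hε0 hV h1]; simp
    rw [this, mul_zero]

theorem row : StZeroX := by
  intro n v C e0 H G _ ε hε hε0 hV
  refine ⟨fun y w k hk => gX_zero H hε hε0 hV hk, fun x w h k hk => ?_, fun m x k hk => ⟨?_, ?_⟩⟩
  · unfold dX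
    rw [← integral_zero ℂ ℝ]
    congr 1
    funext y
    by_cases hy : ε < ‖x - y‖
    · rw [fderiv_et_zero hε hy]; simp
    · rw [gX_zero H hε hε0 hV (near_add H.C1 hε hk (not_lt.1 hy)), zero_mul]
  · exact uX_zero H hε hε0 hV m hk
  · have hev : uX v G m ε =ᶠ[𝓝 x] fun _ => (0 : ℂ) := by
      have ho : IsOpen {y : ℂ | ‖y - v k‖ < 3 * C * ε} :=
        isOpen_lt (by fun_prop) continuous_const
      filter_upwards [ho.mem_nhds hk] with y hy
      exact uX_zero H hε hε0 hV m hy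
    rw [hev.fderiv_eq]
    simp

theorem side (hSmo : StSmoX) : StSideX := by
  intro n v C e0 H _ G hG ε hε hε0 hV s hs t ht m
  have he := H.edn s hs
  set x := v s.1 + (t : ℂ) * ed v s with hx
  by_cases hk : ∀ k, C * ε ≤ ‖x - v k‖
  swap
  · push Not at hk
    obtain ⟨k, hk⟩ := hk
    have h3 : ‖x - v k‖ < 3 * C * ε := by
      have : 0 < C * ε := mul_pos (by linarith [H.C1]) hε
      nlinarith
    rw [uX_zero H hε hε0 hV m h3]
    simp
  have hgd : x ∈ Gd v C ε := by
    refine ⟨fun s' hs' => ?_, hk⟩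
    have hside := mem_SD.1 hs'
    have hnn : ∀ k, 0 ≤ ds v s' (v k) := fun k =>
      div_nonneg (hside.cr_nonneg_vert k) (norm_nonneg _)
    have hx2 : x - v s'.1 = ((1 - t : ℝ) : ℂ) * (v s.1 - v s'.1) + (t : ℂ) * (v s.2 - v s'.1) := by
      rw [hx, ed]; push_cast; ring
    have : ds v s' x = (1 - t) * ds v s' (v s.1) + t * ds v s' (v s.2) := by
      unfold ds
      rw [hx2, cr_add_right, cr_smul_right, cr_smul_right]
      ring
    rw [this]
    exact add_nonneg (mul_nonneg (by linarith [ht.2]) (hnn _)) (mul_nonneg ht.1.le (hnn _))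
  have hds0 : ds v s x = 0 := by
    unfold ds
    rw [hx, add_sub_cancel_left, cr_smul_right, cr_self, mul_zero, zero_div]
  have hNr : x ∈ Nr v ε s := by
    rcases H.dic ε hε hε0 x hgd with h | ⟨s', hs', h⟩
    · have := h s hs
      rw [hds0] at this
      linarith
    · by_cases hss : s = s'
      · rw [hss]; exact h
      · have := h.2 s hs hss
        rw [hds0] at this
        linarith
  have hd : Differentiable ℝ (uX v G m ε) :=
    (hSmo n v C e0 H G hG ε hε m).1.differentiable (by norm_num)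
  refine im_zero (c := (conj (ed v s) / ed v s) ^ m) ?_ ?_ ?_
  · exact hd.differentiableAt
  · rw [norm_pow, norm_div, RCLike.norm_conj, div_self (norm_ne_zero_iff.2 he), one_pow]
  · have hcont : Continuous (fun t' : ℝ => x + (t' : ℂ) * ed v s) := by fun_prop
    have hnh : ∀ᶠ t' : ℝ in 𝓝 0, x + (t' : ℂ) * ed v s ∈ Nr v ε s := by
      apply hcont.continuousAt.eventually_mem
      apply (Nr_open ε s).mem_nhds
      simpa using hNr
    filter_upwards [hnh] with t' ht'
    have h5 := uX_refl H G hε hs ht' m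
    have h6 : Rs v s (x + (t' : ℂ) * ed v s) = x + (t' : ℂ) * ed v s := by
      rw [Rs_def, hx]
      have : v s.1 + (t : ℂ) * ed v s + (t' : ℂ) * ed v s - v s.1 =
          ((t + t' : ℝ) : ℂ) * ed v s := by push_cast; ring
      rw [this, rl_smul, rl_self he]
      push_cast; ring
    rw [h6] at h5
    exact h5

end Pool.Agent.Lib.BilF.ZeroX29
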